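import Mathlib

/-!
Pseudoline arrangements with contact points on the Moebius strip and their flips.
-/

set_option autoImplicit false

open Set Topology

namespace Pool.Agent.T2H78.Flip

/-- Two points of the plane are identified when they differ by a power of the glide reflection
`(x, y) ↦ (x + 1, -y)`. -/
def moebiusSetoid : Setoid (ℝ × ℝ) where
  r p q := ∃ m : ℤ, q.1 = p.1 + m ∧ q.2 = (-1) ^ m * p.2
  iseqv :=
    { refl := fun p => ⟨0, by simp, by simp⟩
      symm := by
        rintro p q ⟨m, h1, h2⟩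
        refine ⟨-m, by rw [h1]; push_cast; ring, ?_⟩
        rw [h2, ← mul_assoc, ← zpow_add₀ (by norm_num)]
        simp
      trans := by
        rintro p q r ⟨m, h1, h2⟩ ⟨n, h3, h4⟩
        refine ⟨n + m, by rw [h3, h1]; push_cast; ring, ?_⟩
        rw [h4, h2, ← mul_assoc, ← zpow_add₀ (by norm_num)] }

/-- The (open) Moebius strip: the quotient of the plane by the glide reflection
`(x, y) ↦ (x + 1, -y)`. It is the projective plane minus one point. -/
def Moebius : Type := Quotient moebiusSetoid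

/-- The quotient topology. -/
instance : TopologicalSpace Moebius := inferInstanceAs (TopologicalSpace (Quotient moebiusSetoid))

/-- `L` is a simple closed curve in the Moebius strip. -/
def IsSimpleClosedCurve (L : Set Moebius) : Prop :=
  ∃ γ : AddCircle (1 : ℝ) → Moebius, Continuous γ ∧ Function.Injective γ ∧ range γ = L

/-- A pseudoline: a non-separating simple closed curve in the Moebius strip. -/
def IsPseudoline (L : Set Moebius) : Prop :=
  IsSimpleClosedCurve L ∧ IsConnected Lᶜ

/-- `p` is a crossing point of the curves `A` and `B`: in some chart around `p`, with `p` at the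
origin, `A` is the first axis and `B` is the second axis. -/
def IsCrossing (A B : Set Moebius) (p : Moebius) : Prop :=
  ∃ e : OpenPartialHomeomorph Moebius (ℝ × ℝ), p ∈ e.source ∧ e p = (0, 0) ∧
    ∀ q ∈ e.source, (q ∈ A ↔ (e q).2 = 0) ∧ (q ∈ B ↔ (e q).1 = 0)

/-- `p` is a contact point of the curves `A` and `B` (they touch at `p` without crossing): in some
chart around `p`, with `p` at the origin, `A` is the first axis and `B` is the graph of the
absolute value. -/
def IsContact (A B : Set Moebius) (p : Moebius) : Prop :=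
  ∃ e : OpenPartialHomeomorph Moebius (ℝ × ℝ), p ∈ e.source ∧ e p = (0, 0) ∧
    ∀ q ∈ e.source, (q ∈ A ↔ (e q).2 = 0) ∧ (q ∈ B ↔ (e q).2 = |(e q).1|)

/-- Pseudoline arrangements (with contact points): finite sets of pseudolines, any two of which
have exactly one crossing point and otherwise only finitely many common points, all of them
contact points; no point lies on three pseudolines. -/
structure IsArrangement (Λ : Set (Set Moebius)) : Prop where
  finite : Λ.Finite
  pseudoline : ∀ A ∈ Λ, IsPseudoline A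
  crossing : ∀ A ∈ Λ, ∀ B ∈ Λ, A ≠ B → ∃! p, IsCrossing A B p
  common : ∀ A ∈ Λ, ∀ B ∈ Λ, A ≠ B →
    (A ∩ B).Finite ∧ ∀ p ∈ A ∩ B, IsCrossing A B p ∨ IsContact A B p
  simple : ∀ A ∈ Λ, ∀ B ∈ Λ, ∀ C ∈ Λ, A ≠ B → B ≠ C → A ≠ C → ∀ p, ¬ (p ∈ A ∧ p ∈ B ∧ p ∈ C)

/-- The contact points of a family of curves. -/
def contacts (Λ : Set (Set Moebius)) : Set Moebius :=
  {p | ∃ A ∈ Λ, ∃ B ∈ Λ, A ≠ B ∧ IsContact A B p}

/-- The crossing points of a family of curves. -/
def crossings (Λ : Set (Set Moebius)) : Set Moebius :=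
  {p | ∃ A ∈ Λ, ∃ B ∈ Λ, A ≠ B ∧ IsCrossing A B p}

/-- The support of a family of curves: their union together with the set of its vertices, that is
of the crossing points and the contact points. -/
def support (Λ : Set (Set Moebius)) : Set Moebius × Set Moebius :=
  (⋃₀ Λ, crossings Λ ∪ contacts Λ)

/-- `a` is an arc with the end points `v` and `w`. -/
def IsArc (a : Set Moebius) (v w : Moebius) : Prop :=
  ∃ γ : ℝ → Moebius, ContinuousOn γ (Icc 0 1) ∧ InjOn γ (Icc 0 1) ∧ γ '' Icc 0 1 = a ∧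
    ((γ 0 = v ∧ γ 1 = w) ∨ (γ 0 = w ∧ γ 1 = v))

/-- `Λ'` arises from `Λ` by the flip of the contact point `v`: here `A, B ∈ Λ` touch at `v` and
cross at `w`, these two points cut `A` into the arcs `a, a'` and `B` into the arcs `b, b'`, and
exchanging the arcs of `A` and `B` between `v` and `w` replaces `A = a ∪ a'` and `B = b ∪ b'` by
`a ∪ b'` and `b ∪ a'`, which cross at `v` and touch at `w`. -/
def IsFlip (Λ Λ' : Set (Set Moebius)) (v : Moebius) : Prop :=
  ∃ A ∈ Λ, ∃ B ∈ Λ, A ≠ B ∧ IsContact A B v ∧ ∃ w, IsCrossing A B w ∧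
    ∃ a a' b b' : Set Moebius, IsArc a v w ∧ IsArc a' v w ∧ IsArc b v w ∧ IsArc b' v w ∧
      A = a ∪ a' ∧ B = b ∪ b' ∧ a ∩ a' = {v, w} ∧ b ∩ b' = {v, w} ∧
      a ∩ b' = {v, w} ∧ b ∩ a' = {v, w} ∧
      IsCrossing (a ∪ b') (b ∪ a') v ∧ IsContact (a ∪ b') (b ∪ a') w ∧
      Λ' = (Λ \ {A, B}) ∪ {a ∪ b', b ∪ a'}

/-- `Λ` is a vertex of the flip graph `G(S)`: an arrangement supported by `S`. -/
def IsVertex (S : Set Moebius × Set Moebius) (Λ : Set (Set Moebius)) : Prop :=
  IsArrangement Λ ∧ support Λ = S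

/-- `P 0, …, P m` is a path from `Λ` to `Λ'` in the flip graph `G(S)`. -/
def IsFlipPath (S : Set Moebius × Set Moebius) (Λ Λ' : Set (Set Moebius)) (m : ℕ)
    (P : ℕ → Set (Set Moebius)) : Prop :=
  P 0 = Λ ∧ P m = Λ' ∧ (∀ i ≤ m, IsVertex S (P i)) ∧ ∀ i < m, ∃ v, IsFlip (P i) (P (i + 1)) v

/-- A shortest path in the flip graph. -/
def IsShortestFlipPath (S : Set Moebius × Set Moebius) (Λ Λ' : Set (Set Moebius)) (m : ℕ)
    (P : ℕ → Set (Set Moebius)) : Prop :=
  IsFlipPath S Λ Λ' m P ∧ ∀ m' P', IsFlipPath S Λ Λ' m' P' → m ≤ m'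

end Pool.Agent.T2H78.Flip
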