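import Mathlib
import Pool.Agent.T2H78.FlipDefs

set_option autoImplicit false

open Set Topology

namespace Pool.Agent.T2H78.Flip

/-- the projection -/
def proj (z : ℝ × ℝ) : Moebius := Quotient.mk moebiusSetoid z

lemma proj_eq_iff (z w : ℝ × ℝ) : proj z = proj w ↔
    ∃ m : ℤ, w.1 = z.1 + m ∧ w.2 = (-1) ^ m * z.2 :=
  Quotient.eq (r := moebiusSetoid)

lemma proj_surj : Function.Surjective proj := Quotient.mk_surjective

lemma proj_continuous : Continuous proj := continuous_quotient_mk'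

/-- the deck transformations -/
noncomputable def deck (m : ℤ) (z : ℝ × ℝ) : ℝ × ℝ := (z.1 + m, (-1) ^ m * z.2)

lemma deck_continuous (m : ℤ) : Continuous (deck m) := by
  unfold deck
  fun_prop

lemma proj_deck (m : ℤ) (z : ℝ × ℝ) : proj (deck m z) = proj z := by
  symm
  rw [proj_eq_iff]
  exact ⟨m, rfl, rfl⟩

lemma proj_isOpenMap : IsOpenMap proj := by
  intro U hU
  have h : IsOpen (proj ⁻¹' (proj '' U)) := by
    have e : proj ⁻¹' (proj '' U) = ⋃ m : ℤ, deck m ⁻¹' U := by
      ext z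
      simp only [mem_preimage, mem_image, mem_iUnion]
      constructor
      · rintro ⟨w, hw, h⟩
        obtain ⟨m, h1, h2⟩ := (proj_eq_iff z w).1 h.symm
        refine ⟨m, ?_⟩
        have : deck m z = w := Prod.ext h1.symm h2.symm
        rw [this]; exact hw
      · rintro ⟨m, hm⟩
        exact ⟨_, hm, proj_deck m z⟩
    rw [e]
    exact isOpen_iUnion fun m => hU.preimage (deck_continuous m)
  exact h

lemma proj_isOpenQuotientMap : IsOpenQuotientMap proj :=
  ⟨proj_surj, proj_continuous, proj_isOpenMap⟩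

instance : T2Space Moebius := by
  rw [t2Space_iff_of_isOpenQuotientMap proj_isOpenQuotientMap]
  have e : {q : (ℝ × ℝ) × (ℝ × ℝ) | proj q.1 = proj q.2} =
      ⋃ m : ℤ, {q : (ℝ × ℝ) × (ℝ × ℝ) | q.2.1 - q.1.1 = m ∧ q.2.2 = (-1) ^ m * q.1.2} := by
    ext q
    simp only [mem_ofPred_eq, mem_iUnion, proj_eq_iff]
    refine exists_congr fun m => and_congr ⟨fun h => by rw [h]; ring, fun h => by rw [← h]; ring⟩
      Iff.rfl
  rw [e]
  apply LocallyFinite.isClosed_iUnion
  · have h1 : LocallyFinite (fun m : ℤ => ({(m : ℝ)} : Set ℝ)) := by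
      intro x
      refine ⟨Ioo (x - 1) (x + 1), Ioo_mem_nhds (by linarith) (by linarith), ?_⟩
      refine (Set.finite_Icc (⌊x - 1⌋) (⌈x + 1⌉)).subset ?_
      rintro m ⟨y, hy, h1, h2⟩
      simp only [mem_singleton_iff] at hy
      subst hy
      constructor
      · exact Int.floor_le_iff.2 (by linarith)
      · exact Int.le_ceil_iff.2 (by linarith)
    have h2 := h1.preimage_continuous (g := fun q : (ℝ × ℝ) × (ℝ × ℝ) => q.2.1 - q.1.1)
      (by fun_prop)
    refine h2.subset ?_
    intro m q hq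
    exact hq.1
  · intro m
    refine (isClosed_eq (by fun_prop) continuous_const).inter (isClosed_eq (by fun_prop) (by fun_prop))

/-! ### general facts about crossings and contacts -/

lemma IsCrossing.mem {A B : Set Moebius} {p : Moebius} (h : IsCrossing A B p) :
    p ∈ A ∧ p ∈ B := by
  obtain ⟨e, hp, h0, hq⟩ := h
  have := hq p hp
  rw [h0] at this
  exact ⟨this.1.2 rfl, this.2.2 rfl⟩

lemma IsContact.mem {A B : Set Moebius} {p : Moebius} (h : IsContact A B p) :
    p ∈ A ∧ p ∈ B := by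
  obtain ⟨e, hp, h0, hq⟩ := h
  have := hq p hp
  rw [h0] at this
  exact ⟨this.1.2 rfl, this.2.2 (by simp)⟩

lemma IsCrossing.congr {A B A' B' U : Set Moebius} {p : Moebius} (h : IsCrossing A B p)
    (hU : IsOpen U) (hp : p ∈ U) (hA : ∀ q ∈ U, q ∈ A ↔ q ∈ A') (hB : ∀ q ∈ U, q ∈ B ↔ q ∈ B') :
    IsCrossing A' B' p := by
  obtain ⟨e, hpe, h0, hq⟩ := h
  refine ⟨e.restrOpen U hU, ?_, ?_, ?_⟩
  · rw [e.restrOpen_source]; exact ⟨hpe, hp⟩
  · exact h0
  · intro q hq'
    rw [e.restrOpen_source] at hq'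
    have := hq q hq'.1
    exact ⟨(hA q hq'.2).symm.trans this.1, (hB q hq'.2).symm.trans this.2⟩

lemma IsContact.congr {A B A' B' U : Set Moebius} {p : Moebius} (h : IsContact A B p)
    (hU : IsOpen U) (hp : p ∈ U) (hA : ∀ q ∈ U, q ∈ A ↔ q ∈ A') (hB : ∀ q ∈ U, q ∈ B ↔ q ∈ B') :
    IsContact A' B' p := by
  obtain ⟨e, hpe, h0, hq⟩ := h
  refine ⟨e.restrOpen U hU, ?_, ?_, ?_⟩
  · rw [e.restrOpen_source]; exact ⟨hpe, hp⟩
  · exact h0
  · intro q hq'
    rw [e.restrOpen_source] at hq'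
    have := hq q hq'.1
    exact ⟨(hA q hq'.2).symm.trans this.1, (hB q hq'.2).symm.trans this.2⟩

/-- swap of the two axes -/
def swapH : (ℝ × ℝ) ≃ₜ (ℝ × ℝ) := Homeomorph.prodComm ℝ ℝ

lemma IsCrossing.symm {A B : Set Moebius} {p : Moebius} (h : IsCrossing A B p) :
    IsCrossing B A p := by
  obtain ⟨e, hpe, h0, hq⟩ := h
  refine ⟨e.transHomeomorph swapH, hpe, ?_, ?_⟩
  · simp [swapH, h0]
  · intro q hq'
    have := hq q hq'
    simp only [OpenPartialHomeomorph.transHomeomorph_apply, swapH, Function.comp,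
      Homeomorph.prodComm]
    exact ⟨this.2, this.1⟩

/-- the involution `(x, y) ↦ (x, |x| - y)` -/
noncomputable def bendH : (ℝ × ℝ) ≃ₜ (ℝ × ℝ) where
  toFun z := (z.1, |z.1| - z.2)
  invFun z := (z.1, |z.1| - z.2)
  left_inv z := by simp
  right_inv z := by simp
  continuous_toFun := by fun_prop
  continuous_invFun := by fun_prop

lemma IsContact.symm {A B : Set Moebius} {p : Moebius} (h : IsContact A B p) :
    IsContact B A p := by
  obtain ⟨e, hpe, h0, hq⟩ := h
  refine ⟨e.transHomeomorph bendH, hpe, ?_, ?_⟩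
  · simp [bendH, h0]
  · intro q hq'
    have := hq q hq'
    simp only [OpenPartialHomeomorph.transHomeomorph_apply, Function.comp]
    refine ⟨this.2.trans ?_, this.1.trans ?_⟩
    · show _ ↔ |(e q).1| - (e q).2 = 0
      constructor <;> intro h <;> linarith
    · show _ ↔ |(e q).1| - (e q).2 = |(e q).1|
      constructor <;> intro h <;> linarith

/-- A point is not both a crossing point and a contact point of two curves. -/
lemma not_both {A B : Set Moebius} {p : Moebius} (h1 : IsCrossing A B p)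
    (h2 : IsContact A B p) : False := by
  obtain ⟨e, hpe, e0, he⟩ := h1
  obtain ⟨f, hpf, f0, hf⟩ := h2
  -- the transition map
  obtain ⟨g, hg⟩ : ∃ g, g = e.symm.trans f := ⟨_, rfl⟩
  have hsrc : g.source = e.target ∩ e.symm ⁻¹' f.source := by
    rw [hg, OpenPartialHomeomorph.trans_source, OpenPartialHomeomorph.symm_source]
  have h0s : ((0, 0) : ℝ × ℝ) ∈ g.source := by
    rw [hsrc]
    refine ⟨?_, ?_⟩
    · rw [← e0]; exact e.map_source hpe
    · show e.symm (0, 0) ∈ f.source
      rw [← e0, e.left_inv hpe]; exact hpf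
  have hgz : ∀ z, g z = f (e.symm z) := by
    intro z
    rw [hg]
    rfl
  have hg0 : g (0, 0) = (0, 0) := by
    rw [hgz]
    nth_rewrite 1 [← e0]
    rw [e.left_inv hpe, f0]
  have hA : ∀ z ∈ g.source, z.2 = 0 ↔ (g z).2 = 0 := by
    intro z hz
    rw [hsrc] at hz
    have a1 := (he _ (e.map_target hz.1)).1
    rw [e.right_inv hz.1] at a1
    have a2 := (hf _ hz.2).1
    rw [hgz]
    exact a1.symm.trans a2
  have hB : ∀ z ∈ g.source, z.1 = 0 ↔ (g z).2 = |(g z).1| := by
    intro z hz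
    rw [hsrc] at hz
    have a1 := (he _ (e.map_target hz.1)).2
    rw [e.right_inv hz.1] at a1
    have a2 := (hf _ hz.2).2
    rw [hgz]
    exact a1.symm.trans a2
  -- a small square
  obtain ⟨r, hr, hball⟩ := Metric.isOpen_iff.1 g.open_source _ h0s
  have hin : ∀ z : ℝ × ℝ, |z.1| < r → |z.2| < r → z ∈ g.source := by
    intro z hz1 hz2
    apply hball
    rw [Metric.mem_ball, dist_comm, Prod.dist_eq]
    simp only [Real.dist_eq, zero_sub, abs_neg]
    exact max_lt hz1 hz2
  have half : ∀ s : ℝ, s ≠ 0 → ∀ z : ℝ × ℝ, |z.1| < r → |z.2| < r → 0 < s * z.2 →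
      0 < (g z).2 := by
    intro s hs z hz1 hz2 hz
    -- the half square
    have hconv : Convex ℝ {z : ℝ × ℝ | |z.1| < r ∧ |z.2| < r ∧ 0 < s * z.2} := by
      have e1 : {z : ℝ × ℝ | |z.1| < r ∧ |z.2| < r ∧ 0 < s * z.2} =
          Ioo (-r) r ×ˢ (Ioo (-r) r ∩ {t : ℝ | 0 < s * t}) := by
        ext z
        simp only [mem_ofPred_eq, mem_prod, mem_Ioo, mem_inter_iff, abs_lt]
      rw [e1]
      refine (convex_Ioo _ _).prod ((convex_Ioo _ _).inter ?_)
      intro a ha b hb u v hu hv huv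
      simp only [mem_ofPred_eq, smul_eq_mul] at *
      rcases hu.eq_or_lt with h | h
      · have h1 : v = 1 := by linarith
        rw [← h, h1]
        linarith
      · have := mul_pos h ha
        have := mul_nonneg hv hb.le
        nlinarith
    have hcon := hconv.isPreconnected
    have hcont : ContinuousOn (fun z => (g z).2) {z : ℝ × ℝ | |z.1| < r ∧ |z.2| < r ∧ 0 < s * z.2} :=
      (continuous_snd.comp_continuousOn (g.continuousOn.mono fun z hz => hin z hz.1 hz.2.1))
    have himg := hcon.image _ hcont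
    -- the point on the second axis
    have hz2 : z.2 ≠ 0 := by
      rintro h
      rw [h] at hz
      simp at hz
    have hw : ((0, z.2) : ℝ × ℝ) ∈ {z : ℝ × ℝ | |z.1| < r ∧ |z.2| < r ∧ 0 < s * z.2} :=
      ⟨by simpa using hr, by assumption, hz⟩
    have hwpos : 0 < (g (0, z.2)).2 := by
      have h3 := (hB (0, z.2) (hin _ hw.1 hw.2.1)).1 rfl
      have h4 : (g (0, z.2)).2 ≠ 0 := by
        intro h5
        exact hz2 ((hA (0, z.2) (hin _ hw.1 hw.2.1)).2 h5)
      rcases (abs_nonneg (g (0, z.2)).1).lt_or_eq with h5 | h5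
      · rw [h3]; exact h5
      · rw [← h3] at h5; exact absurd h5.symm h4
    by_contra hneg
    push Not at hneg
    have h3 : (g z).2 ∈ (fun z => (g z).2) '' {z : ℝ × ℝ | |z.1| < r ∧ |z.2| < r ∧ 0 < s * z.2} :=
      ⟨z, ⟨hz1, by assumption, hz⟩, rfl⟩
    have h4 : (g (0, z.2)).2 ∈ (fun z => (g z).2) '' {z : ℝ × ℝ | |z.1| < r ∧ |z.2| < r ∧ 0 < s * z.2} :=
      ⟨_, hw, rfl⟩
    have h5 := himg.Icc_subset h3 h4 ⟨hneg, hwpos.le⟩
    obtain ⟨y, hy, hy0⟩ := h5
    simp only at hy0
    have h6 := (hA y (hin y hy.1 hy.2.1)).2 hy0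
    have h7 := hy.2.2
    rw [h6] at h7
    simp at h7
  have hnonneg : ∀ z : ℝ × ℝ, |z.1| < r → |z.2| < r → 0 ≤ (g z).2 := by
    intro z hz1 hz2
    rcases lt_trichotomy z.2 0 with h | h | h
    · exact (half (-1) (by norm_num) z hz1 hz2 (by linarith)).le
    · exact ((hA z (hin z hz1 hz2)).1 h).ge
    · exact (half 1 (by norm_num) z hz1 hz2 (by linarith)).le
  -- the image of the square is open and contains the origin
  have hsq : {z : ℝ × ℝ | |z.1| < r ∧ |z.2| < r} ⊆ g.source := fun z hz => hin z hz.1 hz.2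
  have hsqo : IsOpen {z : ℝ × ℝ | |z.1| < r ∧ |z.2| < r} := by
    exact (isOpen_lt (f := fun z : ℝ × ℝ => |z.1|) (by fun_prop) continuous_const).inter
      (isOpen_lt (f := fun z : ℝ × ℝ => |z.2|) (by fun_prop) continuous_const)
  have himo := g.isOpen_image_of_subset_source hsqo hsq
  have hmem : ((0, 0) : ℝ × ℝ) ∈ g '' {z : ℝ × ℝ | |z.1| < r ∧ |z.2| < r} :=
    ⟨(0, 0), ⟨by simpa using hr, by simpa using hr⟩, hg0⟩
  obtain ⟨t, ht, htb⟩ := Metric.isOpen_iff.1 himo _ hmem
  have h3 : ((0, -(t / 2)) : ℝ × ℝ) ∈ Metric.ball ((0, 0) : ℝ × ℝ) t := by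
    rw [Metric.mem_ball, Prod.dist_eq]
    simp only [Real.dist_eq, sub_zero, abs_zero, abs_neg]
    rw [abs_of_pos (by linarith)]
    exact max_lt ht (by linarith)
  obtain ⟨y, hy, hy0⟩ := htb h3
  have h4 := hnonneg y hy.1 hy.2
  rw [hy0] at h4
  simp only at h4
  linarith

/-! ### Flips and contact points -/

lemma IsArc.isClosed {a : Set Moebius} {v w : Moebius} (h : IsArc a v w) : IsClosed a := by
  obtain ⟨γ, hc, -, hi, -⟩ := h
  rw [← hi]
  exact (isCompact_Icc.image_of_continuousOn hc).isClosed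

lemma IsSimpleClosedCurve.isClosed {A : Set Moebius} (h : IsSimpleClosedCurve A) :
    IsClosed A := by
  obtain ⟨γ, hc, -, hi⟩ := h
  rw [← hi]
  exact (isCompact_range hc).isClosed

/-- Data of a flip. -/
structure FlipData (A B a a' b b' : Set Moebius) (v w : Moebius) : Prop where
  ha : IsClosed a
  ha' : IsClosed a'
  hb : IsClosed b
  hb' : IsClosed b'
  eA : A = a ∪ a'
  eB : B = b ∪ b'
  aa' : a ∩ a' = {v, w}
  bb' : b ∩ b' = {v, w}
  ab' : a ∩ b' = {v, w}
  ba' : b ∩ a' = {v, w}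

lemma not_mem_of_inter {a a' : Set Moebius} {v w p : Moebius} (h : a ∩ a' = {v, w}) (hv : p ≠ v)
    (hw : p ≠ w) (hp : p ∈ a) : p ∉ a' := by
  intro hp'
  have : p ∈ ({v, w} : Set Moebius) := h ▸ ⟨hp, hp'⟩
  simp only [mem_insert_iff, mem_singleton_iff] at this
  rcases this with h | h
  · exact hv h
  · exact hw h

/-- The exchange of arcs is symmetric. -/
lemma FlipData.rev {A B a a' b b' : Set Moebius} {v w : Moebius} (h : FlipData A B a a' b b' v w) :
    FlipData (a ∪ b') (b ∪ a') a b' b a' v w :=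
  ⟨h.ha, h.hb', h.hb, h.ha', rfl, rfl, h.ab', h.ba', h.aa', h.bb'⟩

/-- Contacts away from `v, w` between the two flipped curves. -/
lemma FlipData.contact_pair {A B a a' b b' : Set Moebius} {v w p : Moebius}
    (h : FlipData A B a a' b b' v w) (hv : p ≠ v) (hw : p ≠ w) (hc : IsContact A B p) :
    IsContact (a ∪ b') (b ∪ a') p := by
  obtain ⟨hA, hB⟩ := hc.mem
  rw [h.eA] at hA
  rw [h.eB] at hB
  rcases hA with hA | hA
  · have na' := not_mem_of_inter h.aa' hv hw hA
    have nb' := not_mem_of_inter h.ab' hv hw hA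
    refine hc.congr (U := (a' ∪ b')ᶜ) (h.ha'.union h.hb').isOpen_compl ?_ ?_ ?_
    · simp only [mem_compl_iff, mem_union, not_or]; exact ⟨na', nb'⟩
    · intro q hq
      simp only [mem_compl_iff, mem_union, not_or] at hq
      rw [h.eA, mem_union, mem_union]
      tauto
    · intro q hq
      simp only [mem_compl_iff, mem_union, not_or] at hq
      rw [h.eB, mem_union, mem_union]
      tauto
  · have na := not_mem_of_inter (by rw [inter_comm]; exact h.aa') hv hw hA
    have nb := not_mem_of_inter (by rw [inter_comm]; exact h.ba') hv hw hA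
    refine hc.symm.congr (U := (a ∪ b)ᶜ) (h.ha.union h.hb).isOpen_compl ?_ ?_ ?_
    · simp only [mem_compl_iff, mem_union, not_or]; exact ⟨na, nb⟩
    · intro q hq
      simp only [mem_compl_iff, mem_union, not_or] at hq
      rw [h.eB, mem_union, mem_union]
      tauto
    · intro q hq
      simp only [mem_compl_iff, mem_union, not_or] at hq
      rw [h.eA, mem_union, mem_union]
      tauto

/-- Contacts away from `v, w` between a flipped curve and another curve. -/
lemma FlipData.contact_other {A B a a' b b' C : Set Moebius} {v w p : Moebius}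
    (h : FlipData A B a a' b b' v w) (hv : p ≠ v) (hw : p ≠ w) (hB : p ∉ B)
    (hc : IsContact A C p) :
    IsContact (a ∪ b') C p ∨ IsContact (b ∪ a') C p := by
  obtain ⟨hA, hC⟩ := hc.mem
  rw [h.eA] at hA
  rw [h.eB, mem_union, not_or] at hB
  rcases hA with hA | hA
  · left
    have na' := not_mem_of_inter h.aa' hv hw hA
    refine hc.congr (U := (a' ∪ b')ᶜ) (h.ha'.union h.hb').isOpen_compl ?_ ?_ ?_
    · simp only [mem_compl_iff, mem_union, not_or]; exact ⟨na', hB.2⟩
    · intro q hq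
      simp only [mem_compl_iff, mem_union, not_or] at hq
      rw [h.eA, mem_union, mem_union]
      tauto
    · intro q _; rfl
  · right
    have na := not_mem_of_inter (by rw [inter_comm]; exact h.aa') hv hw hA
    refine hc.congr (U := (a ∪ b)ᶜ) (h.ha.union h.hb).isOpen_compl ?_ ?_ ?_
    · simp only [mem_compl_iff, mem_union, not_or]; exact ⟨na, hB.1⟩
    · intro q hq
      simp only [mem_compl_iff, mem_union, not_or] at hq
      rw [h.eA, mem_union, mem_union]
      tauto
    · intro q _; rfl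

lemma FlipData.swap {A B a a' b b' : Set Moebius} {v w : Moebius}
    (h : FlipData A B a a' b b' v w) : FlipData B A b b' a a' v w :=
  ⟨h.hb, h.hb', h.ha, h.ha', h.eB, h.eA, h.bb', h.aa', h.ba', h.ab'⟩

lemma FlipData.exch {A B a a' b b' : Set Moebius} {v w : Moebius}
    (h : FlipData A B a a' b b' v w) : FlipData A B a a' b b' w v :=
  ⟨h.ha, h.ha', h.hb, h.hb', h.eA, h.eB, by rw [h.aa', pair_comm], by rw [h.bb', pair_comm],
    by rw [h.ab', pair_comm], by rw [h.ba', pair_comm]⟩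

/-- No curve touches itself. -/
lemma not_self {A : Set Moebius} {p : Moebius} (h : IsContact A A p) : False := by
  obtain ⟨e, hp, h0, hq⟩ := h
  have h1 : ((0, 0) : ℝ × ℝ) ∈ e.target := by rw [← h0]; exact e.map_source hp
  obtain ⟨t, ht, htb⟩ := Metric.isOpen_iff.1 e.open_target _ h1
  have h3 : ((t / 2, 0) : ℝ × ℝ) ∈ Metric.ball ((0, 0) : ℝ × ℝ) t := by
    rw [Metric.mem_ball, Prod.dist_eq]
    simp only [Real.dist_eq, sub_zero, abs_zero]
    rw [abs_of_pos (by linarith)]
    exact max_lt (by linarith) ht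
  have h4 := htb h3
  have h5 := hq _ (e.map_target h4)
  rw [e.right_inv h4] at h5
  have h6 := h5.2.1 (h5.1.2 rfl)
  simp only at h6
  rw [abs_of_pos (by linarith)] at h6
  linarith

/-- The contact points of an arrangement persist in a flip, apart from the flipped one. -/
lemma contacts_sub {Λ Λ' : Set (Set Moebius)} (hΛ : IsArrangement Λ)
    {A B a a' b b' : Set Moebius} {v w : Moebius} (hA : A ∈ Λ) (hB : B ∈ Λ) (hAB : A ≠ B)
    (hX : IsCrossing A B w) (h : FlipData A B a a' b b' v w)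
    (hsub : ∀ E ∈ Λ, E ≠ A → E ≠ B → E ∈ Λ') (m1 : a ∪ b' ∈ Λ') (m2 : b ∪ a' ∈ Λ')
    (hne : a ∪ b' ≠ b ∪ a')
    {p : Moebius} (hp : p ∈ contacts Λ) (hv : p ≠ v) : p ∈ contacts Λ' := by
  obtain ⟨C, hC, D, hD, hCD, hc⟩ := hp
  -- `p ≠ w`
  have hw : p ≠ w := by
    rintro rfl
    obtain ⟨pC, pD⟩ := hc.mem
    obtain ⟨pA, pB⟩ := hX.mem
    have key : ∀ E ∈ Λ, p ∈ E → E = A ∨ E = B := by
      intro E hE pE
      by_contra hcon
      push Not at hcon
      exact hΛ.simple A hA B hB E hE hAB hcon.2.symm hcon.1.symm p ⟨pA, pB, pE⟩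
    rcases key C hC pC with rfl | rfl <;> rcases key D hD pD with rfl | rfl
    · exact hCD rfl
    · exact not_both hX hc
    · exact not_both hX hc.symm
    · exact hCD rfl
  -- one of the two curves is `A`
  have main : ∀ C ∈ Λ, C ≠ A → C ≠ B → (IsContact A C p ∨ IsContact B C p) →
      p ∈ contacts Λ' := by
    intro C hC h1 h2 hc
    have mC : C ∈ Λ' := hsub C hC h1 h2
    have fin : IsContact (a ∪ b') C p ∨ IsContact (b ∪ a') C p → p ∈ contacts Λ' := by
      rintro (h3 | h3)
      · refine ⟨_, m1, C, mC, ?_, h3⟩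
        rintro rfl
        exact not_self h3
      · refine ⟨_, m2, C, mC, ?_, h3⟩
        rintro rfl
        exact not_self h3
    rcases hc with hc | hc
    · refine fin (h.contact_other hv hw ?_ hc)
      intro pB
      exact hΛ.simple A hA B hB C hC hAB h2.symm h1.symm p ⟨hc.mem.1, pB, hc.mem.2⟩
    · refine fin (h.swap.contact_other hv hw ?_ hc).symm
      intro pA
      exact hΛ.simple A hA B hB C hC hAB h2.symm h1.symm p ⟨pA, hc.mem.1, hc.mem.2⟩
  by_cases c1 : C = A
  · subst c1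
    by_cases d1 : D = B
    · subst d1
      exact ⟨_, m1, _, m2, hne, h.contact_pair hv hw hc⟩
    · exact main D hD hCD.symm d1 (Or.inl hc)
  · by_cases c2 : C = B
    · subst c2
      by_cases d1 : D = A
      · subst d1
        exact ⟨_, m1, _, m2, hne, h.contact_pair hv hw hc.symm⟩
      · exact main D hD d1 hCD.symm (Or.inr hc)
    · by_cases d1 : D = A
      · subst d1
        exact main C hC c1 c2 (Or.inl hc.symm)
      · by_cases d2 : D = B
        · subst d2
          exact main C hC c1 c2 (Or.inr hc.symm)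
        · exact ⟨C, hsub C hC c1 c2, D, hsub D hD d1 d2, hCD, hc⟩

/-- The effect of a flip on the contact points. -/
lemma flip_contacts {Λ Λ' : Set (Set Moebius)} (hΛ : IsArrangement Λ) (hΛ' : IsArrangement Λ')
    {v : Moebius} (h : IsFlip Λ Λ' v) :
    ∃ A ∈ Λ, ∃ B ∈ Λ, A ≠ B ∧ IsContact A B v ∧ ∃ w, IsCrossing A B w ∧
      (∀ p ∈ contacts Λ, p ≠ v → p ∈ contacts Λ') ∧
      (∀ p ∈ contacts Λ', p ≠ w → p ∈ contacts Λ) := by
  obtain ⟨A, hA, B, hB, hAB, hcv, w, hXw, a, a', b, b', ra, ra', rb, rb', eA, eB, i1, i2, i3, i4,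
    hXv, hcw, e⟩ := h
  have hd : FlipData A B a a' b b' v w :=
    ⟨ra.isClosed, ra'.isClosed, rb.isClosed, rb'.isClosed, eA, eB, i1, i2, i3, i4⟩
  have hne : a ∪ b' ≠ b ∪ a' := by
    intro h
    rw [h] at hcw
    exact not_self hcw
  have m1 : a ∪ b' ∈ Λ' := by rw [e]; right; simp
  have m2 : b ∪ a' ∈ Λ' := by rw [e]; right; simp
  refine ⟨A, hA, B, hB, hAB, hcv, w, hXw, ?_, ?_⟩
  · intro p hp hv
    refine contacts_sub hΛ hA hB hAB hXw hd ?_ m1 m2 hne hp hv
    intro E hE h1 h2
    rw [e]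
    left
    refine ⟨hE, ?_⟩
    simp only [mem_insert_iff, mem_singleton_iff, not_or]
    exact ⟨h1, h2⟩
  · intro p hp hw
    refine contacts_sub hΛ' m1 m2 hne hXv hd.rev.exch ?_ ?_ ?_ ?_ hp hw
    · intro E hE h1 h2
      rw [e] at hE
      rcases hE with hE | hE
      · exact hE.1
      · simp only [mem_insert_iff, mem_singleton_iff] at hE
        rcases hE with hE | hE
        · exact absurd hE h1
        · exact absurd hE h2
    · rw [← eA]; exact hA
    · rw [← eB]; exact hB
    · rw [← eA, ← eB]; exact hAB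

/-- A lower bound for the distance in the flip graph. -/
lemma four_le {S : Set Moebius × Set Moebius} {Λ Λ' : Set (Set Moebius)} {m : ℕ}
    {P : ℕ → Set (Set Moebius)} (hP : IsFlipPath S Λ Λ' m P)
    (a b : Fin 3 → Moebius) (ha : Function.Injective a) (hb : Function.Injective b)
    (ha1 : ∀ i, a i ∈ contacts Λ) (ha2 : ∀ i, a i ∉ contacts Λ')
    (hb1 : ∀ i, b i ∉ contacts Λ) (hb2 : ∀ i, b i ∈ contacts Λ')
    (hblock : ∀ A ∈ Λ, ∀ B ∈ Λ, A ≠ B → ∀ i j, IsContact A B (a i) → ¬ IsCrossing A B (b j)) :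
    4 ≤ m := by
  obtain ⟨h0, hm, hvert, hflip⟩ := hP
  by_contra hlt
  push Not at hlt
  have hf : ∀ i : Fin m, ∃ v w, (∃ A ∈ P i, ∃ B ∈ P i, A ≠ B ∧ IsContact A B v ∧ IsCrossing A B w) ∧
      (∀ p ∈ contacts (P i), p ≠ v → p ∈ contacts (P (i + 1))) ∧
      (∀ p ∈ contacts (P (i + 1)), p ≠ w → p ∈ contacts (P i)) := by
    intro i
    obtain ⟨v, hv⟩ := hflip i i.2
    obtain ⟨A, hA, B, hB, hAB, hc, w, hX, h1, h2⟩ :=
      flip_contacts (hvert i i.2.le).1 (hvert (i + 1) i.2).1 hv
    exact ⟨v, w, ⟨A, hA, B, hB, hAB, hc, hX⟩, h1, h2⟩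
  choose v w hvw hdown hup using hf
  -- every `a j` is some `v i`
  have hav : ∀ j, ∃ i, v i = a j := by
    intro j
    by_contra hcon
    push Not at hcon
    have : ∀ k, k ≤ m → a j ∈ contacts (P k) := by
      intro k
      induction k with
      | zero => intro _; rw [h0]; exact ha1 j
      | succ k ih =>
        intro hk
        exact hdown ⟨k, hk⟩ _ (ih (by omega)) (hcon ⟨k, hk⟩).symm
    exact ha2 j (hm ▸ this m le_rfl)
  have hbw : ∀ j, ∃ i, w i = b j := by
    intro j
    by_contra hcon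
    push Not at hcon
    have : ∀ k, k ≤ m → b j ∉ contacts (P k) := by
      intro k
      induction k with
      | zero => intro _; rw [h0]; exact hb1 j
      | succ k ih =>
        intro hk hmem
        exact ih (by omega) (hup ⟨k, hk⟩ _ hmem (hcon ⟨k, hk⟩).symm)
    exact this m le_rfl (hm.symm ▸ hb2 j)
  choose f hf using hav
  choose g hg using hbw
  have hfi : Function.Injective f := by
    intro i j hij
    apply ha
    rw [← hf i, ← hf j, hij]
  have hgi : Function.Injective g := by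
    intro i j hij
    apply hb
    rw [← hg i, ← hg j, hij]
  have hc1 := Fintype.card_le_of_injective f hfi
  simp only [Fintype.card_fin] at hc1
  have hm3 : m = 3 := by omega
  subst hm3
  have hfb : Function.Bijective f := (Fintype.bijective_iff_injective_and_card f).2 ⟨hfi, rfl⟩
  have hgb : Function.Bijective g := (Fintype.bijective_iff_injective_and_card g).2 ⟨hgi, rfl⟩
  obtain ⟨i, hi⟩ := hfb.2 0
  obtain ⟨j, hj⟩ := hgb.2 0
  obtain ⟨A, hA, B, hB, hAB, hc, hX⟩ := hvw 0
  rw [← hi, hf i] at hc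
  rw [← hj, hg j] at hX
  have e0 : P ((0 : Fin 3) : ℕ) = Λ := h0
  rw [e0] at hA hB
  exact hblock A hA B hB hAB i j hc hX

end Pool.Agent.T2H78.Flip
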