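import Mathlib
import Pool.Agent.T2H78.FlipGen

set_option autoImplicit false

open Set Topology

namespace Pool.Agent.T2H78.Flip

/-! ### curves that are graphs -/

/-- the graph of `f`, seen in the Moebius strip -/
def curve (f : ℝ → ℝ) : Set Moebius := range fun x => proj (x, f x)

/-- part of the graph of `f` -/
def arc (f : ℝ → ℝ) (x₁ x₂ : ℝ) : Set Moebius := (fun x => proj (x, f x)) '' Icc x₁ x₂

/-- compatible with the identification -/
def Anti (f : ℝ → ℝ) : Prop := ∀ (m : ℤ) (x : ℝ), f (x + m) = (-1) ^ m * f x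

lemma mem_curve {f : ℝ → ℝ} (hf : Anti f) (x y : ℝ) : proj (x, y) ∈ curve f ↔ y = f x := by
  constructor
  · rintro ⟨x', h⟩
    obtain ⟨m, h1, h2⟩ := (proj_eq_iff _ _).1 h
    simp only at h1 h2
    rw [h2, h1, hf]
  · rintro rfl
    exact ⟨x, rfl⟩

lemma proj_add_one {f : ℝ → ℝ} (hf : Anti f) (x : ℝ) : proj (x + 1, f (x + 1)) = proj (x, f x) := by
  symm
  rw [proj_eq_iff]
  refine ⟨1, by simp, ?_⟩
  have := hf 1 x
  simpa using this

lemma curve_simple {f : ℝ → ℝ} (hf : Anti f) (hc : Continuous f) :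
    IsSimpleClosedCurve (curve f) := by
  have hper : Function.Periodic (fun x => proj (x, f x)) 1 := fun x => proj_add_one hf x
  refine ⟨hper.lift, ?_, ?_, ?_⟩
  · refine continuous_coinduced_dom.mpr ?_
    show Continuous (fun x => proj (x, f x))
    exact proj_continuous.comp (by fun_prop)
  · intro a b
    refine QuotientAddGroup.induction_on a fun x => ?_
    refine QuotientAddGroup.induction_on b fun y => ?_
    intro h
    have h' : proj (x, f x) = proj (y, f y) := h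
    obtain ⟨m, h1, -⟩ := (proj_eq_iff _ _).1 h'
    simp only at h1
    rw [h1]
    show (x : AddCircle (1 : ℝ)) = ((x + m : ℝ) : AddCircle (1 : ℝ))
    have h0 : ((m : ℝ) : AddCircle (1 : ℝ)) = 0 := (AddCircle.coe_eq_zero_iff _).2 ⟨m, by simp⟩
    rw [AddCircle.coe_add, h0, add_zero]
  · ext p
    constructor
    · rintro ⟨a, rfl⟩
      refine QuotientAddGroup.induction_on a fun x => ?_
      exact ⟨x, rfl⟩
    · rintro ⟨x, rfl⟩
      exact ⟨(x : AddCircle (1 : ℝ)), rfl⟩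

lemma curve_compl {f : ℝ → ℝ} (hf : Anti f) :
    (curve f)ᶜ = (fun q : ℝ × ℝ => proj (q.1, f q.1 + q.2)) '' (univ ×ˢ Ioi 0) := by
  ext p
  obtain ⟨⟨x, y⟩, rfl⟩ := proj_surj p
  rw [mem_compl_iff, mem_curve hf]
  constructor
  · intro h
    rcases lt_or_gt_of_ne h with h | h
    · refine ⟨(x + 1, - y - f (x + 1)), ⟨mem_univ _, ?_⟩, ?_⟩
      · have := hf 1 x
        simp only [Int.cast_one, zpow_one, neg_mul, one_mul] at this
        simp only [mem_Ioi, this]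
        linarith
      · simp only
        symm
        rw [proj_eq_iff]
        refine ⟨1, by simp, by simp⟩
    · refine ⟨(x, y - f x), ⟨mem_univ _, ?_⟩, ?_⟩
      · simp only [mem_Ioi]; linarith
      · simp
  · rintro ⟨⟨x', s⟩, ⟨-, hs⟩, h⟩ hy
    simp only [mem_Ioi] at hs
    have h1 : proj (x', f x' + s) ∈ curve f := by
      have h2 : proj (x', f x' + s) = proj (x, y) := h
      rw [h2, mem_curve hf]; exact hy
    rw [mem_curve hf] at h1
    linarith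

lemma curve_pseudoline {f : ℝ → ℝ} (hf : Anti f) (hc : Continuous f) :
    IsPseudoline (curve f) := by
  refine ⟨curve_simple hf hc, ?_⟩
  rw [curve_compl hf]
  refine IsConnected.image ?_ _ ?_
  · exact isConnected_univ.prod isConnected_Ioi
  · exact (proj_continuous.comp (by fun_prop)).continuousOn

/-! ### arcs -/

lemma proj_inj_on {x y : ℝ} {a b : ℝ} (h : proj (x, a) = proj (y, b)) (hxy : |y - x| < 1) :
    x = y ∧ a = b := by
  obtain ⟨m, h1, h2⟩ := (proj_eq_iff _ _).1 h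
  simp only at h1 h2
  have hm : m = 0 := by
    rw [h1] at hxy
    have h3 : |(m : ℝ)| < 1 := by simpa using hxy
    rw [abs_lt] at h3
    have h4 : (-1 : ℤ) < m := by exact_mod_cast h3.1
    have h5 : m < (1 : ℤ) := by exact_mod_cast h3.2
    omega
  subst hm
  simp only [Int.cast_zero, add_zero, zpow_zero, one_mul] at h1 h2
  exact ⟨h1.symm, h2.symm⟩

lemma arc_isArc {f : ℝ → ℝ} (hc : Continuous f) {x₁ x₂ : ℝ} (h12 : x₁ < x₂)
    (h : x₂ < x₁ + 1) : IsArc (arc f x₁ x₂) (proj (x₁, f x₁)) (proj (x₂, f x₂)) := by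
  refine ⟨fun t => proj (x₁ + t * (x₂ - x₁), f (x₁ + t * (x₂ - x₁))), ?_, ?_, ?_, Or.inl ⟨?_, ?_⟩⟩
  · exact (proj_continuous.comp (by fun_prop)).continuousOn
  · intro s hs t ht hst
    have h3 := (proj_inj_on hst (by
      have : (x₁ + t * (x₂ - x₁)) - (x₁ + s * (x₂ - x₁)) = (t - s) * (x₂ - x₁) := by ring
      rw [this, abs_mul, abs_of_pos (a := x₂ - x₁) (by linarith)]
      have h4 : |t - s| ≤ 1 := by rw [abs_le]; constructor <;> linarith [hs.1, hs.2, ht.1, ht.2]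
      nlinarith [abs_nonneg (t - s)])).1
    have h5 : (s - t) * (x₂ - x₁) = 0 := by linarith
    rcases mul_eq_zero.1 h5 with h6 | h6 <;> linarith
  · ext p
    constructor
    · rintro ⟨t, ht, rfl⟩
      refine ⟨x₁ + t * (x₂ - x₁), ⟨?_, ?_⟩, rfl⟩
      · nlinarith [ht.1]
      · nlinarith [ht.2]
    · rintro ⟨x, hx, rfl⟩
      refine ⟨(x - x₁) / (x₂ - x₁), ⟨div_nonneg (by linarith [hx.1]) (by linarith), ?_⟩, ?_⟩
      · rw [div_le_one (by linarith)]; linarith [hx.2]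
      · have : x₁ + (x - x₁) / (x₂ - x₁) * (x₂ - x₁) = x := by
          rw [div_mul_cancel₀ _ (by linarith)]; ring
        simp only [this]
  · simp
  · simp

lemma IsArc.rev {a : Set Moebius} {v w : Moebius} (h : IsArc a v w) : IsArc a w v := by
  obtain ⟨γ, h1, h2, h3, h4⟩ := h
  exact ⟨γ, h1, h2, h3, h4.symm⟩

lemma arc_union {f : ℝ → ℝ} (hf : Anti f) {x₁ x₂ : ℝ} (h12 : x₁ ≤ x₂) (h : x₂ ≤ x₁ + 1) :
    arc f x₁ x₂ ∪ arc f x₂ (x₁ + 1) = curve f := by
  ext p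
  constructor
  · rintro (⟨x, -, rfl⟩ | ⟨x, -, rfl⟩) <;> exact ⟨x, rfl⟩
  · rintro ⟨x, rfl⟩
    -- shift to `[x₁, x₁ + 1)`
    obtain ⟨m, hm⟩ : ∃ m : ℤ, m = -⌊x - x₁⌋ := ⟨_, rfl⟩
    have h1 := Int.floor_le (x - x₁)
    have h2 := Int.lt_floor_add_one (x - x₁)
    have e : (⌊x - x₁⌋ : ℝ) = -(m : ℝ) := by rw [hm]; push_cast; ring
    rw [e] at h1 h2
    have h3 : proj (x, f x) = proj (x + m, f (x + m)) := by
      rw [proj_eq_iff]
      exact ⟨m, rfl, hf m x⟩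
    simp only [h3]
    rcases le_total (x + m) x₂ with h4 | h4
    · left; exact ⟨x + m, ⟨by linarith, h4⟩, rfl⟩
    · right; exact ⟨x + m, ⟨h4, by linarith⟩, rfl⟩

/-- complementary arcs of two curves meeting at the ends -/
lemma arc_inter {f g : ℝ → ℝ} (hf : Anti f) (hg : Anti g) {x₁ x₂ : ℝ} (h12 : x₁ < x₂)
    (h : x₂ < x₁ + 1) (e1 : f x₁ = g x₁) (e2 : f x₂ = g x₂) :
    arc f x₁ x₂ ∩ arc g x₂ (x₁ + 1) = {proj (x₁, f x₁), proj (x₂, f x₂)} := by
  ext p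
  simp only [mem_insert_iff, mem_singleton_iff]
  constructor
  · rintro ⟨⟨x, hx, rfl⟩, ⟨y, hy, hxy⟩⟩
    simp only at hxy ⊢
    rcases lt_or_ge (y - x) 1 with h3 | h3
    · have h4 := (proj_inj_on hxy (by
        rw [abs_lt]; constructor <;> linarith [hx.1, hx.2, hy.1, hy.2])).1
      have h5 : x = x₂ := by linarith [hx.2, hy.1]
      right; rw [h5]
    · have h4 : y = x + 1 := by linarith [hx.1, hx.2, hy.1, hy.2]
      have h5 : x = x₁ := by linarith [hx.1, hy.2]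
      left; rw [h5]
  · rintro (rfl | rfl)
    · refine ⟨⟨x₁, ⟨le_rfl, h12.le⟩, rfl⟩, ⟨x₁ + 1, ⟨h.le, le_rfl⟩, ?_⟩⟩
      simp only
      rw [proj_add_one hg, e1]
    · exact ⟨⟨x₂, ⟨h12.le, le_rfl⟩, rfl⟩, ⟨x₂, ⟨le_rfl, h.le⟩, by simp only [e2]⟩⟩

lemma arc_congr {f g : ℝ → ℝ} {x₁ x₂ : ℝ} (h : ∀ x ∈ Icc x₁ x₂, f x = g x) :
    arc f x₁ x₂ = arc g x₁ x₂ := by
  unfold arc
  apply image_congr
  intro x hx
  simp only [h x hx]

/-! ### charts -/

/-- the inverse of the projection on a narrow strip, as a chart -/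
lemma exists_chart (x₀ : ℝ) : ∃ e : OpenPartialHomeomorph Moebius (ℝ × ℝ),
    (∀ p, p ∈ e.source ↔ ∃ z : ℝ × ℝ, |z.1 - x₀| < 1 / 20 ∧ p = proj z) ∧
    ∀ z : ℝ × ℝ, |z.1 - x₀| < 1 / 20 → e (proj z) = z := by
  obtain ⟨U, hU⟩ : ∃ U : Set (ℝ × ℝ), U = {z | |z.1 - x₀| < 1 / 20} := ⟨_, rfl⟩
  have hUo : IsOpen U := by
    rw [hU]
    exact isOpen_lt (by fun_prop) continuous_const
  have hinj : InjOn proj U := by
    rintro ⟨x, a⟩ hx ⟨y, b⟩ hy h
    rw [hU] at hx hy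
    simp only [mem_ofPred_eq] at hx hy
    have := proj_inj_on h (by
      rw [abs_lt] at hx hy ⊢
      constructor <;> linarith [hx.1, hx.2, hy.1, hy.2])
    rw [this.1, this.2]
  let g : OpenPartialHomeomorph (ℝ × ℝ) Moebius :=
    OpenPartialHomeomorph.ofContinuousOpen (InjOn.toPartialEquiv proj U hinj)
      proj_continuous.continuousOn proj_isOpenMap hUo
  refine ⟨g.symm, ?_, ?_⟩
  · intro p
    show p ∈ proj '' U ↔ _
    rw [hU]
    constructor
    · rintro ⟨z, hz, rfl⟩; exact ⟨z, hz, rfl⟩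
    · rintro ⟨z, hz, rfl⟩; exact ⟨z, hz, rfl⟩
  · intro z hz
    have hz' : z ∈ g.source := by
      show z ∈ U
      rw [hU]; exact hz
    exact g.left_inv hz'

/-- homeomorphism for crossings -/
noncomputable def crossH (x₀ c : ℝ) : (ℝ × ℝ) ≃ₜ (ℝ × ℝ) where
  toFun z := ((z.2 - c) + 20 * (z.1 - x₀), (z.2 - c) - 20 * (z.1 - x₀))
  invFun w := (x₀ + (w.1 - w.2) / 40, c + (w.1 + w.2) / 2)
  left_inv z := by ext <;> simp <;> ring
  right_inv z := by ext <;> simp <;> ring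
  continuous_toFun := by fun_prop
  continuous_invFun := by fun_prop

/-- homeomorphism for contacts -/
noncomputable def touchH (x₀ c : ℝ) : (ℝ × ℝ) ≃ₜ (ℝ × ℝ) where
  toFun z := (2 * (20 * (z.1 - x₀)), (z.2 - c) + |20 * (z.1 - x₀)|)
  invFun w := (x₀ + w.1 / 40, c + w.2 - |w.1 / 2|)
  left_inv z := by
    have h1 : x₀ + 2 * (20 * (z.1 - x₀)) / 40 = z.1 := by ring
    have h2 : 2 * (20 * (z.1 - x₀)) / 2 = 20 * (z.1 - x₀) := by ring
    ext
    · exact h1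
    · show c + ((z.2 - c) + |20 * (z.1 - x₀)|) - |2 * (20 * (z.1 - x₀)) / 2| = z.2
      rw [h2]; ring
  right_inv w := by
    have h1 : 20 * (x₀ + w.1 / 40 - x₀) = w.1 / 2 := by ring
    ext
    · show 2 * (20 * (x₀ + w.1 / 40 - x₀)) = w.1
      rw [h1]; ring
    · show (c + w.2 - |w.1 / 2| - c) + |20 * (x₀ + w.1 / 40 - x₀)| = w.2
      rw [h1]; ring
  continuous_toFun := by fun_prop
  continuous_invFun := by fun_prop

lemma curve_crossing {f g : ℝ → ℝ} (hf : Anti f) (hg : Anti g) (x₀ c : ℝ)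
    (h1 : ∀ x, |x - x₀| < 1 / 20 → f x = c + 20 * (x - x₀))
    (h2 : ∀ x, |x - x₀| < 1 / 20 → g x = c - 20 * (x - x₀)) :
    IsCrossing (curve f) (curve g) (proj (x₀, c)) := by
  obtain ⟨e, he1, he2⟩ := exists_chart x₀
  have h0 : |x₀ - x₀| < 1 / 20 := by simp
  refine ⟨e.transHomeomorph (crossH x₀ c), ?_, ?_, ?_⟩
  · exact (he1 _).2 ⟨(x₀, c), h0, rfl⟩
  · show crossH x₀ c (e (proj (x₀, c))) = (0, 0)
    rw [he2 _ h0]
    simp [crossH]
  · intro q hq
    obtain ⟨z, hz, rfl⟩ := (he1 q).1 hq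
    show (_ ↔ (crossH x₀ c (e (proj z))).2 = 0) ∧ (_ ↔ (crossH x₀ c (e (proj z))).1 = 0)
    rw [he2 _ hz]
    obtain ⟨x, y⟩ := z
    rw [mem_curve hf, mem_curve hg, h1 x hz, h2 x hz]
    show (_ ↔ (y - c) - 20 * (x - x₀) = 0) ∧ (_ ↔ (y - c) + 20 * (x - x₀) = 0)
    constructor <;> constructor <;> intro h <;> linarith

lemma curve_contact {f g : ℝ → ℝ} (hf : Anti f) (hg : Anti g) (x₀ c : ℝ)
    (h1 : ∀ x, |x - x₀| < 1 / 20 → f x = c - |20 * (x - x₀)|)
    (h2 : ∀ x, |x - x₀| < 1 / 20 → g x = c + |20 * (x - x₀)|) :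
    IsContact (curve f) (curve g) (proj (x₀, c)) := by
  obtain ⟨e, he1, he2⟩ := exists_chart x₀
  have h0 : |x₀ - x₀| < 1 / 20 := by simp
  refine ⟨e.transHomeomorph (touchH x₀ c), ?_, ?_, ?_⟩
  · exact (he1 _).2 ⟨(x₀, c), h0, rfl⟩
  · show touchH x₀ c (e (proj (x₀, c))) = (0, 0)
    rw [he2 _ h0]
    simp [touchH]
  · intro q hq
    obtain ⟨z, hz, rfl⟩ := (he1 q).1 hq
    show (_ ↔ (touchH x₀ c (e (proj z))).2 = 0) ∧
      (_ ↔ (touchH x₀ c (e (proj z))).2 = |(touchH x₀ c (e (proj z))).1|)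
    rw [he2 _ hz]
    obtain ⟨x, y⟩ := z
    rw [mem_curve hf, mem_curve hg, h1 x hz, h2 x hz]
    show (_ ↔ (y - c) + |20 * (x - x₀)| = 0) ∧
      (_ ↔ (y - c) + |20 * (x - x₀)| = |2 * (20 * (x - x₀))|)
    have e3 : |2 * (20 * (x - x₀))| = 2 * |20 * (x - x₀)| := by rw [abs_mul, abs_two]
    rw [e3]
    constructor <;> constructor <;> intro h <;> linarith

end Pool.Agent.T2H78.Flip
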