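import Mathlib
import Pool.Agent.T2H78.FlipCurve

set_option autoImplicit false

open Set Topology

namespace Pool.Agent.T2H78.Flip

/-! ### wires -/

/-- the integer sequence with the given first 20 values, continued by `W (k + 20) = - W k` -/
def W (l : List ℤ) (k : ℤ) : ℤ := (if (k / 20) % 2 = 0 then 1 else -1) * l.getD (k % 20).toNat 0

lemma W_add (l : List ℤ) (k : ℤ) : W l (k + 20) = - W l k := by
  unfold W
  have h1 : (k + 20) / 20 = k / 20 + 1 := by omega
  have h2 : (k + 20) % 20 = k % 20 := by omega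
  rw [h1, h2]
  rcases Int.emod_two_eq_zero_or_one (k / 20) with h | h
  · have h3 : (k / 20 + 1) % 2 = 1 := by omega
    rw [h3, h]; simp
  · have h3 : (k / 20 + 1) % 2 = 0 := by omega
    rw [h3, h]; simp

lemma W_add_mul (l : List ℤ) (k m : ℤ) : (W l (k + 20 * m) : ℝ) = (-1) ^ m * W l k := by
  induction m using Int.induction_on with
  | zero => simp
  | succ m ih =>
    have h1 : k + 20 * ((m : ℤ) + 1) = (k + 20 * m) + 20 := by ring
    rw [h1, W_add, Int.cast_neg, ih, zpow_add₀ (by norm_num)]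
    ring
  | pred m ih =>
    have h1 : k + 20 * (-(m : ℤ)) = (k + 20 * (-(m : ℤ) - 1)) + 20 := by ring
    rw [h1, W_add, Int.cast_neg] at ih
    have h2 : (W l (k + 20 * (-(m : ℤ) - 1)) : ℝ) = - ((-1) ^ (-(m : ℤ)) * W l k) := by
      rw [← ih]; ring
    rw [h2, zpow_sub₀ (by norm_num), zpow_one]
    ring

/-- the piecewise linear function of a wire -/
noncomputable def gr (l : List ℤ) (x : ℝ) : ℝ :=
  W l ⌊20 * x⌋ + (20 * x - ⌊20 * x⌋) * (W l (⌊20 * x⌋ + 1) - W l ⌊20 * x⌋)

lemma gr_on (l : List ℤ) (k : ℤ) (x : ℝ) (h1 : (k : ℝ) ≤ 20 * x) (h2 : 20 * x ≤ k + 1) :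
    gr l x = W l k + (20 * x - k) * (W l (k + 1) - W l k) := by
  rcases h2.lt_or_eq with h2 | h2
  · have : ⌊20 * x⌋ = k := Int.floor_eq_iff.2 ⟨h1, h2⟩
    unfold gr
    rw [this]
  · have : ⌊20 * x⌋ = k + 1 := Int.floor_eq_iff.2 ⟨by push_cast; linarith, by push_cast; linarith⟩
    unfold gr
    rw [this, h2]
    push_cast
    ring

lemma gr_anti (l : List ℤ) : Anti (gr l) := by
  intro m x
  have h : ⌊20 * (x + m)⌋ = ⌊20 * x⌋ + 20 * m := by
    have : 20 * (x + m) = 20 * x + ((20 * m : ℤ) : ℝ) := by push_cast; ring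
    rw [this, Int.floor_add_intCast]
  unfold gr
  rw [h, W_add_mul]
  have h3 : ⌊20 * x⌋ + 20 * m + 1 = (⌊20 * x⌋ + 1) + 20 * m := by ring
  rw [h3, W_add_mul]
  push_cast
  ring

lemma gr_continuous (l : List ℤ) : Continuous (gr l) := by
  have hlf : LocallyFinite (fun k : ℤ => {x : ℝ | (k : ℝ) ≤ 20 * x ∧ 20 * x ≤ k + 1}) := by
    intro x
    refine ⟨Ioo (x - 1) (x + 1), Ioo_mem_nhds (by linarith) (by linarith), ?_⟩
    refine (Set.finite_Icc (⌊20 * (x - 1)⌋ - 1) (⌈20 * (x + 1)⌉)).subset ?_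
    rintro m ⟨y, ⟨hy1, hy2⟩, h1, h2⟩
    constructor
    · have h3 : (⌊20 * (x - 1)⌋ : ℝ) < (m : ℝ) + 1 + 1 := by
        have := Int.floor_le (20 * (x - 1))
        linarith
      have h4 : ⌊20 * (x - 1)⌋ < m + 1 + 1 := by exact_mod_cast h3
      omega
    · have h3 : (m : ℝ) < (⌈20 * (x + 1)⌉ : ℝ) + 1 := by
        have := Int.le_ceil (20 * (x + 1))
        linarith
      have h4 : m < ⌈20 * (x + 1)⌉ + 1 := by exact_mod_cast h3
      omega
  refine hlf.continuous ?_ ?_ ?_
  · rw [eq_univ_iff_forall]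
    intro x
    rw [mem_iUnion]
    exact ⟨⌊20 * x⌋, Int.floor_le _, (Int.lt_floor_add_one _).le⟩
  · intro k
    exact (isClosed_le (f := fun _ : ℝ => (k : ℝ)) (g := fun x : ℝ => 20 * x) continuous_const
      (by fun_prop)).inter (isClosed_le (f := fun x : ℝ => 20 * x) (g := fun _ : ℝ => (k : ℝ) + 1)
      (by fun_prop) continuous_const)
  · intro k
    have : ContinuousOn (fun x : ℝ => (W l k : ℝ) + (20 * x - k) * (W l (k + 1) - W l k))
        {x : ℝ | (k : ℝ) ≤ 20 * x ∧ 20 * x ≤ k + 1} := by fun_prop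
    exact this.congr fun x hx => gr_on l k x hx.1 hx.2

/-- the wire as a pseudoline -/
noncomputable def wire (l : List ℤ) : Set Moebius := curve (gr l)

lemma wire_pseudoline (l : List ℤ) : IsPseudoline (wire l) :=
  curve_pseudoline (gr_anti l) (gr_continuous l)

/-- the wires cross at `k` -/
def crossAt (l l' : List ℤ) (k : ℤ) : Prop :=
  W l k = W l' k ∧
    ((W l (k - 1) = W l k - 1 ∧ W l (k + 1) = W l k + 1 ∧ W l' (k - 1) = W l k + 1 ∧
      W l' (k + 1) = W l k - 1) ∨
    (W l (k - 1) = W l k + 1 ∧ W l (k + 1) = W l k - 1 ∧ W l' (k - 1) = W l k - 1 ∧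
      W l' (k + 1) = W l k + 1))

instance (l l' : List ℤ) (k : ℤ) : Decidable (crossAt l l' k) := by
  unfold crossAt; infer_instance

/-- the wires touch at `k` -/
def touchAt (l l' : List ℤ) (k : ℤ) : Prop :=
  W l k = W l' k ∧
    ((W l (k - 1) = W l k - 1 ∧ W l (k + 1) = W l k - 1 ∧ W l' (k - 1) = W l k + 1 ∧
      W l' (k + 1) = W l k + 1) ∨
    (W l (k - 1) = W l k + 1 ∧ W l (k + 1) = W l k + 1 ∧ W l' (k - 1) = W l k - 1 ∧
      W l' (k + 1) = W l k - 1))

instance (l l' : List ℤ) (k : ℤ) : Decidable (touchAt l l' k) := by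
  unfold touchAt; infer_instance

/-- the point number `k` at height `c` -/
noncomputable def pt (k : ℕ) (c : ℤ) : Moebius := proj ((k : ℝ) / 20, (c : ℝ))

lemma pt_inj {k k' : ℕ} {c c' : ℤ} (hk : k < 20) (hk' : k' < 20) (h : pt k c = pt k' c') :
    k = k' ∧ c = c' := by
  have h1 := proj_inj_on h (by
    have a1 : (k : ℝ) < 20 := by exact_mod_cast hk
    have a2 : (k' : ℝ) < 20 := by exact_mod_cast hk'
    have a3 : (0 : ℝ) ≤ k := by positivity
    have a4 : (0 : ℝ) ≤ k' := by positivity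
    rw [abs_lt]; constructor <;> linarith)
  constructor
  · have h2 : (k : ℝ) = k' := by linarith [h1.1]
    exact_mod_cast h2
  · exact_mod_cast h1.2

lemma local_right {l : List ℤ} {k : ℤ} {x : ℝ} (hx : |x - (k : ℝ) / 20| < 1 / 20)
    (h : (k : ℝ) ≤ 20 * x) : gr l x = W l k + (20 * x - k) * (W l (k + 1) - W l k) := by
  rw [abs_lt] at hx
  exact gr_on l k x h (by linarith)

lemma local_left {l : List ℤ} {k : ℤ} {x : ℝ} (hx : |x - (k : ℝ) / 20| < 1 / 20)
    (h : 20 * x ≤ (k : ℝ)) : gr l x = W l k + (k - 20 * x) * (W l (k - 1) - W l k) := by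
  rw [abs_lt] at hx
  have := gr_on l (k - 1) x (by push_cast; linarith) (by push_cast; linarith)
  rw [this]
  have h2 : k - 1 + 1 = k := by ring
  rw [h2]
  push_cast
  ring

lemma crossing_of_crossAt {l l' : List ℤ} {k : ℕ} (h : crossAt l l' k) :
    IsCrossing (wire l) (wire l') (pt k (W l k)) := by
  obtain ⟨h0, h⟩ := h
  -- one direction
  have key : ∀ l l' : List ℤ, W l k = W l' k → W l (k - 1) = W l k - 1 → W l (k + 1) = W l k + 1 →
      W l' (k - 1) = W l k + 1 → W l' (k + 1) = W l k - 1 →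
      IsCrossing (wire l) (wire l') (pt k (W l k)) := by
    intro l l' h0 h1 h2 h3 h4
    apply curve_crossing (gr_anti l) (gr_anti l')
    · intro x hx
      have hx' : |x - ((k : ℤ) : ℝ) / 20| < 1 / 20 := by rw [Int.cast_natCast]; exact hx
      rcases le_total (((k : ℤ) : ℝ)) (20 * x) with h | h
      · rw [local_right hx' h, h2]; push_cast; ring
      · rw [local_left hx' h, h1]; push_cast; ring
    · intro x hx
      have hx' : |x - ((k : ℤ) : ℝ) / 20| < 1 / 20 := by rw [Int.cast_natCast]; exact hx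
      rcases le_total (((k : ℤ) : ℝ)) (20 * x) with h | h
      · rw [local_right hx' h, h4, ← h0]; push_cast; ring
      · rw [local_left hx' h, h3, ← h0]; push_cast; ring
  rcases h with ⟨h1, h2, h3, h4⟩ | ⟨h1, h2, h3, h4⟩
  · exact key l l' h0 h1 h2 h3 h4
  · have := (key l' l h0.symm (by rw [h3, h0]) (by rw [h4, h0]) (by rw [h1, h0]) (by rw [h2, h0])).symm
    rwa [← h0] at this

lemma contact_of_touchAt {l l' : List ℤ} {k : ℕ} (h : touchAt l l' k) :
    IsContact (wire l) (wire l') (pt k (W l k)) := by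
  obtain ⟨h0, h⟩ := h
  have key : ∀ l l' : List ℤ, W l k = W l' k → W l (k - 1) = W l k - 1 → W l (k + 1) = W l k - 1 →
      W l' (k - 1) = W l k + 1 → W l' (k + 1) = W l k + 1 →
      IsContact (wire l) (wire l') (pt k (W l k)) := by
    intro l l' h0 h1 h2 h3 h4
    apply curve_contact (gr_anti l) (gr_anti l')
    · intro x hx
      have hx' : |x - ((k : ℤ) : ℝ) / 20| < 1 / 20 := by rw [Int.cast_natCast]; exact hx
      have e : 20 * (x - (k : ℝ) / 20) = 20 * x - k := by ring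
      rw [e]
      rcases le_total (((k : ℤ) : ℝ)) (20 * x) with h | h
      · rw [local_right hx' h, h2]; push_cast at h ⊢
        rw [abs_of_nonneg (by linarith)]; ring
      · rw [local_left hx' h, h1]; push_cast at h ⊢
        rw [abs_of_nonpos (by linarith)]; ring
    · intro x hx
      have hx' : |x - ((k : ℤ) : ℝ) / 20| < 1 / 20 := by rw [Int.cast_natCast]; exact hx
      have e : 20 * (x - (k : ℝ) / 20) = 20 * x - k := by ring
      rw [e]
      rcases le_total (((k : ℤ) : ℝ)) (20 * x) with h | h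
      · rw [local_right hx' h, h4, ← h0]; push_cast at h ⊢
        rw [abs_of_nonneg (by linarith)]; ring
      · rw [local_left hx' h, h3, ← h0]; push_cast at h ⊢
        rw [abs_of_nonpos (by linarith)]; ring
  rcases h with ⟨h1, h2, h3, h4⟩ | ⟨h1, h2, h3, h4⟩
  · exact key l l' h0 h1 h2 h3 h4
  · have := (key l' l h0.symm (by rw [h3, h0]) (by rw [h4, h0]) (by rw [h1, h0]) (by rw [h2, h0])).symm
    rwa [← h0] at this

lemma pt_mem_wire {l : List ℤ} {k : ℕ} {c : ℤ} : pt k c ∈ wire l ↔ c = W l k := by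
  unfold pt wire
  rw [mem_curve (gr_anti l)]
  have h := gr_on l k ((k : ℝ) / 20) (by push_cast; linarith) (by push_cast; linarith)
  have h1 : 20 * ((k : ℝ) / 20) = k := by ring
  rw [h, h1]
  push_cast
  rw [sub_self, zero_mul, add_zero]
  exact Int.cast_inj

/-- every point has a representative in the fundamental strip -/
lemma exists_rep (p : Moebius) : ∃ (x y : ℝ) (k : ℕ), p = proj (x, y) ∧ k < 20 ∧ (k : ℝ) ≤ 20 * x ∧
    20 * x < k + 1 := by
  obtain ⟨⟨x, y⟩, rfl⟩ := proj_surj p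
  obtain ⟨m, hm⟩ : ∃ m : ℤ, m = -⌊x⌋ := ⟨_, rfl⟩
  have h1 := Int.floor_le x
  have h2 := Int.lt_floor_add_one x
  have e : (⌊x⌋ : ℝ) = -(m : ℝ) := by rw [hm]; push_cast; ring
  rw [e] at h1 h2
  have h3 : proj (x, y) = proj (x + m, (-1) ^ m * y) := by
    rw [proj_eq_iff]
    exact ⟨m, rfl, rfl⟩
  have hn : 0 ≤ 20 * (x + m) := by linarith
  refine ⟨x + m, (-1) ^ m * y, ⌊20 * (x + m)⌋₊, h3, ?_, Nat.floor_le hn, Nat.lt_floor_add_one _⟩
  rw [Nat.floor_lt hn]
  push_cast
  linarith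

end Pool.Agent.T2H78.Flip
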