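import Mathlib
import Pool.Agent.T2H78.FlipWire

set_option autoImplicit false

open Set Topology

namespace Pool.Agent.T2H78.Flip

/-- a family of four wires -/
abbrev Arr := Fin 4 → List ℤ

/-- the curves of the family -/
noncomputable def fam (L : Arr) : Set (Set Moebius) := range fun i => wire (L i)

/-- local conditions at the columns -/
def GoodAt (L : Arr) (k : ℕ) : Prop :=
  (∀ i j, i ≠ j → W (L i) k = W (L j) k → crossAt (L i) (L j) k ∨ touchAt (L i) (L j) k) ∧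
  (∀ i j, i ≠ j → 0 ≤ (W (L i) k - W (L j) k) * (W (L i) (k + 1) - W (L j) (k + 1)) ∧
    ¬ (W (L i) k = W (L j) k ∧ W (L i) (k + 1) = W (L j) (k + 1))) ∧
  (∀ i j l, i ≠ j → j ≠ l → i ≠ l → ¬ (W (L i) k = W (L j) k ∧ W (L i) k = W (L l) k))

instance (L : Arr) (k : ℕ) : Decidable (GoodAt L k) := by unfold GoodAt; infer_instance

/-- the finite conditions for an arrangement -/
def Good (L : Arr) : Prop :=
  (∀ k : ℕ, k < 20 → GoodAt L k) ∧
  (∀ i j, i ≠ j → ∃ k : ℕ, k < 20 ∧ (crossAt (L i) (L j) k ∧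
    ∀ k' : ℕ, k' < 20 → crossAt (L i) (L j) k' → k' = k))

instance (L : Arr) : Decidable (Good L) := by unfold Good; infer_instance

section
variable {L : Arr} (hL : Good L)
include hL

lemma common_pt {i j : Fin 4} (hij : i ≠ j) {p : Moebius} (hi : p ∈ wire (L i))
    (hj : p ∈ wire (L j)) : ∃ k : ℕ, k < 20 ∧ p = pt k (W (L i) k) ∧ W (L i) k = W (L j) k := by
  obtain ⟨x, y, k, rfl, hk, h1, h2⟩ := exists_rep p
  unfold wire at hi hj
  rw [mem_curve (gr_anti _), gr_on _ (k : ℤ) x (by push_cast; exact h1)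
    (by push_cast; exact h2.le)] at hi hj
  obtain ⟨-, hg, -⟩ := hL.1 k hk
  obtain ⟨hg1, hg2⟩ := hg i j hij
  obtain ⟨d0, hd0⟩ : ∃ d : ℝ, d = (W (L i) k : ℝ) - W (L j) k := ⟨_, rfl⟩
  obtain ⟨d1, hd1⟩ : ∃ d : ℝ, d = (W (L i) (k + 1) : ℝ) - W (L j) (k + 1) := ⟨_, rfl⟩
  have hprod : 0 ≤ d0 * d1 := by
    rw [hd0, hd1]; exact_mod_cast hg1
  have hlin : d0 + (20 * x - k) * (d1 - d0) = 0 := by
    rw [hd0, hd1]
    push_cast at hi hj
    linarith
  obtain ⟨s, hs⟩ : ∃ s : ℝ, s = 20 * x - k := ⟨_, rfl⟩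
  rw [← hs] at hlin
  have hs0 : 0 ≤ s := by linarith
  have hs1 : s < 1 := by linarith
  -- d0 = 0
  have e0 : d0 = 0 := by
    by_contra hne
    have h3 : 0 < d0 * d0 := mul_self_pos.2 hne
    have h4 : d0 * (d0 + s * (d1 - d0)) = 0 := by rw [hlin]; ring
    have h5 : d0 * (d0 + s * (d1 - d0)) = (1 - s) * (d0 * d0) + s * (d0 * d1) := by ring
    have h6 : 0 < (1 - s) * (d0 * d0) := mul_pos (by linarith) h3
    have h7 := mul_nonneg hs0 hprod
    linarith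
  have e1 : d1 ≠ 0 := by
    intro h3
    apply hg2
    rw [hd0, sub_eq_zero] at e0
    rw [hd1, sub_eq_zero] at h3
    exact ⟨by exact_mod_cast e0, by exact_mod_cast h3⟩
  have es : s = 0 := by
    rw [e0] at hlin
    have : s * d1 = 0 := by linarith
    rcases mul_eq_zero.1 this with h | h
    · exact h
    · exact absurd h e1
  refine ⟨k, hk, ?_, ?_⟩
  · have hx : x = (k : ℝ) / 20 := by
      rw [es] at hs; linarith
    unfold pt
    rw [hi, ← hx]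
    congr 2
    push_cast at hs ⊢
    rw [← hs, es]; ring
  · rw [hd0, sub_eq_zero] at e0
    exact_mod_cast e0

lemma type_pt {i j : Fin 4} (hij : i ≠ j) {p : Moebius} (hi : p ∈ wire (L i))
    (hj : p ∈ wire (L j)) : ∃ k : ℕ, k < 20 ∧ p = pt k (W (L i) k) ∧
      (crossAt (L i) (L j) k ∨ touchAt (L i) (L j) k) := by
  obtain ⟨k, hk, hp, h⟩ := common_pt hL hij hi hj
  exact ⟨k, hk, hp, (hL.1 k hk).1 i j hij h⟩

omit hL in
lemma not_cross_self {A : Set Moebius} {p : Moebius} (h : IsCrossing A A p) : False := by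
  obtain ⟨e, hp, h0, hq⟩ := h
  have h1 : ((0, 0) : ℝ × ℝ) ∈ e.target := by rw [← h0]; exact e.map_source hp
  obtain ⟨t, ht, htb⟩ := Metric.isOpen_iff.1 e.open_target _ h1
  have h3 : ((t / 2, 0) : ℝ × ℝ) ∈ Metric.ball ((0, 0) : ℝ × ℝ) t := by
    rw [Metric.mem_ball, Prod.dist_eq]
    simp only [Real.dist_eq, sub_zero, abs_zero]
    rw [abs_of_pos (by linarith)]
    exact max_lt (by linarith) ht
  have h4 := htb h3
  have h5 := hq _ (e.map_target h4)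
  rw [e.right_inv h4] at h5
  have h6 := h5.2.1 (h5.1.2 rfl)
  simp only at h6
  linarith

lemma wire_ne {i j : Fin 4} (hij : i ≠ j) : wire (L i) ≠ wire (L j) := by
  intro h
  obtain ⟨k, hk, hc, -⟩ := hL.2 i j hij
  have := crossing_of_crossAt hc
  rw [h] at this
  exact not_cross_self this

lemma wire_inj : Function.Injective fun i => wire (L i) := by
  intro i j h
  by_contra hij
  exact wire_ne hL hij h

lemma cross_iff {i j : Fin 4} (hij : i ≠ j) {p : Moebius} :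
    IsCrossing (wire (L i)) (wire (L j)) p ↔
      ∃ k : ℕ, k < 20 ∧ p = pt k (W (L i) k) ∧ crossAt (L i) (L j) k := by
  constructor
  · intro h
    obtain ⟨k, hk, rfl, h1 | h1⟩ := type_pt hL hij h.mem.1 h.mem.2
    · exact ⟨k, hk, rfl, h1⟩
    · exact (not_both h (contact_of_touchAt h1)).elim
  · rintro ⟨k, hk, rfl, h⟩
    exact crossing_of_crossAt h

lemma touch_iff {i j : Fin 4} (hij : i ≠ j) {p : Moebius} :
    IsContact (wire (L i)) (wire (L j)) p ↔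
      ∃ k : ℕ, k < 20 ∧ p = pt k (W (L i) k) ∧ touchAt (L i) (L j) k := by
  constructor
  · intro h
    obtain ⟨k, hk, rfl, h1 | h1⟩ := type_pt hL hij h.mem.1 h.mem.2
    · exact (not_both (crossing_of_crossAt h1) h).elim
    · exact ⟨k, hk, rfl, h1⟩
  · rintro ⟨k, hk, rfl, h⟩
    exact contact_of_touchAt h

lemma fam_arrangement : IsArrangement (fam L) where
  finite := finite_range _
  pseudoline := by
    rintro _ ⟨i, rfl⟩
    exact wire_pseudoline _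
  crossing := by
    rintro _ ⟨i, rfl⟩ _ ⟨j, rfl⟩ hAB
    have hij : i ≠ j := fun h => hAB (by rw [h])
    obtain ⟨k, hk, hc, huniq⟩ := hL.2 i j hij
    refine ⟨pt k (W (L i) k), crossing_of_crossAt hc, ?_⟩
    intro p hp
    obtain ⟨k', hk', rfl, hc'⟩ := (cross_iff hL hij).1 hp
    rw [huniq k' hk' hc']
  common := by
    rintro _ ⟨i, rfl⟩ _ ⟨j, rfl⟩ hAB
    have hij : i ≠ j := fun h => hAB (by rw [h])
    constructor
    · refine ((Finset.range 20).finite_toSet.image fun k => pt k (W (L i) k)).subset ?_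
      rintro p ⟨h1, h2⟩
      obtain ⟨k, hk, rfl, -⟩ := type_pt hL hij h1 h2
      exact ⟨k, by simpa using hk, rfl⟩
    · rintro p ⟨h1, h2⟩
      obtain ⟨k, hk, rfl, h | h⟩ := type_pt hL hij h1 h2
      · exact Or.inl (crossing_of_crossAt h)
      · exact Or.inr (contact_of_touchAt h)
  simple := by
    rintro _ ⟨i, rfl⟩ _ ⟨j, rfl⟩ _ ⟨l, rfl⟩ hAB hBC hAC p ⟨h1, h2, h3⟩
    have hij : i ≠ j := fun h => hAB (by rw [h])
    have hjl : j ≠ l := fun h => hBC (by rw [h])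
    have hil : i ≠ l := fun h => hAC (by rw [h])
    obtain ⟨k, hk, rfl, e1⟩ := common_pt hL hij h1 h2
    have e2 := pt_mem_wire.1 h3
    exact (hL.1 k hk).2.2 i j l hij hjl hil ⟨e1, e2⟩

/-- the contact points -/
lemma contacts_fam : contacts (fam L) =
    {p | ∃ k : ℕ, k < 20 ∧ ∃ i j, i ≠ j ∧ touchAt (L i) (L j) k ∧ p = pt k (W (L i) k)} := by
  ext p
  constructor
  · rintro ⟨_, ⟨i, rfl⟩, _, ⟨j, rfl⟩, hAB, hc⟩
    have hij : i ≠ j := fun h => hAB (by rw [h])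
    obtain ⟨k, hk, hp, h⟩ := (touch_iff hL hij).1 hc
    exact ⟨k, hk, i, j, hij, h, hp⟩
  · rintro ⟨k, hk, i, j, hij, h, rfl⟩
    exact ⟨_, ⟨i, rfl⟩, _, ⟨j, rfl⟩, wire_ne hL hij, contact_of_touchAt h⟩

/-- the vertices -/
lemma vertices_fam : crossings (fam L) ∪ contacts (fam L) =
    {p | ∃ k : ℕ, k < 20 ∧ ∃ i j, i ≠ j ∧ W (L i) k = W (L j) k ∧ p = pt k (W (L i) k)} := by
  ext p
  constructor
  · rintro (⟨_, ⟨i, rfl⟩, _, ⟨j, rfl⟩, hAB, hc⟩ | ⟨_, ⟨i, rfl⟩, _, ⟨j, rfl⟩, hAB, hc⟩)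
    · have hij : i ≠ j := fun h => hAB (by rw [h])
      obtain ⟨k, hk, hp, h⟩ := (cross_iff hL hij).1 hc
      exact ⟨k, hk, i, j, hij, h.1, hp⟩
    · have hij : i ≠ j := fun h => hAB (by rw [h])
      obtain ⟨k, hk, hp, h⟩ := (touch_iff hL hij).1 hc
      exact ⟨k, hk, i, j, hij, h.1, hp⟩
  · rintro ⟨k, hk, i, j, hij, h, rfl⟩
    rcases (hL.1 k hk).1 i j hij h with h1 | h1
    · exact Or.inl ⟨_, ⟨i, rfl⟩, _, ⟨j, rfl⟩, wire_ne hL hij, crossing_of_crossAt h1⟩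
    · exact Or.inr ⟨_, ⟨i, rfl⟩, _, ⟨j, rfl⟩, wire_ne hL hij, contact_of_touchAt h1⟩

end

/-- every piece of a wire of `L` is a piece of a wire of `L'` -/
def SubSupp (L L' : Arr) : Prop :=
  ∀ k : ℕ, k < 20 → (∀ i, ∃ j, W (L i) (k : ℕ) = W (L' j) (k : ℕ) ∧
      W (L i) ((k : ℕ) + 1) = W (L' j) ((k : ℕ) + 1)) ∧
    ∀ i j, i ≠ j → W (L i) (k : ℕ) = W (L j) (k : ℕ) → ∃ i' j', i' ≠ j' ∧
      W (L' i') (k : ℕ) = W (L i) (k : ℕ) ∧ W (L' j') (k : ℕ) = W (L i) (k : ℕ)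

instance (L L' : Arr) : Decidable (SubSupp L L') := by unfold SubSupp; infer_instance

lemma sub_union {L L' : Arr} (h : SubSupp L L') : ⋃₀ fam L ⊆ ⋃₀ fam L' := by
  rintro p ⟨_, ⟨i, rfl⟩, hp⟩
  obtain ⟨x, y, k, rfl, hk, h1, h2⟩ := exists_rep p
  obtain ⟨j, e1, e2⟩ := (h k hk).1 i
  refine ⟨_, ⟨j, rfl⟩, ?_⟩
  simp only [wire] at hp ⊢
  rw [mem_curve (gr_anti _), gr_on _ (k : ℤ) x (by push_cast; exact h1)
    (by push_cast; exact h2.le)] at hp ⊢
  rw [hp, e1, e2]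

lemma sub_vertices {L L' : Arr} (hL : Good L) (hL' : Good L') (h : SubSupp L L') :
    crossings (fam L) ∪ contacts (fam L) ⊆ crossings (fam L') ∪ contacts (fam L') := by
  rw [vertices_fam hL, vertices_fam hL']
  rintro p ⟨k, hk, i, j, hij, e, rfl⟩
  obtain ⟨i', j', hij', e1, e2⟩ := (h k hk).2 i j hij e
  exact ⟨k, hk, i', j', hij', by rw [e1, e2], by rw [e1]⟩

lemma support_eq {L L' : Arr} (hL : Good L) (hL' : Good L') (h : SubSupp L L')
    (h' : SubSupp L' L) : support (fam L) = support (fam L') := by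
  unfold support
  rw [Prod.mk.injEq]
  exact ⟨(sub_union h).antisymm (sub_union h'),
    (sub_vertices hL hL' h).antisymm (sub_vertices hL' hL h')⟩

/-- the finite conditions for a flip that exchanges the wires `i, j` on `[k₁, k₂]` -/
def FlipOK (L L' : Arr) (i j : Fin 4) (k₁ k₂ : ℕ) : Prop :=
  i ≠ j ∧ k₁ < k₂ ∧ k₂ < 20 ∧
  (∀ k : ℕ, k < 21 → k₁ ≤ k → k ≤ k₂ → W (L' j) (k : ℕ) = W (L i) (k : ℕ) ∧
    W (L' i) (k : ℕ) = W (L j) (k : ℕ)) ∧
  (∀ k : ℕ, k < 40 → k₂ ≤ k → k ≤ k₁ + 20 → W (L' j) (k : ℕ) = W (L j) (k : ℕ) ∧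
    W (L' i) (k : ℕ) = W (L i) (k : ℕ)) ∧
  (∀ l, l ≠ i → l ≠ j → L' l = L l)

instance (L L' : Arr) (i j : Fin 4) (k₁ k₂ : ℕ) : Decidable (FlipOK L L' i j k₁ k₂) := by
  unfold FlipOK; infer_instance

lemma arc_eq_of {l l' : List ℤ} {k₁ k₂ : ℕ}
    (h : ∀ k, k₁ ≤ k → k ≤ k₂ → W l (k : ℕ) = W l' (k : ℕ)) :
    arc (gr l) ((k₁ : ℝ) / 20) ((k₂ : ℝ) / 20) = arc (gr l') ((k₁ : ℝ) / 20) ((k₂ : ℝ) / 20) := by
  apply arc_congr
  intro x hx
  have hx1 : (k₁ : ℝ) ≤ 20 * x := by linarith [hx.1]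
  have hx2 : 20 * x ≤ (k₂ : ℝ) := by linarith [hx.2]
  have hn : 0 ≤ 20 * x := le_trans (by positivity) hx1
  rcases hx2.lt_or_eq with h2 | h2
  · obtain ⟨k, hk⟩ : ∃ k, k = ⌊20 * x⌋₊ := ⟨_, rfl⟩
    have a1 : (k : ℝ) ≤ 20 * x := by rw [hk]; exact Nat.floor_le hn
    have a2 : 20 * x < (k : ℝ) + 1 := by rw [hk]; exact Nat.lt_floor_add_one _
    have b1 : k₁ ≤ k := by rw [hk]; exact Nat.le_floor hx1
    have b2 : k < k₂ := by
      have : (k : ℝ) < k₂ := lt_of_le_of_lt a1 h2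
      exact_mod_cast this
    rw [gr_on l (k : ℤ) x (by push_cast; exact a1) (by push_cast; exact a2.le),
      gr_on l' (k : ℤ) x (by push_cast; exact a1) (by push_cast; exact a2.le), h k b1 (by omega)]
    have e := h (k + 1) (by omega) (by omega)
    push_cast at e
    rw [e]
  · rw [gr_on l (k₂ : ℤ) x (by push_cast; linarith) (by push_cast; linarith),
      gr_on l' (k₂ : ℤ) x (by push_cast; linarith) (by push_cast; linarith)]
    have hk : k₁ ≤ k₂ := by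
      have : (k₁ : ℝ) ≤ k₂ := by linarith
      exact_mod_cast this
    rw [h k₂ hk le_rfl, h2]
    push_cast
    ring

lemma flip_of {L L' : Arr} (hL : Good L) {i j : Fin 4} {k₁ k₂ : ℕ}
    (h : FlipOK L L' i j k₁ k₂) :
    (touchAt (L i) (L j) k₁ → crossAt (L i) (L j) k₂ → crossAt (L' j) (L' i) k₁ →
      touchAt (L' j) (L' i) k₂ → IsFlip (fam L) (fam L') (pt k₁ (W (L i) k₁))) ∧
    (crossAt (L i) (L j) k₁ → touchAt (L i) (L j) k₂ → touchAt (L' j) (L' i) k₁ →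
      crossAt (L' j) (L' i) k₂ → IsFlip (fam L) (fam L') (pt k₂ (W (L i) k₂))) := by
  obtain ⟨hij, h12, h220, hin, hout, hoth⟩ := h
  have q1 : (k₁ : ℝ) / 20 < (k₂ : ℝ) / 20 := by
    have : (k₁ : ℝ) < k₂ := by exact_mod_cast h12
    linarith
  have q2 : (k₂ : ℝ) / 20 < (k₁ : ℝ) / 20 + 1 := by
    have : (k₂ : ℝ) < 20 := by exact_mod_cast h220
    have : (0 : ℝ) ≤ k₁ := by positivity
    linarith
  have q3 : ((k₁ + 20 : ℕ) : ℝ) / 20 = (k₁ : ℝ) / 20 + 1 := by push_cast; ring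
  -- the arcs
  have hval : ∀ (l : List ℤ) (k : ℕ), gr l ((k : ℝ) / 20) = W l k := by
    intro l k
    have := (pt_mem_wire (l := l) (k := k) (c := W l k)).2 rfl
    unfold pt wire at this
    rw [mem_curve (gr_anti l)] at this
    exact this.symm
  have nA : arc (gr (L' j)) ((k₁ : ℝ) / 20) ((k₂ : ℝ) / 20) =
      arc (gr (L i)) ((k₁ : ℝ) / 20) ((k₂ : ℝ) / 20) :=
    arc_eq_of fun k a b => (hin k (by omega) a b).1
  have nB : arc (gr (L' i)) ((k₁ : ℝ) / 20) ((k₂ : ℝ) / 20) =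
      arc (gr (L j)) ((k₁ : ℝ) / 20) ((k₂ : ℝ) / 20) :=
    arc_eq_of fun k a b => (hin k (by omega) a b).2
  have nA' : arc (gr (L' j)) ((k₂ : ℝ) / 20) ((k₁ : ℝ) / 20 + 1) =
      arc (gr (L j)) ((k₂ : ℝ) / 20) ((k₁ : ℝ) / 20 + 1) := by
    rw [← q3]
    exact arc_eq_of fun k a b => (hout k (by omega) a b).1
  have nB' : arc (gr (L' i)) ((k₂ : ℝ) / 20) ((k₁ : ℝ) / 20 + 1) =
      arc (gr (L i)) ((k₂ : ℝ) / 20) ((k₁ : ℝ) / 20 + 1) := by
    rw [← q3]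
    exact arc_eq_of fun k a b => (hout k (by omega) a b).2
  have uA : wire (L i) = arc (gr (L i)) ((k₁ : ℝ) / 20) ((k₂ : ℝ) / 20) ∪
      arc (gr (L i)) ((k₂ : ℝ) / 20) ((k₁ : ℝ) / 20 + 1) :=
    (arc_union (gr_anti _) q1.le q2.le).symm
  have uB : wire (L j) = arc (gr (L j)) ((k₁ : ℝ) / 20) ((k₂ : ℝ) / 20) ∪
      arc (gr (L j)) ((k₂ : ℝ) / 20) ((k₁ : ℝ) / 20 + 1) :=
    (arc_union (gr_anti _) q1.le q2.le).symm
  have uA' : arc (gr (L i)) ((k₁ : ℝ) / 20) ((k₂ : ℝ) / 20) ∪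
      arc (gr (L j)) ((k₂ : ℝ) / 20) ((k₁ : ℝ) / 20 + 1) = wire (L' j) := by
    rw [← nA, ← nA']
    exact arc_union (gr_anti _) q1.le q2.le
  have uB' : arc (gr (L j)) ((k₁ : ℝ) / 20) ((k₂ : ℝ) / 20) ∪
      arc (gr (L i)) ((k₂ : ℝ) / 20) ((k₁ : ℝ) / 20 + 1) = wire (L' i) := by
    rw [← nB, ← nB']
    exact arc_union (gr_anti _) q1.le q2.le
  -- the new family
  have hfam : fam L' = (fam L \ {wire (L i), wire (L j)}) ∪ {wire (L' j), wire (L' i)} := by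
    ext C
    constructor
    · rintro ⟨l, rfl⟩
      by_cases h1 : l = i
      · right; simp [h1]
      · by_cases h2 : l = j
        · right; simp [h2]
        · left
          simp only [hoth l h1 h2]
          refine ⟨⟨l, rfl⟩, ?_⟩
          simp only [mem_insert_iff, mem_singleton_iff, not_or]
          exact ⟨wire_ne hL h1, wire_ne hL h2⟩
    · rintro (⟨⟨l, rfl⟩, h1⟩ | h1)
      · simp only [mem_insert_iff, mem_singleton_iff, not_or] at h1
        have h2 : l ≠ i := fun h => h1.1 (by simp only [h])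
        have h3 : l ≠ j := fun h => h1.2 (by simp only [h])
        exact ⟨l, by simp only [hoth l h2 h3]⟩
      · simp only [mem_insert_iff, mem_singleton_iff] at h1
        rcases h1 with rfl | rfl
        · exact ⟨j, rfl⟩
        · exact ⟨i, rfl⟩
  have f1 : ∀ l : List ℤ, proj ((k₁ : ℝ) / 20, gr l ((k₁ : ℝ) / 20)) = pt k₁ (W l k₁) := by
    intro l; unfold pt; rw [hval]
  have f2 : ∀ l : List ℤ, proj ((k₂ : ℝ) / 20, gr l ((k₂ : ℝ) / 20)) = pt k₂ (W l k₂) := by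
    intro l; unfold pt; rw [hval]
  have f3 : ∀ l : List ℤ, proj ((k₁ : ℝ) / 20 + 1, gr l ((k₁ : ℝ) / 20 + 1)) = pt k₁ (W l k₁) := by
    intro l; rw [proj_add_one (gr_anti l), f1]
  have a1 : ∀ l, IsArc (arc (gr l) ((k₁ : ℝ) / 20) ((k₂ : ℝ) / 20)) (pt k₁ (W l k₁))
      (pt k₂ (W l k₂)) := by
    intro l
    have := arc_isArc (gr_continuous l) q1 q2
    rwa [f1, f2] at this
  have a2 : ∀ l, IsArc (arc (gr l) ((k₂ : ℝ) / 20) ((k₁ : ℝ) / 20 + 1)) (pt k₁ (W l k₁))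
      (pt k₂ (W l k₂)) := by
    intro l
    have := (arc_isArc (gr_continuous l) q2 (by linarith : (k₁ : ℝ) / 20 + 1 < (k₂ : ℝ) / 20 + 1)).rev
    rwa [f3, f2] at this
  have main : W (L i) k₁ = W (L j) k₁ → W (L i) k₂ = W (L j) k₂ →
      ∀ v w : Moebius, (v = pt k₁ (W (L i) k₁) ∧ w = pt k₂ (W (L i) k₂)) ∨
        (v = pt k₂ (W (L i) k₂) ∧ w = pt k₁ (W (L i) k₁)) →
      IsContact (wire (L i)) (wire (L j)) v → IsCrossing (wire (L i)) (wire (L j)) w →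
      IsCrossing (wire (L' j)) (wire (L' i)) v → IsContact (wire (L' j)) (wire (L' i)) w →
      IsFlip (fam L) (fam L') v := by
    intro e1 e2 v w hvw c1 c2 c3 c4
    have harc : ∀ a : Set Moebius, IsArc a (pt k₁ (W (L i) k₁)) (pt k₂ (W (L i) k₂)) →
        IsArc a v w := by
      intro a ha
      rcases hvw with ⟨rfl, rfl⟩ | ⟨rfl, rfl⟩
      · exact ha
      · exact ha.rev
    have hpair : ({v, w} : Set Moebius) = {pt k₁ (W (L i) k₁), pt k₂ (W (L i) k₂)} := by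
      rcases hvw with ⟨rfl, rfl⟩ | ⟨rfl, rfl⟩
      · rfl
      · exact pair_comm _ _
    have g1 : gr (L i) ((k₁ : ℝ) / 20) = gr (L j) ((k₁ : ℝ) / 20) := by rw [hval, hval, e1]
    have g2 : gr (L i) ((k₂ : ℝ) / 20) = gr (L j) ((k₂ : ℝ) / 20) := by rw [hval, hval, e2]
    refine ⟨wire (L i), ⟨i, rfl⟩, wire (L j), ⟨j, rfl⟩, wire_ne hL hij, c1, w, c2,
      arc (gr (L i)) ((k₁ : ℝ) / 20) ((k₂ : ℝ) / 20),
      arc (gr (L i)) ((k₂ : ℝ) / 20) ((k₁ : ℝ) / 20 + 1),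
      arc (gr (L j)) ((k₁ : ℝ) / 20) ((k₂ : ℝ) / 20),
      arc (gr (L j)) ((k₂ : ℝ) / 20) ((k₁ : ℝ) / 20 + 1),
      harc _ (a1 _), harc _ (a2 _), harc _ ?_, harc _ ?_, uA, uB, ?_, ?_, ?_, ?_, ?_, ?_, ?_⟩
    · have := a1 (L j)
      rwa [← e1, ← e2] at this
    · have := a2 (L j)
      rwa [← e1, ← e2] at this
    · rw [arc_inter (gr_anti _) (gr_anti _) q1 q2 rfl rfl, f1, f2, hpair]
    · rw [arc_inter (gr_anti _) (gr_anti _) q1 q2 rfl rfl, f1, f2, hpair, e1, e2]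
    · rw [arc_inter (gr_anti _) (gr_anti _) q1 q2 g1 g2, f1, f2, hpair]
    · rw [arc_inter (gr_anti _) (gr_anti _) q1 q2 g1.symm g2.symm, f1, f2, hpair, e1, e2]
    · rw [uA', uB']; exact c3
    · rw [uA', uB']; exact c4
    · rw [uA', uB']; exact hfam
  have v1 : W (L' j) k₁ = W (L i) k₁ := (hin k₁ (by omega) le_rfl h12.le).1
  have v2 : W (L' j) k₂ = W (L i) k₂ := (hin k₂ (by omega) h12.le le_rfl).1
  constructor
  · intro t1 t2 t3 t4
    have p1 := crossing_of_crossAt t3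
    have p2 := contact_of_touchAt t4
    rw [v1] at p1
    rw [v2] at p2
    exact main t1.1 t2.1 _ _ (Or.inl ⟨rfl, rfl⟩) (contact_of_touchAt t1) (crossing_of_crossAt t2)
      p1 p2
  · intro t1 t2 t3 t4
    have p1 := contact_of_touchAt t3
    have p2 := crossing_of_crossAt t4
    rw [v1] at p1
    rw [v2] at p2
    exact main t1.1 t2.1 _ _ (Or.inr ⟨rfl, rfl⟩) (contact_of_touchAt t2) (crossing_of_crossAt t1)
      p2 p1

end Pool.Agent.T2H78.Flip
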