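import Mathlib
import Pool.Agent.T2H78.FlipFam

set_option autoImplicit false

open Set Topology

namespace Pool.Agent.T2H78.Flip

def L0 : Arr := ![
  [-3, -3, -3, -2, -1, 0, -1, -1, -1, 0, 1, 2, 3, 3, 3, 3, 3, 3, 3, 2],
  [-1, 0, -1, -2, -3, -3, -3, -3, -3, -3, -3, -3, -3, -2, -1, 0, 1, 1, 1, 2],
  [1, 0, 1, 1, 1, 0, 1, 2, 3, 3, 3, 2, 1, 1, 1, 0, -1, -2, -1, -1],
  [3, 3, 3, 3, 3, 3, 3, 2, 1, 0, -1, -1, -1, -2, -3, -3, -3, -2, -3, -3]]

def L1 : Arr := ![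
  [-3, -3, -3, -2, -1, 0, 1, 2, 3, 3, 3, 2, 3, 3, 3, 3, 3, 3, 3, 2],
  [-1, 0, -1, -2, -3, -3, -3, -3, -3, -3, -3, -3, -3, -2, -1, 0, 1, 1, 1, 2],
  [1, 0, 1, 1, 1, 0, -1, -1, -1, 0, 1, 2, 1, 1, 1, 0, -1, -2, -1, -1],
  [3, 3, 3, 3, 3, 3, 3, 2, 1, 0, -1, -1, -1, -2, -3, -3, -3, -2, -3, -3]]

def L2 : Arr := ![
  [-3, -3, -3, -2, -1, 0, 1, 2, 3, 3, 3, 2, 3, 3, 3, 3, 3, 3, 3, 2],
  [-1, 0, -1, -2, -3, -3, -3, -3, -3, -3, -3, -3, -3, -2, -1, 0, 1, 1, 1, 2],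
  [1, 0, 1, 1, 1, 0, -1, -1, -1, 0, -1, -1, -1, -2, -3, -3, -3, -2, -1, -1],
  [3, 3, 3, 3, 3, 3, 3, 2, 1, 0, 1, 2, 1, 1, 1, 0, -1, -2, -3, -3]]

def L3 : Arr := ![
  [-3, -3, -3, -2, -1, 0, 1, 2, 3, 3, 3, 2, 3, 3, 3, 3, 3, 3, 3, 2],
  [-1, 0, 1, 1, 1, 0, -1, -1, -1, 0, -1, -1, -1, -2, -1, 0, 1, 1, 1, 2],
  [1, 0, -1, -2, -3, -3, -3, -3, -3, -3, -3, -3, -3, -2, -3, -3, -3, -2, -1, -1],
  [3, 3, 3, 3, 3, 3, 3, 2, 1, 0, 1, 2, 1, 1, 1, 0, -1, -2, -3, -3]]

def L4 : Arr := ![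
  [-3, -3, -3, -2, -1, 0, -1, -1, -1, 0, -1, -1, -1, -2, -1, 0, 1, 1, 1, 2],
  [-1, 0, 1, 1, 1, 0, 1, 2, 3, 3, 3, 2, 3, 3, 3, 3, 3, 3, 3, 2],
  [1, 0, -1, -2, -3, -3, -3, -3, -3, -3, -3, -3, -3, -2, -3, -3, -3, -2, -1, -1],
  [3, 3, 3, 3, 3, 3, 3, 2, 1, 0, 1, 2, 1, 1, 1, 0, -1, -2, -3, -3]]

set_option maxRecDepth 100000 in
lemma good0 : Good L0 := by decide +kernel

set_option maxRecDepth 100000 in
lemma good1 : Good L1 := by decide +kernel

set_option maxRecDepth 100000 in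
lemma good2 : Good L2 := by decide +kernel

set_option maxRecDepth 100000 in
lemma good3 : Good L3 := by decide +kernel

set_option maxRecDepth 100000 in
lemma good4 : Good L4 := by decide +kernel

lemma ss01 : SubSupp L0 L1 := by decide +kernel
lemma ss10 : SubSupp L1 L0 := by decide +kernel
lemma ss02 : SubSupp L0 L2 := by decide +kernel
lemma ss20 : SubSupp L2 L0 := by decide +kernel
lemma ss03 : SubSupp L0 L3 := by decide +kernel
lemma ss30 : SubSupp L3 L0 := by decide +kernel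
lemma ss04 : SubSupp L0 L4 := by decide +kernel
lemma ss40 : SubSupp L4 L0 := by decide +kernel

lemma fl01 : FlipOK L0 L1 0 2 5 11 := by decide +kernel
lemma fl12 : FlipOK L1 L2 2 3 9 17 := by decide +kernel
lemma fl23 : FlipOK L2 L3 1 2 1 13 := by decide +kernel
lemma fl34 : FlipOK L3 L4 0 1 5 19 := by decide +kernel

lemma flip01 : IsFlip (fam L0) (fam L1) (pt 5 0) :=
  (flip_of good0 fl01).1 (by decide +kernel) (by decide +kernel) (by decide +kernel)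
    (by decide +kernel)

lemma flip12 : IsFlip (fam L1) (fam L2) (pt 17 (-2)) :=
  (flip_of good1 fl12).2 (by decide +kernel) (by decide +kernel) (by decide +kernel)
    (by decide +kernel)

lemma flip23 : IsFlip (fam L2) (fam L3) (pt 1 0) :=
  (flip_of good2 fl23).1 (by decide +kernel) (by decide +kernel) (by decide +kernel)
    (by decide +kernel)

lemma flip34 : IsFlip (fam L3) (fam L4) (pt 19 2) :=
  (flip_of good3 fl34).2 (by decide +kernel) (by decide +kernel) (by decide +kernel)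
    (by decide +kernel)

/-- the path -/
noncomputable def path (i : ℕ) : Set (Set Moebius) :=
  match i with
  | 0 => fam L0
  | 1 => fam L1
  | 2 => fam L2
  | 3 => fam L3
  | _ => fam L4

lemma path_is : IsFlipPath (support (fam L0)) (fam L0) (fam L4) 4 path := by
  refine ⟨rfl, rfl, ?_, ?_⟩
  · intro i hi
    interval_cases i
    · exact ⟨fam_arrangement good0, rfl⟩
    · exact ⟨fam_arrangement good1, support_eq good1 good0 ss10 ss01⟩
    · exact ⟨fam_arrangement good2, support_eq good2 good0 ss20 ss02⟩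
    · exact ⟨fam_arrangement good3, support_eq good3 good0 ss30 ss03⟩
    · exact ⟨fam_arrangement good4, support_eq good4 good0 ss40 ss04⟩
  · intro i hi
    interval_cases i
    · exact ⟨_, flip01⟩
    · exact ⟨_, flip12⟩
    · exact ⟨_, flip23⟩
    · exact ⟨_, flip34⟩

/-- columns of the contact points that disappear -/
def ka : Fin 3 → ℕ := ![1, 17, 19]
def ca : Fin 3 → ℤ := ![0, -2, 2]
/-- columns of the contact points that appear -/
def kb : Fin 3 → ℕ := ![9, 11, 13]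
def cb : Fin 3 → ℤ := ![0, 2, -2]

lemma mem_contacts {L : Arr} (hL : Good L) {k : ℕ} {c : ℤ} (hk : k < 20) :
    pt k c ∈ contacts (fam L) ↔ ∃ i j, i ≠ j ∧ touchAt (L i) (L j) k ∧ c = W (L i) k := by
  rw [contacts_fam hL]
  constructor
  · rintro ⟨k', hk', i, j, hij, h, e⟩
    obtain ⟨rfl, rfl⟩ := pt_inj hk hk' e
    exact ⟨i, j, hij, h, rfl⟩
  · rintro ⟨i, j, hij, h, rfl⟩
    exact ⟨k, hk, i, j, hij, h, rfl⟩

lemma ka_lt : ∀ i, ka i < 20 := by decide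
lemma kb_lt : ∀ i, kb i < 20 := by decide
lemma ka_inj : ∀ i j, ka i = ka j → i = j := by decide
lemma kb_inj : ∀ i j, kb i = kb j → i = j := by decide

lemma block : ∀ i j : Fin 4, i ≠ j → ∀ s t : Fin 3, touchAt (L0 i) (L0 j) (ka s) →
    ¬ crossAt (L0 i) (L0 j) (kb t) := by decide +kernel

lemma four_le_example {m : ℕ} {P : ℕ → Set (Set Moebius)}
    (hP : IsFlipPath (support (fam L0)) (fam L0) (fam L4) m P) : 4 ≤ m := by
  refine four_le hP (fun i => pt (ka i) (ca i)) (fun i => pt (kb i) (cb i)) ?_ ?_ ?_ ?_ ?_ ?_ ?_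
  · intro i j h
    exact ka_inj i j (pt_inj (ka_lt i) (ka_lt j) h).1
  · intro i j h
    exact kb_inj i j (pt_inj (kb_lt i) (kb_lt j) h).1
  · intro i
    rw [mem_contacts good0 (ka_lt i)]
    revert i
    decide +kernel
  · intro i
    rw [mem_contacts good4 (ka_lt i)]
    revert i
    decide +kernel
  · intro i
    rw [mem_contacts good0 (kb_lt i)]
    revert i
    decide +kernel
  · intro i
    rw [mem_contacts good4 (kb_lt i)]
    revert i
    decide +kernel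
  · rintro _ ⟨i, rfl⟩ _ ⟨j, rfl⟩ hAB s t h1 h2
    have hij : i ≠ j := fun h => hAB (by rw [h])
    simp only at h1 h2
    obtain ⟨k, hk, e, h3⟩ := (touch_iff good0 hij).1 h1
    obtain ⟨k', hk', e', h4⟩ := (cross_iff good0 hij).1 h2
    obtain ⟨rfl, -⟩ := pt_inj (ka_lt s) hk e
    obtain ⟨rfl, -⟩ := pt_inj (kb_lt t) hk' e'
    exact block i j hij s t h3 h4

/-- the heights of the ten vertices -/
def ht : Fin 10 → ℤ := ![0, -2, 0, 2, 0, 2, -2, 0, -2, 2]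

lemma vertices_eq : crossings (fam L0) ∪ contacts (fam L0) =
    range fun i : Fin 10 => pt (2 * i + 1) (ht i) := by
  rw [vertices_fam good0]
  have h1 : ∀ k : Fin 20, ∀ i j, i ≠ j → W (L0 i) (k : ℕ) = W (L0 j) (k : ℕ) →
      ∃ s : Fin 10, (k : ℕ) = 2 * s + 1 ∧ W (L0 i) (k : ℕ) = ht s := by decide +kernel
  have h2 : ∀ s : Fin 10, ∃ i j, i ≠ j ∧ W (L0 i) ((2 * s + 1 : ℕ) : ℤ) =
      W (L0 j) ((2 * s + 1 : ℕ) : ℤ) ∧ ht s = W (L0 i) ((2 * s + 1 : ℕ) : ℤ) := by decide +kernel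
  ext p
  constructor
  · rintro ⟨k, hk, i, j, hij, e, rfl⟩
    obtain ⟨s, hs, hs'⟩ := h1 ⟨k, hk⟩ i j hij e
    simp only at hs hs'
    exact ⟨s, by simp only [← hs, hs']⟩
  · rintro ⟨s, rfl⟩
    obtain ⟨i, j, hij, e, e'⟩ := h2 s
    refine ⟨2 * s + 1, by omega, i, j, hij, e, ?_⟩
    simp only [← e']

lemma ncard_vertices : (crossings (fam L0) ∪ contacts (fam L0)).ncard = 10 := by
  rw [vertices_eq]
  have hinj : Function.Injective fun i : Fin 10 => pt (2 * i + 1) (ht i) := by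
    intro i j h
    have := (pt_inj (by omega) (by omega) h).1
    ext
    omega
  rw [← image_univ, ncard_image_of_injective _ hinj, ncard_univ, Nat.card_eq_fintype_card,
    Fintype.card_fin]

lemma ncard_fam {L : Arr} (hL : Good L) : (fam L).ncard = 4 := by
  unfold fam
  rw [← image_univ, ncard_image_of_injective _ (wire_inj hL), ncard_univ,
    Nat.card_eq_fintype_card, Fintype.card_fin]

end Pool.Agent.T2H78.Flip
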