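import Pool.Agent.T2H78.CycFourier

/-!
The codimension two comass inequality and the resulting sharp bound.
-/

namespace Pool.Agent.T2H78.Cyc
open Matrix Finset

/-- complementary minors, block form -/
theorem block_minor {α β : Type} [Fintype α] [Fintype β] [DecidableEq α] [DecidableEq β]
    (A : Matrix α α ℝ) (B : Matrix β α ℝ) (E : Matrix α β ℝ) (F : Matrix β β ℝ)
    (h1 : Aᵀ * E + Bᵀ * F = 0) (h2 : Eᵀ * E + Fᵀ * F = 1) :
    det A ^ 2 = det (Aᵀ * A + Bᵀ * B) * det F ^ 2 := by
  set δ := det (Aᵀ * A + Bᵀ * B) with hδ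
  have h1' : Eᵀ * A + Fᵀ * B = 0 := by
    have := congrArg Matrix.transpose h1
    simpa using this
  set Nm := fromBlocks A E B F with hN
  have hNN : Nmᵀ * Nm = fromBlocks (Aᵀ * A + Bᵀ * B) 0 0 1 := by
    rw [hN, fromBlocks_transpose, fromBlocks_multiply, h1, h1', h2]
  have hd : det Nm ^ 2 = δ := by
    have := congrArg det hNN
    rw [det_mul, det_transpose, det_fromBlocks_zero₂₁, det_one, mul_one] at this
    rw [sq]; exact this
  have hZ : Nmᵀ * fromBlocks A 0 B 1 = fromBlocks (Aᵀ * A + Bᵀ * B) Bᵀ 0 Fᵀ := by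
    rw [hN, fromBlocks_transpose, fromBlocks_multiply, h1']
    simp
  have hd2 : det Nm * det A = δ * det F := by
    have := congrArg det hZ
    rw [det_mul, det_transpose, det_fromBlocks_zero₂₁, det_transpose,
      det_fromBlocks_zero₁₂, det_one, mul_one] at this
    exact this
  by_cases h0 : δ = 0
  · have hA : det A = 0 := by
      obtain ⟨v, hv, hv2⟩ := Matrix.exists_mulVec_eq_zero_iff.2 (hδ ▸ h0)
      refine Matrix.exists_mulVec_eq_zero_iff.1 ⟨v, hv, ?_⟩
      have h3 : v ⬝ᵥ ((Aᵀ * A + Bᵀ * B) *ᵥ v) = 0 := by rw [hv2, dotProduct_zero]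
      rw [add_mulVec, dotProduct_add, ← mulVec_mulVec, ← mulVec_mulVec, dotProduct_mulVec _ Aᵀ,
        dotProduct_mulVec _ Bᵀ, vecMul_transpose, vecMul_transpose] at h3
      have h4 : 0 ≤ (A *ᵥ v) ⬝ᵥ (A *ᵥ v) :=
        Finset.sum_nonneg fun i _ => mul_self_nonneg _
      have h5 : 0 ≤ (B *ᵥ v) ⬝ᵥ (B *ᵥ v) :=
        Finset.sum_nonneg fun i _ => mul_self_nonneg _
      exact dotProduct_self_eq_zero.1 (by linarith)
    rw [hA, h0]; ring
  · have h3 : (det Nm * det A) ^ 2 = (δ * det F) ^ 2 := by rw [hd2]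
    rw [mul_pow, mul_pow, hd] at h3
    have h4 : δ * (det A ^ 2 - δ * det F ^ 2) = 0 := by linear_combination h3
    rcases mul_eq_zero.1 h4 with h | h
    · exact absurd h h0
    · linarith

/-- the missing rows -/
theorem minor_formula (m : ℕ) (X : Matrix (K m) (J m) ℝ) (W : Matrix (K m) (Fin 2) ℝ)
    (hXW : Xᵀ * W = 0) (hWW : Wᵀ * W = 1) (l : Fin m → Fin (m + 1)) (hl : Function.Injective l)
    (r : Fin (m + 1)) (hr : ∀ k, l k ≠ r) :
    det (Matrix.of fun c : J m => X (l c.1, c.2)) ^ 2 =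
      det (Xᵀ * X) * det (Matrix.of fun s : Fin 2 => W (r, s)) ^ 2 := by
  have hinj : Function.Injective
      (Sum.elim (fun c : J m => (l c.1, c.2)) (fun s : Fin 2 => (r, s)) : J m ⊕ Fin 2 → K m) := by
    rintro (⟨a, b⟩ | a) (⟨c, d⟩ | c) h
    · simp only [Sum.elim_inl, Prod.mk.injEq] at h
      rw [hl h.1, h.2]
    · simp only [Sum.elim_inl, Sum.elim_inr, Prod.mk.injEq] at h
      exact absurd h.1 (hr _)
    · simp only [Sum.elim_inl, Sum.elim_inr, Prod.mk.injEq] at h
      exact absurd h.1.symm (hr _)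
    · simp only [Sum.elim_inr, Prod.mk.injEq, true_and] at h
      rw [h]
  have hbij := (Fintype.bijective_iff_injective_and_card _).2 ⟨hinj, by simp [add_mul]⟩
  set e := Equiv.ofBijective _ hbij with he
  have e1 : ∀ c : J m, e (Sum.inl c) = (l c.1, c.2) := fun c => rfl
  have e2 : ∀ s : Fin 2, e (Sum.inr s) = (r, s) := fun s => rfl
  have hsum : ∀ f : K m → ℝ, ∑ c, f c = ∑ c : J m, f (l c.1, c.2) + ∑ s : Fin 2, f (r, s) := by
    intro f
    rw [← Equiv.sum_comp e, Fintype.sum_sum_type]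
    simp only [e1, e2]
  have h1 : Xᵀ * X = (Matrix.of fun c : J m => X (l c.1, c.2))ᵀ *
      (Matrix.of fun c : J m => X (l c.1, c.2)) + (Matrix.of fun s : Fin 2 => X (r, s))ᵀ *
      (Matrix.of fun s : Fin 2 => X (r, s)) := by
    ext a b
    rw [Matrix.mul_apply, hsum, Matrix.add_apply, Matrix.mul_apply, Matrix.mul_apply]
    rfl
  rw [h1]
  refine block_minor _ _ (Matrix.of fun c : J m => W (l c.1, c.2)) _ ?_ ?_
  · rw [← hXW]
    ext a b
    rw [Matrix.mul_apply, hsum, Matrix.add_apply, Matrix.mul_apply, Matrix.mul_apply]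
    rfl
  · rw [← hWW]
    ext a b
    rw [Matrix.mul_apply, hsum, Matrix.add_apply, Matrix.mul_apply, Matrix.mul_apply]
    rfl

/-- an orthonormal pair orthogonal to the columns -/
theorem exists_W (m : ℕ) (X : Matrix (K m) (J m) ℝ) :
    ∃ W : Matrix (K m) (Fin 2) ℝ, Xᵀ * W = 0 ∧ Wᵀ * W = 1 := by
  set T : EuclideanSpace ℝ (K m) →ₗ[ℝ] EuclideanSpace ℝ (J m) := Matrix.toEuclideanLin Xᵀ with hT
  have h1 := LinearMap.finrank_range_add_finrank_ker T
  have h2 : Module.finrank ℝ (LinearMap.range T) ≤ 2 * m := by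
    refine (Submodule.finrank_le _).trans ?_
    simp [mul_comm]
  have h3 : Module.finrank ℝ (EuclideanSpace ℝ (K m)) = 2 * m + 2 := by
    simp; ring
  have h4 : 2 ≤ Module.finrank ℝ (LinearMap.ker T) := by omega
  let b := stdOrthonormalBasis ℝ (LinearMap.ker T)
  refine ⟨Matrix.of fun c t => (b (Fin.castLE h4 t) : EuclideanSpace ℝ (K m)) c, ?_, ?_⟩
  · ext a t
    have h5 : T (b (Fin.castLE h4 t) : EuclideanSpace ℝ (K m)) = 0 := (b (Fin.castLE h4 t)).2
    have h6 : (Xᵀ *ᵥ (b (Fin.castLE h4 t) : EuclideanSpace ℝ (K m)).ofLp) a = 0 :=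
      congrFun (congrArg WithLp.ofLp h5) a
    rw [Matrix.mul_apply]
    simpa [Matrix.mulVec, dotProduct] using h6
  · ext s t
    have h5 := (orthonormal_iff_ite.1 b.orthonormal) (Fin.castLE h4 s) (Fin.castLE h4 t)
    rw [Submodule.coe_inner, PiLp.inner_apply] at h5
    rw [Matrix.mul_apply, Matrix.one_apply]
    simp only [Matrix.transpose_apply, Matrix.of_apply]
    simp only [RCLike.inner_apply, conj_trivial, Fin.castLE_inj] at h5
    rw [← h5]
    refine Finset.sum_congr rfl fun c _ => ?_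
    ring

/-- grouping injective maps `Fin m → Fin (m+1)` -/
theorem sum_group (m : ℕ) (g : (Fin m → Fin (m + 1)) → ℝ)
    (h0 : ∀ l, ¬ Function.Injective l → g l = 0) :
    ∑ l, g l = ∑ r : Fin (m + 1), ∑ π : Equiv.Perm (Fin m), g (r.succAbove ∘ π) := by
  classical
  rw [← Finset.sum_filter_add_sum_filter_not univ (fun l => Function.Injective l)]
  rw [Finset.sum_eq_zero (s := univ.filter fun l => ¬ Function.Injective l)
    (fun l hl => h0 l (Finset.mem_filter.1 hl).2), add_zero]
  rw [← Fintype.sum_prod_type' (f := fun (r : Fin (m + 1)) (π : Equiv.Perm (Fin m)) =>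
    g (r.succAbove ∘ π))]
  symm
  refine Finset.sum_bij (fun x _ => x.1.succAbove ∘ x.2) ?_ ?_ ?_ ?_
  · rintro ⟨r, π⟩ _
    simp only [Finset.mem_filter, Finset.mem_univ, true_and]
    exact (Fin.succAbove_right_injective).comp π.injective
  · rintro ⟨r, π⟩ _ ⟨r', π'⟩ _ h
    simp only at h
    have hr : r = r' := by
      by_contra hne
      obtain ⟨j, hj⟩ := Fin.exists_succAbove_eq (x := r) (y := r') hne
      have h1 := congrFun h (π'.symm j)
      simp only [Function.comp_apply, Equiv.apply_symm_apply] at h1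
      rw [hj] at h1
      exact Fin.succAbove_ne _ _ h1
    subst hr
    have : π = π' := by
      ext k
      have h1 := congrFun h k
      simp only [Function.comp_apply] at h1
      rw [Fin.succAbove_right_injective h1]
    rw [this]
  · intro l hl
    have hl' : Function.Injective l := (Finset.mem_filter.1 hl).2
    have : ∃ r, r ∉ Finset.univ.image l := by
      by_contra hcon
      push Not at hcon
      have h1 : Finset.univ.image l = Finset.univ := Finset.eq_univ_iff_forall.2 hcon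
      have h2 := Finset.card_image_le (s := univ) (f := l)
      rw [h1] at h2
      simp at h2
    obtain ⟨r, hr⟩ := this
    have hr' : ∀ k, l k ≠ r := by
      intro k hk
      exact hr (Finset.mem_image.2 ⟨k, Finset.mem_univ _, hk⟩)
    choose π hπ using fun k => Fin.exists_succAbove_eq (hr' k)
    have hπi : Function.Injective π := by
      intro a b hab
      apply hl'
      rw [← hπ a, ← hπ b, hab]
    refine ⟨(r, Equiv.ofBijective π (Finite.injective_iff_bijective.1 hπi)), Finset.mem_univ _, ?_⟩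
    funext k
    exact hπ k
  · intro x _; rfl

end Pool.Agent.T2H78.Cyc
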