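import Pool.Agent.T2H78.CycBound

namespace Pool.Agent.T2H78.Cyc
open Matrix Finset

theorem sn_fr (m : ℕ) (k : Fin (m + 1)) :
    sn m (fr m k) = Real.sin (2 * Real.pi * ((k : ℕ) + 1) / (2 * m + 3)) := by
  rw [sn, fr]
  have h := ZMod.stdAddChar_coe (N := 2 * m + 3) (((k : ℕ) + 1 : ℕ) : ℤ)
  rw [Int.cast_natCast] at h
  rw [h]
  have e : (2 * (Real.pi : ℂ) * Complex.I * (((k : ℕ) + 1 : ℕ) : ℤ) / ((2 * m + 3 : ℕ) : ℂ)) =
      ((2 * Real.pi * ((k : ℕ) + 1) / (2 * m + 3) : ℝ) : ℂ) * Complex.I := by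
    push_cast; ring
  rw [e, Complex.exp_ofReal_mul_I_im]

theorem sk_last (m : ℕ) : sk m (Fin.last m) = 2 * Real.sin (Real.pi / (2 * m + 3)) := by
  rw [sk, sn_fr]
  have h0 : (2 * m + 3 : ℝ) ≠ 0 := by positivity
  congr 1
  rw [← Real.sin_pi_sub]
  congr 1
  simp only [Fin.val_last]
  field_simp; ring

theorem sk_last_pos (m : ℕ) : 0 < sk m (Fin.last m) := by
  rw [sk_last]
  have hpi := Real.pi_pos
  have h0 : (0 : ℝ) < 2 * m + 3 := by positivity
  have : 0 < Real.sin (Real.pi / (2 * m + 3)) := by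
    apply Real.sin_pos_of_pos_of_lt_pi (by positivity)
    rw [div_lt_iff₀ h0]
    have : (0 : ℝ) ≤ m := Nat.cast_nonneg m
    nlinarith
  linarith

/-- strict monotonicity helper -/
theorem sin_lt_of (x y : ℝ) (hx0 : 0 ≤ x) (h1 : x < y) (h2 : y < Real.pi - x) :
    Real.sin x < Real.sin y := by
  have hpi := Real.pi_pos
  by_cases h : y ≤ Real.pi / 2
  · exact Real.sin_lt_sin_of_lt_of_le_pi_div_two (by linarith) h h1
  · push Not at h
    rw [← Real.sin_pi_sub y]
    exact Real.sin_lt_sin_of_lt_of_le_pi_div_two (by linarith) (by linarith) (by linarith)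

theorem sk_last_lt (m : ℕ) (k : Fin (m + 1)) (hk : k ≠ Fin.last m) :
    sk m (Fin.last m) < sk m k := by
  rw [sk_last, sk, sn_fr]
  have hk' : (k : ℕ) < m := by
    have := k.2
    have : (k : ℕ) ≠ m := fun h => hk (by ext; simpa using h)
    omega
  have hk'' : ((k : ℕ) : ℝ) + 1 ≤ m := by exact_mod_cast hk'
  have hk0 : (0 : ℝ) ≤ ((k : ℕ) : ℝ) := Nat.cast_nonneg _
  have h0 : (0 : ℝ) < 2 * m + 3 := by positivity
  have hpi := Real.pi_pos
  have := sin_lt_of (Real.pi / (2 * m + 3)) (2 * Real.pi * ((k : ℕ) + 1) / (2 * m + 3))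
    (by positivity) (by rw [div_lt_div_iff_of_pos_right h0]; nlinarith) (by
      rw [lt_sub_iff_add_lt, ← add_div, div_lt_iff₀ h0]; nlinarith)
  linarith

theorem sk_pos (m : ℕ) (k : Fin (m + 1)) : 0 < sk m k := by
  by_cases h : k = Fin.last m
  · rw [h]; exact sk_last_pos m
  · exact (sk_last_pos m).trans (sk_last_lt m k h)

/-- product of the `s_k` except the `r`-th -/
noncomputable def Cr (m : ℕ) (r : Fin (m + 1)) : ℝ := ∏ k, sk m (r.succAbove k)

theorem Cr_pos (m : ℕ) (r : Fin (m + 1)) : 0 < Cr m r := Finset.prod_pos fun k _ => sk_pos m _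

theorem Cr_mul (m : ℕ) (r : Fin (m + 1)) : sk m r * Cr m r = ∏ k, sk m k := by
  rw [Fin.prod_univ_succAbove _ r, Cr]

theorem Cr_lt (m : ℕ) (r : Fin (m + 1)) (hr : r ≠ Fin.last m) : Cr m r < Cr m (Fin.last m) := by
  have h1 := Cr_mul m r
  have h2 := Cr_mul m (Fin.last m)
  have h3 := sk_last_lt m r hr
  have h4 := sk_last_pos m
  have h5 := Cr_pos m (Fin.last m)
  by_contra hcon
  push Not at hcon
  have : sk m (Fin.last m) * Cr m (Fin.last m) < sk m r * Cr m r :=
    mul_lt_mul h3 hcon h5 (sk_pos m r).le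
  linarith

theorem Cr_le (m : ℕ) (r : Fin (m + 1)) : Cr m r ≤ Cr m (Fin.last m) := by
  by_cases h : r = Fin.last m
  · rw [h]
  · exact (Cr_lt m r h).le

/-- the determinant sum over Fourier tuples -/
noncomputable def tot (m : ℕ) (X : Matrix (K m) (J m) ℝ) : ℝ :=
  ∑ l : Fin m → Fin (m + 1), (∏ k, sk m (l k)) *
      det (Matrix.of fun (c : J m) => X (l c.1, c.2))

theorem tot_le (m : ℕ) (X : Matrix (K m) (J m) ℝ) (W : Matrix (K m) (Fin 2) ℝ)
    (hXW : Xᵀ * W = 0) (hWW : Wᵀ * W = 1) :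
    |tot m X| ≤ (m.factorial : ℝ) * (√(det (Xᵀ * X)) *
      ∑ r : Fin (m + 1), Cr m r * |det (Matrix.of fun s : Fin 2 => W (r, s))|) := by
  have h1 : |tot m X| ≤ ∑ l : Fin m → Fin (m + 1), (∏ k, sk m (l k)) *
      |det (Matrix.of fun (c : J m) => X (l c.1, c.2))| := by
    refine (Finset.abs_sum_le_sum_abs _ _).trans (Finset.sum_le_sum fun l _ => ?_)
    rw [abs_mul, abs_of_pos (Finset.prod_pos fun k _ => sk_pos m _)]
  refine h1.trans ?_
  rw [sum_group]
  · rw [Finset.mul_sum, Finset.mul_sum]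
    refine Finset.sum_le_sum fun r _ => ?_
    have h2 : ∀ π : Equiv.Perm (Fin m), (∏ k, sk m ((r.succAbove ∘ π) k)) *
        |det (Matrix.of fun (c : J m) => X ((r.succAbove ∘ π) c.1, c.2))| =
        Cr m r * (√(det (Xᵀ * X)) * |det (Matrix.of fun s : Fin 2 => W (r, s))|) := by
      intro π
      have e1 : ∏ k, sk m ((r.succAbove ∘ π) k) = Cr m r :=
        Equiv.prod_comp π (fun k => sk m (r.succAbove k))
      have e2 := minor_formula m X W hXW hWW (r.succAbove ∘ π)
        ((Fin.succAbove_right_injective).comp π.injective) r (fun k => Fin.succAbove_ne _ _)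
      have e3 : |det (Matrix.of fun (c : J m) => X ((r.succAbove ∘ π) c.1, c.2))| =
          √(det (Xᵀ * X)) * |det (Matrix.of fun s : Fin 2 => W (r, s))| := by
        have hnn : 0 ≤ det (Xᵀ * X) := by
          have := (Matrix.posSemidef_conjTranspose_mul_self X).det_nonneg
          simpa [conjTranspose_eq_transpose_of_trivial] using this
        rw [← Real.sqrt_sq_eq_abs, e2, Real.sqrt_mul hnn, Real.sqrt_sq_eq_abs]
      rw [e1, e3]
    rw [Finset.sum_congr rfl (fun π _ => h2 π), Finset.sum_const, Finset.card_univ,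
      Fintype.card_perm, Fintype.card_fin, nsmul_eq_mul]
    apply le_of_eq; ring
  · intro l hl
    rw [Function.Injective] at hl
    push Not at hl
    obtain ⟨a, b, hab, hne⟩ := hl
    have : det (Matrix.of fun (c : J m) => X (l c.1, c.2)) = 0 := by
      refine Matrix.det_zero_of_row_eq (i := (a, 0)) (j := (b, 0)) (by simpa using hne) ?_
      change X (l a, 0) = X (l b, 0)
      rw [hab]
    rw [this]; simp

theorem quad (m : ℕ) (W : Matrix (K m) (Fin 2) ℝ) (hWW : Wᵀ * W = 1) :
    ∑ r : Fin (m + 1), (∑ s : Fin 2, ∑ t : Fin 2, W (r, s) t ^ 2) / 2 = 1 := by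
  have h1 : trace (Wᵀ * W) = 2 := by rw [hWW]; simp
  rw [← Finset.sum_div]
  rw [Matrix.trace] at h1
  simp only [Matrix.diag_apply, Matrix.mul_apply, Matrix.transpose_apply,
    Fintype.sum_prod_type] at h1
  rw [Finset.sum_comm] at h1
  have : ∑ r : Fin (m + 1), ∑ s : Fin 2, ∑ t : Fin 2, W (r, s) t ^ 2 = 2 := by
    rw [← h1]
    refine Finset.sum_congr rfl fun r _ => ?_
    rw [Finset.sum_comm]
    refine Finset.sum_congr rfl fun t _ => ?_
    refine Finset.sum_congr rfl fun s _ => ?_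
    ring
  rw [this]; norm_num

theorem det2_le (F : Matrix (Fin 2) (Fin 2) ℝ) :
    |det F| ≤ (∑ s : Fin 2, ∑ t : Fin 2, F s t ^ 2) / 2 := by
  rw [det_fin_two, Fin.sum_univ_two, Fin.sum_univ_two, Fin.sum_univ_two, abs_le]
  constructor <;> nlinarith [sq_nonneg (F 0 0 - F 1 1), sq_nonneg (F 0 1 - F 1 0),
    sq_nonneg (F 0 0 + F 1 1), sq_nonneg (F 0 1 + F 1 0)]

theorem tot_le2 (m : ℕ) (X : Matrix (K m) (J m) ℝ) :
    |tot m X| ≤ (m.factorial : ℝ) * (√(det (Xᵀ * X)) * Cr m (Fin.last m)) := by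
  obtain ⟨W, hXW, hWW⟩ := exists_W m X
  refine (tot_le m X W hXW hWW).trans ?_
  refine mul_le_mul_of_nonneg_left ?_ (by positivity)
  refine mul_le_mul_of_nonneg_left ?_ (Real.sqrt_nonneg _)
  calc ∑ r : Fin (m + 1), Cr m r * |det (Matrix.of fun s : Fin 2 => W (r, s))|
      ≤ ∑ r : Fin (m + 1), Cr m (Fin.last m) *
        ((∑ s : Fin 2, ∑ t : Fin 2, W (r, s) t ^ 2) / 2) := by
        refine Finset.sum_le_sum fun r _ => ?_
        exact mul_le_mul (Cr_le m r) (det2_le _) (abs_nonneg _) (Cr_pos m _).le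
    _ = Cr m (Fin.last m) := by rw [← Finset.mul_sum, quad m W hWW, mul_one]

/-- equality forces the last block to vanish -/
theorem tot_eq (m : ℕ) (X : Matrix (K m) (J m) ℝ) (hδ : 0 < det (Xᵀ * X))
    (h : (m.factorial : ℝ) * (√(det (Xᵀ * X)) * Cr m (Fin.last m)) ≤ |tot m X|) :
    ∀ s a, X (Fin.last m, s) a = 0 := by
  obtain ⟨W, hXW, hWW⟩ := exists_W m X
  have h1 := h.trans (tot_le m X W hXW hWW)
  have hf : (0 : ℝ) < m.factorial := by exact_mod_cast m.factorial_pos
  have h2 := le_of_mul_le_mul_left h1 hf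
  have h3 := le_of_mul_le_mul_left h2 (Real.sqrt_pos.2 hδ)
  set q : Fin (m + 1) → ℝ := fun r => (∑ s : Fin 2, ∑ t : Fin 2, W (r, s) t ^ 2) / 2 with hq
  have hq0 : ∀ r, 0 ≤ q r := fun r => by
    rw [hq]; positivity
  have h4 : ∑ r, (Cr m (Fin.last m) - Cr m r) * q r ≤ 0 := by
    have : ∑ r : Fin (m + 1), Cr m r * |det (Matrix.of fun s : Fin 2 => W (r, s))| ≤
        ∑ r, Cr m r * q r :=
      Finset.sum_le_sum fun r _ => mul_le_mul_of_nonneg_left (det2_le _) (Cr_pos m r).le
    have h5 : ∑ r, Cr m (Fin.last m) * q r = Cr m (Fin.last m) := by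
      rw [← Finset.mul_sum, quad m W hWW, mul_one]
    simp only [sub_mul, Finset.sum_sub_distrib]
    linarith
  have h5 : ∀ r, (Cr m (Fin.last m) - Cr m r) * q r = 0 := by
    have h6 : ∀ r ∈ (Finset.univ : Finset (Fin (m + 1))),
        0 ≤ (Cr m (Fin.last m) - Cr m r) * q r := fun r _ =>
      mul_nonneg (sub_nonneg.2 (Cr_le m r)) (hq0 r)
    have h7 := (Finset.sum_eq_zero_iff_of_nonneg h6).1 (le_antisymm h4 (Finset.sum_nonneg h6))
    exact fun r => h7 r (Finset.mem_univ _)
  have h6 : ∀ r, r ≠ Fin.last m → ∀ s t, W (r, s) t = 0 := by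
    intro r hr s t
    have h7 : q r = 0 := by
      rcases mul_eq_zero.1 (h5 r) with h8 | h8
      · have := Cr_lt m r hr; linarith
      · exact h8
    have h8 : ∑ s : Fin 2, ∑ t : Fin 2, W (r, s) t ^ 2 = 0 := by
      simp only [hq] at h7
      linarith
    have h9 := (Finset.sum_eq_zero_iff_of_nonneg (fun s _ =>
      Finset.sum_nonneg fun t _ => sq_nonneg (W (r, s) t))).1 h8 s (Finset.mem_univ _)
    have h10 := (Finset.sum_eq_zero_iff_of_nonneg (fun t _ => sq_nonneg (W (r, s) t))).1 h9 t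
      (Finset.mem_univ _)
    exact pow_eq_zero_iff (two_ne_zero) |>.1 h10
  -- the last block of W is orthogonal
  set F : Matrix (Fin 2) (Fin 2) ℝ := Matrix.of fun s : Fin 2 => W (Fin.last m, s) with hF
  set Z : Matrix (Fin 2) (J m) ℝ := Matrix.of fun s : Fin 2 => X (Fin.last m, s) with hZ
  have hFF : Fᵀ * F = 1 := by
    rw [← hWW]
    ext s t
    rw [Matrix.mul_apply, Matrix.mul_apply, Fintype.sum_prod_type,
      Finset.sum_eq_single (Fin.last m)]
    · rfl
    · intro r _ hr
      refine Finset.sum_eq_zero fun s' _ => ?_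
      rw [h6 r hr, mul_zero]
    · simp
  have hZF : Zᵀ * F = 0 := by
    rw [← hXW]
    ext a t
    rw [Matrix.mul_apply, Matrix.mul_apply, Fintype.sum_prod_type,
      Finset.sum_eq_single (Fin.last m)]
    · rfl
    · intro r _ hr
      refine Finset.sum_eq_zero fun s' _ => ?_
      rw [h6 r hr, mul_zero]
    · simp
  have hFF' : F * Fᵀ = 1 := mul_eq_one_comm.1 hFF
  have hZ0 : Zᵀ = 0 := by
    have := congrArg (· * Fᵀ) hZF
    simpa [Matrix.mul_assoc, hFF'] using this
  intro s a
  exact congrFun (congrFun hZ0 a) s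

/-- determinant–trace inequality for positive semidefinite matrices -/
theorem det_le_trace (ι : Type) [Fintype ι] [DecidableEq ι] [Nonempty ι] (G : Matrix ι ι ℝ)
    (hG : G.PosSemidef) (c : ℝ) (hc : 0 < c) (htr : trace G ≤ c * Fintype.card ι) :
    det G ≤ c ^ Fintype.card ι ∧ (c ^ Fintype.card ι ≤ det G → G = c • (1 : Matrix ι ι ℝ)) := by
  set ev := hG.isHermitian.eigenvalues with hev
  have h0 : ∀ i, 0 ≤ ev i := fun i => hG.eigenvalues_nonneg i
  have hdet : det G = ∏ i, ev i := by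
    have := hG.isHermitian.det_eq_prod_eigenvalues
    simpa using this
  have htr' : trace G = ∑ i, ev i := by
    have := hG.isHermitian.trace_eq_sum_eigenvalues
    simpa using this
  have hprod : ∏ i, ev i = c ^ Fintype.card ι * ∏ i, (ev i / c) := by
    rw [Finset.prod_div_distrib, Finset.prod_const, Finset.card_univ]
    field_simp
  have hexp : ∏ i, Real.exp (ev i / c - 1) ≤ 1 := by
    rw [← Real.exp_sum, Real.exp_le_one_iff, Finset.sum_sub_distrib, ← Finset.sum_div]
    simp only [Finset.sum_const, Finset.card_univ, nsmul_eq_mul, mul_one]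
    rw [sub_nonpos, div_le_iff₀ hc]
    rw [htr'] at htr
    linarith
  have hle : ∀ i, ev i / c ≤ Real.exp (ev i / c - 1) := fun i => by
    have := Real.add_one_le_exp (ev i / c - 1); linarith
  have h1 : ∏ i, (ev i / c) ≤ 1 :=
    (Finset.prod_le_prod (fun i _ => div_nonneg (h0 i) hc.le) (fun i _ => hle i)).trans hexp
  have hcp : 0 < c ^ Fintype.card ι := by positivity
  constructor
  · rw [hdet, hprod]
    nlinarith
  · intro h2
    have h3 : ∀ i, 0 < ev i := by
      intro i
      rcases (h0 i).lt_or_eq with h | h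
      · exact h
      · exfalso
        have : det G = 0 := by
          rw [hdet]; exact Finset.prod_eq_zero (Finset.mem_univ i) h.symm
        rw [this] at h2
        linarith
    have h4 : ∀ i, ev i = c := by
      intro i
      by_contra hne
      have hne' : ev i / c - 1 ≠ 0 := by
        intro h
        apply hne
        have : ev i / c = 1 := by linarith
        field_simp at this
        exact this
      have h5 : ev i / c < Real.exp (ev i / c - 1) := by
        have := Real.add_one_lt_exp hne'; linarith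
      have h6 : ∏ i, (ev i / c) < ∏ i, Real.exp (ev i / c - 1) :=
        Finset.prod_lt_prod (fun j _ => div_pos (h3 j) hc) (fun j _ => hle j)
          ⟨i, Finset.mem_univ i, h5⟩
      have h7 : ∏ i, (ev i / c) < 1 := h6.trans_le hexp
      rw [hdet, hprod] at h2
      nlinarith
    have h5 : (diagonal (RCLike.ofReal ∘ hG.isHermitian.eigenvalues) : Matrix ι ι ℝ) =
        c • (1 : Matrix ι ι ℝ) := by
      ext i j
      rw [Matrix.diagonal_apply, Matrix.smul_apply, Matrix.one_apply]
      split_ifs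
      · have := h4 i
        rw [hev] at this
        simp [this]
      · simp
    rw [hG.isHermitian.spectral_theorem, h5, map_smul, map_one]

/-- the optimal value -/
noncomputable def Bm (m : ℕ) : ℝ :=
  (m.factorial : ℝ) * (((2 * m + 3 : ℝ) / (2 * m)) ^ m * Cr m (Fin.last m))

/-- The main inequality. -/
theorem main_bound (m : ℕ) (hm : 0 < m) (P : Matrix (ZMod (2 * m + 3)) (J m) ℝ)
    (hP : ∑ j, ∑ a, P j a ^ 2 ≤ 2 * m + 3) :
    |∑ i : Fin m → ZMod (2 * m + 3),
      det (Matrix.of fun (c : J m) => P (i c.1 + (c.2 : ℕ)))| ≤ Bm m ∧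
    (Bm m ≤ |∑ i : Fin m → ZMod (2 * m + 3),
      det (Matrix.of fun (c : J m) => P (i c.1 + (c.2 : ℕ)))| →
      ∀ i j, ∑ a, P i a * P j a = (1 / m) * ∑ k : Fin m, cs m ((i - j) * fr m k.castSucc)) := by
  have : Nonempty (Fin m) := ⟨⟨0, hm⟩⟩
  have hm' : (0 : ℝ) < m := by exact_mod_cast hm
  rw [tuple_sum]
  set Y := (U m)ᵀ * P with hY
  set X : Matrix (K m) (J m) ℝ := Matrix.of fun c => Y (some c) with hX
  have htot : ∑ l : Fin m → Fin (m + 1), (∏ k, sk m (l k)) *
      det (Matrix.of fun (c : J m) => Y (some (l c.1, c.2))) = tot m X := rfl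
  rw [htot]
  have hPY : P = U m * Y := by rw [hY, ← Matrix.mul_assoc, U_orth', Matrix.one_mul]
  have hpars := parseval m P
  rw [← hY, Fintype.sum_option] at hpars
  have htrX : trace (Xᵀ * X) = ∑ c : K m, ∑ a, Y (some c) a ^ 2 := by
    rw [Matrix.trace, Finset.sum_comm]
    refine Finset.sum_congr rfl fun a _ => ?_
    rw [Matrix.diag_apply, Matrix.mul_apply]
    refine Finset.sum_congr rfl fun c _ => ?_
    rw [Matrix.transpose_apply, hX, Matrix.of_apply]; ring
  set c : ℝ := (2 * m + 3 : ℝ) / (2 * m) with hc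
  have hc0 : 0 < c := by positivity
  have hcard : Fintype.card (J m) = 2 * m := by simp [mul_comm]
  have hnone : 0 ≤ ∑ a, Y none a ^ 2 := Finset.sum_nonneg fun a _ => sq_nonneg _
  have hcc : c * (2 * m : ℝ) = 2 * m + 3 := by rw [hc]; field_simp
  have htr : trace (Xᵀ * X) ≤ c * Fintype.card (J m) := by
    rw [htrX, hcard]; push_cast; rw [hcc]; linarith
  have hPSD : (Xᵀ * X).PosSemidef := by
    have := Matrix.posSemidef_conjTranspose_mul_self X
    simpa [conjTranspose_eq_transpose_of_trivial] using this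
  obtain ⟨hd1, hd2⟩ := det_le_trace (J m) (Xᵀ * X) hPSD c hc0 htr
  rw [hcard] at hd1 hd2
  have hsq : √(det (Xᵀ * X)) ≤ c ^ m := by
    rw [show c ^ m = √(c ^ (2 * m)) from ?_]
    · exact Real.sqrt_le_sqrt hd1
    · rw [mul_comm, pow_mul, Real.sqrt_sq (by positivity)]
  have hf : (0 : ℝ) < m.factorial := by exact_mod_cast m.factorial_pos
  have hCl := Cr_pos m (Fin.last m)
  have hb1 := tot_le2 m X
  have hBm : Bm m = (m.factorial : ℝ) * (c ^ m * Cr m (Fin.last m)) := rfl
  refine ⟨hb1.trans ?_, ?_⟩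
  · rw [hBm]
    gcongr
  · intro hge
    have h1 : c ^ m ≤ √(det (Xᵀ * X)) := by
      have := hge.trans hb1
      rw [hBm] at this
      have h2 := le_of_mul_le_mul_left this hf
      exact le_of_mul_le_mul_right h2 hCl
    have h2 : √(det (Xᵀ * X)) = c ^ m := le_antisymm hsq h1
    have h3 : det (Xᵀ * X) = c ^ (2 * m) := by
      rw [mul_comm 2 m, pow_mul, ← h2, Real.sq_sqrt hPSD.det_nonneg]
    have h4 : Xᵀ * X = c • (1 : Matrix (J m) (J m) ℝ) := hd2 h3.ge
    have h5 := tot_eq m X (by rw [h3]; positivity) (by rw [h2, ← hBm]; exact hge)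
    have h6 : trace (Xᵀ * X) = 2 * m + 3 := by
      rw [h4, Matrix.trace_smul, Matrix.trace_one, hcard]; push_cast
      rw [smul_eq_mul, hcc]
    have h7 : ∀ a, Y none a = 0 := by
      have h8 : ∑ a, Y none a ^ 2 = 0 := by
        rw [htrX] at h6
        linarith
      intro a
      have := (Finset.sum_eq_zero_iff_of_nonneg (fun a _ => sq_nonneg (Y none a))).1 h8 a
        (Finset.mem_univ _)
      exact pow_eq_zero_iff (two_ne_zero) |>.1 this
    -- square block
    set A : Matrix (J m) (J m) ℝ := Matrix.of fun d : J m => Y (some (d.1.castSucc, d.2)) with hA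
    have hAA : Aᵀ * A = c • (1 : Matrix (J m) (J m) ℝ) := by
      rw [← h4]
      ext a b
      rw [Matrix.mul_apply, Matrix.mul_apply, Fintype.sum_prod_type, Fintype.sum_prod_type,
        Fin.sum_univ_castSucc (n := m)]
      have : ∑ s : Fin 2, Xᵀ a (Fin.last m, s) * X (Fin.last m, s) b = 0 :=
        Finset.sum_eq_zero fun s _ => by rw [h5, mul_zero]
      rw [this, add_zero]
      rfl
    have hAA' : A * Aᵀ = c • (1 : Matrix (J m) (J m) ℝ) := by
      have e1 : (c⁻¹ • Aᵀ) * A = 1 := by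
        rw [Matrix.smul_mul, hAA, smul_smul, inv_mul_cancel₀ hc0.ne', one_smul]
      have e2 := mul_eq_one_comm.1 e1
      rw [Matrix.mul_smul] at e2
      have := congrArg (c • ·) e2
      simpa [smul_smul, mul_inv_cancel₀ hc0.ne'] using this
    intro i j
    have hPA : ∀ j a, P j a = ∑ d : J m, U m j (some (d.1.castSucc, d.2)) * A d a := by
      intro j a
      conv_lhs => rw [hPY]
      rw [Matrix.mul_apply, Fintype.sum_option, h7, mul_zero, zero_add, Fintype.sum_prod_type,
        Fin.sum_univ_castSucc, Fintype.sum_prod_type]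
      have : ∑ s : Fin 2, U m j (some (Fin.last m, s)) * Y (some (Fin.last m, s)) a = 0 :=
        Finset.sum_eq_zero fun s _ => by
          have := h5 s a
          rw [hX, Matrix.of_apply] at this
          rw [this, mul_zero]
      rw [this, add_zero]
      rfl
    have hG : ∑ a, P i a * P j a = ∑ d : J m, ∑ e : J m,
        U m i (some (d.1.castSucc, d.2)) * U m j (some (e.1.castSucc, e.2)) * (A * Aᵀ) d e := by
      have e1 : ∀ a, P i a * P j a = ∑ d : J m, ∑ e : J m,
          (U m i (some (d.1.castSucc, d.2)) * A d a) * (U m j (some (e.1.castSucc, e.2)) * A e a) := by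
        intro a
        rw [hPA, hPA, Finset.sum_mul_sum]
      rw [Finset.sum_congr rfl (fun a _ => e1 a), Finset.sum_comm]
      refine Finset.sum_congr rfl fun d _ => ?_
      rw [Finset.sum_comm]
      refine Finset.sum_congr rfl fun e _ => ?_
      rw [Matrix.mul_apply, Finset.mul_sum]
      refine Finset.sum_congr rfl fun a _ => ?_
      rw [Matrix.transpose_apply]
      ring
    rw [hG, hAA', Finset.mul_sum, Fintype.sum_prod_type]
    refine Finset.sum_congr rfl fun k _ => ?_
    have e0 : ∀ d : J m, ∑ e : J m, U m i (some (d.1.castSucc, d.2)) *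
        U m j (some (e.1.castSucc, e.2)) * (c • (1 : Matrix (J m) (J m) ℝ)) d e =
        c * (U m i (some (d.1.castSucc, d.2)) * U m j (some (d.1.castSucc, d.2))) := by
      intro d
      rw [Finset.sum_eq_single d]
      · simp; ring
      · intro e _ hne
        simp [Matrix.one_apply_ne hne.symm]
      · simp
    rw [Fin.sum_univ_two, e0 (k, 0), e0 (k, 1), U_zero, U_zero, U_one, U_one, sub_mul, cs_sub]
    have hs := sq2 m
    have hm0 : (m : ℝ) ≠ 0 := hm'.ne'
    have h23 : (2 * m + 3 : ℝ) ≠ 0 := by positivity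
    have hfin : c * (2 / (2 * m + 3)) = 1 / m := by rw [hc]; field_simp
    linear_combination (c * (cs m (i * fr m k.castSucc) * cs m (j * fr m k.castSucc) +
      sn m (i * fr m k.castSucc) * sn m (j * fr m k.castSucc))) * hs +
      (cs m (i * fr m k.castSucc) * cs m (j * fr m k.castSucc) +
      sn m (i * fr m k.castSucc) * sn m (j * fr m k.castSucc)) * hfin

end Pool.Agent.T2H78.Cyc
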