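import Pool.Agent.T2H78.CycVol

namespace Pool.Agent.T2H78.Cyc
open Set MeasureTheory

variable {E : Type} [NormedAddCommGroup E] [InnerProductSpace ℝ E] [FiniteDimensional ℝ E]

theorem Fset_ne_univ (m : ℕ) (i : Fin m → ZMod (2 * m + 3)) : ∃ j, j ∉ Fset m i := by
  by_contra hcon
  push Not at hcon
  have hs : Function.Surjective (fun c : J m => i c.1 + ((c.2 : ℕ) : ZMod (2 * m + 3))) := hcon
  have := Fintype.card_le_of_surjective _ hs
  rw [ZMod.card, Fintype.card_prod, Fintype.card_fin, Fintype.card_fin] at this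
  omega

/-- centroid -/
noncomputable def cen (m : ℕ) (p : ZMod (2 * m + 3) → E) : E :=
  ((2 * m + 3 : ℕ) : ℝ)⁻¹ • ∑ j, p j

theorem cen_mem (m : ℕ) (p : ZMod (2 * m + 3) → E) : cen m p ∈ convexHull ℝ (range p) := by
  rw [cen, Finset.smul_sum]
  refine (convex_convexHull ℝ _).sum_mem (fun _ _ => by positivity) ?_
    (fun j _ => subset_convexHull ℝ _ ⟨j, rfl⟩)
  rw [Finset.sum_const, Finset.card_univ, ZMod.card, nsmul_eq_mul, mul_inv_cancel₀]
  exact_mod_cast (by omega : 2 * m + 3 ≠ 0)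

theorem supp_of_FS (m : ℕ) (p : ZMod (2 * m + 3) → E) (h : ∀ i, Valid m i → Fset m i ∈ FS p) :
    Supp m p (cen m p) := by
  intro i hi
  obtain ⟨a, l, h1, h2⟩ := h i hi
  have hn : (0 : ℝ) < ((2 * m + 3 : ℕ) : ℝ) := by exact_mod_cast (by omega : 0 < 2 * m + 3)
  have hγ : a + l (cen m p) = ((2 * m + 3 : ℕ) : ℝ)⁻¹ * ∑ j, (a + l (p j)) := by
    rw [cen, map_smul, map_sum, smul_eq_mul, Finset.sum_add_distrib, mul_add, Finset.sum_const,
      Finset.card_univ, ZMod.card, nsmul_eq_mul, ← mul_assoc, inv_mul_cancel₀ hn.ne', one_mul]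
  have hpos : 0 < a + l (cen m p) := by
    rw [hγ]
    refine mul_pos (inv_pos.2 hn) ?_
    obtain ⟨j, hj⟩ := Fset_ne_univ m i
    refine Finset.sum_pos' (fun j _ => h1 j) ⟨j, Finset.mem_univ _, ?_⟩
    refine lt_of_le_of_ne (h1 j) fun h3 => hj ?_
    rw [h2]; exact h3.symm
  set γ := a + l (cen m p) with hγdef
  have key : ∀ j, (-(γ⁻¹ • l)) (p j - cen m p) = 1 - γ⁻¹ * (a + l (p j)) := by
    intro j
    rw [LinearMap.neg_apply, LinearMap.smul_apply, map_sub, smul_eq_mul]
    have : l (cen m p) = γ - a := by rw [hγdef]; ring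
    rw [this]
    field_simp
    ring
  refine ⟨-(γ⁻¹ • l), fun j hj => ?_, fun j hj => ?_⟩
  · rw [key]
    rw [h2] at hj
    have : a + l (p j) = 0 := hj
    rw [this]; ring
  · rw [key]
    have h3 : 0 < a + l (p j) := by
      refine lt_of_le_of_ne (h1 j) fun h3 => hj ?_
      rw [h2]; exact h3.symm
    have : 0 < γ⁻¹ * (a + l (p j)) := mul_pos (inv_pos.2 hpos) h3
    linarith

/-- leaving a compact convex set along a ray -/
theorem exit_point (P : Set E) (hP : IsCompact P) (c x : E) (hx : x ∈ P) (hne : x ≠ c) :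
    ∃ y ∈ P, y ∉ interior P ∧ ∃ s : ℝ, 1 ≤ s ∧ y = c + s • (x - c) := by
  set φ : ℝ → E := fun s => c + s • (x - c) with hφ
  have hcont : Continuous φ := by fun_prop
  set A : Set ℝ := Ici 1 ∩ φ ⁻¹' P with hA
  have hAc : IsClosed A := isClosed_Ici.inter (hP.isClosed.preimage hcont)
  have h1A : (1 : ℝ) ∈ A := ⟨mem_Ici.2 le_rfl, by simp [hφ, hx]⟩
  have hxc : 0 < ‖x - c‖ := norm_pos_iff.2 (sub_ne_zero.2 hne)
  obtain ⟨R, hR⟩ := hP.isBounded.exists_norm_le
  have hbdd : BddAbove A := by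
    refine ⟨(R + ‖c‖) / ‖x - c‖, ?_⟩
    rintro s ⟨hs1, hs2⟩
    rw [le_div_iff₀ hxc]
    have h1 : ‖c + s • (x - c)‖ ≤ R := hR _ hs2
    have h2 : ‖s • (x - c)‖ = s * ‖x - c‖ := by
      rw [norm_smul, Real.norm_of_nonneg (by linarith [mem_Ici.1 hs1])]
    have h3 : ‖s • (x - c)‖ ≤ ‖c + s • (x - c)‖ + ‖c‖ := by
      have := norm_sub_le (c + s • (x - c)) c
      simpa using this
    linarith
  set s := sSup A with hs
  have hsA : s ∈ A := hAc.csSup_mem ⟨1, h1A⟩ hbdd
  refine ⟨φ s, hsA.2, ?_, s, hsA.1, rfl⟩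
  intro hint
  have hopen : IsOpen (φ ⁻¹' interior P) := isOpen_interior.preimage hcont
  obtain ⟨ε, hε, hball⟩ := Metric.isOpen_iff.1 hopen s hint
  have h1 : s + ε / 2 ∈ φ ⁻¹' interior P := by
    apply hball
    rw [Metric.mem_ball, Real.dist_eq]
    rw [show s + ε / 2 - s = ε / 2 by ring, abs_of_pos (by linarith)]
    linarith
  have h2 : s + ε / 2 ∈ A := ⟨by
    have := mem_Ici.1 hsA.1
    exact mem_Ici.2 (by linarith), interior_subset (s := P) h1⟩
  have := le_csSup hbdd h2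
  linarith

theorem cover (m : ℕ) (p : ZMod (2 * m + 3) → E) (hint : (interior (convexHull ℝ (range p))).Nonempty)
    (hG : Gale m (FS p)) (c : E) (x : E) (hx : x ∈ convexHull ℝ (range p)) :
    ∃ i, Valid m i ∧ x ∈ Sx m p c i := by
  by_cases hne : x = c
  · refine ⟨packed m, packed_valid m, ?_⟩
    rw [hne]
    exact subset_convexHull ℝ _ (mem_insert _ _)
  · have hcomp : IsCompact (convexHull ℝ (range p)) := (finite_range p).isCompact_convexHull (𝕜 := ℝ)
    obtain ⟨y, hyP, hyi, s, hs, hy⟩ := exit_point _ hcomp c x hx hne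
    obtain ⟨l, hl0, hl⟩ := geometric_hahn_banach_of_nonempty_interior_point
      (convex_convexHull ℝ (range p)) hyi hint
    have h1 : ∀ j, 0 ≤ l y + (-(l : E →ₗ[ℝ] ℝ)) (p j) := by
      intro j
      have := hl (p j) (subset_convexHull ℝ _ ⟨j, rfl⟩)
      simp only [LinearMap.neg_apply, ContinuousLinearMap.coe_coe]
      linarith
    have hS : {j | l y + (-(l : E →ₗ[ℝ] ℝ)) (p j) = 0} ∈ FS p := ⟨l y, _, h1, rfl⟩
    have hSne : {j | l y + (-(l : E →ₗ[ℝ] ℝ)) (p j) = 0} ≠ univ := by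
      intro huniv
      have h2 : ∀ z ∈ convexHull ℝ (range p), l z = l y := by
        intro z hz
        have hconv : Convex ℝ {z : E | l y + (-(l : E →ₗ[ℝ] ℝ)) z = 0} := by
          intro u hu v hv s t hs ht hst
          simp only [mem_ofPred_eq] at *
          rw [map_add, map_smul, map_smul, smul_eq_mul, smul_eq_mul]
          have : l y = s * l y + t * l y := by rw [← add_mul, hst, one_mul]
          linear_combination this + s * hu + t * hv
        have h3 : z ∈ {z : E | l y + (-(l : E →ₗ[ℝ] ℝ)) z = 0} := by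
          refine convexHull_min ?_ hconv hz
          rintro _ ⟨j, rfl⟩
          have : j ∈ {j | l y + (-(l : E →ₗ[ℝ] ℝ)) (p j) = 0} := by rw [huniv]; trivial
          exact this
        simp only [mem_ofPred_eq, LinearMap.neg_apply, ContinuousLinearMap.coe_coe] at h3
        linarith
      have hopen : IsOpen (l '' interior (convexHull ℝ (range p))) :=
        l.isOpenMap_of_ne_zero hl0 _ isOpen_interior
      have hsub : l '' interior (convexHull ℝ (range p)) = {l y} := by
        apply Subset.antisymm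
        · rintro _ ⟨z, hz, rfl⟩
          exact h2 z (interior_subset hz)
        · obtain ⟨z, hz⟩ := hint
          rintro _ rfl
          exact ⟨z, hz, h2 z (interior_subset hz)⟩
      rw [hsub] at hopen
      exact not_isOpen_singleton (l y) hopen
    obtain ⟨i, hi, hSi⟩ := hG.2 _ hS hSne
    refine ⟨i, hi, ?_⟩
    have h4 : y ∈ convexHull ℝ (p '' {j | l y + (-(l : E →ₗ[ℝ] ℝ)) (p j) = 0}) :=
      mem_zero_hull p _ _ h1 y hyP (by simp)
    have h5 : y ∈ Sx m p c i :=
      convexHull_mono ((image_mono hSi).trans (subset_insert _ _)) h4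
    have h6 : c ∈ Sx m p c i := subset_convexHull ℝ _ (mem_insert _ _)
    have h7 : x = (1 - s⁻¹) • c + s⁻¹ • y := by
      rw [hy, smul_add, smul_smul, inv_mul_cancel₀ (by linarith : s ≠ 0), one_smul, sub_smul,
        one_smul]
      abel
    rw [h7]
    have hs0 : 0 < s := by linarith
    exact (convex_convexHull ℝ _) h6 h5 (sub_nonneg.2 (inv_le_one_of_one_le₀ hs))
      (inv_nonneg.2 hs0.le) (by ring)

end Pool.Agent.T2H78.Cyc
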