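import Mathlib

/-!
Face lattices of convex hulls of finite families, via vertex sets.
-/

namespace Pool.Agent.T2H78.Cyc
open Set

variable {ι : Type} [Fintype ι]
variable {E : Type} [NormedAddCommGroup E] [InnerProductSpace ℝ E] [FiniteDimensional ℝ E]

/-- the vertex sets of faces: zero sets of nonnegative affine functionals -/
def FS (p : ι → E) : Set (Set ι) :=
  {S | ∃ (a : ℝ) (l : E →ₗ[ℝ] ℝ), (∀ i, 0 ≤ a + l (p i)) ∧ S = {i | a + l (p i) = 0}}

theorem empty_mem_FS (p : ι → E) : (∅ : Set ι) ∈ FS p :=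
  ⟨1, 0, fun i => by simp, by ext i; simp⟩

theorem nonneg_of_mem (p : ι → E) (a : ℝ) (l : E →ₗ[ℝ] ℝ) (h : ∀ i, 0 ≤ a + l (p i)) (x : E)
    (hx : x ∈ convexHull ℝ (range p)) : 0 ≤ a + l x := by
  have hc : Convex ℝ {x : E | 0 ≤ a + l x} := by
    intro x hx y hy s t hs ht hst
    simp only [mem_ofPred_eq] at *
    rw [map_add, map_smul, map_smul, smul_eq_mul, smul_eq_mul]
    have : a = s * a + t * a := by rw [← add_mul, hst, one_mul]
    nlinarith [mul_nonneg hs hx, mul_nonneg ht hy]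
  exact convexHull_min (by rintro _ ⟨i, rfl⟩; exact h i) hc hx

/-- a point of the hull on which a nonnegative functional vanishes is in the hull of the zero
vertices -/
theorem mem_zero_hull (p : ι → E) (a : ℝ) (l : E →ₗ[ℝ] ℝ) (h : ∀ i, 0 ≤ a + l (p i)) (x : E)
    (hx : x ∈ convexHull ℝ (range p)) (hx0 : a + l x = 0) :
    x ∈ convexHull ℝ (p '' {i | a + l (p i) = 0}) := by
  classical
  rw [convexHull_range_eq_exists_affineCombination] at hx
  obtain ⟨s, w, hw0, hw1, rfl⟩ := hx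
  rw [s.affineCombination_eq_linear_combination p w hw1] at hx0 ⊢
  have h1 : ∑ i ∈ s, w i * (a + l (p i)) = 0 := by
    rw [← hx0, map_sum]
    simp only [map_smul, smul_eq_mul, mul_add, Finset.sum_add_distrib]
    rw [← Finset.sum_mul, hw1, one_mul]
  have h2 : ∀ i ∈ s, w i * (a + l (p i)) = 0 :=
    (Finset.sum_eq_zero_iff_of_nonneg (fun i hi => mul_nonneg (hw0 i hi) (h i))).1 h1
  have h3 : ∑ i ∈ s, w i • p i = ∑ i ∈ s.filter (fun i => a + l (p i) = 0), w i • p i := by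
    rw [Finset.sum_filter]
    refine Finset.sum_congr rfl fun i hi => ?_
    split_ifs with h4
    · rfl
    · rcases mul_eq_zero.1 (h2 i hi) with h5 | h5
      · rw [h5, zero_smul]
      · exact absurd h5 h4
  have h4 : ∑ i ∈ s.filter (fun i => a + l (p i) = 0), w i = 1 := by
    rw [← hw1, Finset.sum_filter]
    refine Finset.sum_congr rfl fun i hi => ?_
    split_ifs with h4
    · rfl
    · rcases mul_eq_zero.1 (h2 i hi) with h5 | h5
      · exact h5.symm
      · exact absurd h5 h4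
  rw [h3]
  refine (convex_convexHull ℝ _).sum_mem (fun i hi => hw0 i (Finset.mem_filter.1 hi).1) h4 ?_
  intro i hi
  exact subset_convexHull ℝ _ ⟨i, (Finset.mem_filter.1 hi).2, rfl⟩

theorem zero_of_mem (p : ι → E) (a : ℝ) (l : E →ₗ[ℝ] ℝ) (x : E)
    (hx : x ∈ convexHull ℝ (p '' {i | a + l (p i) = 0})) : a + l x = 0 := by
  have hc : Convex ℝ {x : E | a + l x = 0} := by
    intro x hx y hy s t hs ht hst
    simp only [mem_ofPred_eq] at *
    rw [map_add, map_smul, map_smul, smul_eq_mul, smul_eq_mul]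
    have : a = s * a + t * a := by rw [← add_mul, hst, one_mul]
    linear_combination this + s * hx + t * hy
  exact convexHull_min (by rintro _ ⟨i, hi, rfl⟩; exact hi) hc hx

/-- vertex set of an exposed face -/
theorem preimage_mem_FS (p : ι → E) (B : Set E)
    (hB : IsExposed ℝ (convexHull ℝ (range p)) B) :
    p ⁻¹' B ∈ FS p ∧ convexHull ℝ (p '' (p ⁻¹' B)) = B := by
  rcases B.eq_empty_or_nonempty with rfl | hne
  · simp [empty_mem_FS]
  · obtain ⟨l, hl⟩ := hB hne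
    obtain ⟨x0, hx0⟩ := hne
    have hx0' := hx0
    rw [hl] at hx0'
    set M := l x0 with hM
    have h1 : ∀ i, 0 ≤ M + (-(l : E →ₗ[ℝ] ℝ)) (p i) := by
      intro i
      have := hx0'.2 (p i) (subset_convexHull ℝ _ ⟨i, rfl⟩)
      simp only [LinearMap.neg_apply, ContinuousLinearMap.coe_coe]
      linarith
    have h2 : ∀ x ∈ convexHull ℝ (range p), (x ∈ B ↔ M + (-(l : E →ₗ[ℝ] ℝ)) x = 0) := by
      intro x hx
      rw [hl]
      simp only [LinearMap.neg_apply, ContinuousLinearMap.coe_coe, mem_ofPred_eq]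
      constructor
      · rintro ⟨_, h3⟩
        have h4 := h3 x0 hx0'.1
        have h5 := hx0'.2 x hx
        linarith
      · intro h3
        refine ⟨hx, fun y hy => ?_⟩
        have h5 := hx0'.2 y hy
        linarith
    have h3 : p ⁻¹' B = {i | M + (-(l : E →ₗ[ℝ] ℝ)) (p i) = 0} := by
      ext i
      exact h2 (p i) (subset_convexHull ℝ _ ⟨i, rfl⟩)
    refine ⟨⟨M, -(l : E →ₗ[ℝ] ℝ), h1, h3⟩, ?_⟩
    rw [h3]
    apply Subset.antisymm
    · intro x hx
      have hx' : x ∈ convexHull ℝ (range p) := convexHull_mono (image_subset_range _ _) hx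
      exact (h2 x hx').2 (zero_of_mem p _ _ x hx)
    · intro x hx
      have hx' : x ∈ convexHull ℝ (range p) := by
        rw [hl] at hx; exact hx.1
      exact mem_zero_hull p _ _ h1 x hx' ((h2 x hx').1 hx)

theorem hull_exposed (p : ι → E) (S : Set ι) (hS : S ∈ FS p) :
    IsExposed ℝ (convexHull ℝ (range p)) (convexHull ℝ (p '' S)) ∧
      p ⁻¹' (convexHull ℝ (p '' S)) = S := by
  obtain ⟨a, l, h1, h2⟩ := hS
  constructor
  · intro hne
    refine ⟨-(LinearMap.toContinuousLinearMap l), ?_⟩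
    obtain ⟨x0, hx0⟩ := hne
    have hx0' : x0 ∈ convexHull ℝ (range p) := convexHull_mono (image_subset_range _ _) hx0
    have hx0z : a + l x0 = 0 := by
      rw [h2] at hx0; exact zero_of_mem p a l x0 hx0
    ext x
    simp only [ContinuousLinearMap.neg_apply, LinearMap.coe_toContinuousLinearMap', mem_ofPred_eq]
    constructor
    · intro hx
      have hxz : a + l x = 0 := by
        rw [h2] at hx; exact zero_of_mem p a l x hx
      refine ⟨convexHull_mono (image_subset_range _ _) hx, fun y hy => ?_⟩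
      have := nonneg_of_mem p a l h1 y hy
      linarith
    · rintro ⟨hx, h3⟩
      have h4 := h3 x0 hx0'
      have h5 := nonneg_of_mem p a l h1 x hx
      rw [h2]
      exact mem_zero_hull p a l h1 x hx (by linarith)
  · rw [h2]
    ext i
    constructor
    · intro hi
      exact zero_of_mem p a l (p i) hi
    · intro hi
      exact subset_convexHull ℝ _ ⟨i, hi, rfl⟩

/-- the face lattice in terms of vertex sets -/
noncomputable def faceIso (p : ι → E) :
    {B : Set E // IsExposed ℝ (convexHull ℝ (range p)) B} ≃o {S : Set ι // S ∈ FS p} where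
  toFun B := ⟨p ⁻¹' B.1, (preimage_mem_FS p B.1 B.2).1⟩
  invFun S := ⟨convexHull ℝ (p '' S.1), (hull_exposed p S.1 S.2).1⟩
  left_inv B := Subtype.ext (preimage_mem_FS p B.1 B.2).2
  right_inv S := Subtype.ext (hull_exposed p S.1 S.2).2
  map_rel_iff' := by
    intro B C
    constructor
    · intro h
      have h1 : p ⁻¹' B.1 ⊆ p ⁻¹' C.1 := h
      change B.1 ⊆ C.1
      rw [← (preimage_mem_FS p B.1 B.2).2, ← (preimage_mem_FS p C.1 C.2).2]
      exact convexHull_mono (image_mono h1)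
    · intro h
      exact preimage_mono h

/-- order isomorphic families of sets containing the empty set and the singletons -/
theorem exists_equiv {α β : Type} (𝓐 : Set (Set α)) (𝓑 : Set (Set β)) (hA0 : ∅ ∈ 𝓐)
    (hB0 : ∅ ∈ 𝓑) (hA1 : ∀ a, {a} ∈ 𝓐) (hB1 : ∀ b, {b} ∈ 𝓑)
    (Ψ : {S // S ∈ 𝓐} ≃o {S // S ∈ 𝓑}) : ∃ e : α ≃ β, ∀ S, S ∈ 𝓐 ↔ e '' S ∈ 𝓑 := by
  have key : ∀ {α β : Type} (𝓐 : Set (Set α)) (𝓑 : Set (Set β)) (hA0 : ∅ ∈ 𝓐)
      (hB0 : ∅ ∈ 𝓑) (hA1 : ∀ a, {a} ∈ 𝓐) (hB1 : ∀ b, {b} ∈ 𝓑)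
      (Ψ : {S // S ∈ 𝓐} ≃o {S // S ∈ 𝓑}), ∀ a, ∃ b, Ψ ⟨{a}, hA1 a⟩ = ⟨{b}, hB1 b⟩ := by
    intro α β 𝓐 𝓑 hA0 hB0 hA1 hB1 Ψ a
    have h0 : Ψ ⟨∅, hA0⟩ = ⟨∅, hB0⟩ := by
      have h1 : Ψ ⟨∅, hA0⟩ ≤ ⟨∅, hB0⟩ := by
        have h2 : (⟨∅, hA0⟩ : {S // S ∈ 𝓐}) ≤ Ψ.symm ⟨∅, hB0⟩ := by
          change (∅ : Set α) ⊆ _
          exact Set.empty_subset _
        have h3 := Ψ.monotone h2
        rwa [Ψ.apply_symm_apply] at h3
      apply Subtype.ext
      exact Set.subset_empty_iff.1 h1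
    have hne : (Ψ ⟨{a}, hA1 a⟩).1.Nonempty := by
      rw [Set.nonempty_iff_ne_empty]
      intro h
      have h1 : Ψ ⟨{a}, hA1 a⟩ = Ψ ⟨∅, hA0⟩ := by
        rw [h0]; exact Subtype.ext h
      have h2 := congrArg Subtype.val (Ψ.injective h1)
      exact Set.singleton_ne_empty a h2
    obtain ⟨b, hb⟩ := hne
    refine ⟨b, ?_⟩
    have h1 : (⟨{b}, hB1 b⟩ : {S // S ∈ 𝓑}) ≤ Ψ ⟨{a}, hA1 a⟩ := by
      change ({b} : Set β) ⊆ _
      exact Set.singleton_subset_iff.2 hb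
    have h2 : Ψ.symm ⟨{b}, hB1 b⟩ ≤ ⟨{a}, hA1 a⟩ := by
      have := Ψ.symm.monotone h1
      rwa [Ψ.symm_apply_apply] at this
    have h3 : (Ψ.symm ⟨{b}, hB1 b⟩).1 ⊆ {a} := h2
    rcases Set.subset_singleton_iff_eq.1 h3 with h4 | h4
    · exfalso
      have h5 : Ψ.symm ⟨{b}, hB1 b⟩ = ⟨∅, hA0⟩ := Subtype.ext h4
      have h6 := congrArg Ψ h5
      rw [Ψ.apply_symm_apply, h0] at h6
      exact Set.singleton_ne_empty b (congrArg Subtype.val h6)
    · have h5 : Ψ.symm ⟨{b}, hB1 b⟩ = ⟨{a}, hA1 a⟩ := Subtype.ext h4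
      have h6 := congrArg Ψ h5
      rw [Ψ.apply_symm_apply] at h6
      exact h6.symm
  choose f hf using key 𝓐 𝓑 hA0 hB0 hA1 hB1 Ψ
  choose g hg using key 𝓑 𝓐 hB0 hA0 hB1 hA1 Ψ.symm
  have hgf : ∀ a, g (f a) = a := by
    intro a
    have h1 := hg (f a)
    rw [← hf a, Ψ.symm_apply_apply] at h1
    exact (Set.singleton_injective (congrArg Subtype.val h1)).symm
  have hfg : ∀ b, f (g b) = b := by
    intro b
    have h1 := hf (g b)
    rw [← hg b, Ψ.apply_symm_apply] at h1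
    exact (Set.singleton_injective (congrArg Subtype.val h1)).symm
  let e : α ≃ β := ⟨f, g, hgf, hfg⟩
  have hval : ∀ S (hS : S ∈ 𝓐), (Ψ ⟨S, hS⟩).1 = e '' S := by
    intro S hS
    ext b
    rw [Equiv.image_eq_preimage_symm]
    change b ∈ (Ψ ⟨S, hS⟩).1 ↔ g b ∈ S
    constructor
    · intro hb
      have h1 : (⟨{b}, hB1 b⟩ : {S // S ∈ 𝓑}) ≤ Ψ ⟨S, hS⟩ := by
        change ({b} : Set β) ⊆ _
        exact Set.singleton_subset_iff.2 hb
      have h2 := Ψ.symm.monotone h1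
      rw [Ψ.symm_apply_apply, hg b] at h2
      exact Set.singleton_subset_iff.1 h2
    · intro hb
      have h1 : (⟨{g b}, hA1 _⟩ : {S // S ∈ 𝓐}) ≤ ⟨S, hS⟩ := by
        change ({g b} : Set α) ⊆ _
        exact Set.singleton_subset_iff.2 hb
      have h2 := Ψ.monotone h1
      rw [hf (g b)] at h2
      have h3 : ({f (g b)} : Set β) ⊆ (Ψ ⟨S, hS⟩).1 := h2
      rw [hfg] at h3
      exact Set.singleton_subset_iff.1 h3
  refine ⟨e, fun S => ⟨fun hS => ?_, fun hS => ?_⟩⟩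
  · rw [← hval S hS]; exact (Ψ ⟨S, hS⟩).2
  · have h1 := hval (Ψ.symm ⟨e '' S, hS⟩).1 (Ψ.symm ⟨e '' S, hS⟩).2
    have h2 : Ψ ⟨(Ψ.symm ⟨e '' S, hS⟩).1, (Ψ.symm ⟨e '' S, hS⟩).2⟩ = ⟨e '' S, hS⟩ :=
      Ψ.apply_symm_apply _
    rw [h2] at h1
    have h3 : S = (Ψ.symm ⟨e '' S, hS⟩).1 := e.injective.image_injective h1
    rw [h3]; exact (Ψ.symm ⟨e '' S, hS⟩).2

/-- reindexing -/
theorem FS_comp {κ : Type} [Fintype κ] (p : ι → E) (e : κ ≃ ι) (S : Set κ) :
    S ∈ FS (p ∘ e) ↔ e '' S ∈ FS p := by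
  constructor
  · rintro ⟨a, l, h1, h2⟩
    refine ⟨a, l, fun i => by simpa using h1 (e.symm i), ?_⟩
    rw [h2]
    ext i
    rw [Equiv.image_eq_preimage_symm]
    simp
  · rintro ⟨a, l, h1, h2⟩
    refine ⟨a, l, fun i => h1 (e i), ?_⟩
    have : S = e ⁻¹' (e '' S) := (e.injective.preimage_image S).symm
    rw [this, h2]
    rfl

end Pool.Agent.T2H78.Cyc
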