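import Pool.Agent.T2H78.CycTrig

/-!
Volume-maximal inscribed cyclic polytopes with `d + 3` vertices, `d` even.
-/

namespace Pool.Agent.T2H78.Cyc
open Set MeasureTheory Polynomial

/-- `P` is a cyclic `d`-polytope with `n` vertices: a `d`-dimensional convex polytope whose face
lattice (the exposed faces ordered by inclusion) is isomorphic to that of the convex hull of `n`
distinct points of the moment curve. -/
def IsCyclicPolytope (d n : ℕ) (P : Set (EuclideanSpace ℝ (Fin d))) : Prop :=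
  (∃ s : Set (EuclideanSpace ℝ (Fin d)), s.Finite ∧ P = convexHull ℝ s) ∧
  (interior P).Nonempty ∧
  ∃ t : Fin n → ℝ, Function.Injective t ∧
    Nonempty ({B : Set (EuclideanSpace ℝ (Fin d)) // IsExposed ℝ P B} ≃o
      {B : Set (EuclideanSpace ℝ (Fin d)) //
        IsExposed ℝ (convexHull ℝ (range fun i => momentCurve d (t i))) B})

/-- the cyclic `d`-polytopes with `n` vertices inscribed in the unit sphere -/
def InscribedCyclic (d n : ℕ) : Set (Set (EuclideanSpace ℝ (Fin d))) :=
  {P | IsCyclicPolytope d n P ∧ P.extremePoints ℝ ⊆ Metric.sphere 0 1}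

/-- the index equivalence -/
noncomputable def eJ (m : ℕ) : Fin (2 * m) ≃ J m :=
  Fintype.equivOfCardEq (by simp [mul_comm])

/-- orthonormal basis indexed by pairs -/
noncomputable def bJ (m : ℕ) : OrthonormalBasis (J m) ℝ (EuclideanSpace ℝ (Fin (2 * m))) :=
  (EuclideanSpace.basisFun (Fin (2 * m)) ℝ).reindex (eJ m)

theorem structure_lemma (m : ℕ) (hm : 0 < m) (P : Set (EuclideanSpace ℝ (Fin (2 * m))))
    (hP : P ∈ InscribedCyclic (2 * m) (2 * m + 3)) :
    ∃ p : ZMod (2 * m + 3) → EuclideanSpace ℝ (Fin (2 * m)), Function.Injective p ∧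
      (∀ j, ‖p j‖ = 1) ∧ P = convexHull ℝ (range p) ∧ range p = P.extremePoints ℝ ∧
      (interior (convexHull ℝ (range p))).Nonempty ∧ Gale m (FS p) := by
  classical
  obtain ⟨⟨⟨s, hs, hPs⟩, hint, t, ht, ⟨Φ⟩⟩, hext⟩ := hP
  set V := P.extremePoints ℝ with hV
  have hVfin : V.Finite := hs.subset (by rw [hV, hPs]; exact extremePoints_convexHull_subset)
  have hPc : IsCompact P := by rw [hPs]; exact hs.isCompact_convexHull (𝕜 := ℝ)
  have hPconv : Convex ℝ P := by rw [hPs]; exact convex_convexHull ℝ s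
  have hPV : P = convexHull ℝ V := by
    have h1 := closure_convexHull_extremePoints hPc hPconv
    rw [← h1, ← hV]
    exact ((hVfin.isCompact_convexHull (𝕜 := ℝ)).isClosed).closure_eq
  haveI : Fintype V := hVfin.fintype
  set pV : V → EuclideanSpace ℝ (Fin (2 * m)) := Subtype.val with hpV
  have hrV : range pV = V := Subtype.range_val
  have hPV' : P = convexHull ℝ (range pV) := by rw [hrV]; exact hPV
  set q : Fin (2 * m + 3) → EuclideanSpace ℝ (Fin (2 * m)) := fun i => momentCurve (2 * m) (t i)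
    with hq
  have Φ' : {B // IsExposed ℝ (convexHull ℝ (range pV)) B} ≃o
      {B // IsExposed ℝ (convexHull ℝ (range q)) B} := by
    rw [← hPV']; exact Φ
  have Ψ : {S // S ∈ FS pV} ≃o {S // S ∈ FS q} :=
    ((faceIso pV).symm.trans Φ').trans (faceIso q)
  have hqPF : FS q = PF (2 * m) t := FS_moment (2 * m) t
  have hsphere : ∀ v : V, ‖pV v‖ = 1 := by
    intro v
    have := hext v.2
    simpa using this
  obtain ⟨e, he⟩ := exists_equiv (FS pV) (FS q) (empty_mem_FS pV) (empty_mem_FS q) (by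
      intro v
      refine ⟨1, -(innerSL ℝ (pV v) : EuclideanSpace ℝ (Fin (2 * m)) →L[ℝ] ℝ).toLinearMap, ?_, ?_⟩
      · intro w
        have h1 := real_inner_le_norm (pV v) (pV w)
        rw [hsphere, hsphere] at h1
        simp only [LinearMap.neg_apply, ContinuousLinearMap.coe_coe, innerSL_apply_apply]
        linarith
      · ext w
        simp only [mem_singleton_iff, mem_ofPred_eq, LinearMap.neg_apply,
          ContinuousLinearMap.coe_coe, innerSL_apply_apply]
        constructor
        · rintro rfl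
          rw [real_inner_self_eq_norm_sq, hsphere]; norm_num
        · intro h
          have h1 : inner ℝ (pV v) (pV w) = 1 := by linarith
          have h2 := (inner_eq_one_iff_of_norm_eq_one (𝕜 := ℝ) (hsphere v) (hsphere w)).1 h1
          exact (Subtype.ext h2).symm)
    (by intro b; rw [hqPF]; exact singleton_mem_PF _ (by omega) _ ht b) Ψ
  -- sort
  have hsort := Tuple.monotone_sort t
  set σ := Tuple.sort t with hσ
  have hstrict : StrictMono (t ∘ σ) :=
    hsort.strictMono_of_injective (ht.comp σ.injective)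
  let ε : ZMod (2 * m + 3) ≃ Fin (2 * m + 3) :=
    { toFun := fun j => ⟨j.val, j.val_lt⟩
      invFun := fun i => ((i : ℕ) : ZMod (2 * m + 3))
      left_inv := fun j => by simp
      right_inv := fun i => by
        ext
        exact ZMod.val_natCast_of_lt i.2 }
  let E' : ZMod (2 * m + 3) ≃ V := (ε.trans σ).trans e.symm
  refine ⟨pV ∘ E', Subtype.val_injective.comp E'.injective, fun j => hsphere _, ?_, ?_, ?_, ?_⟩
  · rw [EquivLike.range_comp]; exact hPV'
  · rw [EquivLike.range_comp]; exact hrV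
  · rw [EquivLike.range_comp, ← hPV']; exact hint
  · have hFS : FS (pV ∘ E') = PF (2 * m) (t ∘ (ε.trans σ)) := by
      rw [← FS_moment]
      ext S
      rw [FS_comp pV E']
      have h1 : (fun j => momentCurve (2 * m) ((t ∘ (ε.trans σ)) j)) = q ∘ (ε.trans σ) := rfl
      rw [h1, FS_comp q (ε.trans σ), he (E' '' S)]
      have h2 : e '' (E' '' S) = (ε.trans σ) '' S := by
        rw [← image_comp]
        congr 1
        funext j
        simp [E']
      rw [h2]
    rw [hFS]
    refine moment_gale m _ ?_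
    intro a b hab
    exact hstrict (show ε a < ε b from hab)

theorem det_coords (m : ℕ) (p : ZMod (2 * m + 3) → EuclideanSpace ℝ (Fin (2 * m)))
    (c : EuclideanSpace ℝ (Fin (2 * m))) (i : Fin m → ZMod (2 * m + 3)) :
    (bJ m).toBasis.det (vv m p c i) = Matrix.det (Matrix.of fun (d : J m) =>
      (Matrix.of fun (j : ZMod (2 * m + 3)) (a : J m) => (bJ m).repr (p j - c) a)
        (i d.1 + ((d.2 : ℕ) : ZMod (2 * m + 3)))) := by
  rw [Module.Basis.det_apply, ← Matrix.det_transpose]
  congr 1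

theorem sum_sq_coords (m : ℕ) (x : EuclideanSpace ℝ (Fin (2 * m))) :
    ∑ a, (bJ m).repr x a ^ 2 = ‖x‖ ^ 2 := by
  rw [← (bJ m).repr.norm_map x, EuclideanSpace.norm_sq_eq]
  simp

theorem inner_coords (m : ℕ) (x y : EuclideanSpace ℝ (Fin (2 * m))) :
    ∑ a, (bJ m).repr x a * (bJ m).repr y a = inner ℝ x y := by
  rw [← (bJ m).repr.inner_map_map x y, PiLp.inner_apply]
  refine Finset.sum_congr rfl fun a _ => ?_
  simp [mul_comm]

theorem sum_cen (m : ℕ) (p : ZMod (2 * m + 3) → EuclideanSpace ℝ (Fin (2 * m)))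
    (hp : ∀ j, ‖p j‖ = 1) : ∑ j, ‖p j - cen m p‖ ^ 2 = (2 * m + 3) * (1 - ‖cen m p‖ ^ 2) := by
  have hn : (0 : ℝ) < ((2 * m + 3 : ℕ) : ℝ) := by exact_mod_cast (by omega : 0 < 2 * m + 3)
  have h1 : ∀ j, ‖p j - cen m p‖ ^ 2 = 1 - 2 * inner ℝ (p j) (cen m p) + ‖cen m p‖ ^ 2 := by
    intro j
    rw [norm_sub_sq_real, hp]; ring
  have h2 : ∑ j, p j = ((2 * m + 3 : ℕ) : ℝ) • cen m p := by
    rw [cen, smul_smul, mul_inv_cancel₀ hn.ne', one_smul]
  have h3 : ∑ j, inner ℝ (p j) (cen m p) = ((2 * m + 3 : ℕ) : ℝ) * ‖cen m p‖ ^ 2 := by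
    rw [← sum_inner, h2, inner_smul_left, real_inner_self_eq_norm_sq]; simp
  rw [Finset.sum_congr rfl (fun j _ => h1 j), Finset.sum_add_distrib, Finset.sum_sub_distrib,
    ← Finset.mul_sum, h3]
  simp only [Finset.sum_const, Finset.card_univ, ZMod.card, nsmul_eq_mul]
  push_cast; ring

/-- volume of the reference simplex -/
noncomputable def kap (m : ℕ) : ENNReal := volume (S0 m (bJ m).toBasis)

theorem kap_ne_top (m : ℕ) : kap m ≠ ⊤ := by
  have h1 : (insert (0 : EuclideanSpace ℝ (Fin (2 * m))) (range (bJ m).toBasis)).Finite :=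
    (finite_range _).insert _
  exact (h1.isCompact_convexHull (𝕜 := ℝ)).measure_lt_top.ne

theorem kap_ne_zero (m : ℕ) : kap m ≠ 0 := by
  have h1 : (interior (S0 m (bJ m).toBasis)).Nonempty := by
    rw [S0, interior_convexHull_nonempty_iff_affineSpan_eq_top]
    apply SetLike.coe_injective
    rw [affineSpan_insert_zero, (bJ m).toBasis.span_eq]
    simp
  exact (Measure.measure_pos_of_nonempty_interior volume h1).ne'

theorem upper (m : ℕ) (p : ZMod (2 * m + 3) → EuclideanSpace ℝ (Fin (2 * m)))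
    (hint : (interior (convexHull ℝ (range p))).Nonempty) (hG : Gale m (FS p)) :
    volume (convexHull ℝ (range p)) ≤
      ENNReal.ofReal (|∑ i, (bJ m).toBasis.det (vv m p (cen m p) i)| / m.factorial) * kap m :=
  vol_le volume m _ p (cen m p) (supp_of_FS m p hG.1) _
    (fun x hx => cover m p hint hG (cen m p) x hx)

theorem lower (m : ℕ) (p : ZMod (2 * m + 3) → EuclideanSpace ℝ (Fin (2 * m)))
    (hG : ∀ i, Valid m i → Fset m i ∈ FS p) :
    ENNReal.ofReal (|∑ i, (bJ m).toBasis.det (vv m p (cen m p) i)| / m.factorial) * kap m ≤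
      volume (convexHull ℝ (range p)) :=
  le_vol volume m _ p (cen m p) (supp_of_FS m p hG) _ (convex_convexHull ℝ _) (cen_mem m p)
    (fun j => subset_convexHull ℝ _ ⟨j, rfl⟩)

/-- the optimal polytope -/
noncomputable def p0 (m : ℕ) (j : ZMod (2 * m + 3)) : EuclideanSpace ℝ (Fin (2 * m)) :=
  ∑ d, P0 m j d • bJ m d

theorem p0_repr (m : ℕ) (j : ZMod (2 * m + 3)) (d : J m) : (bJ m).repr (p0 m j) d = P0 m j d := by
  rw [p0, map_sum]
  simp only [map_smul, OrthonormalBasis.repr_self]
  simp [Finset.sum_apply]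
  rw [Finset.sum_eq_single d]
  · simp
  · intro b _ hb
    simp [hb.symm]
  · simp

theorem p0_norm (m : ℕ) (hm : 0 < m) (j : ZMod (2 * m + 3)) : ‖p0 m j‖ = 1 := by
  have h1 := sum_sq_coords m (p0 m j)
  simp only [p0_repr, P0_norm m hm] at h1
  have h2 : 0 ≤ ‖p0 m j‖ := norm_nonneg _
  nlinarith

theorem p0_cen (m : ℕ) : cen m (p0 m) = 0 := by
  rw [cen]
  have : ∑ j, p0 m j = 0 := by
    simp only [p0]
    rw [Finset.sum_comm]
    refine Finset.sum_eq_zero fun d _ => ?_
    rw [← Finset.sum_smul, P0_sum, zero_smul]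
  rw [this, smul_zero]

theorem p0_det (m : ℕ) (hm : 0 < m) :
    ∑ i, (bJ m).toBasis.det (vv m (p0 m) (cen m (p0 m)) i) = Bm m := by
  rw [← tuple_opt m hm]
  refine Finset.sum_congr rfl fun i _ => ?_
  rw [det_coords]
  congr 1
  ext d a
  simp only [Matrix.of_apply]
  rw [p0_cen, sub_zero, p0_repr]

/-- `ρ` -/
noncomputable def rho (m : ℕ) : ℝ := √((2 * m + 3 : ℝ) / (2 * m)) * √(2 / (2 * m + 3))

theorem rho_ne (m : ℕ) (hm : 0 < m) : rho m ≠ 0 := by
  have hm' : (0 : ℝ) < m := by exact_mod_cast hm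
  have : 0 < rho m := by unfold rho; positivity
  exact this.ne'

theorem l_p0 (m : ℕ) (l : EuclideanSpace ℝ (Fin (2 * m)) →ₗ[ℝ] ℝ) (j : ZMod (2 * m + 3)) :
      l (p0 m j) = ∑ k : Fin m, (rho m * cs m (j * (((k : ℕ) + 1 : ℕ) : ZMod (2 * m + 3))) *
        l (bJ m (k, 0)) + rho m * sn m (j * (((k : ℕ) + 1 : ℕ) : ZMod (2 * m + 3))) *
        l (bJ m (k, 1))) := by
  have hfr : ∀ k : Fin m, fr m k.castSucc = (((k : ℕ) + 1 : ℕ) : ZMod (2 * m + 3)) := fun k => rfl
  rw [p0, map_sum, Fintype.sum_prod_type]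
  refine Finset.sum_congr rfl fun k _ => ?_
  rw [Fin.sum_univ_two, map_smul, map_smul, smul_eq_mul, smul_eq_mul]
  simp only [P0, Matrix.of_apply, U_zero, U_one, hfr, rho]
  ring

theorem exists_of_TM (m : ℕ) (hm : 0 < m) (f : ZMod (2 * m + 3) → ℝ) (hf : f ∈ TM m m) :
    ∃ (a : ℝ) (l : EuclideanSpace ℝ (Fin (2 * m)) →ₗ[ℝ] ℝ), ∀ j, f j = a + l (p0 m j) := by
  have hρ0 := rho_ne m hm
  have hval := l_p0 m
  -- the functions of the form `a + l (p0 j)`
  let W : Submodule ℝ (ZMod (2 * m + 3) → ℝ) :=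
    { carrier := {f | ∃ (a : ℝ) (l : EuclideanSpace ℝ (Fin (2 * m)) →ₗ[ℝ] ℝ),
        ∀ j, f j = a + l (p0 m j)}
      add_mem' := by
        rintro f f' ⟨a, l, h⟩ ⟨a', l', h'⟩
        refine ⟨a + a', l + l', fun j => ?_⟩
        rw [Pi.add_apply, h, h', LinearMap.add_apply]; ring
      zero_mem' := ⟨0, 0, fun j => by simp⟩
      smul_mem' := by
        rintro c f ⟨a, l, h⟩
        refine ⟨c * a, c • l, fun j => ?_⟩
        rw [Pi.smul_apply, h, LinearMap.smul_apply, smul_eq_mul, smul_eq_mul]; ring }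
  have hTW : TM m m ≤ W := by
    refine Submodule.span_le.2 ?_
    rintro f ⟨r, hr, h⟩
    rcases Nat.eq_zero_or_pos r with h0 | h0
    · subst h0
      rcases h with h | h
      · exact ⟨1, 0, fun j => by rw [h]; simp [cs_zero]⟩
      · exact ⟨0, 0, fun j => by rw [h]; simp [sn_zero]⟩
    · obtain ⟨r, rfl⟩ : ∃ r', r = r' + 1 := ⟨r - 1, by omega⟩
      have hb : ∀ d d' : J m, (bJ m).toBasis.coord d (bJ m d') = if d' = d then 1 else 0 := by
        intro d d'
        have := (bJ m).toBasis.coord_apply d ((bJ m).toBasis d')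
        rw [Module.Basis.repr_self, Finsupp.single_apply] at this
        simpa using this
      rcases h with h | h
      · refine ⟨0, (rho m)⁻¹ • (bJ m).toBasis.coord (⟨r, by omega⟩, 0), fun j => ?_⟩
        rw [h, hval]
        simp only [LinearMap.smul_apply, hb, smul_eq_mul, Prod.mk.injEq]
        rw [Finset.sum_eq_single ⟨r, by omega⟩]
        · simp
          field_simp
        · intro k _ hk
          simp [hk]
        · simp
      · refine ⟨0, (rho m)⁻¹ • (bJ m).toBasis.coord (⟨r, by omega⟩, 1), fun j => ?_⟩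
        rw [h, hval]
        simp only [LinearMap.smul_apply, hb, smul_eq_mul, Prod.mk.injEq]
        rw [Finset.sum_eq_single ⟨r, by omega⟩]
        · simp
          field_simp
        · intro k _ hk
          simp [hk]
        · simp
  exact hTW hf

theorem FS_p0 (m : ℕ) (hm : 0 < m) : FS (p0 m) = PF (2 * m) (tau m) := by
  have hm' : (0 : ℝ) < m := by exact_mod_cast hm
  have hw : ∀ j : ZMod (2 * m + 3), 0 < (1 + tau m j ^ 2) ^ m := fun j => by positivity
  have hval := l_p0 m
  ext S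
  constructor
  · rintro ⟨a, l, h1, h2⟩
    choose C Sn hC hS hCe hSe using trig_poly m
    have hbase : (1 + X ^ 2 : ℝ[X]).natDegree ≤ 2 := by
      refine (natDegree_add_le _ _).trans ?_
      rw [natDegree_X_pow]; simp
    set g : ℝ[X] := Polynomial.C a * (1 + X ^ 2) ^ m + ∑ k : Fin m,
      (Polynomial.C (rho m * l (bJ m (k, 0))) * (C (k + 1) * (1 + X ^ 2) ^ (m - (k + 1))) +
        Polynomial.C (rho m * l (bJ m (k, 1))) * (Sn (k + 1) * (1 + X ^ 2) ^ (m - (k + 1)))) with hg
    have hge : ∀ j, g.eval (tau m j) = (1 + tau m j ^ 2) ^ m * (a + l (p0 m j)) := by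
      intro j
      rw [hg]
      simp only [eval_add, eval_mul, eval_C, eval_pow, eval_one, eval_X, eval_finsetSum, hCe, hSe]
      rw [hval, mul_add, Finset.mul_sum]
      congr 1
      · ring
      · refine Finset.sum_congr rfl fun k _ => ?_
        have hk := k.2
        have e1 : (1 + tau m j ^ 2) ^ m =
            (1 + tau m j ^ 2) ^ ((k : ℕ) + 1) * (1 + tau m j ^ 2) ^ (m - ((k : ℕ) + 1)) := by
          rw [← pow_add]; congr 1; omega
        rw [e1]; ring
    have hpd : ∀ r, ((1 + X ^ 2 : ℝ[X]) ^ r).natDegree ≤ 2 * r := by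
      intro r
      refine natDegree_pow_le.trans ?_
      rw [mul_comm]
      exact Nat.mul_le_mul_right r hbase
    refine ⟨g, ?_, ?_, ?_⟩
    · refine (natDegree_add_le _ _).trans (max_le ?_ ?_)
      · exact (natDegree_C_mul_le _ _).trans (hpd m)
      · refine natDegree_sum_le_of_forall_le _ _ fun k _ => ?_
        have hk := k.2
        refine (natDegree_add_le _ _).trans (max_le ?_ ?_)
        · refine (natDegree_C_mul_le _ _).trans (natDegree_mul_le.trans ?_)
          have := hC ((k : ℕ) + 1)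
          have := hpd (m - ((k : ℕ) + 1))
          omega
        · refine (natDegree_C_mul_le _ _).trans (natDegree_mul_le.trans ?_)
          have := hS ((k : ℕ) + 1)
          have := hpd (m - ((k : ℕ) + 1))
          omega
    · intro j
      rw [hge]
      exact mul_nonneg (hw j).le (h1 j)
    · rw [h2]
      ext j
      simp only [mem_ofPred_eq, hge, mul_eq_zero, (hw j).ne', false_or]
  · rintro ⟨g, h0, h1, h2⟩
    have hgW : (fun j => g.eval (tau m j) / (1 + tau m j ^ 2) ^ m) ∈ TM m m := by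
      have h3 : (fun j => g.eval (tau m j) / (1 + tau m j ^ 2) ^ m) =
          ∑ i ∈ Finset.range (2 * m + 1), g.coeff i •
            (fun j => tau m j ^ i / (1 + tau m j ^ 2) ^ m) := by
        funext j
        rw [Finset.sum_apply, eval_eq_sum_range' (n := 2 * m + 1) (by omega), Finset.sum_div]
        refine Finset.sum_congr rfl fun i _ => ?_
        rw [Pi.smul_apply, smul_eq_mul]; ring
      rw [h3]
      refine Submodule.sum_mem _ fun i hi => ?_
      refine Submodule.smul_mem _ _ (mono_mem m m i ?_)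
      have := Finset.mem_range.1 hi
      omega
    obtain ⟨a, l, hal⟩ := exists_of_TM m hm _ hgW
    have hal' : ∀ j, a + l (p0 m j) = g.eval (tau m j) / (1 + tau m j ^ 2) ^ m := fun j =>
      (hal j).symm
    refine ⟨a, l, fun j => ?_, ?_⟩
    · rw [hal']
      exact div_nonneg (h1 j) (hw j).le
    · rw [h2]
      ext j
      simp only [mem_ofPred_eq, hal', div_eq_zero_iff, (hw j).ne', or_false]

/-- the nonnegative trigonometric factor vanishing at `e` and `e + 1` -/
noncomputable def ph (m : ℕ) (e j : ZMod (2 * m + 3)) : ℝ :=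
  Real.cos (Real.pi / (2 * m + 3)) * (1 - cs m (j - e)) -
    Real.sin (Real.pi / (2 * m + 3)) * sn m (j - e)

theorem ph_eq (m : ℕ) (e j : ZMod (2 * m + 3)) : ph m e j = Real.cos (Real.pi / (2 * m + 3)) -
    Real.cos ((2 * ((j - e).val : ℝ) - 1) * (Real.pi / (2 * m + 3))) := by
  rw [ph, cs_eq, sn_eq]
  have e1 : (2 * ((j - e).val : ℝ) - 1) * (Real.pi / (2 * m + 3)) =
      2 * (Real.pi * (j - e).val / (2 * m + 3)) - Real.pi / (2 * m + 3) := by ring
  rw [e1, Real.cos_sub]; ring

theorem ph_nonneg (m : ℕ) (e j : ZMod (2 * m + 3)) :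
    0 ≤ ph m e j ∧ (ph m e j = 0 ↔ j = e ∨ j = e + 1) := by
  rw [ph_eq]
  set r := (j - e).val with hr
  have hrl : r < 2 * m + 3 := ZMod.val_lt _
  have hj : j = e + (r : ZMod (2 * m + 3)) := by rw [hr, ZMod.natCast_zmod_val]; ring
  set α := Real.pi / (2 * m + 3) with hα
  have hpi := Real.pi_pos
  have h0 : (0 : ℝ) < 2 * m + 3 := by positivity
  have hα0 : 0 < α := by positivity
  have hnα : (2 * m + 3) * α = Real.pi := by rw [hα]; field_simp
  rcases Nat.lt_or_ge r 2 with h | h
  · have h01 : r = 0 ∨ r = 1 := by omega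
    rcases h01 with h1 | h1
    · rw [h1] at hj ⊢
      have h2 : (2 * ((0 : ℕ) : ℝ) - 1) * α = -α := by push_cast; ring
      rw [h2, Real.cos_neg, sub_self]
      refine ⟨le_rfl, fun _ => Or.inl (by simpa using hj), fun _ => rfl⟩
    · rw [h1] at hj ⊢
      have h2 : (2 * ((1 : ℕ) : ℝ) - 1) * α = α := by push_cast; ring
      rw [h2, sub_self]
      refine ⟨le_rfl, fun _ => Or.inr (by simpa using hj), fun _ => rfl⟩
  · have hr2 : (2 : ℝ) ≤ r := by exact_mod_cast h
    have hrn : (r : ℝ) ≤ 2 * m + 2 := by exact_mod_cast (by omega : r ≤ 2 * m + 2)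
    have hlt : Real.cos ((2 * (r : ℝ) - 1) * α) < Real.cos α := by
      by_cases hle : (2 * (r : ℝ) - 1) * α ≤ Real.pi
      · exact Real.cos_lt_cos_of_nonneg_of_le_pi hα0.le hle (by nlinarith)
      · push Not at hle
        rw [← Real.cos_two_pi_sub]
        exact Real.cos_lt_cos_of_nonneg_of_le_pi hα0.le (by linarith) (by nlinarith)
    refine ⟨by linarith, fun h3 => by linarith, ?_⟩
    rintro (h3 | h3)
    · exfalso
      have : r = 0 := by rw [hr, h3, sub_self, ZMod.val_zero]
      omega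
    · exfalso
      have : r = 1 := by
        rw [hr, h3, add_sub_cancel_left, ZMod.val_one_eq_one_mod, Nat.mod_eq_of_lt (by omega)]
      omega

theorem ph_mul (m M : ℕ) (e : ZMod (2 * m + 3)) (f : ZMod (2 * m + 3) → ℝ) (hf : f ∈ TM m M) :
    (fun j => ph m e j * f j) ∈ TM m (M + 1) := by
  obtain ⟨h1, h2⟩ := TM_mul_cs m M f hf
  have h3 := TM_mono m M hf
  have := Submodule.add_mem _ (Submodule.smul_mem _ (Real.cos (Real.pi / (2 * m + 3))) h3)
    (Submodule.add_mem _
    (Submodule.smul_mem _ (-(Real.cos (Real.pi / (2 * m + 3)) * cs m e) +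
      Real.sin (Real.pi / (2 * m + 3)) * sn m e) h1)
    (Submodule.smul_mem _ (-(Real.cos (Real.pi / (2 * m + 3)) * sn m e) -
      Real.sin (Real.pi / (2 * m + 3)) * cs m e) h2))
  convert! this using 1
  funext j
  simp only [Pi.smul_apply, Pi.add_apply, smul_eq_mul]
  rw [ph, cs_sub, sn_sub]; ring

theorem ph_prod (m : ℕ) (i : Fin m → ZMod (2 * m + 3)) (s : Finset (Fin m)) :
    (fun j => ∏ k ∈ s, ph m (i k) j) ∈ TM m s.card := by
  classical
  induction s using Finset.induction_on with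
  | empty =>
    have := cs_mem m 0 0 le_rfl
    convert! this using 1
    funext j
    simp [cs_zero]
  | insert k s hk ih =>
    rw [Finset.card_insert_of_notMem hk]
    have := ph_mul m _ (i k) _ ih
    convert! this using 1
    funext j
    rw [Finset.prod_insert hk]

theorem Fset_mem_p0 (m : ℕ) (hm : 0 < m) (i : Fin m → ZMod (2 * m + 3)) :
    Fset m i ∈ FS (p0 m) := by
  have h1 := ph_prod m i Finset.univ
  rw [Finset.card_univ, Fintype.card_fin] at h1
  obtain ⟨a, l, h⟩ := exists_of_TM m hm _ h1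
  refine ⟨a, l, fun j => ?_, ?_⟩
  · rw [← h]
    exact Finset.prod_nonneg fun k _ => (ph_nonneg m (i k) j).1
  · ext j
    rw [mem_Fset, mem_ofPred_eq, ← h, Finset.prod_eq_zero_iff]
    constructor
    · rintro ⟨k, hk⟩
      exact ⟨k, Finset.mem_univ _, (ph_nonneg m (i k) j).2.2 hk⟩
    · rintro ⟨k, _, hk⟩
      exact ⟨k, (ph_nonneg m (i k) j).2.1 hk⟩

theorem Bm_pos (m : ℕ) (hm : 0 < m) : 0 < Bm m := by
  have hm' : (0 : ℝ) < m := by exact_mod_cast hm
  have hf : (0 : ℝ) < m.factorial := by exact_mod_cast m.factorial_pos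
  have := Cr_pos m (Fin.last m)
  unfold Bm
  positivity

theorem vol_p0 (m : ℕ) (hm : 0 < m) :
    ENNReal.ofReal (Bm m / m.factorial) * kap m ≤ volume (convexHull ℝ (range (p0 m))) := by
  have := lower m (p0 m) (fun i _ => Fset_mem_p0 m hm i)
  rwa [p0_det m hm, abs_of_pos (Bm_pos m hm)] at this

theorem p0_int (m : ℕ) (hm : 0 < m) : (interior (convexHull ℝ (range (p0 m)))).Nonempty := by
  have h1 := vol_p0 m hm
  have h2 : 0 < volume (convexHull ℝ (range (p0 m))) := by
    refine lt_of_lt_of_le ?_ h1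
    refine ENNReal.mul_pos ?_ (kap_ne_zero m)
    have hf : (0 : ℝ) < m.factorial := by exact_mod_cast m.factorial_pos
    rw [Ne, ENNReal.ofReal_eq_zero, not_le]
    exact div_pos (Bm_pos m hm) hf
  by_contra hcon
  rw [not_nonempty_iff_eq_empty] at hcon
  have h3 := Convex.addHaar_frontier volume (convex_convexHull ℝ (range (p0 m)))
  have h4 : convexHull ℝ (range (p0 m)) ⊆ frontier (convexHull ℝ (range (p0 m))) := by
    rw [frontier, hcon, diff_empty]
    exact subset_closure
  have h5 := measure_mono_null h4 h3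
  exact h2.ne' h5

theorem p0_class (m : ℕ) (hm : 0 < m) :
    convexHull ℝ (range (p0 m)) ∈ InscribedCyclic (2 * m) (2 * m + 3) := by
  refine ⟨⟨⟨range (p0 m), finite_range _, rfl⟩, p0_int m hm,
    fun i => tau m ((i : ℕ) : ZMod (2 * m + 3)), ?_, ?_⟩, ?_⟩
  · intro a b h
    have h1 := tau_inj m h
    have h2 := congrArg ZMod.val h1
    rw [ZMod.val_natCast_of_lt a.2, ZMod.val_natCast_of_lt b.2] at h2
    exact Fin.ext h2
  · have hr : (range fun i : Fin (2 * m + 3) => momentCurve (2 * m)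
        (tau m ((i : ℕ) : ZMod (2 * m + 3)))) =
        range (fun j : ZMod (2 * m + 3) => momentCurve (2 * m) (tau m j)) := by
      ext x
      constructor
      · rintro ⟨i, rfl⟩
        exact ⟨_, rfl⟩
      · rintro ⟨j, rfl⟩
        exact ⟨⟨j.val, j.val_lt⟩, by simp⟩
    rw [hr]
    have h1 : FS (p0 m) = FS (fun j : ZMod (2 * m + 3) => momentCurve (2 * m) (tau m j)) := by
      rw [FS_p0 m hm, FS_moment]
    have e1 := faceIso (p0 m)
    have e2 := faceIso (fun j : ZMod (2 * m + 3) => momentCurve (2 * m) (tau m j))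
    rw [← h1] at e2
    exact ⟨e1.trans e2.symm⟩
  · refine extremePoints_convexHull_subset.trans ?_
    rintro _ ⟨j, rfl⟩
    simp [p0_norm m hm]

/-- the Gram matrix of the regular configuration -/
noncomputable def gram (m : ℕ) (x : ZMod (2 * m + 3)) : ℝ :=
  (1 / m) * ∑ k : Fin m, cs m (x * fr m k.castSucc)

theorem gram_zero (m : ℕ) (hm : 0 < m) : gram m 0 = 1 := by
  have hm' : (m : ℝ) ≠ 0 := by exact_mod_cast hm.ne'
  rw [gram]
  simp only [zero_mul, cs_zero]
  simp
  field_simp

/-- sharp upper bound and rigidity -/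
theorem main_upper (m : ℕ) (hm : 0 < m) (P : Set (EuclideanSpace ℝ (Fin (2 * m))))
    (hP : P ∈ InscribedCyclic (2 * m) (2 * m + 3)) :
    volume P ≤ ENNReal.ofReal (Bm m / m.factorial) * kap m ∧
    (ENNReal.ofReal (Bm m / m.factorial) * kap m ≤ volume P →
      ∃ p : ZMod (2 * m + 3) → EuclideanSpace ℝ (Fin (2 * m)), Function.Injective p ∧
        range p = P.extremePoints ℝ ∧ ∀ i j, inner ℝ (p i) (p j) = gram m (i - j)) := by
  obtain ⟨p, hinj, hnorm, hPp, hrange, hint, hG⟩ := structure_lemma m hm P hP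
  have hf : (0 : ℝ) < m.factorial := by exact_mod_cast m.factorial_pos
  set Q : Matrix (ZMod (2 * m + 3)) (J m) ℝ :=
    Matrix.of fun j a => (bJ m).repr (p j - cen m p) a with hQ
  have hdet : ∑ i, (bJ m).toBasis.det (vv m p (cen m p) i) =
      ∑ i : Fin m → ZMod (2 * m + 3), Matrix.det (Matrix.of fun (d : J m) =>
        Q (i d.1 + ((d.2 : ℕ) : ZMod (2 * m + 3)))) :=
    Finset.sum_congr rfl fun i _ => det_coords m p (cen m p) i
  have hsq : ∑ j, ∑ a, Q j a ^ 2 = (2 * m + 3) * (1 - ‖cen m p‖ ^ 2) := by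
    rw [← sum_cen m p hnorm]
    refine Finset.sum_congr rfl fun j _ => ?_
    rw [← sum_sq_coords]; rfl
  have hQn : ∑ j, ∑ a, Q j a ^ 2 ≤ 2 * m + 3 := by
    rw [hsq]
    have h1 : (0 : ℝ) < 2 * m + 3 := by positivity
    nlinarith [sq_nonneg ‖cen m p‖]
  obtain ⟨hb1, hb2⟩ := main_bound m hm Q hQn
  rw [← hdet] at hb1 hb2
  have hup := upper m p hint hG
  rw [← hPp] at hup
  constructor
  · refine hup.trans ?_
    gcongr
  · intro hge
    have h1 := hge.trans hup
    have h2 := (ENNReal.mul_le_mul_iff_left (kap_ne_zero m) (kap_ne_top m)).1 h1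
    rw [ENNReal.ofReal_le_ofReal_iff (by positivity), div_le_div_iff_of_pos_right hf] at h2
    have h3 := hb2 h2
    have h4 : ∀ i j, inner ℝ (p i - cen m p) (p j - cen m p) = gram m (i - j) := by
      intro i j
      rw [← inner_coords, gram, ← h3 i j]; rfl
    have h5 : cen m p = 0 := by
      have h6 : ∑ j, ‖p j - cen m p‖ ^ 2 = 2 * m + 3 := by
        have : ∀ j, ‖p j - cen m p‖ ^ 2 = 1 := by
          intro j
          rw [← real_inner_self_eq_norm_sq, h4, sub_self, gram_zero m hm]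
        rw [Finset.sum_congr rfl (fun j _ => this j)]
        simp [ZMod.card]
      rw [sum_cen m p hnorm] at h6
      have h7 : ‖cen m p‖ ^ 2 = 0 := by
        have h8 : (2 * m + 3 : ℝ) ≠ 0 := by positivity
        have : (2 * m + 3 : ℝ) * ‖cen m p‖ ^ 2 = 0 := by linarith
        exact (mul_eq_zero.1 this).resolve_left h8
      exact norm_eq_zero.1 (pow_eq_zero_iff two_ne_zero |>.1 h7)
    refine ⟨p, hinj, hrange, fun i j => ?_⟩
    have := h4 i j
    rwa [h5, sub_zero, sub_zero] at this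

end Pool.Agent.T2H78.Cyc
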