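import Pool.Agent.T2H78.CycPf

/-!
The real discrete Fourier matrix for `n = 2 m + 3`, and the skew part of `∑ p_j ⊗ p_{j+1}`.
-/

namespace Pool.Agent.T2H78.Cyc
open Matrix Finset

/-- index type for the nonconstant Fourier vectors -/
abbrev K (m : ℕ) := Fin (m + 1) × Fin 2

/-- `cos (2 π x / n)` -/
noncomputable def cs (m : ℕ) (x : ZMod (2 * m + 3)) : ℝ := (ZMod.stdAddChar x : ℂ).re
/-- `sin (2 π x / n)` -/
noncomputable def sn (m : ℕ) (x : ZMod (2 * m + 3)) : ℝ := (ZMod.stdAddChar x : ℂ).im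

theorem cs_add (m : ℕ) (x y : ZMod (2 * m + 3)) :
    cs m (x + y) = cs m x * cs m y - sn m x * sn m y := by
  simp [cs, sn, AddChar.map_add_eq_mul]

theorem sn_add (m : ℕ) (x y : ZMod (2 * m + 3)) :
    sn m (x + y) = cs m x * sn m y + sn m x * cs m y := by
  simp [cs, sn, AddChar.map_add_eq_mul]

theorem cs_zero (m : ℕ) : cs m 0 = 1 := by simp [cs]
theorem sn_zero (m : ℕ) : sn m 0 = 0 := by simp [sn]

theorem cs_sq_add (m : ℕ) (x : ZMod (2 * m + 3)) : cs m x ^ 2 + sn m x ^ 2 = 1 := by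
  have h : ‖(ZMod.stdAddChar x : ℂ)‖ = 1 := by
    rw [ZMod.stdAddChar_apply]; exact Circle.norm_coe _
  have h2 : Complex.normSq (ZMod.stdAddChar x : ℂ) = 1 := by
    rw [Complex.normSq_eq_norm_sq, h]; norm_num
  rw [Complex.normSq_apply] at h2
  simp only [cs, sn]
  nlinarith [h2]

theorem cs_neg (m : ℕ) (x : ZMod (2 * m + 3)) : cs m (-x) = cs m x := by
  have h1 := cs_add m x (-x)
  have h2 := sn_add m x (-x)
  have h3 := cs_sq_add m x
  rw [add_neg_cancel, cs_zero] at h1
  rw [add_neg_cancel, sn_zero] at h2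
  linear_combination (-(cs m (-x))) * h3 + (- cs m x) * h1 + (- sn m x) * h2

theorem sn_neg (m : ℕ) (x : ZMod (2 * m + 3)) : sn m (-x) = - sn m x := by
  have h1 := cs_add m x (-x)
  have h2 := sn_add m x (-x)
  have h3 := cs_sq_add m x
  rw [add_neg_cancel, cs_zero] at h1
  rw [add_neg_cancel, sn_zero] at h2
  linear_combination (-(sn m (-x))) * h3 + (sn m x) * h1 + (- cs m x) * h2

theorem cs_sub (m : ℕ) (x y : ZMod (2 * m + 3)) :
    cs m (x - y) = cs m x * cs m y + sn m x * sn m y := by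
  rw [sub_eq_add_neg, cs_add, cs_neg, sn_neg]; ring

theorem sn_sub (m : ℕ) (x y : ZMod (2 * m + 3)) :
    sn m (x - y) = sn m x * cs m y - cs m x * sn m y := by
  rw [sub_eq_add_neg, sn_add, cs_neg, sn_neg]; ring

theorem sum_char (m : ℕ) (b : ZMod (2 * m + 3)) (hb : b ≠ 0) :
    ∑ x, cs m (x * b) = 0 ∧ ∑ x, sn m (x * b) = 0 := by
  have h := AddChar.sum_mulShift b (ZMod.isPrimitive_stdAddChar (2 * m + 3))
  rw [if_neg hb] at h
  constructor
  · have := congrArg Complex.re h
    simpa [cs] using this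
  · have := congrArg Complex.im h
    simpa [sn] using this

/-- the frequencies `1, …, m+1` -/
def fr (m : ℕ) (k : Fin (m + 1)) : ZMod (2 * m + 3) := (((k : ℕ) + 1 : ℕ) : ZMod (2 * m + 3))

theorem fr_ne (m : ℕ) (k : Fin (m + 1)) : fr m k ≠ 0 := by
  intro h
  rw [fr, ZMod.natCast_eq_zero_iff] at h
  have := Nat.le_of_dvd (by omega) h
  omega

theorem fr_add_ne (m : ℕ) (k l : Fin (m + 1)) : fr m k + fr m l ≠ 0 := by
  intro h
  rw [fr, fr, ← Nat.cast_add, ZMod.natCast_eq_zero_iff] at h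
  have := Nat.le_of_dvd (by omega) h
  omega

theorem fr_inj (m : ℕ) (k l : Fin (m + 1)) (h : fr m k - fr m l = 0) : k = l := by
  rw [sub_eq_zero, fr, fr, ZMod.natCast_eq_natCast_iff'] at h
  rw [Nat.mod_eq_of_lt (by omega), Nat.mod_eq_of_lt (by omega)] at h
  ext; omega

theorem sum_cs_cs (m : ℕ) (k l : Fin (m + 1)) :
    ∑ x, cs m (x * fr m k) * cs m (x * fr m l) = if k = l then (2 * m + 3 : ℝ) / 2 else 0 := by
  have e : ∀ x, cs m (x * fr m k) * cs m (x * fr m l) =
      (cs m (x * (fr m k + fr m l)) + cs m (x * (fr m k - fr m l))) / 2 := by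
    intro x
    rw [mul_add, mul_sub, cs_add, cs_sub]; ring
  rw [Finset.sum_congr rfl (fun x _ => e x), ← Finset.sum_div, Finset.sum_add_distrib,
    (sum_char m _ (fr_add_ne m k l)).1]
  split_ifs with h
  · subst h; simp [cs_zero]
  · rw [(sum_char m _ (fun h' => h (fr_inj m k l h'))).1]; simp

theorem sum_sn_sn (m : ℕ) (k l : Fin (m + 1)) :
    ∑ x, sn m (x * fr m k) * sn m (x * fr m l) = if k = l then (2 * m + 3 : ℝ) / 2 else 0 := by
  have e : ∀ x, sn m (x * fr m k) * sn m (x * fr m l) =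
      (cs m (x * (fr m k - fr m l)) - cs m (x * (fr m k + fr m l))) / 2 := by
    intro x
    rw [mul_add, mul_sub, cs_add, cs_sub]; ring
  rw [Finset.sum_congr rfl (fun x _ => e x), ← Finset.sum_div, Finset.sum_sub_distrib,
    (sum_char m _ (fr_add_ne m k l)).1]
  split_ifs with h
  · subst h; simp [cs_zero]
  · rw [(sum_char m _ (fun h' => h (fr_inj m k l h'))).1]; simp

theorem sum_cs_sn (m : ℕ) (k l : Fin (m + 1)) :
    ∑ x, cs m (x * fr m k) * sn m (x * fr m l) = 0 := by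
  have e : ∀ x, cs m (x * fr m k) * sn m (x * fr m l) =
      (sn m (x * (fr m k + fr m l)) - sn m (x * (fr m k - fr m l))) / 2 := by
    intro x
    rw [mul_add, mul_sub, sn_add, sn_sub]; ring
  rw [Finset.sum_congr rfl (fun x _ => e x), ← Finset.sum_div, Finset.sum_sub_distrib,
    (sum_char m _ (fr_add_ne m k l)).2]
  by_cases h : k = l
  · subst h; simp [sn_zero]
  · rw [(sum_char m _ (fun h' => h (fr_inj m k l h'))).2]; simp

/-- the orthogonal real Fourier matrix -/
noncomputable def U (m : ℕ) : Matrix (ZMod (2 * m + 3)) (Option (K m)) ℝ :=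
  Matrix.of fun j c => match c with
    | none => √(1 / (2 * m + 3))
    | some (k, 0) => √(2 / (2 * m + 3)) * cs m (j * fr m k)
    | some (k, 1) => √(2 / (2 * m + 3)) * sn m (j * fr m k)

theorem U_none (m : ℕ) (j) : U m j none = √(1 / (2 * m + 3)) := rfl
theorem U_zero (m : ℕ) (j) (k) : U m j (some (k, 0)) = √(2 / (2 * m + 3)) * cs m (j * fr m k) := rfl
theorem U_one (m : ℕ) (j) (k) : U m j (some (k, 1)) = √(2 / (2 * m + 3)) * sn m (j * fr m k) := rfl

theorem sq1 (m : ℕ) : √(1 / (2 * m + 3 : ℝ)) * √(1 / (2 * m + 3 : ℝ)) = 1 / (2 * m + 3) :=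
  Real.mul_self_sqrt (by positivity)
theorem sq2 (m : ℕ) : √(2 / (2 * m + 3 : ℝ)) * √(2 / (2 * m + 3 : ℝ)) = 2 / (2 * m + 3) :=
  Real.mul_self_sqrt (by positivity)

theorem U_orth (m : ℕ) : (U m)ᵀ * U m = 1 := by
  have h0 : (2 * m + 3 : ℝ) ≠ 0 := by positivity
  ext a b
  rw [Matrix.mul_apply]
  simp only [Matrix.transpose_apply]
  rcases a with _ | ⟨k, s⟩ <;> rcases b with _ | ⟨l, t⟩
  · simp only [U_none, Matrix.one_apply_eq, sq1]
    simp
    field_simp
  · rw [Matrix.one_apply_ne (by simp)]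
    fin_cases t
    · simp only [Fin.zero_eta, U_none, U_zero, ← mul_assoc]
      rw [← Finset.mul_sum, (sum_char m _ (fr_ne m l)).1, mul_zero]
    · simp only [Fin.mk_one, U_none, U_one, ← mul_assoc]
      rw [← Finset.mul_sum, (sum_char m _ (fr_ne m l)).2, mul_zero]
  · rw [Matrix.one_apply_ne (by simp)]
    fin_cases s
    · simp only [Fin.zero_eta, U_none, U_zero]
      rw [← Finset.sum_mul, ← Finset.mul_sum, (sum_char m _ (fr_ne m k)).1, mul_zero, zero_mul]
    · simp only [Fin.mk_one, U_none, U_one]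
      rw [← Finset.sum_mul, ← Finset.mul_sum, (sum_char m _ (fr_ne m k)).2, mul_zero, zero_mul]
  · have gen : ∀ f g : ZMod (2 * m + 3) → ℝ,
        ∑ x, (√(2 / (2 * m + 3 : ℝ)) * f x) * (√(2 / (2 * m + 3 : ℝ)) * g x) =
          2 / (2 * m + 3) * ∑ x, f x * g x := by
      intro f g
      rw [Finset.mul_sum]
      refine Finset.sum_congr rfl fun x _ => ?_
      linear_combination (f x * g x) * sq2 m
    fin_cases s <;> fin_cases t
    · simp only [Fin.zero_eta, U_zero]
      rw [gen, sum_cs_cs]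
      by_cases h : k = l
      · subst h; rw [if_pos rfl, Matrix.one_apply_eq]; field_simp
      · rw [if_neg h, Matrix.one_apply_ne (by simpa using h), mul_zero]
    · simp only [Fin.zero_eta, Fin.mk_one, U_zero, U_one]
      rw [gen, sum_cs_sn, Matrix.one_apply_ne (by simp), mul_zero]
    · simp only [Fin.zero_eta, Fin.mk_one, U_zero, U_one]
      rw [gen, Matrix.one_apply_ne (by simp)]
      have := sum_cs_sn m l k
      rw [Finset.sum_congr rfl (fun x _ => mul_comm (sn m (x * fr m k)) (cs m (x * fr m l))), this,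
        mul_zero]
    · simp only [Fin.mk_one, U_one]
      rw [gen, sum_sn_sn]
      by_cases h : k = l
      · subst h; rw [if_pos rfl, Matrix.one_apply_eq]; field_simp
      · rw [if_neg h, Matrix.one_apply_ne (by simpa using h), mul_zero]

theorem U_orth' (m : ℕ) : U m * (U m)ᵀ = 1 := by
  rw [Matrix.mul_eq_one_comm_of_card_eq]
  · exact U_orth m
  · simp [ZMod.card]; ring

/-- `2 sin θ_k` -/
noncomputable def sk (m : ℕ) (k : Fin (m + 1)) : ℝ := 2 * sn m (fr m k)

theorem U_shift_zero (m : ℕ) (j) (k) :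
    U m (j + 1) (some (k, 0)) - U m (j - 1) (some (k, 0)) = - sk m k * U m j (some (k, 1)) := by
  rw [U_zero, U_zero, U_one, sk, add_mul, sub_mul, one_mul, cs_add, cs_sub]
  ring

theorem U_shift_one (m : ℕ) (j) (k) :
    U m (j + 1) (some (k, 1)) - U m (j - 1) (some (k, 1)) = sk m k * U m j (some (k, 0)) := by
  rw [U_zero, U_one, U_one, sk, add_mul, sub_mul, one_mul, sn_add, sn_sub]
  ring

/-- skew part -/
theorem skew (m : ℕ) (P : Matrix (ZMod (2 * m + 3)) (J m) ℝ) (a b : J m) :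
    (∑ j, vecMulVec (P j) (P (j + 1))) a b - (∑ j, vecMulVec (P j) (P (j + 1))) b a =
    ∑ k, sk m k * (((U m)ᵀ * P) (some (k, 0)) a * ((U m)ᵀ * P) (some (k, 1)) b
      - ((U m)ᵀ * P) (some (k, 1)) a * ((U m)ᵀ * P) (some (k, 0)) b) := by
  set Y := (U m)ᵀ * P with hY
  have hP : P = U m * Y := by rw [hY, ← Matrix.mul_assoc, U_orth', Matrix.one_mul]
  have h1 : (∑ j, vecMulVec (P j) (P (j + 1))) a b - (∑ j, vecMulVec (P j) (P (j + 1))) b a =
      ∑ j, P j a * (P (j + 1) b - P (j - 1) b) := by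
    simp only [Matrix.sum_apply, vecMulVec_apply, mul_sub, Finset.sum_sub_distrib]
    congr 1
    rw [← Equiv.sum_comp (Equiv.subRight (1 : ZMod (2 * m + 3)))]
    refine Finset.sum_congr rfl fun j _ => ?_
    simp [mul_comm]
  have h2 : ∀ j, P (j + 1) b - P (j - 1) b =
      ∑ k, sk m k * (U m j (some (k, 0)) * Y (some (k, 1)) b
        - U m j (some (k, 1)) * Y (some (k, 0)) b) := by
    intro j
    conv_lhs => rw [hP]
    rw [Matrix.mul_apply, Matrix.mul_apply, ← Finset.sum_sub_distrib, Fintype.sum_option,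
      Fintype.sum_prod_type]
    rw [U_none, U_none, sub_self, zero_add]
    refine Finset.sum_congr rfl fun k _ => ?_
    rw [Fin.sum_univ_two]
    have e0 := U_shift_zero m j k
    have e1 := U_shift_one m j k
    linear_combination (Y (some (k, 0)) b) * e0 + (Y (some (k, 1)) b) * e1
  have h3 : ∀ c, ∑ j, P j a * U m j c = Y c a := by
    intro c
    rw [hY, Matrix.mul_apply]
    refine Finset.sum_congr rfl fun j _ => ?_
    rw [Matrix.transpose_apply, mul_comm]
  rw [h1]
  simp only [h2, Finset.mul_sum]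
  rw [Finset.sum_comm]
  refine Finset.sum_congr rfl fun k _ => ?_
  rw [← h3, ← h3, Finset.sum_mul, Finset.sum_mul, ← Finset.sum_sub_distrib, Finset.mul_sum]
  refine Finset.sum_congr rfl fun j _ => ?_
  ring

/-- The tuple sum of determinants in terms of the Fourier vectors. -/
theorem tuple_sum (m : ℕ) (P : Matrix (ZMod (2 * m + 3)) (J m) ℝ) :
    ∑ i : Fin m → ZMod (2 * m + 3), det (Matrix.of fun (c : J m) => P (i c.1 + (c.2 : ℕ))) =
    ∑ l : Fin m → Fin (m + 1), (∏ k, sk m (l k)) *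
      det (Matrix.of fun (c : J m) => ((U m)ᵀ * P) (some (l c.1, c.2))) := by
  have e1 : pf m (fun _ => ∑ j, vecMulVec (P j) (P (j + 1))) =
      ∑ i : Fin m → ZMod (2 * m + 3),
        det (Matrix.of fun (c : J m) => P (i c.1 + (c.2 : ℕ))) := by
    rw [MultilinearMap.map_sum]
    refine Finset.sum_congr rfl fun i _ => ?_
    rw [← pf_vecMulVec]
    simp
  have e2 : pf m (fun _ => ∑ k, sk m k • vecMulVec (((U m)ᵀ * P) (some (k, 0)))
      (((U m)ᵀ * P) (some (k, 1)))) = ∑ l : Fin m → Fin (m + 1), (∏ k, sk m (l k)) *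
      det (Matrix.of fun (c : J m) => ((U m)ᵀ * P) (some (l c.1, c.2))) := by
    rw [MultilinearMap.map_sum]
    refine Finset.sum_congr rfl fun l _ => ?_
    rw [MultilinearMap.map_smul_univ, ← pf_vecMulVec, smul_eq_mul]
  rw [← e1, ← e2]
  refine pf_congr m _ _ fun k a b => ?_
  rw [skew]
  simp only [Matrix.sum_apply, Matrix.smul_apply, vecMulVec_apply, smul_eq_mul]
  rw [← Finset.sum_sub_distrib]
  refine Finset.sum_congr rfl fun k _ => ?_
  ring

theorem parseval (m : ℕ) (P : Matrix (ZMod (2 * m + 3)) (J m) ℝ) :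
    ∑ c, ∑ a, ((U m)ᵀ * P) c a ^ 2 = ∑ j, ∑ a, P j a ^ 2 := by
  have h1 : ∀ (ι : Type) [Fintype ι] (Q : Matrix ι (J m) ℝ), ∑ c, ∑ a, Q c a ^ 2 = trace (Qᵀ * Q) := by
    intro ι _ Q
    rw [Finset.sum_comm, Matrix.trace]
    refine Finset.sum_congr rfl fun a _ => ?_
    rw [Matrix.diag_apply, Matrix.mul_apply]
    refine Finset.sum_congr rfl fun c _ => ?_
    rw [Matrix.transpose_apply, sq]
  rw [h1, h1, Matrix.transpose_mul, Matrix.transpose_transpose, Matrix.mul_assoc,
    ← Matrix.mul_assoc (U m), U_orth', Matrix.one_mul]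

end Pool.Agent.T2H78.Cyc
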