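import Pool.Agent.T2H78.CycPf
import Pool.Agent.T2H78.CycFace

/-!
Gale's evenness condition for the moment curve with `2 m + 3` points in dimension `2 m`.
-/

namespace Pool.Agent.T2H78.Cyc
open Set Polynomial

/-- the moment curve -/
noncomputable def momentCurve (d : ℕ) (t : ℝ) : EuclideanSpace ℝ (Fin d) :=
  WithLp.toLp 2 fun i => t ^ ((i : ℕ) + 1)

/-- zero sets of polynomials of degree at most `d` that are nonnegative at the nodes -/
def PF {ι : Type} (d : ℕ) (τ : ι → ℝ) : Set (Set ι) :=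
  {S | ∃ g : ℝ[X], g.natDegree ≤ d ∧ (∀ j, 0 ≤ g.eval (τ j)) ∧ S = {j | g.eval (τ j) = 0}}

theorem FS_moment {ι : Type} [Fintype ι] (d : ℕ) (τ : ι → ℝ) :
    FS (fun j => momentCurve d (τ j)) = PF d τ := by
  ext S
  constructor
  · rintro ⟨a, l, h1, h2⟩
    refine ⟨C a + ∑ i : Fin d, C (l (EuclideanSpace.single i 1)) * X ^ ((i : ℕ) + 1), ?_, ?_⟩
    · refine (natDegree_add_le _ _).trans (max_le (by simp) ?_)
      refine natDegree_sum_le_of_forall_le _ _ fun i _ => ?_
      refine (natDegree_C_mul_le _ _).trans ?_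
      rw [natDegree_X_pow]
      exact i.2
    · have key : ∀ t : ℝ, (C a + ∑ i : Fin d, C (l (EuclideanSpace.single i 1)) *
          X ^ ((i : ℕ) + 1)).eval t = a + l (momentCurve d t) := by
        intro t
        have h3 : momentCurve d t = ∑ i : Fin d, t ^ ((i : ℕ) + 1) • EuclideanSpace.single i (1 : ℝ) := by
          ext j
          simp [momentCurve, Finset.sum_apply, Pi.single_apply]
        rw [h3, map_sum]
        simp only [eval_add, eval_C, eval_finsetSum, eval_mul, eval_pow, eval_X, map_smul,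
          smul_eq_mul]
        congr 1
        refine Finset.sum_congr rfl fun i _ => ?_
        ring
      refine ⟨fun j => ?_, ?_⟩
      · rw [key]; exact h1 j
      · rw [h2]
        ext j
        simp only [mem_ofPred_eq, key]
  · rintro ⟨g, h0, h1, h2⟩
    let l : EuclideanSpace ℝ (Fin d) →ₗ[ℝ] ℝ :=
      { toFun := fun x => ∑ i : Fin d, g.coeff ((i : ℕ) + 1) * x i
        map_add' := by
          intro x y
          simp [mul_add, Finset.sum_add_distrib]
        map_smul' := by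
          intro c x
          simp only [PiLp.smul_apply, smul_eq_mul, RingHom.id_apply, Finset.mul_sum]
          refine Finset.sum_congr rfl fun i _ => ?_
          ring }
    have key : ∀ t : ℝ, g.eval t = g.coeff 0 + l (momentCurve d t) := by
      intro t
      rw [eval_eq_sum_range' (n := d + 1) (by omega), Finset.sum_range_succ', pow_zero, mul_one,
        add_comm]
      congr 1
      change _ = ∑ i : Fin d, g.coeff ((i : ℕ) + 1) * t ^ ((i : ℕ) + 1)
      rw [Finset.sum_range]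
    refine ⟨g.coeff 0, l, fun j => ?_, ?_⟩
    · rw [← key]; exact h1 j
    · rw [h2]
      ext j
      simp only [mem_ofPred_eq, key]

/-- a tuple of starting points of disjoint cyclic edges -/
def Valid (m : ℕ) (i : Fin m → ZMod (2 * m + 3)) : Prop :=
  Function.Injective (fun c : J m => i c.1 + ((c.2 : ℕ) : ZMod (2 * m + 3)))

/-- the vertices covered by the edges -/
def Fset (m : ℕ) (i : Fin m → ZMod (2 * m + 3)) : Set (ZMod (2 * m + 3)) :=
  range (fun c : J m => i c.1 + ((c.2 : ℕ) : ZMod (2 * m + 3)))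

theorem mem_Fset (m : ℕ) (i : Fin m → ZMod (2 * m + 3)) (j : ZMod (2 * m + 3)) :
    j ∈ Fset m i ↔ ∃ k, j = i k ∨ j = i k + 1 := by
  constructor
  · rintro ⟨⟨k, s⟩, rfl⟩
    refine ⟨k, ?_⟩
    fin_cases s
    · left; simp
    · right; simp
  · rintro ⟨k, h | h⟩
    · exact ⟨(k, 0), by simp [h]⟩
    · exact ⟨(k, 1), by simp [h]⟩

/-- Gale's evenness condition -/
def Gale (m : ℕ) (𝓕 : Set (Set (ZMod (2 * m + 3)))) : Prop :=
  (∀ i, Valid m i → Fset m i ∈ 𝓕) ∧ ∀ S ∈ 𝓕, S ≠ univ → ∃ i, Valid m i ∧ S ⊆ Fset m i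

theorem val_add_one (m : ℕ) (j : ZMod (2 * m + 3)) :
    (j + 1).val = if j.val = 2 * m + 2 then 0 else j.val + 1 := by
  rw [ZMod.val_add, ZMod.val_one_eq_one_mod]
  have := j.val_lt
  split_ifs with h
  · rw [h, Nat.mod_eq_of_lt (show 1 < 2 * m + 3 by omega)]
    exact Nat.mod_self _
  · rw [Nat.mod_eq_of_lt (show 1 < 2 * m + 3 by omega), Nat.mod_eq_of_lt (by omega)]

/-- the factor of an edge -/
noncomputable def fac (m : ℕ) (τ : ZMod (2 * m + 3) → ℝ) (j : ZMod (2 * m + 3)) : ℝ[X] :=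
  if j.val = 2 * m + 2 then (C (τ j) - X) * (X - C (τ (j + 1)))
  else (X - C (τ j)) * (X - C (τ (j + 1)))

theorem fac_deg (m : ℕ) (τ : ZMod (2 * m + 3) → ℝ) (j : ZMod (2 * m + 3)) :
    (fac m τ j).natDegree ≤ 2 := by
  have h1 : ∀ a : ℝ, (X - C a).natDegree ≤ 1 := fun a => (natDegree_X_sub_C a).le
  have h2 : ∀ a : ℝ, (C a - X).natDegree ≤ 1 := fun a => by
    rw [← neg_sub, natDegree_neg]; exact h1 a
  rw [fac]
  split_ifs
  · exact (natDegree_mul_le).trans (add_le_add (h2 _) (h1 _))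
  · exact (natDegree_mul_le).trans (add_le_add (h1 _) (h1 _))

theorem fac_nonneg (m : ℕ) (τ : ZMod (2 * m + 3) → ℝ) (hτ : ∀ a b, a.val < b.val → τ a < τ b)
    (j x : ZMod (2 * m + 3)) :
    0 ≤ (fac m τ j).eval (τ x) ∧ ((fac m τ j).eval (τ x) = 0 ↔ x = j ∨ x = j + 1) := by
  have hinj : ∀ a b, τ a = τ b → a = b := by
    intro a b h
    rcases lt_trichotomy a.val b.val with h1 | h1 | h1
    · exact absurd h (hτ a b h1).ne
    · exact ZMod.val_injective _ h1
    · exact absurd h (hτ b a h1).ne'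
  have hle : ∀ a b, a.val ≤ b.val → τ a ≤ τ b := by
    intro a b h
    rcases h.lt_or_eq with h1 | h1
    · exact (hτ a b h1).le
    · rw [ZMod.val_injective _ h1]
  have hx := x.val_lt
  have hj := val_add_one m j
  rw [fac]
  split_ifs at hj ⊢ with h
  · simp only [eval_mul, eval_sub, eval_C, eval_X]
    refine ⟨mul_nonneg (sub_nonneg.2 (hle _ _ (by omega))) (sub_nonneg.2 (hle _ _ (by omega))), ?_⟩
    rw [mul_eq_zero, sub_eq_zero, sub_eq_zero]
    constructor
    · rintro (h1 | h1)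
      · left; exact (hinj _ _ h1).symm
      · right; exact hinj _ _ h1
    · rintro (h1 | h1)
      · left; rw [h1]
      · right; rw [h1]
  · simp only [eval_mul, eval_sub, eval_C, eval_X]
    constructor
    · by_cases h2 : x.val ≤ j.val
      · exact mul_nonneg_of_nonpos_of_nonpos (sub_nonpos.2 (hle _ _ h2))
          (sub_nonpos.2 (hle _ _ (by omega)))
      · exact mul_nonneg (sub_nonneg.2 (hle _ _ (by omega))) (sub_nonneg.2 (hle _ _ (by omega)))
    · rw [mul_eq_zero, sub_eq_zero, sub_eq_zero]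
      constructor
      · rintro (h1 | h1)
        · left; exact hinj _ _ h1
        · right; exact hinj _ _ h1
      · rintro (h1 | h1)
        · left; rw [h1]
        · right; rw [h1]

theorem Fset_mem_PF (m : ℕ) (τ : ZMod (2 * m + 3) → ℝ) (hτ : ∀ a b, a.val < b.val → τ a < τ b)
    (i : Fin m → ZMod (2 * m + 3)) : Fset m i ∈ PF (2 * m) τ := by
  refine ⟨∏ k, fac m τ (i k), ?_, ?_, ?_⟩
  · refine (natDegree_prod_le _ _).trans ?_
    refine (Finset.sum_le_sum fun k _ => fac_deg m τ (i k)).trans ?_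
    simp [mul_comm]
  · intro j
    rw [eval_prod]
    exact Finset.prod_nonneg fun k _ => (fac_nonneg m τ hτ (i k) j).1
  · ext j
    rw [mem_Fset, mem_ofPred_eq, eval_prod, Finset.prod_eq_zero_iff]
    constructor
    · rintro ⟨k, hk⟩
      exact ⟨k, Finset.mem_univ _, (fac_nonneg m τ hτ (i k) j).2.2 hk⟩
    · rintro ⟨k, _, hk⟩
      exact ⟨k, (fac_nonneg m τ hτ (i k) j).2.1 hk⟩

theorem empty_mem_PF {ι : Type} (d : ℕ) (τ : ι → ℝ) : ∅ ∈ PF d τ :=
  ⟨1, by simp, fun j => by simp, by ext j; simp⟩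

theorem singleton_mem_PF {ι : Type} (d : ℕ) (hd : 2 ≤ d) (τ : ι → ℝ) (hτ : Function.Injective τ)
    (j : ι) : {j} ∈ PF d τ := by
  refine ⟨(X - C (τ j)) ^ 2, ?_, ?_, ?_⟩
  · refine natDegree_pow_le.trans ?_
    rw [natDegree_X_sub_C]; omega
  · intro x
    simp only [eval_pow, eval_sub, eval_X, eval_C]
    positivity
  · ext x
    simp only [mem_singleton_iff, mem_ofPred_eq, eval_pow, eval_sub, eval_X, eval_C,
      pow_eq_zero_iff two_ne_zero, sub_eq_zero]
    exact ⟨fun h => by rw [h], fun h => hτ h⟩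

/-- A polynomial of degree at most `d` vanishing at more than `d` nodes vanishes. -/
theorem poly_zero {ι : Type} (d : ℕ) (τ : ι → ℝ) (hτ : Function.Injective τ) (g : ℝ[X])
    (hg : g.natDegree ≤ d) (Z : Finset ι) (hZ : ∀ j ∈ Z, g.eval (τ j) = 0) (hc : d < Z.card) :
    g = 0 := by
  classical
  by_contra hne
  have h1 : (Z.image τ).card ≤ g.natDegree := by
    refine Polynomial.card_le_degree_of_subset_roots ?_
    intro x hx
    have hx' : x ∈ Z.image τ := hx
    obtain ⟨j, hj, rfl⟩ := Finset.mem_image.1 hx'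
    exact (mem_roots hne).2 (hZ j hj)
  rw [Finset.card_image_of_injective _ hτ] at h1
  omega

open Classical in
/-- every proper face is contained in one with exactly `2 m` vertices -/
theorem extend_face (m : ℕ) (τ : ZMod (2 * m + 3) → ℝ) (hτ : Function.Injective τ) :
    ∀ (r : ℕ) (Z : Finset (ZMod (2 * m + 3))) (g : ℝ[X]), Z.card + r = 2 * m →
      g.natDegree ≤ 2 * m → (∀ j, 0 ≤ g.eval (τ j)) → (∀ j, g.eval (τ j) = 0 ↔ j ∈ Z) →
      ∃ (Z' : Finset (ZMod (2 * m + 3))) (g' : ℝ[X]), Z ⊆ Z' ∧ Z'.card = 2 * m ∧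
        g'.natDegree ≤ 2 * m ∧ (∀ j, 0 ≤ g'.eval (τ j)) ∧ (∀ j, g'.eval (τ j) = 0 ↔ j ∈ Z') := by
  intro r
  induction r using Nat.strong_induction_on with
  | _ r ih =>
  intro Z g hcard hdeg hnn hz
  rcases Nat.eq_zero_or_pos r with hr | hr
  · exact ⟨Z, g, subset_rfl, by omega, hdeg, hnn, hz⟩
  · -- two nodes outside `Z`
    have hcomp : 1 < (Zᶜ).card := by
      rw [Finset.card_compl, ZMod.card]; omega
    obtain ⟨a, ha, b, hb, hab⟩ := Finset.one_lt_card.1 hcomp
    rw [Finset.mem_compl] at ha hb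
    set h : ℝ[X] := (X - C (τ a)) * ∏ j ∈ Z, (X - C (τ j)) with hh
    have hhdeg : h.natDegree ≤ 2 * m := by
      rw [hh]
      refine natDegree_mul_le.trans ?_
      rw [natDegree_X_sub_C]
      have : (∏ j ∈ Z, (X - C (τ j))).natDegree ≤ Z.card := by
        refine (natDegree_prod_le _ _).trans ?_
        simp
      omega
    have hha : h.eval (τ a) = 0 := by simp [hh]
    have hhZ : ∀ j ∈ Z, h.eval (τ j) = 0 := by
      intro j hj
      rw [hh, eval_mul, eval_prod, Finset.prod_eq_zero hj (by simp), mul_zero]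
    have hhb : h.eval (τ b) ≠ 0 := by
      rw [hh, eval_mul, eval_prod]
      refine mul_ne_zero ?_ (Finset.prod_ne_zero_iff.2 fun j hj => ?_)
      · simp only [eval_sub, eval_X, eval_C, sub_ne_zero]
        exact fun h' => hab (hτ h').symm
      · simp only [eval_sub, eval_X, eval_C, sub_ne_zero]
        intro h'
        exact hb (hτ h' ▸ hj)
    -- choose the sign
    obtain ⟨h', hd', ha', hZ', hb'⟩ : ∃ h' : ℝ[X], h'.natDegree ≤ 2 * m ∧ h'.eval (τ a) = 0 ∧
        (∀ j ∈ Z, h'.eval (τ j) = 0) ∧ h'.eval (τ b) < 0 := by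
      rcases lt_or_gt_of_ne hhb with h1 | h1
      · exact ⟨h, hhdeg, hha, hhZ, h1⟩
      · refine ⟨-h, by rw [natDegree_neg]; exact hhdeg, by simp [hha], ?_, by simpa using h1⟩
        intro j hj
        simp [hhZ j hj]
    -- minimise the ratio
    set T : Finset (ZMod (2 * m + 3)) := Finset.univ.filter fun j => h'.eval (τ j) < 0 with hT
    have hTne : T.Nonempty := ⟨b, Finset.mem_filter.2 ⟨Finset.mem_univ _, hb'⟩⟩
    obtain ⟨c, hcT, hcmin⟩ := T.exists_min_image (fun j => g.eval (τ j) / (-(h'.eval (τ j)))) hTne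
    have hcneg : h'.eval (τ c) < 0 := (Finset.mem_filter.1 hcT).2
    set s : ℝ := g.eval (τ c) / (-(h'.eval (τ c))) with hs
    have hs0 : 0 ≤ s := div_nonneg (hnn c) (by linarith)
    have hcZ : c ∉ Z := fun h1 => by
      have := hZ' c h1; linarith
    set g2 : ℝ[X] := g + C s * h' with hg2
    have hg2e : ∀ j, g2.eval (τ j) = g.eval (τ j) + s * h'.eval (τ j) := by
      intro j; simp [hg2]
    have hg2deg : g2.natDegree ≤ 2 * m :=
      (natDegree_add_le _ _).trans (max_le hdeg ((natDegree_C_mul_le _ _).trans hd'))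
    have hg2nn : ∀ j, 0 ≤ g2.eval (τ j) := by
      intro j
      rw [hg2e]
      by_cases h1 : h'.eval (τ j) < 0
      · have h2 := hcmin j (Finset.mem_filter.2 ⟨Finset.mem_univ _, h1⟩)
        rw [le_div_iff₀ (by linarith)] at h2
        linarith
      · push Not at h1
        have := mul_nonneg hs0 h1
        linarith [hnn j]
    have hg2c : g2.eval (τ c) = 0 := by
      rw [hg2e, hs]
      have : h'.eval (τ c) ≠ 0 := hcneg.ne
      field_simp
      ring
    have hg2a : g2.eval (τ a) ≠ 0 := by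
      rw [hg2e, ha', mul_zero, add_zero]
      exact fun h1 => ha ((hz a).1 h1)
    set Z2 : Finset (ZMod (2 * m + 3)) := Finset.univ.filter fun j => g2.eval (τ j) = 0 with hZ2
    have hZZ2 : Z ⊆ Z2 := by
      intro j hj
      refine Finset.mem_filter.2 ⟨Finset.mem_univ _, ?_⟩
      rw [hg2e, hZ' j hj, (hz j).2 hj]; simp
    have hcZ2 : c ∈ Z2 := Finset.mem_filter.2 ⟨Finset.mem_univ _, hg2c⟩
    have hlt : Z.card < Z2.card := Finset.card_lt_card ⟨hZZ2, fun h1 => hcZ (h1 hcZ2)⟩
    have hle : Z2.card ≤ 2 * m := by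
      by_contra hcon
      push Not at hcon
      have := poly_zero (2 * m) τ hτ g2 hg2deg Z2 (fun j hj => (Finset.mem_filter.1 hj).2) hcon
      rw [this] at hg2a
      simp at hg2a
    obtain ⟨Z', g', h1, h2⟩ := ih (2 * m - Z2.card) (by omega) Z2 g2 (by omega) hg2deg hg2nn
      (fun j => by simp [hZ2])
    exact ⟨Z', g', hZZ2.trans h1, h2⟩

end Pool.Agent.T2H78.Cyc
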