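import Pool.Agent.T2H78.CycMoment

namespace Pool.Agent.T2H78.Cyc
open Set Polynomial

open Classical in
/-- sign of the node polynomial -/
theorem node_sign (m : ℕ) (τ : ZMod (2 * m + 3) → ℝ) (hτ : ∀ a b, a.val < b.val → τ a < τ b)
    (Z : Finset (ZMod (2 * m + 3))) (x : ZMod (2 * m + 3)) (hx : x ∉ Z) :
    0 < (-1 : ℝ) ^ (Z.filter fun j => x.val < j.val).card * ∏ j ∈ Z, (τ x - τ j) := by
  rw [← Finset.prod_filter_mul_prod_filter_not Z (fun j => x.val < j.val), ← mul_assoc]
  refine mul_pos ?_ ?_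
  · rw [← Finset.prod_const, ← Finset.prod_mul_distrib]
    refine Finset.prod_pos fun j hj => ?_
    have := hτ _ _ (Finset.mem_filter.1 hj).2
    linarith
  · refine Finset.prod_pos fun j hj => ?_
    obtain ⟨h1, h2⟩ := Finset.mem_filter.1 hj
    have h3 : j.val ≠ x.val := fun h => hx (ZMod.val_injective _ h ▸ h1)
    have := hτ j x (by omega)
    linarith

open Classical in
theorem parity (m : ℕ) (τ : ZMod (2 * m + 3) → ℝ) (hτ : ∀ a b, a.val < b.val → τ a < τ b)
    (Z : Finset (ZMod (2 * m + 3))) (hZ : Z.card = 2 * m) (g : ℝ[X]) (hd : g.natDegree ≤ 2 * m)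
    (hnn : ∀ j, 0 ≤ g.eval (τ j)) (hz : ∀ j, g.eval (τ j) = 0 ↔ j ∈ Z)
    (x y : ZMod (2 * m + 3)) (hx : x ∉ Z) (hy : y ∉ Z) :
    (Z.filter fun j => x.val < j.val).card % 2 = (Z.filter fun j => y.val < j.val).card % 2 := by
  have hinj : Function.Injective τ := by
    intro a b h
    rcases lt_trichotomy a.val b.val with h1 | h1 | h1
    · exact absurd h (hτ a b h1).ne
    · exact ZMod.val_injective _ h1
    · exact absurd h (hτ b a h1).ne'
  set z : ℝ[X] := ∏ j ∈ Z, (X - C (τ j)) with hzdef
  have hze : ∀ t, z.eval t = ∏ j ∈ Z, (t - τ j) := by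
    intro t; simp [hzdef, eval_prod]
  have hzdeg : z.natDegree ≤ 2 * m := by
    rw [hzdef]
    refine (natDegree_prod_le _ _).trans ?_
    simp [hZ]
  have hW : C (g.eval (τ x)) * z - C (z.eval (τ x)) * g = 0 := by
    refine poly_zero (2 * m) τ hinj _ ?_ (insert x Z) ?_ ?_
    · refine (natDegree_sub_le _ _).trans (max_le ?_ ?_)
      · exact (natDegree_C_mul_le _ _).trans hzdeg
      · exact (natDegree_C_mul_le _ _).trans hd
    · intro j hj
      rw [eval_sub, eval_mul, eval_mul, eval_C, eval_C]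
      rcases Finset.mem_insert.1 hj with rfl | hj
      · ring
      · rw [(hz j).2 hj, hze (τ j),
          Finset.prod_eq_zero (f := fun j' => τ j - τ j') hj (sub_self _)]; ring
    · rw [Finset.card_insert_of_notMem hx]; omega
  have h1 : g.eval (τ x) * z.eval (τ y) = z.eval (τ x) * g.eval (τ y) := by
    have := congrArg (fun q => eval (τ y) q) hW
    simp only [eval_sub, eval_mul, eval_C, eval_zero] at this
    linarith
  have hgx : 0 < g.eval (τ x) := lt_of_le_of_ne (hnn x) fun h => hx ((hz x).1 h.symm)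
  have hgy : 0 < g.eval (τ y) := lt_of_le_of_ne (hnn y) fun h => hy ((hz y).1 h.symm)
  have h2 := node_sign m τ hτ Z x hx
  have h3 := node_sign m τ hτ Z y hy
  rw [← hze] at h2 h3
  have hzx : z.eval (τ x) ≠ 0 := by
    intro h; rw [h, mul_zero] at h2; exact lt_irrefl _ h2
  have hpos : 0 < z.eval (τ x) * z.eval (τ y) := by
    have h4 : g.eval (τ x) * (z.eval (τ x) * z.eval (τ y)) =
        z.eval (τ x) ^ 2 * g.eval (τ y) := by
      linear_combination (z.eval (τ x)) * h1
    have h5 : 0 < z.eval (τ x) ^ 2 * g.eval (τ y) := by positivity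
    rw [← h4] at h5
    exact (mul_pos_iff_of_pos_left hgx).1 h5
  rcases Nat.even_or_odd (Z.filter fun j => x.val < j.val).card with ha | ha <;>
  rcases Nat.even_or_odd (Z.filter fun j => y.val < j.val).card with hb | hb
  · rw [Nat.even_iff.1 ha, Nat.even_iff.1 hb]
  · rw [ha.neg_one_pow] at h2
    rw [hb.neg_one_pow] at h3
    nlinarith
  · rw [ha.neg_one_pow] at h2
    rw [hb.neg_one_pow] at h3
    nlinarith
  · rw [Nat.odd_iff.1 ha, Nat.odd_iff.1 hb]

open Classical in
theorem card_gt (m : ℕ) (w : ZMod (2 * m + 3)) :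
    (Finset.univ.filter fun j : ZMod (2 * m + 3) => w.val < j.val).card = 2 * m + 2 - w.val := by
  rw [← Finset.card_image_of_injective _ (ZMod.val_injective (2 * m + 3))]
  have : (Finset.univ.filter fun j : ZMod (2 * m + 3) => w.val < j.val).image ZMod.val =
      Finset.Ioo w.val (2 * m + 3) := by
    ext r
    simp only [Finset.mem_image, Finset.mem_filter, Finset.mem_univ, true_and, Finset.mem_Ioo]
    constructor
    · rintro ⟨j, h1, rfl⟩
      exact ⟨h1, j.val_lt⟩
    · rintro ⟨h1, h2⟩
      refine ⟨(r : ZMod (2 * m + 3)), ?_, ZMod.val_natCast_of_lt h2⟩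
      rw [ZMod.val_natCast_of_lt h2]; exact h1
  rw [this, Nat.card_Ioo]
  omega

/-- starting positions -/
def start (a b k : ℕ) : ℕ := 2 * k + (if a ≤ 2 * k then 1 else 0) + (if b ≤ 2 * k + 1 then 1 else 0)

open Classical in
theorem exists_tuple (m : ℕ) (Z : Finset (ZMod (2 * m + 3))) (x y z : ZMod (2 * m + 3))
    (hxy : x.val < y.val) (hyz : y.val < z.val) (hZ : ∀ j, j ∉ Z ↔ (j = x ∨ j = y ∨ j = z))
    (h1 : (y.val - x.val) % 2 = 1) (h2 : (z.val - y.val) % 2 = 1) :
    ∃ i, Valid m i ∧ (Z : Set (ZMod (2 * m + 3))) ⊆ Fset m i := by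
  have hzl := z.val_lt
  set a := x.val + (2 * m + 3) - z.val - 1 with ha
  set b := y.val + (2 * m + 3) - z.val - 1 with hb
  have hcastinj : ∀ u v : ℕ, u < 2 * m + 3 → v < 2 * m + 3 →
      ((u : ℕ) : ZMod (2 * m + 3)) = (v : ℕ) → u = v := by
    intro u v hu hv h
    have := congrArg ZMod.val h
    rwa [ZMod.val_natCast_of_lt hu, ZMod.val_natCast_of_lt hv] at this
  refine ⟨fun k => z + 1 + ((start a b k : ℕ) : ZMod (2 * m + 3)), ?_, ?_⟩
  · rintro ⟨k, s⟩ ⟨k', s'⟩ h
    simp only at h
    rw [add_assoc, add_assoc (z + 1)] at h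
    have h3 := add_left_cancel h
    rw [← Nat.cast_add, ← Nat.cast_add] at h3
    have hk := k.2
    have hk' := k'.2
    have hs := s.2
    have hs' := s'.2
    have h4 := hcastinj _ _ (by unfold start; split_ifs <;> omega)
      (by unfold start; split_ifs <;> omega) h3
    have h5 : (k : ℕ) = k' ∧ (s : ℕ) = s' := by
      unfold start at h4
      split_ifs at h4 <;> omega
    ext
    · exact h5.1
    · exact h5.2
  · intro j hj
    set u := (j - (z + 1)).val with hu
    have hul : u < 2 * m + 3 := ZMod.val_lt _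
    have hju : j = z + 1 + ((u : ℕ) : ZMod (2 * m + 3)) := by
      rw [hu, ZMod.natCast_zmod_val]; ring
    have hj' : ¬ (j = x ∨ j = y ∨ j = z) := fun h => (hZ j).2 h hj
    have hcast : ((2 * m + 3 : ℕ) : ZMod (2 * m + 3)) = 0 := ZMod.natCast_self _
    have hzc : ((z.val : ℕ) : ZMod (2 * m + 3)) = z := ZMod.natCast_zmod_val z
    have gen : ∀ w : ZMod (2 * m + 3), w.val + (2 * m + 3) = z.val + 1 + u → j = w := by
      intro w hw
      have h3 := congrArg (Nat.cast : ℕ → ZMod (2 * m + 3)) hw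
      rw [Nat.cast_add, hcast, add_zero, ZMod.natCast_zmod_val, Nat.cast_add, Nat.cast_add,
        hzc, Nat.cast_one] at h3
      rw [hju, h3]
    have hux : u ≠ a := by
      intro h
      exact hj' (Or.inl (gen x (by omega)))
    have huy : u ≠ b := by
      intro h
      exact hj' (Or.inr (Or.inl (gen y (by omega))))
    have huz : u ≠ 2 * m + 2 := by
      intro h
      exact hj' (Or.inr (Or.inr (gen z (by omega))))
    have : ∃ k s : ℕ, k < m ∧ s < 2 ∧ start a b k + s = u := by
      unfold start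
      rcases lt_or_gt_of_ne hux with h3 | h3
      · refine ⟨u / 2, u % 2, by omega, by omega, ?_⟩
        rw [if_neg (by omega), if_neg (by omega)]; omega
      · rcases lt_or_gt_of_ne huy with h4 | h4
        · refine ⟨(u - 1) / 2, (u - 1) % 2, by omega, by omega, ?_⟩
          rw [if_pos (by omega), if_neg (by omega)]; omega
        · refine ⟨(u - 2) / 2, (u - 2) % 2, by omega, by omega, ?_⟩
          rw [if_pos (by omega), if_pos (by omega)]; omega
    obtain ⟨k, s, hk, hs, hks⟩ := this
    refine ⟨(⟨k, hk⟩, ⟨s, hs⟩), ?_⟩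
    simp only
    rw [hju, ← hks, Nat.cast_add]; ring

open Classical in
theorem moment_cover (m : ℕ) (τ : ZMod (2 * m + 3) → ℝ) (hτ : ∀ a b, a.val < b.val → τ a < τ b)
    (S : Set (ZMod (2 * m + 3))) (hS : S ∈ PF (2 * m) τ) (hne : S ≠ univ) :
    ∃ i, Valid m i ∧ S ⊆ Fset m i := by
  have hinj : Function.Injective τ := by
    intro a b h
    rcases lt_trichotomy a.val b.val with h1 | h1 | h1
    · exact absurd h (hτ a b h1).ne
    · exact ZMod.val_injective _ h1
    · exact absurd h (hτ b a h1).ne'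
  obtain ⟨g, hd, hnn, hSg⟩ := hS
  set Z0 : Finset (ZMod (2 * m + 3)) := Finset.univ.filter fun j => g.eval (τ j) = 0 with hZ0
  have hg0 : g ≠ 0 := by
    rintro rfl
    apply hne
    rw [hSg]; ext j; simp
  have hcard : Z0.card ≤ 2 * m := by
    by_contra hcon
    push Not at hcon
    exact hg0 (poly_zero (2 * m) τ hinj g hd Z0 (fun j hj => (Finset.mem_filter.1 hj).2) hcon)
  obtain ⟨Z, g', hZZ, hZc, hd', hnn', hz'⟩ := extend_face m τ hinj (2 * m - Z0.card) Z0 g (by omega)
    hd hnn (fun j => by simp [hZ0])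
  have hSZ : S ⊆ (Z : Set (ZMod (2 * m + 3))) := by
    intro j hj
    apply hZZ
    rw [hSg] at hj
    exact Finset.mem_filter.2 ⟨Finset.mem_univ _, hj⟩
  have hpar := parity m τ hτ Z hZc g' hd' hnn' hz'
  have hsplit : ∀ w : ZMod (2 * m + 3), (Z.filter fun j => w.val < j.val).card +
      ((Zᶜ).filter fun j => w.val < j.val).card = 2 * m + 2 - w.val := by
    intro w
    rw [← card_gt, ← Finset.card_union_of_disjoint, ← Finset.filter_union, Finset.union_compl]
    exact Finset.disjoint_filter_filter disjoint_compl_right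
  have key : ∀ x y z : ZMod (2 * m + 3), x.val < y.val → y.val < z.val → Zᶜ = {x, y, z} →
      ∃ i, Valid m i ∧ S ⊆ Fset m i := by
    intro x y z hxy hyz hZ3
    have hx : x ∉ Z := by rw [← Finset.mem_compl, hZ3]; simp
    have hy : y ∉ Z := by rw [← Finset.mem_compl, hZ3]; simp
    have hz : z ∉ Z := by rw [← Finset.mem_compl, hZ3]; simp
    have e1 := hsplit x
    have e2 := hsplit y
    have e3 := hsplit z
    have hyz' : y ≠ z := fun h => by rw [h] at hyz; omega
    have f1 : ((Zᶜ).filter fun j => x.val < j.val) = {y, z} := by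
      rw [hZ3]; ext j
      simp only [Finset.mem_filter, Finset.mem_insert, Finset.mem_singleton]
      constructor
      · rintro ⟨rfl | rfl | rfl, h⟩
        · omega
        · simp
        · simp
      · rintro (rfl | rfl)
        · exact ⟨by simp, hxy⟩
        · exact ⟨by simp, by omega⟩
    have f2 : ((Zᶜ).filter fun j => y.val < j.val) = {z} := by
      rw [hZ3]; ext j
      simp only [Finset.mem_filter, Finset.mem_insert, Finset.mem_singleton]
      constructor
      · rintro ⟨rfl | rfl | rfl, h⟩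
        · omega
        · omega
        · rfl
      · rintro rfl
        exact ⟨by simp, hyz⟩
    have f3 : ((Zᶜ).filter fun j => z.val < j.val) = ∅ := by
      rw [hZ3]; ext j
      simp only [Finset.mem_filter, Finset.mem_insert, Finset.mem_singleton, Finset.notMem_empty,
        iff_false]
      rintro ⟨rfl | rfl | rfl, h⟩ <;> omega
    rw [f1, Finset.card_pair hyz'] at e1
    rw [f2, Finset.card_singleton] at e2
    rw [f3, Finset.card_empty] at e3
    have p1 := hpar x y hx hy
    have p2 := hpar y z hy hz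
    have hzl := z.val_lt
    obtain ⟨i, hi, hZi⟩ := exists_tuple m Z x y z hxy hyz (fun j => by
      rw [← Finset.mem_compl, hZ3]; simp) (by omega) (by omega)
    exact ⟨i, hi, hSZ.trans hZi⟩
  have hc3 : (Zᶜ).card = 3 := by rw [Finset.card_compl, ZMod.card]; omega
  obtain ⟨x, y, z, hxy, hxz, hyz, h3⟩ := Finset.card_eq_three.1 hc3
  have nxy : x.val ≠ y.val := fun h => hxy (ZMod.val_injective _ h)
  have nxz : x.val ≠ z.val := fun h => hxz (ZMod.val_injective _ h)
  have nyz : y.val ≠ z.val := fun h => hyz (ZMod.val_injective _ h)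
  rcases lt_or_gt_of_ne nxy with h4 | h4 <;> rcases lt_or_gt_of_ne nxz with h5 | h5 <;>
    rcases lt_or_gt_of_ne nyz with h6 | h6
  · exact key x y z h4 h6 h3
  · exact key x z y h5 h6 (by rw [h3]; ext j; simp; tauto)
  · omega
  · exact key z x y h5 h4 (by rw [h3]; ext j; simp; tauto)
  · exact key y x z h4 h5 (by rw [h3]; ext j; simp; tauto)
  · omega
  · exact key y z x h6 h5 (by rw [h3]; ext j; simp; tauto)
  · exact key z y x h6 h4 (by rw [h3]; ext j; simp; tauto)

theorem moment_gale (m : ℕ) (τ : ZMod (2 * m + 3) → ℝ) (hτ : ∀ a b, a.val < b.val → τ a < τ b) :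
    Gale m (PF (2 * m) τ) :=
  ⟨fun i _ => Fset_mem_PF m τ hτ i, fun S hS hne => moment_cover m τ hτ S hS hne⟩

end Pool.Agent.T2H78.Cyc
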