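import Pool.Agent.T2H78.CycBound2

namespace Pool.Agent.T2H78.Cyc
open Matrix Finset

/-- the optimal configuration (coordinates) -/
noncomputable def P0 (m : ℕ) : Matrix (ZMod (2 * m + 3)) (J m) ℝ :=
  Matrix.of fun j d => √((2 * m + 3 : ℝ) / (2 * m)) * U m j (some (d.1.castSucc, d.2))

theorem Y0 (m : ℕ) (c : Option (K m)) (d : J m) :
    ((U m)ᵀ * P0 m) c d = √((2 * m + 3 : ℝ) / (2 * m)) *
      (if c = some (d.1.castSucc, d.2) then 1 else 0) := by
  have h := congrFun (congrFun (U_orth m) c) (some (d.1.castSucc, d.2))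
  rw [Matrix.mul_apply, Matrix.one_apply] at h
  rw [Matrix.mul_apply, ← h, Finset.mul_sum]
  refine Finset.sum_congr rfl fun j _ => ?_
  rw [P0, Matrix.of_apply]; ring

theorem tuple_opt (m : ℕ) (hm : 0 < m) :
    ∑ i : Fin m → ZMod (2 * m + 3),
      det (Matrix.of fun (c : J m) => P0 m (i c.1 + (c.2 : ℕ))) = Bm m := by
  have hm' : (0 : ℝ) < m := by exact_mod_cast hm
  rw [tuple_sum]
  set ρ := √((2 * m + 3 : ℝ) / (2 * m)) with hρ
  rw [sum_group]
  · rw [Fin.sum_univ_castSucc, Finset.sum_eq_zero, zero_add]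
    · have h1 : ∀ π : Equiv.Perm (Fin m), (∏ k, sk m (((Fin.last m).succAbove ∘ π) k)) *
          det (Matrix.of fun (c : J m) =>
            ((U m)ᵀ * P0 m) (some (((Fin.last m).succAbove ∘ π) c.1, c.2))) =
          Cr m (Fin.last m) * ((2 * m + 3 : ℝ) / (2 * m)) ^ m := by
        intro π
        have e1 : ∏ k, sk m (((Fin.last m).succAbove ∘ π) k) = Cr m (Fin.last m) :=
          Equiv.prod_comp π (fun k => sk m ((Fin.last m).succAbove k))
        rw [e1]
        congr 1
        have e2 : (Matrix.of fun (c : J m) =>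
            ((U m)ᵀ * P0 m) (some (((Fin.last m).succAbove ∘ π) c.1, c.2))) =
            (ρ • (1 : Matrix (J m) (J m) ℝ)).submatrix
              (Equiv.prodCongrLeft (fun _ : Fin 2 => π)) id := by
          ext c d
          rw [Matrix.of_apply, Y0, Matrix.submatrix_apply, Matrix.smul_apply, Matrix.one_apply,
            smul_eq_mul]
          congr 1
          refine if_congr ?_ rfl rfl
          rw [Option.some_inj, Prod.ext_iff, Prod.ext_iff]
          simp [Equiv.prodCongrLeft, Fin.succAbove_last]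
        rw [e2, Matrix.det_permute, Equiv.Perm.sign_prodCongrLeft]
        simp only [Finset.prod_const, Finset.card_univ, Fintype.card_fin]
        rw [Int.units_sq]
        simp only [Units.val_one, Int.cast_one, one_mul]
        rw [Matrix.det_smul, Matrix.det_one, mul_one, Fintype.card_prod, Fintype.card_fin,
          Fintype.card_fin, mul_comm m 2, pow_mul, hρ, Real.sq_sqrt (by positivity)]
      rw [Finset.sum_congr rfl (fun π _ => h1 π), Finset.sum_const, Finset.card_univ,
        Fintype.card_perm, Fintype.card_fin, nsmul_eq_mul, Bm]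
      ring
    · intro r _
      refine Finset.sum_eq_zero fun π _ => ?_
      -- some row is zero
      obtain ⟨j, hj⟩ := Fin.exists_succAbove_eq (x := Fin.last m) (y := r.castSucc)
        (Fin.castSucc_lt_last r).ne'
      have : det (Matrix.of fun (c : J m) =>
            ((U m)ᵀ * P0 m) (some ((r.castSucc.succAbove ∘ π) c.1, c.2))) = 0 := by
        refine Matrix.det_eq_zero_of_row_eq_zero (π.symm j, 0) fun d => ?_
        rw [Matrix.of_apply, Y0, if_neg, mul_zero]
        rw [Option.some_inj, Prod.ext_iff]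
        simp only [Function.comp_apply, Equiv.apply_symm_apply, hj]
        exact fun h => (Fin.castSucc_lt_last d.1).ne' h.1
      rw [this, mul_zero]
  · intro l hl
    rw [Function.Injective] at hl
    push Not at hl
    obtain ⟨a, b, hab, hne⟩ := hl
    have : det (Matrix.of fun (c : J m) => ((U m)ᵀ * P0 m) (some (l c.1, c.2))) = 0 := by
      refine Matrix.det_zero_of_row_eq (i := (a, 0)) (j := (b, 0)) (by simpa using hne) ?_
      change ((U m)ᵀ * P0 m) (some (l a, 0)) = ((U m)ᵀ * P0 m) (some (l b, 0))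
      rw [hab]
    rw [this]; simp

theorem P0_norm (m : ℕ) (hm : 0 < m) (j : ZMod (2 * m + 3)) : ∑ d, P0 m j d ^ 2 = 1 := by
  have hm' : (0 : ℝ) < m := by exact_mod_cast hm
  have hc : (0 : ℝ) ≤ (2 * m + 3 : ℝ) / (2 * m) := by positivity
  have h1 : ∀ k : Fin m, ∑ s : Fin 2, P0 m j (k, s) ^ 2 = 1 / m := by
    intro k
    rw [Fin.sum_univ_two]
    simp only [P0, Matrix.of_apply, U_zero, U_one]
    rw [mul_pow, mul_pow, mul_pow, mul_pow, Real.sq_sqrt hc, Real.sq_sqrt (by positivity)]
    have := cs_sq_add m (j * fr m k.castSucc)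
    have h2 : (2 * m + 3 : ℝ) / (2 * m) * (2 / (2 * m + 3)) = 1 / m := by field_simp
    linear_combination (1 / m : ℝ) * this + (cs m (j * fr m k.castSucc) ^ 2 +
      sn m (j * fr m k.castSucc) ^ 2) * h2
  rw [Fintype.sum_prod_type, Finset.sum_congr rfl (fun k _ => h1 k)]
  simp
  field_simp

theorem P0_sum (m : ℕ) (d : J m) : ∑ j, P0 m j d = 0 := by
  obtain ⟨k, s⟩ := d
  simp only [P0, Matrix.of_apply]
  rw [← Finset.mul_sum]
  fin_cases s
  · simp only [Fin.zero_eta, U_zero]
    rw [← Finset.mul_sum, (sum_char m _ (fr_ne m _)).1]; simp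
  · simp only [Fin.mk_one, U_one]
    rw [← Finset.mul_sum, (sum_char m _ (fr_ne m _)).2]; simp

end Pool.Agent.T2H78.Cyc
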