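import Mathlib

/-!
A multilinear Pfaffian form: `pf w = ∑_σ sign σ ∏_k (w k) (σ (k,0)) (σ (k,1))`.
-/

namespace Pool.Agent.T2H78.Cyc
open Matrix Finset

/-- index type for the coordinates: `m` pairs -/
abbrev J (m : ℕ) := Fin m × Fin 2

/-- the multilinear (unnormalised) Pfaffian form -/
noncomputable def pf (m : ℕ) :
    MultilinearMap ℝ (fun _ : Fin m => Matrix (J m) (J m) ℝ) ℝ :=
  ∑ σ : Equiv.Perm (J m), ((Equiv.Perm.sign σ : ℤ) : ℝ) •
    ((MultilinearMap.mkPiAlgebra ℝ (Fin m) ℝ).compLinearMap
      (fun k => Matrix.entryLinearMap ℝ ℝ (σ (k, 0)) (σ (k, 1))))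

theorem pf_apply (m : ℕ) (w : Fin m → Matrix (J m) (J m) ℝ) :
    pf m w = ∑ σ : Equiv.Perm (J m), ((Equiv.Perm.sign σ : ℤ) : ℝ) *
      ∏ k, w k (σ (k, 0)) (σ (k, 1)) := by
  simp [pf]

theorem pf_vecMulVec (m : ℕ) (v : J m → J m → ℝ) :
    pf m (fun k => vecMulVec (v (k, 0)) (v (k, 1))) = det (Matrix.of v) := by
  rw [pf_apply, ← det_transpose, det_apply']
  refine Finset.sum_congr rfl fun σ _ => ?_
  congr 1
  rw [Fintype.prod_prod_type]
  simp [vecMulVec_apply, Fin.prod_univ_two]

theorem pf_eq_zero_of_symm (m : ℕ) (w : Fin m → Matrix (J m) (J m) ℝ) (k : Fin m)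
    (hk : ∀ a b, w k a b = w k b a) : pf m w = 0 := by
  rw [pf_apply]
  refine Finset.sum_involution (fun σ _ => σ * Equiv.swap (k, 0) (k, 1)) ?_ ?_ ?_ ?_
  · intro σ _
    have hne : ((k, 0) : J m) ≠ (k, 1) := by simp
    have h1 : ∏ j, w j ((σ * Equiv.swap (k, 0) (k, 1) : Equiv.Perm (J m)) (j, 0))
        ((σ * Equiv.swap (k, 0) (k, 1) : Equiv.Perm (J m)) (j, 1)) =
          ∏ j, w j (σ (j, 0)) (σ (j, 1)) := by
      refine Finset.prod_congr rfl fun j _ => ?_
      by_cases hj : j = k
      · subst hj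
        simp only [Equiv.Perm.coe_mul, Function.comp_apply, Equiv.swap_apply_left,
          Equiv.swap_apply_right]
        exact hk _ _
      · rw [Equiv.Perm.mul_apply, Equiv.Perm.mul_apply,
          Equiv.swap_apply_of_ne_of_ne (by simp [hj]) (by simp [hj]),
          Equiv.swap_apply_of_ne_of_ne (by simp [hj]) (by simp [hj])]
    rw [h1, Equiv.Perm.sign_mul, Equiv.Perm.sign_swap hne]
    simp
  · intro σ _ _ h
    have h2 : Equiv.swap ((k, 0) : J m) (k, 1) = 1 := by
      have := congrArg (fun τ => σ⁻¹ * τ) h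
      simpa [← mul_assoc] using this
    have h3 := congrArg (fun τ : Equiv.Perm (J m) => τ (k, 0)) h2
    simp at h3
  · intro σ _; simp
  · intro σ _
    simp [mul_assoc]

theorem pf_congr (m : ℕ) (w w' : Fin m → Matrix (J m) (J m) ℝ)
    (h : ∀ k a b, w k a b - w k b a = w' k a b - w' k b a) : pf m w = pf m w' := by
  classical
  -- replace one slot at a time
  have key : ∀ s : Finset (Fin m), pf m (s.piecewise w' w) = pf m w := by
    intro s
    induction s using Finset.induction_on with
    | empty => simp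
    | insert k s hk ih =>
      rw [← ih]
      have e1 : (insert k s).piecewise w' w = Function.update (s.piecewise w' w) k (w' k) := by
        rw [Finset.piecewise_insert]
      have e2 : s.piecewise w' w = Function.update (s.piecewise w' w) k (w k) := by
        rw [Function.eq_update_iff]
        refine ⟨by simp [Finset.piecewise, hk], fun x _ => rfl⟩
      rw [e1]
      conv_rhs => rw [e2]
      rw [← sub_eq_zero, ← MultilinearMap.map_update_sub]
      refine pf_eq_zero_of_symm m _ k ?_
      intro a b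
      simp only [Function.update_self, Matrix.sub_apply]
      have := h k a b
      linarith
  have := key Finset.univ
  rw [Finset.piecewise_univ] at this
  exact this.symm

end Pool.Agent.T2H78.Cyc
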