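import Pool.Agent.T2H78.CycMoment2

/-!
Sign coherence of the facet determinants.
-/

namespace Pool.Agent.T2H78.Cyc
open Set

variable {E : Type} [NormedAddCommGroup E] [InnerProductSpace ℝ E] [FiniteDimensional ℝ E]

/-- adjacent facets: strict sign change when one vertex is exchanged -/
theorem exchange_neg {κ : Type} [Fintype κ] [DecidableEq κ] (b : Module.Basis κ ℝ E) (v : κ → E)
    (j0 : κ) (x : E) (L L' : E →ₗ[ℝ] ℝ) (h1 : ∀ j, L (v j) = 1) (h2 : L x < 1)
    (h3 : ∀ j, j ≠ j0 → L' (v j) = 1) (h4 : L' x = 1) (h5 : L' (v j0) < 1) (h0 : b.det v ≠ 0) :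
    b.det v * b.det (Function.update v j0 x) < 0 := by
  obtain ⟨hli, hsp⟩ := (b.is_basis_iff_det (v := v)).2 (isUnit_iff_ne_zero.2 h0)
  have hx : x ∈ Submodule.span ℝ (range v) := by rw [hsp]; trivial
  obtain ⟨lam, hlam⟩ := (Submodule.mem_span_range_iff_exists_fun ℝ).1 hx
  have e1 : b.det (Function.update v j0 x) = lam j0 * b.det v := by
    rw [← hlam, AlternatingMap.map_update_sum, Finset.sum_eq_single j0]
    · rw [AlternatingMap.map_update_smul, Function.update_eq_self, smul_eq_mul]
    · intro j _ hj
      rw [AlternatingMap.map_update_smul, AlternatingMap.map_update_self _ _ hj.symm, smul_zero]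
    · simp
  have e2 : L x = ∑ j, lam j := by
    rw [← hlam, map_sum]
    refine Finset.sum_congr rfl fun j _ => ?_
    rw [map_smul, h1, smul_eq_mul, mul_one]
  have e3 : L' x = ∑ j, lam j + lam j0 * (L' (v j0) - 1) := by
    rw [← hlam, map_sum]
    have : ∀ j, L' (lam j • v j) = lam j + (if j = j0 then lam j0 * (L' (v j0) - 1) else 0) := by
      intro j
      rw [map_smul, smul_eq_mul]
      split_ifs with h
      · rw [h]; ring
      · rw [h3 j h]; ring
    rw [Finset.sum_congr rfl (fun j _ => this j), Finset.sum_add_distrib]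
    simp
  have e4 : lam j0 < 0 := by
    by_contra hcon
    push Not at hcon
    have : lam j0 * (L' (v j0) - 1) ≤ 0 := mul_nonpos_of_nonneg_of_nonpos hcon (by linarith)
    linarith
  rw [e1]
  have : 0 < b.det v ^ 2 := by positivity
  nlinarith

theorem exchange_sign {κ : Type} [Fintype κ] [DecidableEq κ] (b : Module.Basis κ ℝ E) (v : κ → E)
    (j0 : κ) (x : E) (L L' : E →ₗ[ℝ] ℝ) (h1 : ∀ j, L (v j) = 1) (h2 : L x < 1)
    (h3 : ∀ j, j ≠ j0 → L' (v j) = 1) (h4 : L' x = 1) (h5 : L' (v j0) < 1) :
    SignType.sign (b.det (Function.update v j0 x)) = - SignType.sign (b.det v) := by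
  by_cases h0 : b.det v = 0
  · by_cases h0' : b.det (Function.update v j0 x) = 0
    · rw [h0, h0']; simp
    · exfalso
      have := exchange_neg b (Function.update v j0 x) j0 (v j0) L' L
        (fun j => by
          by_cases hj : j = j0
          · subst hj; simpa using h4
          · rw [Function.update_of_ne hj]; exact h3 j hj) h5
        (fun j hj => by rw [Function.update_of_ne hj]; exact h1 j) (h1 j0)
        (by simpa using h2) h0'
      rw [Function.update_idem, Function.update_eq_self, h0, mul_zero] at this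
      exact lt_irrefl _ this
  · have := exchange_neg b v j0 x L L' h1 h2 h3 h4 h5 h0
    rcases lt_or_gt_of_ne h0 with h | h
    · have h' : 0 < b.det (Function.update v j0 x) := by
        by_contra hcon
        push Not at hcon
        have := mul_nonneg_of_nonpos_of_nonpos h.le hcon
        linarith
      rw [sign_pos h', sign_neg h]; rfl
    · have h' : b.det (Function.update v j0 x) < 0 := by
        by_contra hcon
        push Not at hcon
        have := mul_nonneg h.le hcon
        linarith
      rw [sign_neg h', sign_pos h]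

/-- the vectors of a tuple relative to the centre `c` -/
def vv (m : ℕ) (p : ZMod (2 * m + 3) → E) (c : E) (i : Fin m → ZMod (2 * m + 3)) : J m → E :=
  fun d => p (i d.1 + ((d.2 : ℕ) : ZMod (2 * m + 3))) - c

/-- normalised supporting functionals -/
def Supp (m : ℕ) (p : ZMod (2 * m + 3) → E) (c : E) : Prop :=
  ∀ i, Valid m i → ∃ L : E →ₗ[ℝ] ℝ, (∀ j ∈ Fset m i, L (p j - c) = 1) ∧
    ∀ j, j ∉ Fset m i → L (p j - c) < 1

theorem val_sub_one (m : ℕ) (j : ZMod (2 * m + 3)) (h : 1 ≤ j.val) :
    (j - 1).val = j.val - 1 := by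
  have h1 := val_add_one m (j - 1)
  rw [sub_add_cancel] at h1
  split_ifs at h1 <;> omega

theorem one_ne (m : ℕ) : (1 : ZMod (2 * m + 3)) ≠ 0 := by
  intro h
  have := congrArg ZMod.val h
  rw [ZMod.val_one_eq_one_mod, ZMod.val_zero, Nat.mod_eq_of_lt (by omega)] at this
  omega

theorem two_ne (m : ℕ) : (1 : ZMod (2 * m + 3)) + 1 ≠ 0 := by
  intro h
  have h1 := val_add_one m 1
  rw [h, ZMod.val_zero, ZMod.val_one_eq_one_mod, Nat.mod_eq_of_lt (by omega)] at h1
  split_ifs at h1 with h2 <;> omega

theorem slide (m : ℕ) (b : Module.Basis (J m) ℝ E) (p : ZMod (2 * m + 3) → E) (c : E)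
    (hS : Supp m p c) (i : Fin m → ZMod (2 * m + 3)) (hi : Valid m i) (k : Fin m)
    (hk : i k - 1 ∉ Fset m i) :
    Valid m (Function.update i k (i k - 1)) ∧
      SignType.sign (b.det (vv m p c (Function.update i k (i k - 1)))) =
        SignType.sign (b.det (vv m p c i)) := by
  set e := i k with he
  set i' := Function.update i k (e - 1) with hi'
  have hk1 : i' k = e - 1 := by simp [hi']
  have hk2 : ∀ k', k' ≠ k → i' k' = i k' := fun k' h => by simp [hi', Function.update_of_ne h]
  have hnot : ∀ d : J m, i d.1 + ((d.2 : ℕ) : ZMod (2 * m + 3)) ≠ e - 1 := by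
    intro d hd
    exact hk ⟨d, hd⟩
  have hne1 : e ≠ e - 1 := by
    intro h
    have : (1 : ZMod (2 * m + 3)) = 0 := by linear_combination h
    exact one_ne m this
  have hval : Valid m i' := by
    rintro ⟨a, s⟩ ⟨a', s'⟩ h
    simp only at h
    by_cases ha : a = k <;> by_cases ha' : a' = k
    · subst ha
      rw [ha'] at h ⊢
      rw [hk1] at h
      fin_cases s <;> fin_cases s'
      · rfl
      · simp at h
        exact absurd h (one_ne m)
      · simp at h
        exact absurd h (hne1)
      · rfl
    · subst ha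
      rw [hk1, hk2 a' ha'] at h
      exfalso
      fin_cases s
      · simp only [Fin.zero_eta, Fin.val_zero, Nat.cast_zero, add_zero] at h
        exact hnot (a', s') h.symm
      · simp only [Fin.mk_one, Fin.val_one, Nat.cast_one, sub_add_cancel] at h
        have h3 : (⟨a, 0⟩ : J m) = (a', s') := hi (by simpa [he] using h)
        exact ha' (Prod.ext_iff.1 h3).1.symm
    · rw [ha'] at h
      rw [hk1, hk2 a ha] at h
      exfalso
      fin_cases s'
      · simp only [Fin.zero_eta, Fin.val_zero, Nat.cast_zero, add_zero] at h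
        exact hnot (a, s) h
      · simp only [Fin.mk_one, Fin.val_one, Nat.cast_one, sub_add_cancel] at h
        have h3 : (⟨a, s⟩ : J m) = (k, 0) := hi (by simpa [he] using h)
        exact ha (Prod.ext_iff.1 h3).1
    · rw [hk2 a ha, hk2 a' ha'] at h
      exact hi h
  refine ⟨hval, ?_⟩
  -- the exchanged family
  set v := vv m p c i with hv
  set x := p (e - 1) - c with hx
  have hswap : vv m p c i' = Function.update v (k, 1) x ∘ Equiv.swap ((k, 0) : J m) (k, 1) := by
    funext d
    obtain ⟨a, s⟩ := d
    simp only [Function.comp_apply]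
    by_cases ha : a = k
    · subst ha
      fin_cases s
      · simp only [Fin.zero_eta, Equiv.swap_apply_left, Function.update_self]
        simp [vv, hk1, hx]
      · simp only [Fin.mk_one, Equiv.swap_apply_right]
        rw [Function.update_of_ne (by simp)]
        simp [vv, hk1, hv, he]
    · rw [Equiv.swap_apply_of_ne_of_ne (by simp [ha]) (by simp [ha]),
        Function.update_of_ne (by simp [ha])]
      simp [vv, hv, hk2 a ha]
  rw [hswap, AlternatingMap.map_swap _ _ (by simp), ]
  obtain ⟨L, hL1, hL2⟩ := hS i hi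
  obtain ⟨L', hL1', hL2'⟩ := hS i' hval
  have hmem' : ∀ d : J m, d ≠ (k, 1) → i d.1 + ((d.2 : ℕ) : ZMod (2 * m + 3)) ∈ Fset m i' := by
    rintro ⟨a, s⟩ hd
    by_cases ha : a = k
    · subst ha
      fin_cases s
      · refine ⟨(a, 1), ?_⟩
        simp [hk1, he]
      · simp at hd
    · refine ⟨(a, s), ?_⟩
      simp [hk2 a ha]
  have hnot' : e + 1 ∉ Fset m i' := by
    rintro ⟨⟨a, s⟩, h⟩
    simp only at h
    by_cases ha : a = k
    · subst ha
      rw [hk1] at h
      fin_cases s
      · simp only [Fin.zero_eta, Fin.val_zero, Nat.cast_zero, add_zero] at h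
        exact two_ne m (by linear_combination -h)
      · simp only [Fin.mk_one, Fin.val_one, Nat.cast_one, sub_add_cancel] at h
        exact one_ne m (by linear_combination -h)
    · rw [hk2 a ha] at h
      have h3 : (⟨a, s⟩ : J m) = (k, 1) := hi (by simpa [he] using h)
      exact ha (Prod.ext_iff.1 h3).1
  have hex := exchange_sign b v (k, 1) x L L' (fun d => hL1 _ ⟨d, rfl⟩) (hL2 _ hk)
    (fun d hd => hL1' _ (hmem' d hd)) (hL1' _ ⟨(k, 0), by simp [hk1]⟩)
    (by
      have : v (k, 1) = p (e + 1) - c := by simp [hv, vv, he]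
      rw [this]; exact hL2' _ hnot')
  rw [Left.sign_neg, hex, neg_neg]

/-- permuting the edges does not change the determinant -/
theorem det_perm (m : ℕ) (b : Module.Basis (J m) ℝ E) (p : ZMod (2 * m + 3) → E) (c : E)
    (i : Fin m → ZMod (2 * m + 3)) (π : Equiv.Perm (Fin m)) :
    b.det (vv m p c (i ∘ π)) = b.det (vv m p c i) := by
  have h1 : vv m p c (i ∘ π) = vv m p c i ∘ (Equiv.prodCongrLeft (fun _ : Fin 2 => π)) := by
    funext d
    obtain ⟨a, s⟩ := d
    simp [vv, Equiv.prodCongrLeft]
  rw [h1, AlternatingMap.map_perm, Equiv.Perm.sign_prodCongrLeft]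
  simp [Int.units_sq]

/-- the packed tuple -/
def packed (m : ℕ) : Fin m → ZMod (2 * m + 3) := fun k => ((2 * (k : ℕ) : ℕ) : ZMod (2 * m + 3))

theorem packed_valid (m : ℕ) : Valid m (packed m) := by
  rintro ⟨k, s⟩ ⟨k', s'⟩ h
  simp only [packed] at h
  rw [← Nat.cast_add, ← Nat.cast_add] at h
  have h1 := congrArg ZMod.val h
  have hk := k.2
  have hk' := k'.2
  have hs := s.2
  have hs' := s'.2
  rw [ZMod.val_natCast_of_lt (by omega), ZMod.val_natCast_of_lt (by omega)] at h1
  ext
  · simp only; omega
  · simp only; omega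

theorem stuck (m : ℕ) (i : Fin m → ZMod (2 * m + 3)) (hi : Valid m i)
    (hst : ∀ k, 1 ≤ (i k).val → i k - 1 ∈ Fset m i) : ∃ π : Equiv.Perm (Fin m), i = packed m ∘ π := by
  -- one step down
  have step : ∀ k, 1 ≤ (i k).val → ∃ k', i k' + 1 = i k - 1 := by
    intro k hk
    obtain ⟨k', h | h⟩ := (mem_Fset m i _).1 (hst k hk)
    · exfalso
      have h3 : ((k', 1) : J m) = (k, 0) := hi (by simp [← h])
      simp at h3
    · exact ⟨k', h.symm⟩
  -- no edge starts at the last node
  have nolast : ∀ k, (i k).val ≠ 2 * m + 2 := by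
    intro k hk
    have chain : ∀ r, r ≤ m + 1 → ∃ k', (i k').val = 2 * m + 2 - 2 * r := by
      intro r
      induction r with
      | zero => intro _; exact ⟨k, by simpa using hk⟩
      | succ r ih =>
        intro hr
        obtain ⟨k', hk'⟩ := ih (by omega)
        obtain ⟨k'', hk''⟩ := step k' (by omega)
        have h1 := val_sub_one m (i k') (by omega)
        have h2 := val_add_one m (i k'')
        rw [hk'', h1] at h2
        refine ⟨k'', ?_⟩
        split_ifs at h2 <;> omega
    obtain ⟨k', hk'⟩ := chain (m + 1) le_rfl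
    have h0 : i k' = 0 := ZMod.val_injective _ (by rw [hk', ZMod.val_zero]; omega)
    have h1 : i k + 1 = 0 := by
      apply ZMod.val_injective
      rw [val_add_one, if_pos hk, ZMod.val_zero]
    have h3 : ((k, 1) : J m) = (k', 0) := hi (by simp [h0, h1])
    simp at h3
  -- two steps down
  have step2 : ∀ k, 2 ≤ (i k).val → ∃ k', (i k').val = (i k).val - 2 := by
    intro k hk
    obtain ⟨k', hk'⟩ := step k (by omega)
    have h1 := val_sub_one m (i k) (by omega)
    have h2 := val_add_one m (i k')
    rw [hk', h1] at h2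
    refine ⟨k', ?_⟩
    split_ifs at h2 <;> omega
  -- all starting points are even
  have heven : ∀ r k, (i k).val = r → r % 2 = 0 := by
    intro r
    induction r using Nat.strong_induction_on with
    | _ r ih =>
      intro k hk
      rcases lt_or_ge r 2 with h | h
      · by_contra hodd
        have hr1 : r = 1 := by omega
        obtain ⟨k', hk'⟩ := step k (by omega)
        have h1 := val_sub_one m (i k) (by omega)
        have h2 := val_add_one m (i k')
        rw [hk', h1] at h2
        split_ifs at h2 with h3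
        · exact nolast k' h3
        · omega
      · obtain ⟨k', hk'⟩ := step2 k (by omega)
        have := ih (r - 2) (by omega) k' (by omega)
        omega
  have hinj : Function.Injective i := by
    intro a a' h
    have h3 : ((a, 0) : J m) = (a', 0) := hi (by simp [h])
    exact (Prod.ext_iff.1 h3).1
  have huinj : Function.Injective (fun k => (i k).val / 2) := by
    intro a a' h
    simp only at h
    have h1 := heven _ a rfl
    have h2 := heven _ a' rfl
    exact hinj (ZMod.val_injective _ (by omega))
  -- downward closed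
  have hdown : ∀ r k, (i k).val / 2 = r → ∀ s, s ≤ r → ∃ k', (i k').val / 2 = s := by
    intro r
    induction r with
    | zero => intro k hk s hs; exact ⟨k, by omega⟩
    | succ r ih =>
      intro k hk s hs
      rcases Nat.lt_or_ge r s with h | h
      · exact ⟨k, by omega⟩
      · obtain ⟨k', hk'⟩ := step2 k (by omega)
        exact ih k' (by omega) s h
  have hlt : ∀ k, (i k).val / 2 < m := by
    intro k
    by_contra hcon
    push Not at hcon
    have hsub : Finset.range (m + 1) ⊆ Finset.univ.image (fun k => (i k).val / 2) := by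
      intro s hs
      obtain ⟨k', hk'⟩ := hdown _ k rfl s (by have := Finset.mem_range.1 hs; omega)
      exact Finset.mem_image.2 ⟨k', Finset.mem_univ _, hk'⟩
    have h1 := Finset.card_le_card hsub
    have h2 := Finset.card_image_le (s := (Finset.univ : Finset (Fin m)))
      (f := fun k => (i k).val / 2)
    rw [Finset.card_range] at h1
    simp at h2
    omega
  let u : Fin m → Fin m := fun k => ⟨(i k).val / 2, hlt k⟩
  have hu : Function.Injective u := fun a a' h => huinj (Fin.ext_iff.1 h)
  refine ⟨Equiv.ofBijective u (Finite.injective_iff_bijective.1 hu), ?_⟩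
  funext k
  apply ZMod.val_injective
  change _ = (((2 * ((i k).val / 2) : ℕ) : ZMod (2 * m + 3))).val
  have h1 := heven _ k rfl
  have h2 := (i k).val_lt
  rw [ZMod.val_natCast_of_lt (by omega)]
  omega

theorem coherent (m : ℕ) (b : Module.Basis (J m) ℝ E) (p : ZMod (2 * m + 3) → E) (c : E)
    (hS : Supp m p c) : ∀ (r : ℕ) (i : Fin m → ZMod (2 * m + 3)), ∑ k, (i k).val = r →
      Valid m i → SignType.sign (b.det (vv m p c i)) =
        SignType.sign (b.det (vv m p c (packed m))) := by
  intro r
  induction r using Nat.strong_induction_on with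
  | _ r ih =>
    intro i hr hi
    by_cases hst : ∀ k, 1 ≤ (i k).val → i k - 1 ∈ Fset m i
    · obtain ⟨π, rfl⟩ := stuck m i hi hst
      rw [det_perm]
    · push Not at hst
      obtain ⟨k, hk1, hk2⟩ := hst
      obtain ⟨hv, hs⟩ := slide m b p c hS i hi k hk2
      rw [← hs]
      have h1 : ∑ k', ((Function.update i k (i k - 1)) k').val + 1 = ∑ k', (i k').val := by
        rw [← Finset.add_sum_erase _ _ (Finset.mem_univ k),
          ← Finset.add_sum_erase Finset.univ (fun k' => (i k').val) (Finset.mem_univ k)]
        rw [Function.update_self, val_sub_one m (i k) hk1]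
        have : ∑ x ∈ Finset.univ.erase k, ((Function.update i k (i k - 1)) x).val =
            ∑ x ∈ Finset.univ.erase k, (i x).val := by
          refine Finset.sum_congr rfl fun x hx => ?_
          rw [Function.update_of_ne (Finset.ne_of_mem_erase hx)]
        rw [this]; omega
      exact ih (r - 1) (by omega) _ (by omega) hv

theorem not_valid_det (m : ℕ) (b : Module.Basis (J m) ℝ E) (p : ZMod (2 * m + 3) → E) (c : E)
    (i : Fin m → ZMod (2 * m + 3)) (hi : ¬ Valid m i) : b.det (vv m p c i) = 0 := by
  unfold Valid Function.Injective at hi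
  push Not at hi
  obtain ⟨d, d', h, hne⟩ := hi
  refine AlternatingMap.map_eq_zero_of_eq _ _ ?_ hne
  simp only [vv]
  rw [h]

/-- no cancellation in the tuple sum -/
theorem abs_sum_eq (m : ℕ) (b : Module.Basis (J m) ℝ E) (p : ZMod (2 * m + 3) → E) (c : E)
    (hS : Supp m p c) : |∑ i, b.det (vv m p c i)| = ∑ i, |b.det (vv m p c i)| := by
  set σ := SignType.sign (b.det (vv m p c (packed m))) with hσ
  have h1 : ∀ i, |b.det (vv m p c i)| = (σ : ℝ) * b.det (vv m p c i) := by
    intro i
    by_cases hi : Valid m i
    · rw [hσ, ← coherent m b p c hS _ i rfl hi, sign_mul_self]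
    · rw [not_valid_det m b p c i hi]; simp
  rw [Finset.sum_congr rfl (fun i _ => h1 i), ← Finset.mul_sum]
  by_cases h0 : σ = 0
  · have : ∀ i, b.det (vv m p c i) = 0 := by
      intro i
      have := h1 i
      rw [h0] at this
      simpa using this
    rw [Finset.sum_eq_zero (fun i _ => this i)]; simp
  · have h2 : 0 ≤ (σ : ℝ) * ∑ i, b.det (vv m p c i) := by
      rw [Finset.mul_sum]
      refine Finset.sum_nonneg fun i _ => ?_
      rw [← h1]; exact abs_nonneg _
    rw [← abs_of_nonneg h2, abs_mul]
    have h3 : |(σ : ℝ)| = 1 := by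
      cases hσ' : σ with
      | zero => exact absurd hσ' h0
      | neg => simp
      | pos => simp
    rw [h3, one_mul]

end Pool.Agent.T2H78.Cyc
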