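import Pool.Agent.T2H78.CycOpt
import Pool.Agent.T2H78.CycCover

/-!
The trigonometric moment curve points are projectively equivalent to points on the moment curve.
-/

namespace Pool.Agent.T2H78.Cyc
open Set Polynomial

/-- the parameters `tan (π j / n)` -/
noncomputable def tau (m : ℕ) (j : ZMod (2 * m + 3)) : ℝ :=
  Real.tan (Real.pi * j.val / (2 * m + 3))

theorem cs_eq (m : ℕ) (j : ZMod (2 * m + 3)) : cs m j = Real.cos (2 * (Real.pi * j.val / (2 * m + 3))) := by
  have h := ZMod.stdAddChar_coe (N := 2 * m + 3) ((j.val : ℕ) : ℤ)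
  rw [Int.cast_natCast, ZMod.natCast_zmod_val] at h
  rw [cs, h]
  have e : (2 * (Real.pi : ℂ) * Complex.I * ((j.val : ℕ) : ℤ) / ((2 * m + 3 : ℕ) : ℂ)) =
      ((2 * (Real.pi * j.val / (2 * m + 3)) : ℝ) : ℂ) * Complex.I := by
    push_cast; ring
  rw [e, Complex.exp_ofReal_mul_I_re]

theorem sn_eq (m : ℕ) (j : ZMod (2 * m + 3)) : sn m j = Real.sin (2 * (Real.pi * j.val / (2 * m + 3))) := by
  have h := ZMod.stdAddChar_coe (N := 2 * m + 3) ((j.val : ℕ) : ℤ)
  rw [Int.cast_natCast, ZMod.natCast_zmod_val] at h
  rw [sn, h]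
  have e : (2 * (Real.pi : ℂ) * Complex.I * ((j.val : ℕ) : ℤ) / ((2 * m + 3 : ℕ) : ℂ)) =
      ((2 * (Real.pi * j.val / (2 * m + 3)) : ℝ) : ℂ) * Complex.I := by
    push_cast; ring
  rw [e, Complex.exp_ofReal_mul_I_im]

theorem cos_half_ne (m : ℕ) (j : ZMod (2 * m + 3)) :
    Real.cos (Real.pi * j.val / (2 * m + 3)) ≠ 0 := by
  rw [Ne, Real.cos_eq_zero_iff]
  rintro ⟨k, hk⟩
  have hpi := Real.pi_ne_zero
  have h0 : (2 * m + 3 : ℝ) ≠ 0 := by positivity
  have h1 : (2 * (j.val : ℝ)) = (2 * k + 1) * (2 * m + 3) := by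
    field_simp at hk
    linarith
  have h2 : (2 * (j.val : ℤ)) = (2 * k + 1) * (2 * m + 3) := by exact_mod_cast h1
  have h3 : (2 * (j.val : ℤ)) % 2 = ((2 * k + 1) * (2 * m + 3)) % 2 := by rw [h2]
  rw [Int.mul_emod_right] at h3
  have h4 : ((2 * k + 1) * (2 * (m : ℤ) + 3)) % 2 = 1 := by
    rw [show (2 * k + 1) * (2 * (m : ℤ) + 3) = 1 + 2 * ((2 * m + 3) * k + m + 1) by ring]
    omega
  omega

theorem tau_cs (m : ℕ) (j : ZMod (2 * m + 3)) : cs m j * (1 + tau m j ^ 2) = 1 - tau m j ^ 2 := by
  have h := cos_half_ne m j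
  rw [cs_eq, tau, Real.tan_eq_sin_div_cos, Real.cos_two_mul]
  have h1 := Real.sin_sq_add_cos_sq (Real.pi * j.val / (2 * m + 3))
  field_simp
  linear_combination (2 * Real.cos (Real.pi * j.val / (2 * m + 3)) ^ 2 ) * h1

theorem tau_sn (m : ℕ) (j : ZMod (2 * m + 3)) : sn m j * (1 + tau m j ^ 2) = 2 * tau m j := by
  have h := cos_half_ne m j
  rw [sn_eq, tau, Real.tan_eq_sin_div_cos, Real.sin_two_mul]
  have h1 := Real.sin_sq_add_cos_sq (Real.pi * j.val / (2 * m + 3))
  field_simp
  linear_combination (Real.sin (Real.pi * j.val / (2 * m + 3))) * h1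

theorem tau_inj (m : ℕ) : Function.Injective (tau m) := by
  intro a b h
  have ha := tau_cs m a
  have hb := tau_cs m b
  have ha' := tau_sn m a
  have hb' := tau_sn m b
  rw [h] at ha ha'
  have hpos : (0 : ℝ) < 1 + tau m b ^ 2 := by positivity
  have h1 : cs m a = cs m b := by
    apply mul_right_cancel₀ hpos.ne'; rw [ha, hb]
  have h2 : sn m a = sn m b := by
    apply mul_right_cancel₀ hpos.ne'; rw [ha', hb']
  have h3 : (ZMod.stdAddChar a : ℂ) = ZMod.stdAddChar b := Complex.ext h1 h2
  exact ZMod.injective_stdAddChar h3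

/-- trigonometric polynomials as polynomials in `tan` -/
theorem trig_poly (m : ℕ) : ∀ k : ℕ, ∃ C S : ℝ[X], C.natDegree ≤ 2 * k ∧ S.natDegree ≤ 2 * k ∧
    (∀ j : ZMod (2 * m + 3), C.eval (tau m j) = (1 + tau m j ^ 2) ^ k * cs m (j * (k : ZMod (2 * m + 3)))) ∧
    (∀ j : ZMod (2 * m + 3), S.eval (tau m j) = (1 + tau m j ^ 2) ^ k * sn m (j * (k : ZMod (2 * m + 3)))) := by
  intro k
  induction k with
  | zero => exact ⟨1, 0, by simp, by simp, fun j => by simp [cs_zero], fun j => by simp [sn_zero]⟩
  | succ k ih =>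
    obtain ⟨C, S, hC, hS, h1, h2⟩ := ih
    have hd1 : (1 - X ^ 2 : ℝ[X]).natDegree ≤ 2 := by
      refine (natDegree_sub_le _ _).trans ?_
      rw [natDegree_X_pow]; simp
    have hd2 : (2 * X : ℝ[X]).natDegree ≤ 2 := by
      refine natDegree_mul_le.trans ?_
      rw [natDegree_X]
      have : (2 : ℝ[X]).natDegree = 0 := natDegree_ofNat 2
      omega
    refine ⟨(1 - X ^ 2) * C - (2 * X) * S, (1 - X ^ 2) * S + (2 * X) * C, ?_, ?_, ?_, ?_⟩
    · refine (natDegree_sub_le _ _).trans (max_le ?_ ?_)
      · refine natDegree_mul_le.trans ?_; omega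
      · refine natDegree_mul_le.trans ?_; omega
    · refine (natDegree_add_le _ _).trans (max_le ?_ ?_)
      · refine natDegree_mul_le.trans ?_; omega
      · refine natDegree_mul_le.trans ?_; omega
    · intro j
      have e : j * ((k + 1 : ℕ) : ZMod (2 * m + 3)) = j * (k : ZMod (2 * m + 3)) + j := by
        push_cast; ring
      rw [e, cs_add]
      simp only [eval_sub, eval_mul, eval_one, eval_pow, eval_X, eval_ofNat]
      rw [h1, h2]
      have t1 := tau_cs m j
      have t2 := tau_sn m j
      rw [pow_succ]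
      linear_combination (-(1 + tau m j ^ 2) ^ k * cs m (j * k)) * t1 +
        ((1 + tau m j ^ 2) ^ k * sn m (j * k)) * t2
    · intro j
      have e : j * ((k + 1 : ℕ) : ZMod (2 * m + 3)) = j * (k : ZMod (2 * m + 3)) + j := by
        push_cast; ring
      rw [e, sn_add]
      simp only [eval_add, eval_mul, eval_one, eval_pow, eval_X, eval_ofNat, eval_sub]
      rw [h1, h2]
      have t1 := tau_cs m j
      have t2 := tau_sn m j
      rw [pow_succ]
      linear_combination (-(1 + tau m j ^ 2) ^ k * sn m (j * k)) * t1 -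
        ((1 + tau m j ^ 2) ^ k * cs m (j * k)) * t2

/-- trigonometric polynomials of degree at most `M` on the nodes -/
def TM (m M : ℕ) : Submodule ℝ (ZMod (2 * m + 3) → ℝ) :=
  Submodule.span ℝ {f | ∃ r : ℕ, r ≤ M ∧ ((∀ j, f j = cs m (j * (r : ZMod (2 * m + 3)))) ∨
    (∀ j, f j = sn m (j * (r : ZMod (2 * m + 3)))))}

theorem cs_mem (m M r : ℕ) (h : r ≤ M) :
    (fun j : ZMod (2 * m + 3) => cs m (j * (r : ZMod (2 * m + 3)))) ∈ TM m M :=
  Submodule.subset_span ⟨r, h, Or.inl fun _ => rfl⟩

theorem sn_mem (m M r : ℕ) (h : r ≤ M) :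
    (fun j : ZMod (2 * m + 3) => sn m (j * (r : ZMod (2 * m + 3)))) ∈ TM m M :=
  Submodule.subset_span ⟨r, h, Or.inr fun _ => rfl⟩

theorem TM_mono (m M : ℕ) : TM m M ≤ TM m (M + 1) := by
  refine Submodule.span_mono ?_
  rintro f ⟨r, hr, h⟩
  exact ⟨r, by omega, h⟩

theorem TM_mul_cs (m M : ℕ) (f : ZMod (2 * m + 3) → ℝ) (hf : f ∈ TM m M) :
    (fun j => cs m j * f j) ∈ TM m (M + 1) ∧ (fun j => sn m j * f j) ∈ TM m (M + 1) := by
  induction hf using Submodule.span_induction with
  | mem f hf =>
    obtain ⟨r, hr, h⟩ := hf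
    rcases Nat.eq_zero_or_pos r with h0 | h0
    · subst h0
      rcases h with h | h
      · constructor
        · have := cs_mem m (M + 1) 1 (by omega)
          convert! this using 1
          funext j
          rw [h]; simp [cs_zero]
        · have := sn_mem m (M + 1) 1 (by omega)
          convert! this using 1
          funext j
          rw [h]; simp [cs_zero]
      · constructor
        · convert! Submodule.zero_mem _ using 1
          funext j
          rw [h]; simp [sn_zero]
        · convert! Submodule.zero_mem _ using 1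
          funext j
          rw [h]; simp [sn_zero]
    · obtain ⟨r, rfl⟩ : ∃ r', r = r' + 1 := ⟨r - 1, by omega⟩
      have c1 := cs_mem m (M + 1) (r + 2) (by omega)
      have c2 := cs_mem m (M + 1) r (by omega)
      have s1 := sn_mem m (M + 1) (r + 2) (by omega)
      have s2 := sn_mem m (M + 1) r (by omega)
      have e1 : ∀ j : ZMod (2 * m + 3), j * ((r + 2 : ℕ) : ZMod (2 * m + 3)) =
          j * ((r + 1 : ℕ) : ZMod (2 * m + 3)) + j := by intro j; push_cast; ring
      have e2 : ∀ j : ZMod (2 * m + 3), j * ((r : ℕ) : ZMod (2 * m + 3)) =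
          j * ((r + 1 : ℕ) : ZMod (2 * m + 3)) - j := by intro j; push_cast; ring
      rcases h with h | h
      · constructor
        · have := Submodule.smul_mem _ (1 / 2 : ℝ) (Submodule.add_mem _ c1 c2)
          convert! this using 1
          funext j
          simp only [Pi.smul_apply, Pi.add_apply, smul_eq_mul]
          rw [h, e1, e2, cs_add, cs_sub]; ring
        · have := Submodule.smul_mem _ (1 / 2 : ℝ) (Submodule.sub_mem _ s1 s2)
          convert! this using 1
          funext j
          simp only [Pi.smul_apply, Pi.sub_apply, smul_eq_mul]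
          rw [h, e1, e2, sn_add, sn_sub]; ring
      · constructor
        · have := Submodule.smul_mem _ (1 / 2 : ℝ) (Submodule.add_mem _ s1 s2)
          convert! this using 1
          funext j
          simp only [Pi.smul_apply, Pi.add_apply, smul_eq_mul]
          rw [h, e1, e2, sn_add, sn_sub]; ring
        · have := Submodule.smul_mem _ (1 / 2 : ℝ) (Submodule.sub_mem _ c2 c1)
          convert! this using 1
          funext j
          simp only [Pi.smul_apply, Pi.sub_apply, smul_eq_mul]
          rw [h, e1, e2, cs_add, cs_sub]; ring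
  | zero =>
    constructor
    · convert! Submodule.zero_mem _ using 1
      funext j; simp
    · convert! Submodule.zero_mem _ using 1
      funext j; simp
  | add f g _ _ ihf ihg =>
    constructor
    · have := Submodule.add_mem _ ihf.1 ihg.1
      convert! this using 1
      funext j
      simp only [Pi.add_apply]; ring
    · have := Submodule.add_mem _ ihf.2 ihg.2
      convert! this using 1
      funext j
      simp only [Pi.add_apply]; ring
  | smul a f _ ih =>
    constructor
    · have := Submodule.smul_mem _ a ih.1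
      convert! this using 1
      funext j
      simp only [Pi.smul_apply, smul_eq_mul]; ring
    · have := Submodule.smul_mem _ a ih.2
      convert! this using 1
      funext j
      simp only [Pi.smul_apply, smul_eq_mul]; ring

theorem mono_mem (m : ℕ) : ∀ M i : ℕ, i ≤ 2 * M →
    (fun j => tau m j ^ i / (1 + tau m j ^ 2) ^ M) ∈ TM m M := by
  intro M
  induction M with
  | zero =>
    intro i hi
    have h0 : i = 0 := by omega
    subst h0
    have := cs_mem m 0 0 le_rfl
    convert! this using 1
    funext j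
    simp [cs_zero]
  | succ M ih =>
    intro i hi
    have hpos : ∀ j : ZMod (2 * m + 3), (1 + tau m j ^ 2) ≠ 0 := fun j => by positivity
    have hc : ∀ j : ZMod (2 * m + 3), cs m j = (1 - tau m j ^ 2) / (1 + tau m j ^ 2) := fun j => by
      rw [eq_div_iff (hpos j)]; exact tau_cs m j
    have hs : ∀ j : ZMod (2 * m + 3), sn m j = (2 * tau m j) / (1 + tau m j ^ 2) := fun j => by
      rw [eq_div_iff (hpos j)]; exact tau_sn m j
    rcases lt_or_ge i 2 with h | h
    · rcases Nat.eq_zero_or_pos i with h0 | h0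
      · subst h0
        have h1 := ih 0 (by omega)
        have := Submodule.smul_mem _ (1 / 2 : ℝ)
          (Submodule.add_mem _ (TM_mono m M h1) (TM_mul_cs m M _ h1).1)
        convert! this using 1
        funext j
        simp only [Pi.smul_apply, Pi.add_apply, smul_eq_mul]
        rw [hc]
        have := hpos j
        field_simp
        ring
      · have h1' : i = 1 := by omega
        subst h1'
        have h1 := ih 0 (by omega)
        have := Submodule.smul_mem _ (1 / 2 : ℝ) (TM_mul_cs m M _ h1).2
        convert! this using 1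
        funext j
        simp only [Pi.smul_apply, smul_eq_mul]
        rw [hs]
        have := hpos j
        field_simp
        ring
    · obtain ⟨i, rfl⟩ : ∃ i', i = i' + 2 := ⟨i - 2, by omega⟩
      have h1 := ih i (by omega)
      have := Submodule.smul_mem _ (1 / 2 : ℝ)
          (Submodule.sub_mem _ (TM_mono m M h1) (TM_mul_cs m M _ h1).1)
      convert! this using 1
      funext j
      simp only [Pi.smul_apply, Pi.sub_apply, smul_eq_mul]
      rw [hc]
      have := hpos j
      field_simp
      ring

end Pool.Agent.T2H78.Cyc
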