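import Pool.Agent.T2H78.CycSlide

/-!
Volume of the polytope in terms of facet determinants.
-/

namespace Pool.Agent.T2H78.Cyc
open Set MeasureTheory

variable {E : Type} [NormedAddCommGroup E] [InnerProductSpace ℝ E] [FiniteDimensional ℝ E]

/-- sorted tuples -/
def Sorted (m : ℕ) (i : Fin m → ZMod (2 * m + 3)) : Prop := StrictMono fun k => (i k).val

open Classical in
theorem sum_sorted (m : ℕ) (g : (Fin m → ZMod (2 * m + 3)) → ℝ)
    (hperm : ∀ i (π : Equiv.Perm (Fin m)), g (i ∘ π) = g i)
    (h0 : ∀ i, ¬ Function.Injective i → g i = 0) :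
    ∑ i, g i = (m.factorial : ℝ) * ∑ i ∈ Finset.univ.filter (fun i => Sorted m i), g i := by
  rw [← Finset.sum_filter_add_sum_filter_not Finset.univ (fun i => Function.Injective i)]
  rw [Finset.sum_eq_zero (s := Finset.univ.filter fun i => ¬ Function.Injective i)
    (fun l hl => h0 l (Finset.mem_filter.1 hl).2), add_zero]
  have h1 : (m.factorial : ℝ) * ∑ i ∈ Finset.univ.filter (fun i => Sorted m i), g i =
      ∑ x ∈ (Finset.univ.filter (fun i => Sorted m i)) ×ˢ
        (Finset.univ : Finset (Equiv.Perm (Fin m))), g (x.1 ∘ x.2) := by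
    rw [Finset.sum_product, Finset.mul_sum]
    refine Finset.sum_congr rfl fun i _ => ?_
    simp only [hperm]
    rw [Finset.sum_const, Finset.card_univ, Fintype.card_perm, Fintype.card_fin, nsmul_eq_mul]
  rw [h1]
  symm
  refine Finset.sum_bij (fun x _ => x.1 ∘ x.2) ?_ ?_ ?_ ?_
  · rintro ⟨i, π⟩ hx
    have hs : Sorted m i := (Finset.mem_filter.1 (Finset.mem_product.1 hx).1).2
    have : Function.Injective i := fun a a' h => hs.injective (by simp [h])
    exact Finset.mem_filter.2 ⟨Finset.mem_univ _, this.comp π.injective⟩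
  · rintro ⟨i, π⟩ hx ⟨i', π'⟩ hx' h
    have hs : Sorted m i := (Finset.mem_filter.1 (Finset.mem_product.1 hx).1).2
    have hs' : Sorted m i' := (Finset.mem_filter.1 (Finset.mem_product.1 hx').1).2
    simp only at h
    have hr : range (fun k => (i k).val) = range (fun k => (i' k).val) := by
      have e1 : (fun k => (i k).val) = (fun k => ((i ∘ π) k).val) ∘ π.symm := by
        funext k; simp
      have e2 : (fun k => (i' k).val) = (fun k => ((i' ∘ π') k).val) ∘ π'.symm := by
        funext k; simp
      rw [e1, e2, h, EquivLike.range_comp, EquivLike.range_comp]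
    have h2 := (StrictMono.range_inj hs hs').1 hr
    have h3 : i = i' := by
      funext k
      exact ZMod.val_injective _ (congrFun h2 k)
    subst h3
    have : Function.Injective i := fun a a' h => hs.injective (by simp [h])
    have h4 : π = π' := by
      ext k
      rw [this (congrFun h k)]
    rw [h4]
  · intro i hi
    have hinj : Function.Injective i := (Finset.mem_filter.1 hi).2
    have hm := Tuple.monotone_sort (fun k => (i k).val)
    refine ⟨(i ∘ Tuple.sort (fun k => (i k).val), (Tuple.sort (fun k => (i k).val))⁻¹), ?_, ?_⟩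
    · refine Finset.mem_product.2 ⟨Finset.mem_filter.2 ⟨Finset.mem_univ _, ?_⟩, Finset.mem_univ _⟩
      refine hm.strictMono_of_injective ?_
      intro a a' h
      simp only [Function.comp_apply] at h
      exact (Tuple.sort (fun k => (i k).val)).injective (hinj (ZMod.val_injective _ h))
    · funext k
      simp
  · intro x _; rfl

theorem valid_inj (m : ℕ) (i : Fin m → ZMod (2 * m + 3)) (hi : Valid m i) :
    Function.Injective i := by
  intro a a' h
  have h3 : ((a, 0) : J m) = (a', 0) := hi (by simp [h])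
  exact (Prod.ext_iff.1 h3).1

theorem valid_perm (m : ℕ) (i : Fin m → ZMod (2 * m + 3)) (hi : Valid m i)
    (π : Equiv.Perm (Fin m)) : Valid m (i ∘ π) := by
  intro d d' h
  have h1 : ((π d.1, d.2) : J m) = (π d'.1, d'.2) := hi h
  obtain ⟨h2, h3⟩ := Prod.ext_iff.1 h1
  exact Prod.ext (π.injective h2) h3

theorem Fset_perm (m : ℕ) (i : Fin m → ZMod (2 * m + 3)) (π : Equiv.Perm (Fin m)) :
    Fset m (i ∘ π) = Fset m i := by
  ext j
  rw [mem_Fset, mem_Fset]
  constructor
  · rintro ⟨k, hk⟩
    exact ⟨π k, hk⟩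
  · rintro ⟨k, hk⟩
    exact ⟨π.symm k, by simpa using hk⟩

theorem exists_sorted (m : ℕ) (i : Fin m → ZMod (2 * m + 3)) (hi : Valid m i) :
    ∃ i', Sorted m i' ∧ Valid m i' ∧ Fset m i' = Fset m i := by
  have hinj := valid_inj m i hi
  have hm := Tuple.monotone_sort (fun k => (i k).val)
  refine ⟨i ∘ Tuple.sort (fun k => (i k).val), ?_, valid_perm m i hi _, Fset_perm m i _⟩
  refine hm.strictMono_of_injective ?_
  intro a a' h
  simp only [Function.comp_apply] at h
  exact (Tuple.sort (fun k => (i k).val)).injective (hinj (ZMod.val_injective _ h))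

/-- the covered set determines a sorted valid tuple -/
theorem Fset_inj (m : ℕ) (i i' : Fin m → ZMod (2 * m + 3)) (hi : Valid m i) (hi' : Valid m i')
    (hs : Sorted m i) (hs' : Sorted m i') (h : Fset m i = Fset m i') : i = i' := by
  classical
  -- indicator of the set of starting points
  let f : (Fin m → ZMod (2 * m + 3)) → ZMod (2 * m + 3) → ℤ :=
    fun i x => if x ∈ range i then 1 else 0
  have key : ∀ i, Valid m i → ∀ x, f i x + f i (x - 1) = if x ∈ Fset m i then 1 else 0 := by
    intro i hi x
    have h1 : x ∈ Fset m i ↔ x ∈ range i ∨ x - 1 ∈ range i := by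
      rw [mem_Fset]
      constructor
      · rintro ⟨k, hk | hk⟩
        · exact Or.inl ⟨k, hk.symm⟩
        · exact Or.inr ⟨k, by rw [hk]; ring⟩
      · rintro (⟨k, hk⟩ | ⟨k, hk⟩)
        · exact ⟨k, Or.inl hk.symm⟩
        · exact ⟨k, Or.inr (by rw [hk]; ring)⟩
    have h2 : ¬ (x ∈ range i ∧ x - 1 ∈ range i) := by
      rintro ⟨⟨k, hk⟩, ⟨k', hk'⟩⟩
      have h3 : ((k, 0) : J m) = (k', 1) := hi (by simp [hk, hk'])
      simp at h3
    simp only [f]
    by_cases ha : x ∈ range i <;> by_cases hb : x - 1 ∈ range i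
    · exact absurd ⟨ha, hb⟩ h2
    · rw [if_pos ha, if_neg hb, if_pos (h1.2 (Or.inl ha))]; norm_num
    · rw [if_neg ha, if_pos hb, if_pos (h1.2 (Or.inr hb))]; norm_num
    · rw [if_neg ha, if_neg hb, if_neg (fun hc => (h1.1 hc).elim ha hb)]; norm_num
  have h1 : ∀ x, f i x - f i' x = - (f i (x - 1) - f i' (x - 1)) := by
    intro x
    have e1 := key i hi x
    have e2 := key i' hi' x
    rw [h] at e1
    linarith
  have h2 : ∀ r : ℕ, ∀ x, f i x - f i' x = (-1) ^ r * (f i (x - r) - f i' (x - r)) := by
    intro r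
    induction r with
    | zero => intro x; simp
    | succ r ih =>
      intro x
      rw [ih x, h1 (x - r), pow_succ]
      push_cast
      rw [show x - (r : ZMod (2 * m + 3)) - 1 = x - (r + 1) by ring]
      ring
  have h3 : ∀ x, f i x = f i' x := by
    intro x
    have := h2 (2 * m + 3) x
    rw [ZMod.natCast_self, sub_zero, Odd.neg_one_pow ⟨m + 1, by ring⟩] at this
    linarith
  have h4 : range i = range i' := by
    ext x
    have := h3 x
    simp only [f] at this
    by_cases ha : x ∈ range i <;> by_cases hb : x ∈ range i'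
    · exact ⟨fun _ => hb, fun _ => ha⟩
    · rw [if_pos ha, if_neg hb] at this; norm_num at this
    · rw [if_neg ha, if_pos hb] at this; norm_num at this
    · exact ⟨fun h => absurd h ha, fun h => absurd h hb⟩
  have h5 : range (fun k => (i k).val) = range (fun k => (i' k).val) := by
    rw [show (fun k => (i k).val) = ZMod.val ∘ i from rfl,
      show (fun k => (i' k).val) = ZMod.val ∘ i' from rfl, range_comp, range_comp, h4]
  have h6 := (StrictMono.range_inj hs hs').1 h5
  funext k
  exact ZMod.val_injective _ (congrFun h6 k)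

section vol
variable [MeasurableSpace E] [BorelSpace E] (μ : Measure E) [μ.IsAddHaarMeasure]

/-- the simplex over a facet -/
def Sx (m : ℕ) (p : ZMod (2 * m + 3) → E) (c : E) (i : Fin m → ZMod (2 * m + 3)) : Set E :=
  convexHull ℝ (insert c (p '' Fset m i))

/-- the reference simplex -/
def S0 (m : ℕ) (b : Module.Basis (J m) ℝ E) : Set E := convexHull ℝ (insert 0 (range b))

theorem Sx_volume (m : ℕ) (b : Module.Basis (J m) ℝ E) (p : ZMod (2 * m + 3) → E) (c : E)
    (i : Fin m → ZMod (2 * m + 3)) :
    μ (Sx m p c i) = ENNReal.ofReal |b.det (vv m p c i)| * μ (S0 m b) := by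
  set T : E →ₗ[ℝ] E := b.constr ℝ (vv m p c i) with hT
  have hTb : ∀ d, T (b d) = vv m p c i d := fun d => b.constr_basis ℝ _ d
  have hdet : LinearMap.det T = b.det (vv m p c i) := by
    have h1 := b.det_comp T b
    rw [b.det_self, mul_one] at h1
    rw [← h1]
    congr 1
    funext d
    exact hTb d
  have himg : Sx m p c i = (fun x => c + x) '' (T '' (S0 m b)) := by
    rw [Sx, S0, T.image_convexHull]
    have h2 : (fun x => c + x) '' (convexHull ℝ (T '' insert 0 (range b))) =
        convexHull ℝ ((fun x => c + x) '' (T '' insert 0 (range b))) := by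
      have := (AffineMap.image_convexHull (𝕜 := ℝ)
        (AffineEquiv.constVAdd ℝ E c).toAffineMap (T '' insert 0 (range b)))
      exact this
    rw [h2]
    congr 1
    ext y
    simp only [mem_insert_iff, mem_image, mem_range]
    constructor
    · rintro (rfl | ⟨j, ⟨d, rfl⟩, rfl⟩)
      · exact ⟨0, ⟨0, Or.inl rfl, by simp⟩, by simp⟩
      · exact ⟨vv m p c i d, ⟨b d, Or.inr ⟨d, rfl⟩, hTb d⟩, by simp [vv]⟩
    · rintro ⟨z, ⟨w, rfl | ⟨d, rfl⟩, rfl⟩, rfl⟩
      · left; simp
      · right
        rw [hTb]
        exact ⟨i d.1 + ((d.2 : ℕ) : ZMod (2 * m + 3)), ⟨d, rfl⟩, by simp [vv]⟩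
  rw [himg, image_add_left, measure_preimage_add, Measure.addHaar_image_linearMap, hdet]

theorem Sx_measurable (m : ℕ) (p : ZMod (2 * m + 3) → E) (c : E)
    (i : Fin m → ZMod (2 * m + 3)) : MeasurableSet (Sx m p c i) := by
  have h1 : (insert c (p '' Fset m i)).Finite := ((Set.toFinite _).image _).insert _
  exact (h1.isCompact_convexHull (𝕜 := ℝ)).measurableSet

open Classical in
/-- the tuple sum in terms of sorted valid tuples -/
theorem sum_valid (m : ℕ) (b : Module.Basis (J m) ℝ E) (p : ZMod (2 * m + 3) → E) (c : E) :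
    ∑ i, |b.det (vv m p c i)| = (m.factorial : ℝ) *
      ∑ i ∈ Finset.univ.filter (fun i => Sorted m i ∧ Valid m i), |b.det (vv m p c i)| := by
  rw [sum_sorted m (fun i => |b.det (vv m p c i)|)]
  · congr 1
    rw [← Finset.sum_subset (s₁ := Finset.univ.filter (fun i => Sorted m i ∧ Valid m i))]
    · intro i hi
      exact Finset.mem_filter.2 ⟨Finset.mem_univ _, (Finset.mem_filter.1 hi).2.1⟩
    · intro i hi hi'
      have h1 : ¬ Valid m i := fun h => hi' (Finset.mem_filter.2
        ⟨Finset.mem_univ _, (Finset.mem_filter.1 hi).2, h⟩)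
      rw [not_valid_det m b p c i h1, abs_zero]
  · intro i π
    simp only [det_perm]
  · intro i hi
    have h1 : ¬ Valid m i := fun h => hi (valid_inj m i h)
    simp only [not_valid_det m b p c i h1, abs_zero]

open Classical in
/-- upper bound from a covering by simplices -/
theorem vol_le (m : ℕ) (b : Module.Basis (J m) ℝ E) (p : ZMod (2 * m + 3) → E) (c : E)
    (hS : Supp m p c) (P : Set E) (hcov : ∀ x ∈ P, ∃ i, Valid m i ∧ x ∈ Sx m p c i) :
    μ P ≤ ENNReal.ofReal (|∑ i, b.det (vv m p c i)| / m.factorial) * μ (S0 m b) := by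
  have hf : (0 : ℝ) < m.factorial := by exact_mod_cast m.factorial_pos
  have h1 : P ⊆ ⋃ i ∈ Finset.univ.filter (fun i => Sorted m i ∧ Valid m i), Sx m p c i := by
    intro x hx
    obtain ⟨i, hi, hxi⟩ := hcov x hx
    obtain ⟨i', hs, hv, hF⟩ := exists_sorted m i hi
    simp only [mem_iUnion]
    refine ⟨i', Finset.mem_filter.2 ⟨Finset.mem_univ _, hs, hv⟩, ?_⟩
    rw [Sx, hF]; exact hxi
  refine (measure_mono h1).trans ((measure_biUnion_finset_le _ _).trans ?_)
  rw [abs_sum_eq m b p c hS, sum_valid, mul_div_cancel_left₀ _ hf.ne',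
    ENNReal.ofReal_sum_of_nonneg (fun i _ => abs_nonneg _), Finset.sum_mul]
  exact Finset.sum_le_sum fun i _ => (Sx_volume μ m b p c i).le

open Classical in
/-- lower bound from packing of simplices -/
theorem le_vol (m : ℕ) (b : Module.Basis (J m) ℝ E) (p : ZMod (2 * m + 3) → E) (c : E)
    (hS : Supp m p c) (P : Set E) (hP : Convex ℝ P) (hc : c ∈ P) (hp : ∀ j, p j ∈ P) :
    ENNReal.ofReal (|∑ i, b.det (vv m p c i)| / m.factorial) * μ (S0 m b) ≤ μ P := by
  have hf : (0 : ℝ) < m.factorial := by exact_mod_cast m.factorial_pos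
  rw [abs_sum_eq m b p c hS, sum_valid, mul_div_cancel_left₀ _ hf.ne',
    ENNReal.ofReal_sum_of_nonneg (fun i _ => abs_nonneg _), Finset.sum_mul]
  rw [← Finset.sum_congr rfl (fun i _ => Sx_volume μ m b p c i)]
  rw [← measure_biUnion_finset₀]
  · refine measure_mono ?_
    intro x hx
    simp only [mem_iUnion] at hx
    obtain ⟨i, _, hx⟩ := hx
    refine convexHull_min ?_ hP hx
    rintro y (rfl | ⟨j, _, rfl⟩)
    · exact hc
    · exact hp j
  · intro i hi i' hi' hne
    obtain ⟨hs, hv⟩ := (Finset.mem_filter.1 (Finset.mem_coe.1 hi)).2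
    obtain ⟨hs', hv'⟩ := (Finset.mem_filter.1 (Finset.mem_coe.1 hi')).2
    have hF : Fset m i ≠ Fset m i' := fun h => hne (Fset_inj m i i' hv hv' hs hs' h)
    obtain ⟨L, hL1, hL2⟩ := hS i hv
    obtain ⟨L', hL1', hL2'⟩ := hS i' hv'
    -- on `Sx i` we have `L' ≤ L`
    have hsub : ∀ (i i' : Fin m → ZMod (2 * m + 3)) (L L' : E →ₗ[ℝ] ℝ),
        (∀ j ∈ Fset m i, L (p j - c) = 1) → (∀ j ∈ Fset m i', L' (p j - c) = 1) →
        (∀ j, j ∉ Fset m i' → L' (p j - c) < 1) →
        ∀ x ∈ Sx m p c i, L' (x - c) ≤ L (x - c) := by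
      intro i i' L L' h1 h1' h2' x hx
      have hconv : Convex ℝ {x : E | L' (x - c) ≤ L (x - c)} := by
        intro x hx y hy s t hs ht hst
        simp only [mem_ofPred_eq] at *
        have e : s • x + t • y - c = s • (x - c) + t • (y - c) := by
          rw [smul_sub, smul_sub]
          have : c = s • c + t • c := by rw [← add_smul, hst, one_smul]
          nth_rewrite 1 [this]
          abel
        rw [e, map_add, map_add, map_smul, map_smul, map_smul, map_smul]
        simp only [smul_eq_mul]
        nlinarith [mul_le_mul_of_nonneg_left hx hs, mul_le_mul_of_nonneg_left hy ht]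
      refine convexHull_min ?_ hconv hx
      rintro y (rfl | ⟨j, hj, rfl⟩)
      · simp
      · simp only [mem_ofPred_eq]
        rw [h1 j hj]
        by_cases hj' : j ∈ Fset m i'
        · rw [h1' j hj']
        · exact (h2' j hj').le
    have hnull : μ {x : E | (L - L') (x - c) = 0} = 0 := by
      have h3 : {x : E | (L - L') (x - c) = 0} =
          (fun x => x + (-c)) ⁻¹' ((LinearMap.ker (L - L') : Submodule ℝ E) : Set E) := by
        ext x
        simp [sub_eq_add_neg]
      rw [h3, measure_preimage_add_right]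
      refine Measure.addHaar_submodule μ _ ?_
      intro htop
      have hz : ∀ y, L y = L' y := by
        intro y
        have : y ∈ LinearMap.ker (L - L') := by rw [htop]; trivial
        rw [LinearMap.mem_ker, LinearMap.sub_apply, sub_eq_zero] at this
        exact this
      apply hF
      ext j
      constructor
      · intro hj
        by_contra hj'
        have h4 := hL2' j hj'
        rw [← hz, hL1 j hj] at h4
        exact lt_irrefl _ h4
      · intro hj
        by_contra hj'
        have h4 := hL2 j hj'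
        rw [hz, hL1' j hj] at h4
        exact lt_irrefl _ h4
    refine measure_mono_null ?_ hnull
    rintro x ⟨hx, hx'⟩
    have h5 := hsub i i' L L' hL1 hL1' hL2' x hx
    have h6 := hsub i' i L' L hL1' hL1 hL2 x hx'
    simp only [mem_ofPred_eq, LinearMap.sub_apply]
    linarith
  · intro i _
    exact (Sx_measurable m p c i).nullMeasurableSet

end vol

end Pool.Agent.T2H78.Cyc
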