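import Pool.Agent.T2H78.HypGel

/-!
Approximate eigenvectors of the circle averaging operators.
-/

namespace Pool.Agent.T2H78.Hyp
open Real MeasureTheory Set Filter Topology intervalIntegral
open scoped ENNReal InnerProductSpace ComplexConjugate

/-- the box -/
def Bx (n L : ℝ) : Set (ℝ × ℝ) := Icc 0 n ×ˢ Icc 0 L

theorem Bx_meas (n L : ℝ) : MeasurableSet (Bx n L) := measurableSet_Icc.prod measurableSet_Icc

theorem vol_Icc_prod {a b c d : ℝ} (h1 : a ≤ b) (h2 : c ≤ d) :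
    (volume : Measure (ℝ × ℝ)).real (Icc a b ×ˢ Icc c d) = (b - a) * (d - c) := by
  rw [Measure.volume_eq_prod, measureReal_prod_prod]
  simp [Measure.real, h1, h2]

theorem Bx_vol {n L : ℝ} (hn : 0 ≤ n) (hL : 0 ≤ L) :
    (volume : Measure (ℝ × ℝ)).real (Bx n L) = n * L := by
  unfold Bx
  rw [vol_Icc_prod hn hL]; ring

theorem Bx_fin (n L : ℝ) : (volume : Measure (ℝ × ℝ)) (Bx n L) < ⊤ := by
  have : IsCompact (Bx n L) := isCompact_Icc.prod isCompact_Icc
  exact this.measure_lt_top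

/-- the test function -/
noncomputable def gf (l n L : ℝ) : ℝ × ℝ → ℂ :=
  (Bx n L).indicator (fun z => ci (l * z.1))

theorem ci_comp_cont (l : ℝ) : Continuous (fun z : ℝ × ℝ => ci (l * z.1)) :=
  ci_cont.comp (by fun_prop)

theorem gf_memLp (l n L : ℝ) : MemLp (gf l n L) 2 (volume : Measure (ℝ × ℝ)) := by
  unfold gf
  rw [memLp_indicator_iff_restrict (Bx_meas n L)]
  have : IsFiniteMeasure ((volume : Measure (ℝ × ℝ)).restrict (Bx n L)) := ⟨by
    rw [Measure.restrict_apply_univ]; exact Bx_fin n L⟩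
  refine MemLp.of_bound (ci_comp_cont l).aestronglyMeasurable 1 ?_
  exact Eventually.of_forall fun z => (norm_ci _).le

/-- the test vector -/
noncomputable def GG (l n L : ℝ) : HH := (gf_memLp l n L).toLp (gf l n L)

theorem ci_neg_mul (x y : ℝ) : ci x * conj (ci y) = ci (x - y) := by
  unfold ci
  rw [← Complex.exp_conj, ← Complex.exp_add]
  congr 1
  simp only [map_mul, Complex.conj_ofReal, Complex.conj_I]
  push_cast
  ring

theorem inner_V_GG (l n L : ℝ) (p : ℝ × ℝ) :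
    inner ℂ (V p (GG l n L)) (GG l n L)
      = ((volume : Measure (ℝ × ℝ)).real (tau p ⁻¹' (Bx n L) ∩ Bx n L) : ℂ) * ci (-(l * p.2)) := by
  rw [L2.inner_def]
  have h1 := V_coe p (GG l n L)
  have h2 : (GG l n L : ℝ × ℝ → ℂ) =ᵐ[volume] gf l n L := MemLp.coeFn_toLp _
  have h3 := (tau_mp p).quasiMeasurePreserving.ae_eq_comp h2
  have h4 : ∀ᵐ z, inner ℂ (V p (GG l n L) z) (GG l n L z)
      = (tau p ⁻¹' (Bx n L) ∩ Bx n L).indicator (fun _ => ci (-(l * p.2))) z := by
    filter_upwards [h1, h2, h3] with z e1 e2 e3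
    rw [e1, e2, e3]
    simp only [Function.comp]
    unfold gf
    by_cases hz1 : tau p z ∈ Bx n L
    · by_cases hz2 : z ∈ Bx n L
      · have hz3 : z ∈ tau p ⁻¹' (Bx n L) ∩ Bx n L := ⟨hz1, hz2⟩
        rw [indicator_of_mem hz1, indicator_of_mem hz2, indicator_of_mem hz3]
        simp only [RCLike.inner_apply]
        rw [ci_neg_mul]
        congr 1
        simp only [tau_apply]; ring
      · have hz3 : z ∉ tau p ⁻¹' (Bx n L) ∩ Bx n L := fun h => hz2 h.2
        rw [indicator_of_notMem hz2, indicator_of_notMem hz3, inner_zero_right]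
    · have hz3 : z ∉ tau p ⁻¹' (Bx n L) ∩ Bx n L := fun h => hz1 h.1
      rw [indicator_of_notMem hz1, indicator_of_notMem hz3, inner_zero_left]
  rw [integral_congr_ae h4, integral_indicator_const _
    (((tau p).continuous.measurable (Bx_meas n L)).inter (Bx_meas n L)), Complex.real_smul]

theorem tau_zero (z : ℝ × ℝ) : tau (0, 0) z = z := by simp [tau_apply]

theorem norm_GG {n L : ℝ} (l : ℝ) (hn : 0 ≤ n) (hL : 0 ≤ L) : ‖GG l n L‖ ^ 2 = n * L := by
  have h1 := inner_V_GG l n L (0, 0)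
  rw [V_zero, inner_self_eq_norm_sq_to_K] at h1
  have h2 : tau (0, 0) ⁻¹' (Bx n L) = Bx n L := by
    ext z; simp only [mem_preimage, tau_zero]
  rw [h2, inter_self, Bx_vol hn hL] at h1
  simp only [mul_zero, neg_zero, ci_zero, mul_one] at h1
  have h3 : (((‖GG l n L‖ ^ 2 : ℝ)) : ℂ) = ((n * L : ℝ) : ℂ) := by
    rw [← h1]; push_cast; rfl
  exact_mod_cast h3

/-- measure of the overlap -/
theorem overlap {n L : ℝ} {p : ℝ × ℝ} {C : ℝ} (hC1 : |p.1| ≤ C) (hC2 : |p.2| ≤ C) (hn : C ≤ n)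
    (hL : 2 * (exp n * C) ≤ L) :
    |(volume : Measure (ℝ × ℝ)).real (tau p ⁻¹' (Bx n L) ∩ Bx n L) - n * L|
      ≤ C * L + 2 * n * (exp n * C) := by
  have hC0 : 0 ≤ C := (abs_nonneg _).trans hC1
  have hn0 : 0 ≤ n := hC0.trans hn
  have heC : 0 ≤ exp n * C := by positivity
  have hL0 : 0 ≤ L := by linarith
  have hle : (volume : Measure (ℝ × ℝ)).real (tau p ⁻¹' (Bx n L) ∩ Bx n L) ≤ n * L := by
    rw [← Bx_vol hn0 hL0]
    exact measureReal_mono inter_subset_right (Bx_fin n L).ne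
  have hsub : (Icc (max 0 (-p.2)) (min n (n - p.2))) ×ˢ (Icc (exp n * C) (L - exp n * C))
      ⊆ tau p ⁻¹' (Bx n L) ∩ Bx n L := by
    rintro ⟨s, x⟩ ⟨hs, hx⟩
    simp only [mem_Icc, max_le_iff, le_min_iff] at hs hx
    have hs1 : exp s ≤ exp n := Real.exp_le_exp.2 hs.2.1
    have hb : |exp s * p.1| ≤ exp n * C := by
      rw [abs_mul, abs_of_pos (exp_pos s)]
      exact mul_le_mul hs1 hC1 (abs_nonneg _) (exp_pos n).le
    have hb' := abs_le.1 hb
    refine ⟨?_, ?_⟩
    · simp only [mem_preimage, tau_apply]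
      unfold Bx
      refine ⟨⟨?_, ?_⟩, ⟨?_, ?_⟩⟩ <;> simp only <;> linarith
    · unfold Bx
      refine ⟨⟨?_, ?_⟩, ⟨?_, ?_⟩⟩ <;> simp only <;> linarith
  have h2 : max 0 (-p.2) ≤ |p.2| := max_le (abs_nonneg _) (neg_le_abs _)
  have h3 : n - |p.2| ≤ min n (n - p.2) :=
    le_min (by linarith [abs_nonneg p.2]) (by linarith [le_abs_self p.2])
  have hw : n - C ≤ min n (n - p.2) - max 0 (-p.2) := by
    rcases le_total 0 p.2 with h | h
    · rw [max_eq_left (by linarith), min_eq_right (by linarith)]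
      rw [abs_of_nonneg h] at hC2; linarith
    · rw [max_eq_right (by linarith), min_eq_left (by linarith)]
      rw [abs_of_nonpos h] at hC2; linarith
  have hge : (n - C) * (L - 2 * (exp n * C))
      ≤ (volume : Measure (ℝ × ℝ)).real (tau p ⁻¹' (Bx n L) ∩ Bx n L) := by
    have hfin : (volume : Measure (ℝ × ℝ)) (tau p ⁻¹' (Bx n L) ∩ Bx n L) ≠ ⊤ :=
      (lt_of_le_of_lt (measure_mono inter_subset_right) (Bx_fin n L)).ne
    have h5 := measureReal_mono hsub hfin
    rw [vol_Icc_prod (by linarith) (by linarith)] at h5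
    refine le_trans ?_ h5
    refine mul_le_mul hw (by linarith) (by linarith) (by linarith)
  rw [abs_le]
  constructor
  · nlinarith [mul_nonneg hC0 heC]
  · have : 0 ≤ C * L + 2 * n * (exp n * C) := by positivity
    linarith

theorem inner_A_eq (r : ℝ) (F : HH) :
    (inner ℂ (A r F) F).re
      = (2 * π)⁻¹ * ∫ θ in (0 : ℝ)..2 * π, exp ((Pt r θ).2 / 2) * (inner ℂ (V (Pt r θ) F) F).re := by
  let ψ : HH →L[ℝ] ℝ := Complex.reCLM.comp ((innerSL ℂ F).restrictScalars ℝ)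
  have hψ : ∀ x, ψ x = (inner ℂ x F).re := fun x => inner_re_symm (𝕜 := ℂ) F x
  have e := ψ.intervalIntegral_comp_comm (μ := volume)
    ((PsPt_cont' F r).intervalIntegrable 0 (2 * π))
  rw [← hψ, A_apply, map_smul, ← e, smul_eq_mul]
  congr 2
  ext1 θ
  unfold Ps
  rw [map_smul, hψ, smul_eq_mul]

theorem PtV_cont (r : ℝ) (F : HH) :
    Continuous (fun θ => exp ((Pt r θ).2 / 2) * (inner ℂ (V (Pt r θ) F) F).re) := by
  have h : Continuous (fun θ => (inner ℂ (Ps F (Pt r θ)) F).re) :=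
    Complex.continuous_re.comp (Continuous.inner (PsPt_cont' F r) continuous_const)
  refine h.congr fun θ => ?_
  unfold Ps
  rw [← inner_conj_symm, inner_smul_right_eq_smul, Complex.conj_re, Complex.smul_re, smul_eq_mul,
    ← inner_conj_symm F, Complex.conj_re]

theorem F0L_cont (l r : ℝ) : Continuous (fun θ => F0 l (Lf r θ)) := by
  have := cont_F0L.comp (f := fun θ : ℝ => (((l, r), θ) : (ℝ × ℝ) × ℝ)) (by fun_prop)
  exact this

theorem approx (r l : ℝ) : ∃ C : ℝ, 0 ≤ C ∧ ∀ n L : ℝ, C ≤ n → 2 * (exp n * C) ≤ L →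
    |(inner ℂ (A r (GG l n L)) (GG l n L)).re - sph l r * (n * L)|
      ≤ C * L + 2 * n * (exp n * C) := by
  have hP : Continuous (fun θ => Pt r θ) := by
    have := Pt_cont.comp (f := fun θ : ℝ => ((r, θ) : ℝ × ℝ)) (by fun_prop)
    exact this
  obtain ⟨C1, hC1⟩ := (isCompact_Icc (a := (0 : ℝ)) (b := 2 * π)).exists_bound_of_continuousOn
    hP.continuousOn
  have hpi := Real.pi_pos
  have hC0 : 0 ≤ C1 := (norm_nonneg _).trans (hC1 0 ⟨le_rfl, by positivity⟩)
  refine ⟨C1, hC0, fun n L hn hL => ?_⟩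
  set E := C1 * L + 2 * n * (exp n * C1) with hE
  rw [inner_A_eq]
  unfold sph
  have hFc : Continuous (fun θ => F0 l (Lf r θ) * (n * L)) := (F0L_cont l r).mul continuous_const
  rw [mul_assoc, ← mul_sub, ← intervalIntegral.integral_mul_const,
    ← intervalIntegral.integral_sub ((PtV_cont r _).intervalIntegrable _ _)
      (hFc.intervalIntegrable _ _), abs_mul,
    abs_of_pos (by positivity : 0 < (2 * π)⁻¹)]
  have hb : ∀ θ ∈ Ioc (0 : ℝ) (2 * π),
      ‖exp ((Pt r θ).2 / 2) * (inner ℂ (V (Pt r θ) (GG l n L)) (GG l n L)).re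
        - F0 l (Lf r θ) * (n * L)‖ ≤ F0 0 (Lf r θ) * E := by
    intro θ hθ
    have hb1 := hC1 θ ⟨hθ.1.le, hθ.2⟩
    have hc1 : |(Pt r θ).1| ≤ C1 := (norm_fst_le (Pt r θ)).trans hb1
    have hc2 : |(Pt r θ).2| ≤ C1 := (norm_snd_le (Pt r θ)).trans hb1
    have ho := overlap hc1 hc2 hn hL
    rw [inner_V_GG, Complex.re_ofReal_mul, ci_re]
    set m := (volume : Measure (ℝ × ℝ)).real (tau (Pt r θ) ⁻¹' (Bx n L) ∩ Bx n L)
    have e1 : (Pt r θ).2 = -Lf r θ := rfl
    rw [e1]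
    have e2 : exp (-Lf r θ / 2) * (m * cos (-(l * -Lf r θ))) - F0 l (Lf r θ) * (n * L)
        = F0 0 (Lf r θ) * (cos (l * Lf r θ) * (m - n * L)) := by
      simp only [F0, zero_mul, Real.cos_zero, mul_one, mul_neg, neg_neg]
      ring
    rw [e2, Real.norm_eq_abs, abs_mul, abs_mul]
    have e3 : 0 ≤ F0 0 (Lf r θ) := by simp only [F0, zero_mul, Real.cos_zero, mul_one]; positivity
    rw [abs_of_nonneg e3]
    refine mul_le_mul_of_nonneg_left ?_ e3
    have h4 := Real.abs_cos_le_one (l * Lf r θ)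
    have h5 := abs_nonneg (m - n * L)
    calc |cos (l * Lf r θ)| * |m - n * L| ≤ 1 * |m - n * L| :=
          mul_le_mul_of_nonneg_right h4 h5
      _ ≤ E := by rw [one_mul]; exact ho
  have hFc0 : Continuous (fun θ => F0 0 (Lf r θ) * E) := (F0L_cont 0 r).mul continuous_const
  have hi : IntervalIntegrable (fun θ => F0 0 (Lf r θ) * E) volume 0 (2 * π) :=
    hFc0.intervalIntegrable _ _
  have h1 := intervalIntegral.norm_integral_le_of_norm_le (by positivity)
    (Eventually.of_forall hb) hi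
  rw [Real.norm_eq_abs] at h1
  have h2 := sph0_le_one r
  rw [intervalIntegral.integral_mul_const] at h1
  have hE0 : 0 ≤ E := by
    have : 0 ≤ n := hC0.trans hn
    have h8 : 0 ≤ exp n * C1 := by positivity
    have : 0 ≤ L := by linarith
    positivity
  calc _ ≤ (2 * π)⁻¹ * ((∫ θ in (0 : ℝ)..2 * π, F0 0 (Lf r θ)) * E) :=
        mul_le_mul_of_nonneg_left h1 (by positivity)
    _ = sph 0 r * E := by unfold sph; ring
    _ ≤ 1 * E := mul_le_mul_of_nonneg_right h2 hE0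
    _ = E := one_mul E

/-- approximate eigenvectors -/
theorem approx_unit (r l : ℝ) {ε : ℝ} (hε : 0 < ε) :
    ∃ F : HH, ‖F‖ = 1 ∧ |(inner ℂ (A r F) F).re - sph l r| ≤ ε := by
  obtain ⟨C, hC, h⟩ := approx r l
  obtain ⟨n, hn⟩ := exists_nat_gt (max (2 * C) (3 * C / ε))
  have hn1 : 2 * C < n := (le_max_left _ _).trans_lt hn
  have hn2 : 3 * C / ε < n := (le_max_right _ _).trans_lt hn
  have hn0 : (0 : ℝ) < n := by linarith
  set L : ℝ := n * exp n with hL
  have hL0 : 0 < L := by positivity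
  have h1 := h n L (by linarith) (by rw [hL]; nlinarith [exp_pos (n : ℝ)])
  have hG := norm_GG l hn0.le hL0.le
  have hGp : 0 < ‖GG l n L‖ := by
    by_contra hc
    have : ‖GG l n L‖ = 0 := le_antisymm (not_lt.1 hc) (norm_nonneg _)
    rw [this] at hG
    have := mul_pos hn0 hL0
    simp at hG
    rcases hG with h | h <;> simp_all
  refine ⟨((‖GG l n L‖⁻¹ : ℝ) : ℂ) • GG l n L, ?_, ?_⟩
  · rw [norm_smul, Complex.norm_real, Real.norm_eq_abs, abs_of_pos (inv_pos.2 hGp),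
      inv_mul_cancel₀ hGp.ne']
  · rw [map_smul, inner_smul_left, inner_smul_right, Complex.conj_ofReal, ← mul_assoc,
      ← Complex.ofReal_mul, Complex.re_ofReal_mul]
    have e1 : ‖GG l n L‖⁻¹ * ‖GG l n L‖⁻¹ = (n * L)⁻¹ := by
      rw [← hG]; field_simp
    rw [e1]
    have hnL : 0 < (n : ℝ) * L := mul_pos hn0 hL0
    have e2 : ((n : ℝ) * L)⁻¹ * (inner ℂ (A r (GG l n L)) (GG l n L)).re - sph l r
        = (n * L)⁻¹ * ((inner ℂ (A r (GG l n L)) (GG l n L)).re - sph l r * (n * L)) := by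
      field_simp
    rw [e2, abs_mul, abs_of_pos (inv_pos.2 hnL)]
    rw [inv_mul_le_iff₀ hnL]
    refine h1.trans ?_
    have e3 : C * L + 2 * n * (exp n * C) = 3 * C * L := by rw [hL]; ring
    rw [e3]
    have e4 : 3 * C < n * ε := by rwa [div_lt_iff₀ hε] at hn2
    nlinarith

end Pool.Agent.T2H78.Hyp
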