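import Pool.Agent.T2H78.HypFun

/-!
Averages over hyperbolic circles of functions on the affine group `P = N A`, identified with the
upper half-plane: product formula and inversion formula.
-/

namespace Pool.Agent.T2H78.Hyp
open Real MeasureTheory Set Filter Topology intervalIntegral
open scoped ComplexConjugate

/-- unit circle point -/
noncomputable def ci (θ : ℝ) : ℂ := Complex.exp (θ * Complex.I)

theorem ci_cont : Continuous ci := by unfold ci; fun_prop

theorem norm_ci (θ : ℝ) : ‖ci θ‖ = 1 := Complex.norm_exp_ofReal_mul_I θ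

theorem ci_add (a b : ℝ) : ci (a + b) = ci a * ci b := by
  unfold ci; rw [← Complex.exp_add]; push_cast; ring_nf

theorem ci_two_pi (θ : ℝ) : ci (θ + 2 * π) = ci θ := by
  rw [ci_add]
  have : ci (2 * π) = 1 := by unfold ci; push_cast; exact Complex.exp_two_pi_mul_I
  rw [this, mul_one]

theorem ci_zero : ci 0 = 1 := by simp [ci]
theorem ci_pi : ci π = -1 := by unfold ci; exact Complex.exp_pi_mul_I

theorem ci_ne_zero (θ : ℝ) : ci θ ≠ 0 := Complex.exp_ne_zero _

theorem ci_re (θ : ℝ) : (ci θ).re = cos θ := by unfold ci; exact Complex.exp_ofReal_mul_I_re θ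
theorem ci_im (θ : ℝ) : (ci θ).im = sin θ := by unfold ci; exact Complex.exp_ofReal_mul_I_im θ

theorem ci_conj (θ : ℝ) : conj (ci θ) * ci θ = 1 := by
  rw [mul_comm, Complex.mul_conj, Complex.normSq_eq_norm_sq, norm_ci]; simp

variable {E : Type*} [NormedAddCommGroup E] [NormedSpace ℝ E]

theorem rot (g : ℂ → E) {u : ℂ} (hu : ‖u‖ = 1) :
    ∫ θ in (0 : ℝ)..2 * π, g (u * ci θ) = ∫ θ in (0 : ℝ)..2 * π, g (ci θ) := by
  have h1 : u = ci (Complex.arg u) := by
    have := Complex.norm_mul_exp_arg_mul_I u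
    rw [hu] at this
    simp only [Complex.ofReal_one, one_mul] at this
    exact this.symm
  have h2 : ∀ θ, g (u * ci θ) = g (ci (θ + Complex.arg u)) := by
    intro θ
    rw [ci_add, mul_comm, ← h1]
  simp_rw [h2]
  rw [intervalIntegral.integral_comp_add_right (fun θ => g (ci θ))]
  have hper : Function.Periodic (fun θ => g (ci θ)) (2 * π) := fun θ => by
    simp only [ci_two_pi]
  have := hper.intervalIntegral_add_eq (0 + Complex.arg u) 0
  rw [show 2 * π + Complex.arg u = 0 + Complex.arg u + 2 * π by ring, this]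
  simp

/-- Cayley map -/
noncomputable def Cay (ζ : ℂ) : ℂ := Complex.I * (1 + ζ) / (1 - ζ)

/-- the disc as the affine group -/
noncomputable def Dp (ζ : ℂ) : ℝ × ℝ := ((Cay ζ).re, Real.log (Cay ζ).im)

/-- group law of the affine group -/
noncomputable def mulP (p q : ℝ × ℝ) : ℝ × ℝ := (p.1 + exp p.2 * q.1, p.2 + q.2)
noncomputable def invP (p : ℝ × ℝ) : ℝ × ℝ := (-(exp (-p.2) * p.1), -p.2)

theorem one_sub_ne {ζ : ℂ} (h : ‖ζ‖ < 1) : 1 - ζ ≠ 0 := by
  intro h0
  have : ζ = 1 := (sub_eq_zero.1 h0).symm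
  rw [this, norm_one] at h
  exact lt_irrefl _ h

theorem one_sub_conj_ne {ζ : ℂ} (h : ‖ζ‖ < 1) : 1 - conj ζ ≠ 0 :=
  one_sub_ne (by rwa [Complex.norm_conj])

theorem Cay_re (ζ : ℂ) : (Cay ζ).re = -(2 * ζ.im) / Complex.normSq (1 - ζ) := by
  unfold Cay
  simp only [Complex.div_re, Complex.mul_re, Complex.mul_im, Complex.I_re, Complex.I_im,
    Complex.add_re, Complex.add_im, Complex.sub_re, Complex.sub_im, Complex.one_re, Complex.one_im]
  rw [← add_div]
  congr 1
  ring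

theorem Cay_im (ζ : ℂ) : (Cay ζ).im = (1 - Complex.normSq ζ) / Complex.normSq (1 - ζ) := by
  unfold Cay
  simp only [Complex.div_im, Complex.mul_re, Complex.mul_im, Complex.I_re, Complex.I_im,
    Complex.add_re, Complex.add_im, Complex.sub_re, Complex.sub_im, Complex.one_re, Complex.one_im]
  rw [← sub_div]
  congr 1
  rw [Complex.normSq_apply]
  ring

theorem normSq_lt_one {ζ : ℂ} (h : ‖ζ‖ < 1) : Complex.normSq ζ < 1 := by
  rw [Complex.normSq_eq_norm_sq]
  nlinarith [norm_nonneg ζ]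

theorem Cay_im_pos {ζ : ℂ} (h : ‖ζ‖ < 1) : 0 < (Cay ζ).im := by
  rw [Cay_im]
  have h1 := normSq_lt_one h
  have h2 : 0 < Complex.normSq (1 - ζ) := Complex.normSq_pos.2 (one_sub_ne h)
  have : 0 < 1 - Complex.normSq ζ := by linarith
  positivity

theorem Dp_contOn : ContinuousOn Dp (Metric.ball 0 1) := by
  have hC : ContinuousOn Cay (Metric.ball 0 1) := by
    unfold Cay
    refine ContinuousOn.div (by fun_prop) (by fun_prop) ?_
    intro ζ hζ
    rw [mem_ball_zero_iff] at hζ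
    exact one_sub_ne hζ
  unfold Dp
  refine (Complex.continuous_re.comp_continuousOn hC).prodMk ?_
  refine (Complex.continuous_im.comp_continuousOn hC).log ?_
  intro ζ hζ
  rw [mem_ball_zero_iff] at hζ
  exact (Cay_im_pos hζ).ne'

theorem Cay_conj (ω : ℂ) : conj (Cay ω) = -Complex.I * (1 + conj ω) / (1 - conj ω) := by
  unfold Cay
  simp [map_div₀]

theorem re_eq (z : ℂ) : (z.re : ℂ) = (z + conj z) / 2 := by
  rw [Complex.add_conj]; push_cast; ring

theorem im_eq (z : ℂ) : (z.im : ℂ) = (z - conj z) / (2 * Complex.I) := by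
  rw [Complex.sub_conj]
  have := Complex.I_ne_zero
  push_cast
  field_simp

/-- multiplication in disc coordinates -/
theorem mulP_Dp {ω ζ : ℂ} (hω : ‖ω‖ < 1) (hζ : ‖ζ‖ < 1) :
    mulP (Dp ω) (Dp ζ) = Dp ((ω * (1 - conj ω) + (1 - ω) * ζ)
      / ((1 - conj ω) + conj ω * ((1 - ω) * ζ))) := by
  set w := conj ω with hw
  have n1 := one_sub_ne hω
  have n2 : 1 - w ≠ 0 := one_sub_conj_ne hω
  have n3 := one_sub_ne hζ
  have nden : (1 - w) + w * ((1 - ω) * ζ) ≠ 0 := by
    intro h0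
    have h1 : 1 - w = -(w * ((1 - ω) * ζ)) := by linear_combination h0
    have h2 : ‖1 - w‖ = ‖w‖ * (‖1 - ω‖ * ‖ζ‖) := by rw [h1, norm_neg, norm_mul, norm_mul]
    have h3 : ‖1 - w‖ = ‖1 - ω‖ := by
      rw [hw, ← Complex.norm_conj (1 - ω)]; simp
    have h4 : ‖w‖ = ‖ω‖ := by rw [hw, Complex.norm_conj]
    rw [h3, h4] at h2
    have h5 : 0 < ‖1 - ω‖ := norm_pos_iff.2 n1
    have h6 : ‖ω‖ * ‖ζ‖ < 1 := by nlinarith [norm_nonneg ω, norm_nonneg ζ]
    nlinarith
  have hI := Complex.I_ne_zero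
  have key : ((Cay ω).re : ℂ) + ((Cay ω).im : ℂ) * Cay ζ
      = Cay ((ω * (1 - w) + (1 - ω) * ζ) / ((1 - w) + w * ((1 - ω) * ζ))) := by
    have e1 : Cay ((ω * (1 - w) + (1 - ω) * ζ) / ((1 - w) + w * ((1 - ω) * ζ)))
        = Complex.I * ((1 - w) * (1 + ω) + (1 - ω) * (1 + w) * ζ)
          / ((1 - ω) * (1 - w) * (1 - ζ)) := by
      have d1 : 1 - (ω * (1 - w) + (1 - ω) * ζ) / ((1 - w) + w * ((1 - ω) * ζ))
          = (1 - ω) * (1 - w) * (1 - ζ) / ((1 - w) + w * ((1 - ω) * ζ)) := by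
        rw [eq_div_iff nden, sub_mul, div_mul_cancel₀ _ nden]; ring
      have d2 : 1 + (ω * (1 - w) + (1 - ω) * ζ) / ((1 - w) + w * ((1 - ω) * ζ))
          = ((1 - w) * (1 + ω) + (1 - ω) * (1 + w) * ζ) / ((1 - w) + w * ((1 - ω) * ζ)) := by
        rw [eq_div_iff nden, add_mul, div_mul_cancel₀ _ nden]; ring
      unfold Cay
      rw [d1, d2, mul_div_assoc', div_div_div_cancel_right₀ nden]
    rw [e1, re_eq, im_eq, Cay_conj, ← hw]
    unfold Cay
    field_simp
    ring_nf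
    try simp only [Complex.I_sq]
    try ring
  have hp := Cay_im_pos hω
  have hq := Cay_im_pos hζ
  unfold mulP Dp
  rw [← key]
  refine Prod.ext ?_ ?_
  · simp [Real.exp_log hp]
  · simp only [Complex.add_im, Complex.ofReal_im, Complex.mul_im, Complex.ofReal_re, zero_mul,
      add_zero, zero_add]
    rw [Real.log_mul hp.ne' hq.ne']

theorem invP_Dp {ω : ℂ} (hω : ‖ω‖ < 1) :
    invP (Dp ω) = Dp (-(ω * (1 - conj ω) / (1 - ω))) := by
  set w := conj ω with hw
  have n1 := one_sub_ne hω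
  have n2 : 1 - w ≠ 0 := one_sub_conj_ne hω
  have hwn : ‖w‖ = ‖ω‖ := by rw [hw, Complex.norm_conj]
  have n4 : 1 - ω * w ≠ 0 := one_sub_ne (by rw [norm_mul, hwn]; nlinarith [norm_nonneg ω])
  have hI := Complex.I_ne_zero
  have hp := Cay_im_pos hω
  have hpc : ((Cay ω).im : ℂ) ≠ 0 := by exact_mod_cast hp.ne'
  have hY : ((Cay ω).im : ℂ) = (1 - ω * w) / ((1 - ω) * (1 - w)) := by
    rw [im_eq, Cay_conj, ← hw]
    unfold Cay
    field_simp
    ring
  have hX : ((Cay ω).re : ℂ) = Complex.I * (ω - w) / ((1 - ω) * (1 - w)) := by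
    rw [re_eq, Cay_conj, ← hw]
    unfold Cay
    field_simp
    ring
  have key : (Complex.I - ((Cay ω).re : ℂ)) / ((Cay ω).im : ℂ) = Cay (-(ω * (1 - w) / (1 - ω))) := by
    have d1 : 1 - -(ω * (1 - w) / (1 - ω)) = (1 - ω * w) / (1 - ω) := by
      field_simp; ring
    have d2 : 1 + -(ω * (1 - w) / (1 - ω)) = (1 - 2 * ω + ω * w) / (1 - ω) := by
      field_simp; ring
    rw [hX, hY]
    unfold Cay
    rw [d1, d2]
    field_simp
    ring
  unfold invP Dp
  rw [← key]
  have hre : ((Complex.I - ((Cay ω).re : ℂ)) / ((Cay ω).im : ℂ)) =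
      ((-((Cay ω).re / (Cay ω).im) : ℝ) : ℂ) + ((1 / (Cay ω).im : ℝ) : ℂ) * Complex.I := by
    push_cast; field_simp; ring
  rw [hre]
  refine Prod.ext ?_ ?_
  · simp only [Complex.add_re, Complex.ofReal_re, Complex.mul_re, Complex.I_re, Complex.ofReal_im,
      Complex.I_im]
    rw [Real.exp_neg, Real.exp_log hp]
    field_simp
    ring
  · simp only [Complex.add_im, Complex.ofReal_re, Complex.mul_im, Complex.I_re, Complex.ofReal_im,
      Complex.I_im]
    simp

/-- polar coordinates in the affine group -/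
noncomputable def Pt (r θ : ℝ) : ℝ × ℝ := (-(sinh r * sin θ) / Zf r θ, -Lf r θ)

theorem Pt_cont : Continuous (fun q : ℝ × ℝ => Pt q.1 q.2) := by
  unfold Pt
  refine Continuous.prodMk ?_ Lf_continuous.neg
  exact Continuous.div (by fun_prop) Zf_continuous (fun q => (Zf_pos _ _).ne')

theorem norm_tanh_ci (r θ : ℝ) : ‖(tanh (r / 2) : ℂ) * ci θ‖ < 1 := by
  rw [norm_mul, norm_ci, mul_one, Complex.norm_real, Real.norm_eq_abs]
  exact abs_lt.2 ⟨Real.neg_one_lt_tanh _, Real.tanh_lt_one _⟩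

theorem half_cosh (r : ℝ) : cosh r = cosh (r / 2) ^ 2 + sinh (r / 2) ^ 2 := by
  rw [← Real.cosh_two_mul]; ring_nf

theorem half_sinh (r : ℝ) : sinh r = 2 * sinh (r / 2) * cosh (r / 2) := by
  rw [← Real.sinh_two_mul]; ring_nf

theorem Pt_eq (r θ : ℝ) : Dp ((tanh (r / 2) : ℂ) * ci θ) = Pt r θ := by
  have hch := (Real.cosh_pos (r / 2)).ne'
  have hsq := Real.cosh_sq (r / 2)
  have hZ : Zf r θ = cosh (r / 2) ^ 2 + sinh (r / 2) ^ 2
      - 2 * sinh (r / 2) * cosh (r / 2) * cos θ := by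
    unfold Zf; rw [half_cosh r, half_sinh r]
  have hZne := (Zf_pos r θ).ne'
  have hns : Complex.normSq (1 - (tanh (r / 2) : ℂ) * ci θ) = Zf r θ / cosh (r / 2) ^ 2 := by
    rw [Complex.normSq_apply]
    simp only [Complex.sub_re, Complex.sub_im, Complex.one_re, Complex.one_im, Complex.mul_re,
      Complex.mul_im, Complex.ofReal_re, Complex.ofReal_im, ci_re, ci_im, zero_mul, sub_zero,
      add_zero]
    rw [hZ, Real.tanh_eq_sinh_div_cosh]
    have h3 := Real.sin_sq_add_cos_sq θ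
    field_simp
    linear_combination (sinh (r / 2) ^ 2) * h3
  have hn2 : Complex.normSq ((tanh (r / 2) : ℂ) * ci θ) = tanh (r / 2) ^ 2 := by
    rw [Complex.normSq_eq_norm_sq, norm_mul, norm_ci, mul_one, Complex.norm_real,
      Real.norm_eq_abs, sq_abs]
  unfold Dp Pt
  refine Prod.ext ?_ ?_
  · simp only
    rw [Cay_re, hns]
    simp only [Complex.mul_im, Complex.ofReal_re, Complex.ofReal_im, ci_im, zero_mul, add_zero]
    rw [half_sinh r, Real.tanh_eq_sinh_div_cosh]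
    field_simp
  · simp only
    rw [Cay_im, hns, hn2, Real.tanh_eq_sinh_div_cosh]
    unfold Lf
    rw [← Real.log_inv]
    congr 1
    field_simp
    rw [hsq]; ring

theorem Pt_periodic (r : ℝ) : Function.Periodic (Pt r) (2 * π) := by
  intro θ
  unfold Pt Lf Zf
  rw [Real.cos_add_two_pi, Real.sin_add_two_pi]

/-- the distance of the product point -/
noncomputable def rho (a b φ : ℝ) : ℝ := Real.arcosh (XX a b φ)

noncomputable def vv (a b φ : ℝ) : ℂ :=
  ((tanh (a / 2) : ℂ) + (tanh (b / 2) : ℂ) * ci φ)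
    / (1 + (tanh (a / 2) : ℂ) * ((tanh (b / 2) : ℂ) * ci φ))

theorem vv_den_ne (a b φ : ℝ) : 1 + (tanh (a / 2) : ℂ) * ((tanh (b / 2) : ℂ) * ci φ) ≠ 0 := by
  have h1 := norm_tanh_ci b φ
  have h2 : ‖(tanh (a / 2) : ℂ)‖ < 1 := by
    rw [Complex.norm_real, Real.norm_eq_abs]
    exact abs_lt.2 ⟨Real.neg_one_lt_tanh _, Real.tanh_lt_one _⟩
  have := one_sub_ne (ζ := -((tanh (a / 2) : ℂ) * ((tanh (b / 2) : ℂ) * ci φ))) (by
    rw [norm_neg, norm_mul]
    nlinarith [norm_nonneg (tanh (a / 2) : ℂ), norm_nonneg ((tanh (b / 2) : ℂ) * ci φ)])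
  simpa using this

theorem vv_cont (a b : ℝ) : Continuous (vv a b) := by
  unfold vv
  have := ci_cont
  exact Continuous.div (by fun_prop) (by fun_prop) (fun φ => vv_den_ne a b φ)

theorem norm_vv (a b φ : ℝ) : ‖vv a b φ‖ = tanh (rho a b φ / 2) := by
  have hXX := one_le_XX a b φ
  have hr := Real.arcosh_nonneg hXX
  have hcr : cosh (rho a b φ) = XX a b φ := Real.cosh_arcosh hXX
  have hrho : 0 ≤ rho a b φ := hr
  have hth : 0 ≤ tanh (rho a b φ / 2) := by
    rw [Real.tanh_eq_sinh_div_cosh]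
    exact div_nonneg (Real.sinh_nonneg_iff.2 (by linarith)) (Real.cosh_pos _).le
  have h1 : ‖vv a b φ‖ ^ 2 = tanh (rho a b φ / 2) ^ 2 := by
    have hs := half_cosh (rho a b φ)
    have hq := Real.cosh_sq (rho a b φ / 2)
    have hc := (Real.cosh_pos (rho a b φ / 2)).ne'
    have e1 : tanh (rho a b φ / 2) ^ 2 = (XX a b φ - 1) / (XX a b φ + 1) := by
      rw [Real.tanh_eq_sinh_div_cosh, div_pow, eq_div_iff (by linarith), div_mul_eq_mul_div,
        div_eq_iff (pow_ne_zero 2 hc), ← hcr, hs, hq]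
      ring
    rw [e1, ← Complex.normSq_eq_norm_sq]
    unfold vv
    rw [Complex.normSq_div]
    have e2 : Complex.normSq ((tanh (a / 2) : ℂ) + (tanh (b / 2) : ℂ) * ci φ)
        = tanh (a / 2) ^ 2 + tanh (b / 2) ^ 2 + 2 * tanh (a / 2) * tanh (b / 2) * cos φ := by
      rw [Complex.normSq_apply]
      simp only [Complex.add_re, Complex.add_im, Complex.mul_re, Complex.mul_im, Complex.ofReal_re,
        Complex.ofReal_im, ci_re, ci_im, zero_mul, sub_zero, add_zero, zero_add]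
      have h3 := Real.sin_sq_add_cos_sq φ
      linear_combination (tanh (b / 2) ^ 2) * h3
    have e3 : Complex.normSq (1 + (tanh (a / 2) : ℂ) * ((tanh (b / 2) : ℂ) * ci φ))
        = 1 + tanh (a / 2) ^ 2 * tanh (b / 2) ^ 2 + 2 * tanh (a / 2) * tanh (b / 2) * cos φ := by
      rw [Complex.normSq_apply]
      simp only [Complex.add_re, Complex.add_im, Complex.mul_re, Complex.mul_im, Complex.ofReal_re,
        Complex.ofReal_im, ci_re, ci_im, zero_mul, sub_zero, add_zero, zero_add,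
        Complex.one_re, Complex.one_im]
      have h3 := Real.sin_sq_add_cos_sq φ
      linear_combination (tanh (a / 2) ^ 2 * tanh (b / 2) ^ 2) * h3
    have hpos : 0 < Complex.normSq (1 + (tanh (a / 2) : ℂ) * ((tanh (b / 2) : ℂ) * ci φ)) :=
      Complex.normSq_pos.2 (vv_den_ne a b φ)
    rw [e3] at hpos
    rw [e2, e3, div_eq_div_iff hpos.ne' (by linarith)]
    unfold XX
    rw [half_cosh a, half_cosh b, half_sinh a, half_sinh b, Real.tanh_eq_sinh_div_cosh,
      Real.tanh_eq_sinh_div_cosh]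
    have ha := (Real.cosh_pos (a / 2)).ne'
    have hb := (Real.cosh_pos (b / 2)).ne'
    have qa := Real.cosh_sq (a / 2)
    have qb := Real.cosh_sq (b / 2)
    generalize cosh (a / 2) = ca at *
    generalize cosh (b / 2) = cb at *
    generalize sinh (a / 2) = sa at *
    generalize sinh (b / 2) = sb at *
    field_simp
    have qa' : sa ^ 2 = ca ^ 2 - 1 := by linarith
    have qb' : sb ^ 2 = cb ^ 2 - 1 := by linarith
    ring_nf
    simp only [show sa ^ 4 = (sa ^ 2) ^ 2 by ring, show sb ^ 4 = (sb ^ 2) ^ 2 by ring,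
      show sa ^ 3 = sa ^ 2 * sa by ring, show sb ^ 3 = sb ^ 2 * sb by ring, qa', qb']
    ring
  rwa [sq_eq_sq₀ (norm_nonneg _) hth] at h1

theorem norm_vv_lt (a b φ : ℝ) : ‖vv a b φ‖ < 1 := by
  rw [norm_vv]; exact Real.tanh_lt_one _

/-- product formula for circle averages on the affine group -/
theorem prod_avg {Ψ : ℝ × ℝ → E} (hΨ : Continuous Ψ) (a b : ℝ) :
    ∫ θ in (0 : ℝ)..2 * π, ∫ φ in (0 : ℝ)..2 * π, Ψ (mulP (Pt a θ) (Pt b φ))
      = ∫ φ in (0 : ℝ)..2 * π, ∫ θ in (0 : ℝ)..2 * π, Ψ (Pt (rho a b φ) θ) := by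
  have step1 : ∀ θ, ∫ φ in (0 : ℝ)..2 * π, Ψ (mulP (Pt a θ) (Pt b φ))
      = ∫ φ in (0 : ℝ)..2 * π, Ψ (Dp (ci θ * vv a b φ)) := by
    intro θ
    set ω : ℂ := (tanh (a / 2) : ℂ) * ci θ with hω
    have hω1 : ‖ω‖ < 1 := norm_tanh_ci a θ
    have n1 := one_sub_ne hω1
    have n2 := one_sub_conj_ne hω1
    have hcw : conj ω = (tanh (a / 2) : ℂ) * conj (ci θ) := by
      rw [hω, map_mul, Complex.conj_ofReal]
    set g : ℂ → E := fun z => Ψ (Dp ((ω + ci θ * ((tanh (b / 2) : ℂ) * z))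
      / (1 + conj ω * (ci θ * ((tanh (b / 2) : ℂ) * z))))) with hg
    have hu : ‖(1 - ω) / (1 - conj ω) * conj (ci θ)‖ = 1 := by
      rw [norm_mul, norm_div, Complex.norm_conj, norm_ci, mul_one]
      have : ‖1 - conj ω‖ = ‖1 - ω‖ := by rw [← Complex.norm_conj (1 - ω)]; simp
      rw [this, div_self (norm_ne_zero_iff.2 n1)]
    have h1 : ∀ φ, Ψ (mulP (Pt a θ) (Pt b φ)) = g (((1 - ω) / (1 - conj ω) * conj (ci θ)) * ci φ) := by
      intro φ
      rw [← Pt_eq, ← Pt_eq, mulP_Dp hω1 (norm_tanh_ci b φ)]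
      simp only [hg]
      congr 2
      have hcc : ci θ * ((tanh (b / 2) : ℂ) * (((1 - ω) / (1 - conj ω) * conj (ci θ)) * ci φ))
          = (1 - ω) / (1 - conj ω) * ((tanh (b / 2) : ℂ) * ci φ) := by
        linear_combination ((tanh (b / 2) : ℂ) * ((1 - ω) / (1 - conj ω)) * ci φ) * ci_conj θ
      rw [hcc]
      have e1 : ω + (1 - ω) / (1 - conj ω) * ((tanh (b / 2) : ℂ) * ci φ)
          = (ω * (1 - conj ω) + (1 - ω) * ((tanh (b / 2) : ℂ) * ci φ)) / (1 - conj ω) := by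
        field_simp
      have e2 : 1 + conj ω * ((1 - ω) / (1 - conj ω) * ((tanh (b / 2) : ℂ) * ci φ))
          = ((1 - conj ω) + conj ω * ((1 - ω) * ((tanh (b / 2) : ℂ) * ci φ))) / (1 - conj ω) := by
        field_simp
      rw [e1, e2, div_div_div_cancel_right₀ n2]
    simp_rw [h1]
    rw [rot g hu]
    congr 1
    ext φ
    simp only [hg]
    congr 2
    unfold vv
    rw [hcw, hω, mul_div_assoc']
    congr 1
    · ring
    · linear_combination ((tanh (a / 2) : ℂ) * ((tanh (b / 2) : ℂ) * ci φ)) * ci_conj θ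
  simp_rw [step1]
  have hc : Continuous (fun q : ℝ × ℝ => Ψ (Dp (ci q.1 * vv a b q.2))) := by
    refine hΨ.comp (Dp_contOn.comp_continuous ?_ ?_)
    · exact (ci_cont.comp continuous_fst).mul ((vv_cont a b).comp continuous_snd)
    · intro q
      rw [mem_ball_zero_iff, norm_mul, norm_ci, one_mul]
      exact norm_vv_lt a b q.2
  rw [intervalIntegral_intervalIntegral_swap]
  · congr 1
    ext φ
    have h2 : ∀ θ, Ψ (Dp (ci θ * vv a b φ))
        = (fun z => Ψ (Dp ((‖vv a b φ‖ : ℂ) * z))) (ci (Complex.arg (vv a b φ)) * ci θ) := by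
      intro θ
      simp only
      congr 2
      have : (‖vv a b φ‖ : ℂ) * ci (Complex.arg (vv a b φ)) = vv a b φ :=
        Complex.norm_mul_exp_arg_mul_I _
      rw [← mul_assoc, this, mul_comm]
    simp_rw [h2]
    rw [rot (fun z => Ψ (Dp ((‖vv a b φ‖ : ℂ) * z))) (norm_ci _)]
    congr 1
    ext θ
    rw [norm_vv, ← Pt_eq]
  · refine (hc.continuousOn.integrableOn_compact ((isCompact_uIcc (a := 0) (b := 2 * π)).prod
      (isCompact_uIcc (a := 0) (b := 2 * π)))).mono_set ?_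
    exact prod_mono uIoc_subset_uIcc uIoc_subset_uIcc

/-- hyperbolic angle of the inverse -/
noncomputable def al (r θ : ℝ) : ℝ := ∫ s in (0 : ℝ)..θ, (Zf r s)⁻¹

theorem Zinv_cont (r : ℝ) : Continuous (fun s => (Zf r s)⁻¹) := by
  have : Continuous (fun s => Zf r s) := by unfold Zf; fun_prop
  exact this.inv₀ (fun s => (Zf_pos r s).ne')

theorem hasDerivAt_al (r θ : ℝ) : HasDerivAt (al r) (Zf r θ)⁻¹ θ :=
  ((Zinv_cont r).integral_hasStrictDerivAt 0 θ).hasDerivAt

theorem hasDerivAt_ci (θ : ℝ) : HasDerivAt ci (ci θ * Complex.I) θ := by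
  unfold ci
  have h1 : HasDerivAt (fun θ : ℝ => (θ : ℂ) * Complex.I) (1 * Complex.I) θ :=
    (HasDerivAt.ofReal_comp (hasDerivAt_id θ)).mul_const _
  have := h1.cexp
  simpa using this

/-- normalised half distance -/
theorem tanh_ne (r θ : ℝ) : 1 - (tanh (r / 2) : ℂ) * ci θ ≠ 0 := one_sub_ne (norm_tanh_ci r θ)

theorem Zf_complex (r θ : ℝ) : ((Zf r θ)⁻¹ : ℂ) = (1 - (tanh (r / 2) : ℂ) ^ 2)
    / ((1 - (tanh (r / 2) : ℂ) * ci θ) * (1 - (tanh (r / 2) : ℂ) * conj (ci θ))) := by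
  have h1 : (Dp ((tanh (r / 2) : ℂ) * ci θ)).2 = (Pt r θ).2 := by rw [Pt_eq]
  have hpos := Cay_im_pos (norm_tanh_ci r θ)
  have h2 : (Cay ((tanh (r / 2) : ℂ) * ci θ)).im = (Zf r θ)⁻¹ := by
    unfold Dp Pt Lf at h1
    simp only at h1
    rw [← Real.log_inv] at h1
    exact Real.log_injOn_pos hpos (inv_pos.2 (Zf_pos r θ)) h1
  have h3 : ((Zf r θ)⁻¹ : ℂ) = (((Zf r θ)⁻¹ : ℝ) : ℂ) := (Complex.ofReal_inv _).symm
  rw [h3, ← h2, Cay_im, Complex.ofReal_div, Complex.ofReal_sub, Complex.ofReal_one,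
    ← Complex.mul_conj, ← Complex.mul_conj]
  simp only [map_sub, map_one, map_mul, Complex.conj_ofReal]
  congr 1
  have := ci_conj θ
  linear_combination (-(tanh (r / 2) : ℂ) ^ 2) * this

theorem ci_al (r θ : ℝ) :
    ci (al r θ) = (ci θ - (tanh (r / 2) : ℂ)) / (1 - (tanh (r / 2) : ℂ) * ci θ) := by
  set t : ℂ := (tanh (r / 2) : ℂ) with ht
  have hne := fun θ => tanh_ne r θ
  set bb : ℝ → ℂ := fun θ => (ci θ - t) / (1 - t * ci θ) with hbb
  have hbd : ∀ θ, HasDerivAt bb (bb θ * (((Zf r θ)⁻¹ : ℂ) * Complex.I)) θ := by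
    intro θ
    have d1 := (hasDerivAt_ci θ).sub_const t
    have d2 := ((hasDerivAt_ci θ).const_mul t).const_sub 1
    refine (d1.div d2 (hne θ)).congr_deriv ?_
    rw [Zf_complex, ← ht]
    simp only [hbb]
    have h1 := hne θ
    have h2 : 1 - t * conj (ci θ) ≠ 0 := by
      have := one_sub_conj_ne (norm_tanh_ci r θ)
      rwa [map_mul, Complex.conj_ofReal] at this
    have h3 : ci θ - t = ci θ * (1 - t * conj (ci θ)) := by
      linear_combination t * ci_conj θ
    rw [← ht] at h1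
    have e1 : ci θ * Complex.I * (1 - t * ci θ) - (ci θ - t) * -(t * (ci θ * Complex.I))
        = ci θ * Complex.I * (1 - t ^ 2) := by ring
    rw [e1, h3]
    field_simp
  have hcd : ∀ θ, HasDerivAt (fun θ => bb θ * ci (-(al r θ))) 0 θ := by
    intro θ
    have d1 : HasDerivAt (fun θ => ci (-(al r θ)))
        ((-(Zf r θ)⁻¹ : ℝ) • (ci (-(al r θ)) * Complex.I)) θ :=
      HasDerivAt.scomp (h := fun θ => -(al r θ)) θ (hasDerivAt_ci (-(al r θ))) (hasDerivAt_al r θ).neg
    refine ((hbd θ).mul d1).congr_deriv ?_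
    rw [Complex.real_smul]
    push_cast
    ring
  have hconst := is_const_of_deriv_eq_zero (fun θ => (hcd θ).differentiableAt)
    (fun θ => (hcd θ).deriv) θ 0
  have h0 : bb 0 * ci (-(al r 0)) = 1 := by
    have h1 := hne 0
    simp only [hbb, al, intervalIntegral.integral_same, neg_zero, ci_zero, mul_one] at h1 ⊢
    exact div_self h1
  rw [h0] at hconst
  have h2 : ci (-(al r θ)) * ci (al r θ) = 1 := by rw [← ci_add]; simp [ci_zero]
  show ci (al r θ) = bb θ
  calc ci (al r θ) = (bb θ * ci (-(al r θ))) * ci (al r θ) := by rw [hconst, one_mul]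
    _ = bb θ * (ci (-(al r θ)) * ci (al r θ)) := by ring
    _ = bb θ := by rw [h2, mul_one]

theorem al_two_pi (r : ℝ) : al r (2 * π) = 2 * π := by
  set t : ℂ := (tanh (r / 2) : ℂ) with ht
  set f : ℂ → ℂ := fun z => (1 + t * z) / (1 - t * z) with hf
  have hnt : ‖t‖ < 1 := by
    rw [ht, Complex.norm_real, Real.norm_eq_abs]
    exact abs_lt.2 ⟨Real.neg_one_lt_tanh _, Real.tanh_lt_one _⟩
  have hne : ∀ z ∈ Metric.closedBall (0 : ℂ) 1, 1 - t * z ≠ 0 := by
    intro z hz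
    rw [mem_closedBall_zero_iff] at hz
    apply one_sub_ne
    rw [norm_mul]
    nlinarith [norm_nonneg t, norm_nonneg z]
  have hd : DiffContOnCl ℂ f (Metric.ball 0 |1|) := by
    rw [abs_one]
    refine DifferentiableOn.diffContOnCl ?_
    rw [closure_ball _ one_ne_zero]
    intro z hz
    refine DifferentiableAt.differentiableWithinAt ?_
    exact DifferentiableAt.div (by fun_prop) (by fun_prop) (hne z hz)
  have hav := hd.circleAverage
  have h0 : f 0 = 1 := by simp [hf]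
  rw [h0] at hav
  unfold circleAverage at hav
  have hcm : ∀ θ, circleMap 0 1 θ = ci θ := by
    intro θ; unfold circleMap ci; simp
  simp_rw [hcm] at hav
  have hfc : Continuous (fun θ => f (ci θ)) := by
    have h1 := ci_cont
    simp only [hf]
    refine Continuous.div (by fun_prop) (by fun_prop) (fun θ => hne _ ?_)
    rw [mem_closedBall_zero_iff, norm_ci]
  have hint : ∫ θ in (0 : ℝ)..2 * π, f (ci θ) = ((2 * π : ℝ) : ℂ) := by
    have hpi := Real.pi_pos
    have h2 : (2 * π) • ((2 * π)⁻¹ • ∫ θ in (0 : ℝ)..2 * π, f (ci θ)) = (2 * π) • (1 : ℂ) := by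
      rw [hav]
    rw [smul_smul, mul_inv_cancel₀ (by positivity), one_smul] at h2
    rw [h2, Complex.real_smul, mul_one]
  have hre : ∀ θ, (Zf r θ)⁻¹ = (f (ci θ)).re := by
    intro θ
    have h1 : (Dp ((tanh (r / 2) : ℂ) * ci θ)).2 = (Pt r θ).2 := by rw [Pt_eq]
    have hpos := Cay_im_pos (norm_tanh_ci r θ)
    have h2 : (Cay ((tanh (r / 2) : ℂ) * ci θ)).im = (Zf r θ)⁻¹ := by
      unfold Dp Pt Lf at h1
      simp only at h1
      rw [← Real.log_inv] at h1
      exact Real.log_injOn_pos hpos (inv_pos.2 (Zf_pos r θ)) h1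
    rw [← h2]
    simp only [hf]
    unfold Cay
    rw [← ht, mul_div_assoc, Complex.I_mul_im]
  unfold al
  simp_rw [hre]
  have h3 := Complex.reCLM.intervalIntegral_comp_comm (μ := volume) (a := 0) (b := 2 * π)
    (hfc.intervalIntegrable _ _)
  simp only [Complex.reCLM_apply] at h3
  rw [h3, hint, Complex.ofReal_re]

/-- inversion in polar coordinates -/
theorem invP_Pt (r θ : ℝ) : invP (Pt r θ) = Pt r (al r θ + π) := by
  rw [← Pt_eq, invP_Dp (norm_tanh_ci r θ), ← Pt_eq]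
  congr 1
  rw [ci_add, ci_pi, ci_al]
  have h1 := tanh_ne r θ
  rw [map_mul, Complex.conj_ofReal]
  have h3 := ci_conj θ
  rw [mul_comm] at h3
  field_simp
  linear_combination ((tanh (r / 2) : ℂ) ^ 2) * h3

theorem inv_avg {Ψ : ℝ × ℝ → E} (hΨ : Continuous Ψ) (r : ℝ) :
    ∫ θ in (0 : ℝ)..2 * π, (Zf r θ)⁻¹ • Ψ (invP (Pt r θ))
      = ∫ θ in (0 : ℝ)..2 * π, Ψ (Pt r θ) := by
  have hg : Continuous (fun x => Ψ (Pt r (x + π))) := by
    refine hΨ.comp ?_
    have := Pt_cont.comp (f := fun x : ℝ => ((r, x + π) : ℝ × ℝ)) (by fun_prop)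
    exact this
  have h1 := integral_deriv_smul_comp (a := 0) (b := 2 * π) (f := al r) (f' := fun θ => (Zf r θ)⁻¹)
    (g := fun x => Ψ (Pt r (x + π))) (fun x _ => hasDerivAt_al r x) (Zinv_cont r).continuousOn hg
  simp only [Function.comp_def] at h1
  simp_rw [invP_Pt]
  rw [h1, al_two_pi]
  have h0 : al r 0 = 0 := by simp [al]
  rw [h0, intervalIntegral.integral_comp_add_right (fun x => Ψ (Pt r x))]
  have hper : Function.Periodic (fun x => Ψ (Pt r x)) (2 * π) := fun x => by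
    simp only [Pt_periodic r x]
  have := hper.intervalIntegral_add_eq (0 + π) 0
  rw [show 2 * π + π = 0 + π + 2 * π by ring, this]
  simp

end Pool.Agent.T2H78.Hyp
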