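import Mathlib

/-!
Spherical functions of the hyperbolic plane: the integral formula and the differential equation.
-/

namespace Pool.Agent.T2H78.Hyp
open Real MeasureTheory Set Filter Topology intervalIntegral

/-- Differentiation under the integral sign, local version with continuous derivative. -/
theorem hasDerivAt_param {E : Type*} [NormedAddCommGroup E] [NormedSpace ℝ E]
    {f f' : ℝ → ℝ → E} {a b r0 ε : ℝ} (hab : a ≤ b) (hε : 0 < ε)
    (hf : ∀ r ∈ Metric.closedBall r0 ε, ∀ θ ∈ Icc a b, HasDerivAt (fun r => f r θ) (f' r θ) r)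
    (hf'c : ContinuousOn (fun p : ℝ × ℝ => f' p.1 p.2) (Metric.closedBall r0 ε ×ˢ Icc a b))
    (hfc : ∀ r ∈ Metric.closedBall r0 ε, ContinuousOn (f r) (Icc a b)) :
    HasDerivAt (fun r => ∫ θ in a..b, f r θ) (∫ θ in a..b, f' r0 θ) r0 := by
  obtain ⟨C, hC⟩ :=
    ((isCompact_closedBall r0 ε).prod isCompact_Icc).exists_bound_of_continuousOn hf'c
  have hu : uIoc a b = Ioc a b := uIoc_of_le hab
  have hr0 : r0 ∈ Metric.closedBall r0 ε := Metric.mem_closedBall_self hε.le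
  have hmeas : ∀ g : ℝ → E, ContinuousOn g (Icc a b) →
      AEStronglyMeasurable g (volume.restrict (uIoc a b)) := by
    intro g hg
    rw [hu]
    exact (hg.mono Ioc_subset_Icc_self).aestronglyMeasurable measurableSet_Ioc
  have hf'0 : ContinuousOn (f' r0) (Icc a b) := by
    have : ContinuousOn (fun θ : ℝ => ((r0, θ) : ℝ × ℝ)) (Icc a b) := by fun_prop
    exact hf'c.comp this (fun θ hθ => ⟨hr0, hθ⟩)
  refine (intervalIntegral.hasDerivAt_integral_of_dominated_loc_of_deriv_le (μ := volume)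
    (a := a) (b := b) (F := f) (F' := f') (x₀ := r0) (s := Metric.closedBall r0 ε)
    (bound := fun _ => C) (Metric.closedBall_mem_nhds r0 hε) ?_ ?_ ?_ ?_ ?_ ?_).2
  · filter_upwards [Metric.closedBall_mem_nhds r0 hε] with r hr using hmeas _ (hfc r hr)
  · exact ContinuousOn.intervalIntegrable (by rw [uIcc_of_le hab]; exact hfc r0 hr0)
  · exact hmeas _ hf'0
  · refine Eventually.of_forall fun θ hθ r hr => ?_
    rw [hu] at hθ
    exact hC (r, θ) ⟨hr, Ioc_subset_Icc_self hθ⟩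
  · exact intervalIntegrable_const
  · refine Eventually.of_forall fun θ hθ r hr => ?_
    rw [hu] at hθ
    exact hf r hr θ (Ioc_subset_Icc_self hθ)

theorem hasDerivAt_param' {E : Type*} [NormedAddCommGroup E] [NormedSpace ℝ E]
    {f f' : ℝ → ℝ → E} {a b : ℝ} (hab : a ≤ b)
    (hf : ∀ r θ, HasDerivAt (fun r => f r θ) (f' r θ) r)
    (hf'c : Continuous (fun p : ℝ × ℝ => f' p.1 p.2))
    (hfc : ∀ r, Continuous (f r)) (r0 : ℝ) :
    HasDerivAt (fun r => ∫ θ in a..b, f r θ) (∫ θ in a..b, f' r0 θ) r0 :=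
  hasDerivAt_param hab one_pos (fun r _ θ _ => hf r θ) hf'c.continuousOn
    (fun r _ => (hfc r).continuousOn)

/-- `cosh r - sinh r cos θ` -/
noncomputable def Zf (r θ : ℝ) : ℝ := cosh r - sinh r * cos θ

theorem Zf_pos (r θ : ℝ) : 0 < Zf r θ := by
  unfold Zf
  have h1 := Real.cosh_pos r
  have h2 := Real.cosh_sq r
  have h3 := Real.sin_sq_add_cos_sq θ
  nlinarith [sq_nonneg (sinh r * cos θ), sq_nonneg (cosh r - sinh r * cos θ), sq_nonneg (sinh r * sin θ),
    sq_nonneg (cosh r + sinh r * cos θ)]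

theorem Zf_continuous : Continuous (fun p : ℝ × ℝ => Zf p.1 p.2) := by
  unfold Zf; fun_prop

/-- the logarithm of `Zf` -/
noncomputable def Lf (r θ : ℝ) : ℝ := Real.log (Zf r θ)

theorem Lf_continuous : Continuous (fun p : ℝ × ℝ => Lf p.1 p.2) := by
  unfold Lf
  exact Zf_continuous.log (fun p => (Zf_pos _ _).ne')

/-- `r`-derivative of `Zf` -/
noncomputable def Zr (r θ : ℝ) : ℝ := sinh r - cosh r * cos θ

theorem hasDerivAt_Zf (r θ : ℝ) : HasDerivAt (fun r => Zf r θ) (Zr r θ) r := by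
  unfold Zf Zr
  exact (Real.hasDerivAt_cosh r).sub ((Real.hasDerivAt_sinh r).mul_const _)

theorem hasDerivAt_Zr (r θ : ℝ) : HasDerivAt (fun r => Zr r θ) (Zf r θ) r := by
  unfold Zf Zr
  exact (Real.hasDerivAt_sinh r).sub ((Real.hasDerivAt_cosh r).mul_const _)

theorem hasDerivAt_Zf_theta (r θ : ℝ) : HasDerivAt (fun θ => Zf r θ) (sinh r * sin θ) θ := by
  unfold Zf
  have := ((Real.hasDerivAt_cos θ).const_mul (sinh r)).const_sub (cosh r)
  convert! this using 1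
  ring

theorem Zr_sq (r θ : ℝ) : Zr r θ ^ 2 + sin θ ^ 2 = Zf r θ ^ 2 := by
  unfold Zf Zr
  have h2 := Real.cosh_sq r
  have h3 := Real.sin_sq_add_cos_sq θ
  linear_combination (cos θ ^ 2 - 1) * h2 + h3

/-- the `r`-derivative of `Lf` -/
noncomputable def Lr (r θ : ℝ) : ℝ := Zr r θ / Zf r θ

theorem Lr_continuous : Continuous (fun p : ℝ × ℝ => Lr p.1 p.2) := by
  unfold Lr
  refine Continuous.div ?_ Zf_continuous (fun p => (Zf_pos _ _).ne')
  unfold Zr; fun_prop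

theorem hasDerivAt_Lf (r θ : ℝ) : HasDerivAt (fun r => Lf r θ) (Lr r θ) r :=
  (hasDerivAt_Zf r θ).log (Zf_pos r θ).ne'

theorem hasDerivAt_Lr (r θ : ℝ) : HasDerivAt (fun r => Lr r θ) (1 - Lr r θ ^ 2) r := by
  have := (hasDerivAt_Zr r θ).div (hasDerivAt_Zf r θ) (Zf_pos r θ).ne'
  refine this.congr_deriv ?_
  unfold Lr
  have := (Zf_pos r θ).ne'
  field_simp

theorem abs_Lr_le (r θ : ℝ) : |Lr r θ| ≤ 1 := by
  unfold Lr
  rw [abs_div, abs_of_pos (Zf_pos r θ), div_le_one (Zf_pos r θ)]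
  apply abs_le_of_sq_le_sq _ (Zf_pos r θ).le
  nlinarith [Zr_sq r θ, sq_nonneg (sin θ)]

theorem hasDerivAt_Lf_theta (r θ : ℝ) :
    HasDerivAt (fun θ => Lf r θ) (sinh r * sin θ / Zf r θ) θ :=
  (hasDerivAt_Zf_theta r θ).log (Zf_pos r θ).ne'

/-- real part of `exp (-(1/2 + i l) x)` -/
noncomputable def F0 (l x : ℝ) : ℝ := exp (-x / 2) * cos (l * x)
noncomputable def F1 (l x : ℝ) : ℝ := exp (-x / 2) * (-(1 / 2) * cos (l * x) - l * sin (l * x))
noncomputable def F2 (l x : ℝ) : ℝ :=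
  exp (-x / 2) * ((1 / 4 - l ^ 2) * cos (l * x) + l * sin (l * x))

theorem hasDerivAt_F0 (l x : ℝ) : HasDerivAt (F0 l) (F1 l x) x := by
  unfold F0 F1
  have h1 : HasDerivAt (fun x : ℝ => exp (-x / 2)) (exp (-x / 2) * (-1 / 2)) x :=
    (((hasDerivAt_id x).neg).div_const 2).exp
  have h2 : HasDerivAt (fun x : ℝ => cos (l * x)) (-sin (l * x) * (l * 1)) x :=
    ((hasDerivAt_id x).const_mul l).cos
  refine (h1.mul h2).congr_deriv ?_
  ring

theorem hasDerivAt_F1 (l x : ℝ) : HasDerivAt (F1 l) (F2 l x) x := by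
  unfold F1 F2
  have h1 : HasDerivAt (fun x : ℝ => exp (-x / 2)) (exp (-x / 2) * (-1 / 2)) x :=
    (((hasDerivAt_id x).neg).div_const 2).exp
  have h2 : HasDerivAt (fun x : ℝ => cos (l * x)) (-sin (l * x) * (l * 1)) x :=
    ((hasDerivAt_id x).const_mul l).cos
  have h3 : HasDerivAt (fun x : ℝ => sin (l * x)) (cos (l * x) * (l * 1)) x :=
    ((hasDerivAt_id x).const_mul l).sin
  refine (h1.mul ((h2.const_mul (-(1 / 2))).sub (h3.const_mul l))).congr_deriv ?_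
  simp only [Pi.sub_apply]
  ring

theorem F_rel (l x : ℝ) : F2 l x + F1 l x = -(1 / 4 + l ^ 2) * F0 l x := by
  unfold F0 F1 F2; ring

theorem F0_cont : Continuous (fun p : ℝ × ℝ => F0 p.1 p.2) := by unfold F0; fun_prop
theorem F1_cont : Continuous (fun p : ℝ × ℝ => F1 p.1 p.2) := by unfold F1; fun_prop
theorem F2_cont : Continuous (fun p : ℝ × ℝ => F2 p.1 p.2) := by unfold F2; fun_prop

/-- the spherical function `φ_l(r)` (real part of the Laplace-type integral) -/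
noncomputable def sph (l r : ℝ) : ℝ := (2 * π)⁻¹ * ∫ θ in (0 : ℝ)..2 * π, F0 l (Lf r θ)
noncomputable def sph1 (l r : ℝ) : ℝ :=
  (2 * π)⁻¹ * ∫ θ in (0 : ℝ)..2 * π, F1 l (Lf r θ) * Lr r θ
noncomputable def sph2 (l r : ℝ) : ℝ :=
  (2 * π)⁻¹ * ∫ θ in (0 : ℝ)..2 * π,
    (F2 l (Lf r θ) * Lr r θ ^ 2 + F1 l (Lf r θ) * (1 - Lr r θ ^ 2))

theorem two_pi_pos' : (0 : ℝ) ≤ 2 * π := by positivity

/-- joint continuity for integrands -/
theorem cont_F0L : Continuous (fun q : (ℝ × ℝ) × ℝ => F0 q.1.1 (Lf q.1.2 q.2)) := by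
  have h1 : Continuous (fun q : (ℝ × ℝ) × ℝ => Lf q.1.2 q.2) :=
    Lf_continuous.comp (by fun_prop : Continuous (fun q : (ℝ × ℝ) × ℝ => (q.1.2, q.2)))
  exact F0_cont.comp ((by fun_prop : Continuous (fun q : (ℝ × ℝ) × ℝ => q.1.1)).prodMk h1)

theorem cont_F1L : Continuous (fun q : (ℝ × ℝ) × ℝ => F1 q.1.1 (Lf q.1.2 q.2)) := by
  have h1 : Continuous (fun q : (ℝ × ℝ) × ℝ => Lf q.1.2 q.2) :=
    Lf_continuous.comp (by fun_prop : Continuous (fun q : (ℝ × ℝ) × ℝ => (q.1.2, q.2)))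
  exact F1_cont.comp ((by fun_prop : Continuous (fun q : (ℝ × ℝ) × ℝ => q.1.1)).prodMk h1)

theorem cont_F2L : Continuous (fun q : (ℝ × ℝ) × ℝ => F2 q.1.1 (Lf q.1.2 q.2)) := by
  have h1 : Continuous (fun q : (ℝ × ℝ) × ℝ => Lf q.1.2 q.2) :=
    Lf_continuous.comp (by fun_prop : Continuous (fun q : (ℝ × ℝ) × ℝ => (q.1.2, q.2)))
  exact F2_cont.comp ((by fun_prop : Continuous (fun q : (ℝ × ℝ) × ℝ => q.1.1)).prodMk h1)

theorem cont_LrL : Continuous (fun q : (ℝ × ℝ) × ℝ => Lr q.1.2 q.2) :=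
  Lr_continuous.comp (by fun_prop : Continuous (fun q : (ℝ × ℝ) × ℝ => (q.1.2, q.2)))

theorem cont_I1 : Continuous (fun q : (ℝ × ℝ) × ℝ => F1 q.1.1 (Lf q.1.2 q.2) * Lr q.1.2 q.2) :=
  cont_F1L.mul cont_LrL

theorem cont_I2 : Continuous (fun q : (ℝ × ℝ) × ℝ => F2 q.1.1 (Lf q.1.2 q.2) * Lr q.1.2 q.2 ^ 2
      + F1 q.1.1 (Lf q.1.2 q.2) * (1 - Lr q.1.2 q.2 ^ 2)) := by
  have h1 := cont_F1L
  have h2 := cont_F2L
  have h3 := cont_LrL
  fun_prop

theorem sph_cont : Continuous (fun p : ℝ × ℝ => sph p.1 p.2) := by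
  unfold sph
  exact (continuous_parametric_intervalIntegral_of_continuous'
    (f := fun (p : ℝ × ℝ) θ => F0 p.1 (Lf p.2 θ)) cont_F0L 0 (2 * π)).const_smul (2 * π)⁻¹

theorem sph1_cont : Continuous (fun p : ℝ × ℝ => sph1 p.1 p.2) := by
  unfold sph1
  exact (continuous_parametric_intervalIntegral_of_continuous'
    (f := fun (p : ℝ × ℝ) θ => F1 p.1 (Lf p.2 θ) * Lr p.2 θ)
    (cont_F1L.mul cont_LrL) 0 (2 * π)).const_smul (2 * π)⁻¹

theorem sph2_cont : Continuous (fun p : ℝ × ℝ => sph2 p.1 p.2) := by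
  unfold sph2
  exact (continuous_parametric_intervalIntegral_of_continuous'
    (f := fun (p : ℝ × ℝ) θ => F2 p.1 (Lf p.2 θ) * Lr p.2 θ ^ 2
      + F1 p.1 (Lf p.2 θ) * (1 - Lr p.2 θ ^ 2))
    cont_I2 0 (2 * π)).const_smul (2 * π)⁻¹

theorem hasDerivAt_sph (l r : ℝ) : HasDerivAt (sph l) (sph1 l r) r := by
  unfold sph sph1
  refine HasDerivAt.const_mul _ (hasDerivAt_param' (f := fun r θ => F0 l (Lf r θ))
    (f' := fun r θ => F1 l (Lf r θ) * Lr r θ) two_pi_pos' ?_ ?_ ?_ r)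
  · intro r θ
    exact (hasDerivAt_F0 l _).comp r (hasDerivAt_Lf r θ)
  · have := cont_I1.comp (f := fun p : ℝ × ℝ => (((l, p.1), p.2) : (ℝ × ℝ) × ℝ)) (by fun_prop)
    exact this
  · intro r
    have := cont_F0L.comp (f := fun θ : ℝ => (((l, r), θ) : (ℝ × ℝ) × ℝ)) (by fun_prop)
    exact this

theorem hasDerivAt_sph1 (l r : ℝ) : HasDerivAt (sph1 l) (sph2 l r) r := by
  unfold sph1 sph2
  refine HasDerivAt.const_mul _ (hasDerivAt_param' (f := fun r θ => F1 l (Lf r θ) * Lr r θ)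
    (f' := fun r θ => F2 l (Lf r θ) * Lr r θ ^ 2 + F1 l (Lf r θ) * (1 - Lr r θ ^ 2))
    two_pi_pos' ?_ ?_ ?_ r)
  · intro r θ
    have h1 := (hasDerivAt_F1 l _).comp r (hasDerivAt_Lf r θ)
    refine (h1.mul (hasDerivAt_Lr r θ)).congr_deriv ?_
    simp only [Function.comp]
    ring
  · have := cont_I2.comp (f := fun p : ℝ × ℝ => (((l, p.1), p.2) : (ℝ × ℝ) × ℝ)) (by fun_prop)
    exact this
  · intro r
    have := cont_I1.comp (f := fun θ : ℝ => (((l, r), θ) : (ℝ × ℝ) × ℝ)) (by fun_prop)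
    exact this

/-- The differential equation of the spherical function. -/
theorem sph_ode (l r : ℝ) :
    sinh r * sph2 l r + cosh r * sph1 l r + (1 / 4 + l ^ 2) * (sinh r * sph l r) = 0 := by
  have hcθ : ∀ {g : (ℝ × ℝ) × ℝ → ℝ}, Continuous g →
      IntervalIntegrable (fun θ => g ((l, r), θ)) volume 0 (2 * π) := fun {g} hg =>
    (hg.comp (by fun_prop : Continuous (fun θ : ℝ => (((l, r), θ) : (ℝ × ℝ) × ℝ)))).intervalIntegrable _ _
  set K : ℝ → ℝ := fun θ => F1 l (Lf r θ) * (sin θ / Zf r θ) with hK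
  set K' : ℝ → ℝ := fun θ => F2 l (Lf r θ) * (sinh r * sin θ / Zf r θ) * (sin θ / Zf r θ)
    + F1 l (Lf r θ) * ((cos θ * Zf r θ - sin θ * (sinh r * sin θ)) / Zf r θ ^ 2) with hK'
  have hKd : ∀ θ, HasDerivAt K (K' θ) θ := by
    intro θ
    have h1 := (hasDerivAt_F1 l _).comp θ (hasDerivAt_Lf_theta r θ)
    have h2 := (Real.hasDerivAt_sin θ).div (hasDerivAt_Zf_theta r θ) (Zf_pos r θ).ne'
    exact h1.mul h2
  have hI1 := hcθ cont_I2
  have hI2 := hcθ cont_I1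
  have hI3 := hcθ cont_F0L
  have hid : ∀ θ, K' θ = -(sinh r * (F2 l (Lf r θ) * Lr r θ ^ 2 + F1 l (Lf r θ) * (1 - Lr r θ ^ 2))
      + cosh r * (F1 l (Lf r θ) * Lr r θ) + (1 / 4 + l ^ 2) * (sinh r * F0 l (Lf r θ))) := by
    intro θ
    have hz := (Zf_pos r θ).ne'
    have hrel := F_rel l (Lf r θ)
    have hsq := Zr_sq r θ
    have hx : cosh r * Zr r θ + cos θ = sinh r * Zf r θ := by
      unfold Zr Zf
      have h2 := Real.cosh_sq r
      linear_combination (-cos θ) * h2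
    simp only [hK', Lr]
    field_simp
    generalize F0 l (Lf r θ) = a at *
    generalize F1 l (Lf r θ) = b at *
    generalize F2 l (Lf r θ) = c at *
    generalize Zf r θ = z at *
    generalize Zr r θ = y at *
    linear_combination (4 * sinh r * z ^ 2) * hrel + (4 * sinh r * c) * hsq
      + (-4 * sinh r * b) * hsq + (4 * b * z) * hx
  have hint : ∫ θ in (0 : ℝ)..2 * π, K' θ = K (2 * π) - K 0 := by
    refine integral_eq_sub_of_hasDerivAt (fun θ _ => hKd θ) ?_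
    rw [show K' = _ from funext hid]
    refine IntervalIntegrable.neg ?_
    exact ((hI1.const_mul _).add (hI2.const_mul _)).add ((hI3.const_mul _).const_mul _)
  have hK0 : K (2 * π) - K 0 = 0 := by simp [hK]
  have hsum : ∫ θ in (0 : ℝ)..2 * π, K' θ = -(sinh r * (∫ θ in (0 : ℝ)..2 * π,
      (F2 l (Lf r θ) * Lr r θ ^ 2 + F1 l (Lf r θ) * (1 - Lr r θ ^ 2)))
      + cosh r * (∫ θ in (0 : ℝ)..2 * π, F1 l (Lf r θ) * Lr r θ)
      + (1 / 4 + l ^ 2) * (sinh r * ∫ θ in (0 : ℝ)..2 * π, F0 l (Lf r θ))) := by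
    simp_rw [hid]
    rw [intervalIntegral.integral_neg, intervalIntegral.integral_add, intervalIntegral.integral_add,
      intervalIntegral.integral_const_mul, intervalIntegral.integral_const_mul,
      intervalIntegral.integral_const_mul, intervalIntegral.integral_const_mul]
    · exact hI1.const_mul _
    · exact hI2.const_mul _
    · exact (hI1.const_mul _).add (hI2.const_mul _)
    · exact (hI3.const_mul _).const_mul _
  rw [hint, hK0] at hsum
  unfold sph sph1 sph2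
  linear_combination ((2 * π)⁻¹) * hsum

end Pool.Agent.T2H78.Hyp
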