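import Pool.Agent.T2H78.HypApp

/-!
The hyperbolic circle: parametrisation, chord formula, and the mean with respect to the
one-dimensional Hausdorff measure (arc length).
-/

namespace Pool.Agent.T2H78.Hyp
open Real MeasureTheory Set Filter Topology
open scoped ENNReal NNReal UpperHalfPlane ComplexConjugate

/-- the point of the circle -/
noncomputable def gam (z : ℍ) (d θ : ℝ) : ℍ :=
  ⟨⟨z.re - z.im * (sinh d * sin θ) / Zf d θ, z.im / Zf d θ⟩, div_pos z.im_pos (Zf_pos d θ)⟩

theorem gam_re (z : ℍ) (d θ : ℝ) : (gam z d θ).re = z.re - z.im * (sinh d * sin θ) / Zf d θ := rfl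
theorem gam_im (z : ℍ) (d θ : ℝ) : (gam z d θ).im = z.im / Zf d θ := rfl

theorem gam_cont (z : ℍ) (d : ℝ) : Continuous (gam z d) := by
  have hZ : Continuous (fun θ => Zf d θ) := by unfold Zf; fun_prop
  have h0 : ∀ θ, Zf d θ ≠ 0 := fun θ => (Zf_pos d θ).ne'
  rw [UpperHalfPlane.isEmbedding_coe.continuous_iff]
  have : (UpperHalfPlane.coe ∘ gam z d) = fun θ => Complex.equivRealProdCLM.symm
      (z.re - z.im * (sinh d * sin θ) / Zf d θ, z.im / Zf d θ) := by
    funext θ
    apply Complex.ext <;> simp [gam]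
  rw [this]
  refine Complex.equivRealProdCLM.symm.continuous.comp ?_
  refine Continuous.prodMk ?_ ?_
  · exact continuous_const.sub ((by fun_prop : Continuous fun θ => z.im * (sinh d * sin θ)).div hZ h0)
  · exact continuous_const.div hZ h0

theorem gam_per (z : ℍ) (d : ℝ) : Function.Periodic (gam z d) (2 * π) := by
  intro θ
  apply UpperHalfPlane.ext_re_im
  · simp only [gam_re, Zf, Real.sin_add_two_pi, Real.cos_add_two_pi]
  · simp only [gam_im, Zf, Real.cos_add_two_pi]

/-- the circle point is at distance `d` -/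
theorem dist_gam (z : ℍ) {d : ℝ} (hd : 0 ≤ d) (θ : ℝ) : dist (gam z d θ) z = d := by
  have h1 : cosh (dist z (gam z d θ)) = cosh d := by
    rw [UpperHalfPlane.cosh_dist', gam_re, gam_im]
    have hZ := (Zf_pos d θ)
    have hy := z.im_pos
    have h2 := Real.cosh_sq d
    have h3 := Real.sin_sq_add_cos_sq θ
    have e1 : z.re - (z.re - z.im * (sinh d * sin θ) / Zf d θ)
        = z.im * (sinh d * sin θ) / Zf d θ := by ring
    rw [e1, div_eq_iff (by positivity)]
    field_simp
    unfold Zf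
    linear_combination (-1) * h2 + sinh d ^ 2 * h3
  rw [dist_comm]
  exact (Real.cosh_strictMonoOn.injOn dist_nonneg hd h1)

/-- chord formula, squared -/
theorem chord_sq (z : ℍ) (d θ θ' : ℝ) :
    sinh (dist (gam z d θ) (gam z d θ') / 2) ^ 2 = (sinh d * sin ((θ - θ') / 2)) ^ 2 := by
  have hZ := (Zf_pos d θ)
  have hZ' := (Zf_pos d θ')
  have hy := z.im_pos
  have h1 : cosh (dist (gam z d θ) (gam z d θ')) = 1 + sinh d ^ 2 * (1 - cos (θ - θ')) := by
    rw [UpperHalfPlane.cosh_dist', gam_re, gam_im, gam_re, gam_im]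
    have e1 : z.re - z.im * (sinh d * sin θ) / Zf d θ - (z.re - z.im * (sinh d * sin θ') / Zf d θ')
        = z.im * sinh d * (sin θ' / Zf d θ' - sin θ / Zf d θ) := by ring
    rw [e1, div_eq_iff (by positivity)]
    field_simp
    rw [Real.cos_sub]
    unfold Zf
    have h2 := Real.cosh_sq d
    have h3 := Real.sin_sq_add_cos_sq θ
    have h4 := Real.sin_sq_add_cos_sq θ'
    linear_combination sinh d ^ 2 * ((cosh d - sinh d * cos θ) ^ 2 * h4
      + (cosh d - sinh d * cos θ') ^ 2 * h3 - (cos θ - cos θ') ^ 2 * h2)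
  have h2 : cosh (dist (gam z d θ) (gam z d θ')) = 1 + 2 * sinh (dist (gam z d θ) (gam z d θ') / 2) ^ 2 := by
    conv_lhs => rw [show dist (gam z d θ) (gam z d θ')
      = 2 * (dist (gam z d θ) (gam z d θ') / 2) by ring]
    rw [Real.cosh_two_mul, Real.cosh_sq]; ring
  have h3 : cos (θ - θ') = 1 - 2 * sin ((θ - θ') / 2) ^ 2 := by
    conv_lhs => rw [show θ - θ' = 2 * ((θ - θ') / 2) by ring]
    rw [Real.cos_two_mul, Real.cos_sq']; ring
  rw [h2, h3] at h1
  rw [mul_pow]
  linarith

/-- chord formula -/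
theorem chord (z : ℍ) {d : ℝ} (hd : 0 ≤ d) (θ θ' : ℝ) :
    sinh (dist (gam z d θ) (gam z d θ') / 2) = sinh d * |sin ((θ - θ') / 2)| := by
  have h1 := chord_sq z d θ θ'
  have h2 : 0 ≤ sinh (dist (gam z d θ) (gam z d θ') / 2) :=
    Real.sinh_nonneg_iff.2 (by positivity)
  have h3 : 0 ≤ sinh d := Real.sinh_nonneg_iff.2 hd
  rw [← abs_of_nonneg h2, ← abs_of_nonneg h3, ← abs_mul]
  exact (sq_eq_sq_iff_abs_eq_abs _ _).1 h1

theorem dist_gam_add (z : ℍ) {d : ℝ} (hd : 0 ≤ d) (θ θ' a : ℝ) :
    dist (gam z d (θ + a)) (gam z d (θ' + a)) = dist (gam z d θ) (gam z d θ') := by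
  have h1 := chord z hd θ θ'
  have h2 := chord z hd (θ + a) (θ' + a)
  rw [show θ + a - (θ' + a) = θ - θ' by ring, ← h1] at h2
  have := Real.sinh_injective h2
  linarith

theorem gam_lip (z : ℍ) {d : ℝ} (hd : 0 ≤ d) :
    LipschitzWith (Real.toNNReal (sinh d)) (gam z d) := by
  have h3 : 0 ≤ sinh d := Real.sinh_nonneg_iff.2 hd
  refine LipschitzWith.of_dist_le_mul fun θ θ' => ?_
  rw [Real.coe_toNNReal _ h3, Real.dist_eq]
  have h1 := chord z hd θ θ'
  have h2 : dist (gam z d θ) (gam z d θ') / 2 ≤ sinh (dist (gam z d θ) (gam z d θ') / 2) :=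
    Real.self_le_sinh_iff.2 (by positivity)
  have h4 : |sin ((θ - θ') / 2)| ≤ |(θ - θ') / 2| := Real.abs_sin_le_abs
  rw [h1] at h2
  have h5 := mul_le_mul_of_nonneg_left h4 h3
  rw [abs_div, abs_two] at h5
  linarith

/-- every point of the circle is parametrised -/
theorem exists_gam (z : ℍ) {d : ℝ} (hd : 0 < d) {w : ℍ} (hw : dist w z = d) :
    ∃ θ, gam z d θ = w := by
  have hS : 0 < sinh d := Real.sinh_pos_iff.2 hd
  have hy := z.im_pos
  have hv := w.im_pos
  have h1 := UpperHalfPlane.cosh_dist' z w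
  rw [dist_comm, hw] at h1
  have h2 := Real.cosh_sq d
  rw [eq_div_iff (by positivity)] at h1
  -- the unit vector
  have hu : ‖(⟨(cosh d - z.im / w.im) / sinh d, -(w.re - z.re) / (w.im * sinh d)⟩ : ℂ)‖ = 1 := by
    have : ‖(⟨(cosh d - z.im / w.im) / sinh d, -(w.re - z.re) / (w.im * sinh d)⟩ : ℂ)‖ ^ 2 = 1 := by
      rw [Complex.sq_norm, Complex.normSq_mk]
      field_simp
      linear_combination (-1) * h1 + w.im ^ 2 * h2
    have h0 := norm_nonneg (⟨(cosh d - z.im / w.im) / sinh d,
      -(w.re - z.re) / (w.im * sinh d)⟩ : ℂ)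
    nlinarith
  set u : ℂ := ⟨(cosh d - z.im / w.im) / sinh d, -(w.re - z.re) / (w.im * sinh d)⟩ with hudef
  have hcos : cos (Complex.arg u) = (cosh d - z.im / w.im) / sinh d := by
    rw [Complex.cos_arg (by rw [← norm_ne_zero_iff, hu]; exact one_ne_zero), hu, div_one]
  have hsin : sin (Complex.arg u) = -(w.re - z.re) / (w.im * sinh d) := by
    rw [Complex.sin_arg, hu, div_one]
  have hZ : Zf d (Complex.arg u) = z.im / w.im := by
    unfold Zf
    rw [hcos]
    field_simp
    ring
  refine ⟨Complex.arg u, ?_⟩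
  apply UpperHalfPlane.ext_re_im
  · rw [gam_re, hZ, hsin]
    field_simp
    ring
  · rw [gam_im, hZ]
    field_simp

theorem gam_inj (z : ℍ) {d : ℝ} (hd : 0 < d) {θ θ' : ℝ} (h : gam z d θ = gam z d θ') :
    ∃ n : ℤ, θ' = n * (2 * π) + θ := by
  have h1 := chord z hd.le θ θ'
  rw [h, dist_self, zero_div, Real.sinh_zero] at h1
  have hS : 0 < sinh d := Real.sinh_pos_iff.2 hd
  have h2 : sin ((θ - θ') / 2) = 0 := by
    rcases mul_eq_zero.1 h1.symm with h | h
    · exact absurd h hS.ne'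
    · exact abs_eq_zero.1 h
  obtain ⟨n, hn⟩ := Real.sin_eq_zero_iff.1 h2
  refine ⟨-n, ?_⟩
  push_cast
  linarith

section Haar

instance fact2pi : Fact ((0 : ℝ) < 2 * π) := ⟨by positivity⟩

/-- the parametrisation by the circle group -/
noncomputable def Gm (z : ℍ) (d : ℝ) : AddCircle (2 * π) → ℍ := (gam_per z d).lift

theorem Gm_coe (z : ℍ) (d θ : ℝ) : Gm z d (θ : AddCircle (2 * π)) = gam z d θ := rfl

theorem Gm_cont (z : ℍ) (d : ℝ) : Continuous (Gm z d) :=
  (gam_cont z d).quotient_lift _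

theorem Gm_inj (z : ℍ) {d : ℝ} (hd : 0 < d) : Function.Injective (Gm z d) := by
  intro a b
  induction a using QuotientAddGroup.induction_on with
  | _ θ =>
  induction b using QuotientAddGroup.induction_on with
  | _ θ' =>
  intro h
  obtain ⟨n, hn⟩ := gam_inj z hd h
  have h2 : (θ : AddCircle (2 * π)) = (θ' : AddCircle (2 * π)) := by
    have h3 : ((n * (2 * π) : ℝ) : AddCircle (2 * π)) = 0 := by
      rw [AddCircle.coe_eq_zero_iff]
      exact ⟨n, by rw [zsmul_eq_mul]⟩
    rw [hn, AddCircle.coe_add, h3, zero_add]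
  exact h2

theorem Gm_emb (z : ℍ) {d : ℝ} (hd : 0 < d) : MeasurableEmbedding (Gm z d) :=
  ((Gm_cont z d).isClosedEmbedding (Gm_inj z hd)).measurableEmbedding

theorem Gm_range (z : ℍ) {d : ℝ} (hd : 0 < d) : range (Gm z d) = Metric.sphere z d := by
  ext w
  constructor
  · rintro ⟨a, rfl⟩
    induction a using QuotientAddGroup.induction_on with
    | _ θ =>
    exact dist_gam z hd.le θ
  · intro hw
    obtain ⟨θ, hθ⟩ := exists_gam z hd hw
    exact ⟨(θ : AddCircle (2 * π)), hθ⟩

theorem dist_Gm_add (z : ℍ) {d : ℝ} (hd : 0 ≤ d) (a b c : AddCircle (2 * π)) :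
    dist (Gm z d (a + c)) (Gm z d (b + c)) = dist (Gm z d a) (Gm z d b) := by
  induction a using QuotientAddGroup.induction_on with
  | _ θ =>
  induction b using QuotientAddGroup.induction_on with
  | _ θ' =>
  induction c using QuotientAddGroup.induction_on with
  | _ a =>
  exact dist_gam_add z hd θ θ' a

theorem haus_le (z : ℍ) {d : ℝ} (hd : 0 < d) (c : AddCircle (2 * π)) (E : Set (AddCircle (2 * π))) :
    μH[1] (Gm z d '' ((fun a => a + c) '' E)) ≤ μH[1] (Gm z d '' E) := by
  classical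
  have hinj := Gm_inj z hd
  set g : ℍ → ℍ := fun w => Gm z d (Function.invFun (Gm z d) w + c) with hg
  have hgG : ∀ a, g (Gm z d a) = Gm z d (a + c) := by
    intro a
    simp only [hg]
    rw [Function.leftInverse_invFun hinj a]
  have h1 : Gm z d '' ((fun a => a + c) '' E) = g '' (Gm z d '' E) := by
    rw [image_image, image_image]
    exact image_congr fun a _ => (hgG a).symm
  have h2 : LipschitzOnWith 1 g (Gm z d '' E) := by
    refine LipschitzOnWith.of_dist_le_mul ?_
    rintro _ ⟨a, _, rfl⟩ _ ⟨b, _, rfl⟩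
    rw [hgG, hgG, dist_Gm_add z hd.le]
    simp
  rw [h1]
  have := h2.hausdorffMeasure_image_le (d := 1) zero_le_one
  simpa using this

/-- the pulled back measure -/
noncomputable def nu (z : ℍ) (d : ℝ) : Measure (AddCircle (2 * π)) :=
  Measure.comap (Gm z d) μH[1]

theorem nu_apply (z : ℍ) {d : ℝ} (hd : 0 < d) (E : Set (AddCircle (2 * π))) :
    nu z d E = μH[1] (Gm z d '' E) := (Gm_emb z hd).comap_apply _ _

theorem nu_inv (z : ℍ) {d : ℝ} (hd : 0 < d) : (nu z d).IsAddLeftInvariant := by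
  refine ⟨fun c => ?_⟩
  ext E hE
  rw [Measure.map_apply (measurable_const_add c) hE, nu_apply z hd, nu_apply z hd]
  have h1 : (fun x => c + x) ⁻¹' E = (fun a => a + (-c)) '' E := by
    ext x
    simp only [mem_preimage, mem_image]
    constructor
    · intro h; exact ⟨c + x, h, by abel⟩
    · rintro ⟨y, hy, rfl⟩
      have : c + (y + -c) = y := by abel
      rwa [this]
  have h2 : E = (fun a => a + c) '' ((fun x => c + x) ⁻¹' E) := by
    ext x
    simp only [mem_image, mem_preimage]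
    constructor
    · intro h
      refine ⟨x - c, ?_, by abel⟩
      have : c + (x - c) = x := by abel
      rwa [this]
    · rintro ⟨y, hy, rfl⟩
      rwa [add_comm y c]
  refine le_antisymm ?_ ?_
  · rw [h1]; exact haus_le z hd (-c) E
  · conv_lhs => rw [h2]
    exact haus_le z hd c _

theorem haus_sphere_lt (z : ℍ) {d : ℝ} (hd : 0 < d) :
    (μH[1] : Measure ℍ) (Metric.sphere z d) < ⊤ := by
  have h1 : Metric.sphere z d ⊆ gam z d '' Icc 0 (2 * π) := by
    intro w hw
    obtain ⟨θ, hθ⟩ := exists_gam z hd hw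
    obtain ⟨y, hy, hy2⟩ := (gam_per z d).exists_mem_Ico₀ (by positivity) θ
    exact ⟨y, ⟨hy.1, hy.2.le⟩, by rw [← hy2, hθ]⟩
  refine (measure_mono h1).trans_lt ?_
  refine ((gam_lip z hd.le).hausdorffMeasure_image_le zero_le_one _).trans_lt ?_
  rw [hausdorffMeasure_real, Real.volume_Icc]
  simp only [ENNReal.rpow_one]
  exact ENNReal.mul_lt_top ENNReal.coe_lt_top ENNReal.ofReal_lt_top

theorem haus_sphere_pos (z : ℍ) {d : ℝ} (hd : 0 < d) :
    0 < (μH[1] : Measure ℍ) (Metric.sphere z d) := by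
  have hlip : LipschitzWith 1 (fun w : ℍ => Real.log w.im) := by
    refine LipschitzWith.of_dist_le_mul fun w w' => ?_
    simpa using UpperHalfPlane.dist_log_im_le w w'
  have h1 := hlip.hausdorffMeasure_image_le (d := 1) zero_le_one (Metric.sphere z d)
  simp only [ENNReal.coe_one, ENNReal.one_rpow, one_mul] at h1
  refine lt_of_lt_of_le ?_ h1
  have hc : Continuous (fun θ => Real.log (gam z d θ).im) :=
    hlip.continuous.comp (gam_cont z d)
  have h2 : Icc (Real.log (gam z d π).im) (Real.log (gam z d 0).im)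
      ⊆ (fun w : ℍ => Real.log w.im) '' Metric.sphere z d := by
    intro y hy
    obtain ⟨θ, _, hθ⟩ := intermediate_value_uIcc (a := π) (b := 0) hc.continuousOn
      (by rw [mem_uIcc]; exact Or.inl hy)
    exact ⟨gam z d θ, dist_gam z hd.le θ, hθ⟩
  refine lt_of_lt_of_le ?_ (measure_mono h2)
  rw [hausdorffMeasure_real, Real.volume_Icc, ENNReal.ofReal_pos, sub_pos]
  refine Real.log_lt_log (gam z d π).im_pos ?_
  rw [gam_im, gam_im]
  have hS : 0 < sinh d := Real.sinh_pos_iff.2 hd
  refine div_lt_div_of_pos_left z.im_pos (Zf_pos _ _) ?_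
  unfold Zf
  rw [Real.cos_pi, Real.cos_zero]
  linarith

/-- The average over the hyperbolic circle with respect to arc length. -/
theorem average_eq (z : ℍ) {d : ℝ} (hd : 0 < d) (f : ℍ → ℂ) :
    ⨍ w in Metric.sphere z d, f w ∂(μH[1])
      = (2 * π)⁻¹ • ∫ θ in (0 : ℝ)..2 * π, f (gam z d θ) := by
  have hinv := nu_inv z hd
  have hfin : IsFiniteMeasure (nu z d) := ⟨by
    rw [nu_apply z hd, image_univ, Gm_range z hd]
    exact haus_sphere_lt z hd⟩
  have h1 := Measure.isAddLeftInvariant_eq_smul (nu z d) (volume : Measure (AddCircle (2 * π)))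
  set c : ℝ≥0 := Measure.addHaarScalarFactor (nu z d) volume with hc
  have hemb := Gm_emb z hd
  have h2 : Measure.map (Gm z d) (nu z d) = (μH[1] : Measure ℍ).restrict (Metric.sphere z d) := by
    unfold nu
    rw [hemb.map_comap, Gm_range z hd]
  have h3 : ∫ w in Metric.sphere z d, f w ∂(μH[1]) = (c : ℝ) • ∫ θ in (0 : ℝ)..2 * π, f (gam z d θ) := by
    rw [← h2, hemb.integral_map, h1, integral_smul_nnreal_measure]
    have h4 := AddCircle.intervalIntegral_preimage (2 * π) 0 (fun a => f (Gm z d a))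
    rw [zero_add] at h4
    rw [← h4]
    rfl
  have h5 : (μH[1] : Measure ℍ).real (Metric.sphere z d) = c * (2 * π) := by
    have h6 : (μH[1] : Measure ℍ) (Metric.sphere z d) = nu z d univ := by
      rw [nu_apply z hd, image_univ, Gm_range z hd]
    unfold Measure.real
    rw [h6, h1]
    simp only [Measure.smul_apply, AddCircle.measure_univ, ENNReal.smul_def, smul_eq_mul]
    rw [ENNReal.toReal_mul, ENNReal.toReal_ofReal (by positivity)]
    rfl
  have hcpos : (c : ℝ) ≠ 0 := by
    intro h0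
    rw [h0, zero_mul] at h5
    have h7 := haus_sphere_pos z hd
    have h8 := haus_sphere_lt z hd
    have h9 : 0 < (μH[1] : Measure ℍ).real (Metric.sphere z d) :=
      ENNReal.toReal_pos h7.ne' h8.ne
    exact h9.ne' h5
  rw [setAverage_eq, h3, h5, smul_smul]
  congr 1
  field_simp

end Haar

end Pool.Agent.T2H78.Hyp
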