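import Mathlib

/-!
An abstract comparison theorem for Pruefer angles and amplitudes of damped oscillators
`u'' + u' / g + l ^ 2 u = 0` with `g` concave.
-/

namespace Pool.Agent.T2H78.Hyp
open Real Set Filter Topology

theorem zero_mem_Ici' : (0 : ℝ) ∈ Ici (0 : ℝ) := Set.mem_Ici.2 le_rfl

/-- The inverse of a strictly increasing phase function. -/
theorem exists_inverse {T T' : ℝ → ℝ} {b : ℝ} (hb : 0 < b) (hT0 : T 0 = 0)
    (hT : ∀ r, HasDerivAt T (T' r) r) (hpos : ∀ r, 0 < r → 0 < T' r) :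
    ∃ R : ℝ → ℝ, (∀ x ∈ Icc 0 (T b), R x ∈ Icc 0 b ∧ T (R x) = x) ∧
      (∀ r ∈ Icc 0 b, R (T r) = r) ∧ StrictMonoOn R (Icc 0 (T b)) ∧
      (∀ x ∈ Ioo 0 (T b), R x ∈ Ioo 0 b ∧ HasDerivAt R (T' (R x))⁻¹ x) ∧
      ContinuousWithinAt R (Ici 0) 0 := by
  have hTc : Continuous T := continuous_iff_continuousAt.2 fun r => (hT r).continuousAt
  have hmono : StrictMonoOn T (Ici 0) := by
    refine strictMonoOn_of_deriv_pos (convex_Ici 0) hTc.continuousOn ?_
    intro r hr
    rw [interior_Ici] at hr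
    rw [(hT r).deriv]; exact hpos r hr
  have hTb : 0 < T b := by
    rw [← hT0]; exact hmono zero_mem_Ici' hb.le hb
  have hsurj : ∀ x ∈ Icc 0 (T b), ∃ r ∈ Icc 0 b, T r = x := by
    intro x hx
    have := intermediate_value_Icc hb.le hTc.continuousOn
    rw [hT0] at this
    exact this hx
  choose! R hR using hsurj
  have hinv : ∀ r ∈ Icc 0 b, R (T r) = r := by
    intro r hr
    have hTr : T r ∈ Icc 0 (T b) := by
      constructor
      · rw [← hT0]; exact hmono.monotoneOn zero_mem_Ici' hr.1 hr.1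
      · exact hmono.monotoneOn hr.1 hb.le hr.2
    exact hmono.injOn (hR _ hTr).1.1 hr.1 (hR _ hTr).2
  have hRm : StrictMonoOn R (Icc 0 (T b)) := by
    intro x hx y hy hxy
    by_contra hcon
    push Not at hcon
    have := hmono.monotoneOn (hR y hy).1.1 (hR x hx).1.1 hcon
    rw [(hR y hy).2, (hR x hx).2] at this
    linarith
  have himg : R '' (Icc 0 (T b)) = Icc 0 b := by
    apply Subset.antisymm
    · rintro _ ⟨x, hx, rfl⟩
      exact (hR x hx).1
    · intro r hr
      refine ⟨T r, ?_, hinv r hr⟩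
      constructor
      · rw [← hT0]; exact hmono.monotoneOn zero_mem_Ici' hr.1 hr.1
      · exact hmono.monotoneOn hr.1 hb.le hr.2
  have hR0 : R 0 = 0 := by
    have := hinv 0 ⟨le_rfl, hb.le⟩
    rwa [hT0] at this
  have hRb : R (T b) = b := hinv b ⟨hb.le, le_rfl⟩
  refine ⟨R, hR, hinv, hRm, ?_, ?_⟩
  · intro x hx
    have hxI : x ∈ Icc 0 (T b) := Ioo_subset_Icc_self hx
    have hRx : R x ∈ Ioo 0 b := by
      constructor
      · rw [← hR0]
        exact hRm ⟨le_rfl, hTb.le⟩ hxI hx.1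
      · rw [← hRb]
        exact hRm hxI ⟨hTb.le, le_rfl⟩ hx.2
    refine ⟨hRx, ?_⟩
    have hcont : ContinuousAt R x := by
      refine hRm.continuousAt_of_image_mem_nhds (Icc_mem_nhds hx.1 hx.2) ?_
      rw [himg]
      exact Icc_mem_nhds hRx.1 hRx.2
    refine HasDerivAt.of_local_left_inverse hcont (hT (R x)) (hpos _ hRx.1).ne' ?_
    filter_upwards [Icc_mem_nhds hx.1 hx.2] with y hy
    exact (hR y hy).2
  · rw [Metric.continuousWithinAt_iff]
    intro ε hε
    have hε' : 0 < min ε b := lt_min hε hb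
    have hTε : 0 < T (min ε b) := by
      rw [← hT0]; exact hmono zero_mem_Ici' hε'.le hε'
    refine ⟨T (min ε b), hTε, ?_⟩
    intro x hx hxd
    rw [Real.dist_eq, sub_zero, abs_of_nonneg hx] at hxd
    have hxI : x ∈ Icc 0 (T b) := by
      refine ⟨hx, hxd.le.trans ?_⟩
      exact hmono.monotoneOn hε'.le hb.le (min_le_right _ _)
    have h1 := hR x hxI
    rw [hR0, Real.dist_eq, sub_zero, abs_of_nonneg h1.1.1]
    by_contra hcon
    push Not at hcon
    have := hmono.monotoneOn hε'.le h1.1.1 ((min_le_left _ _).trans hcon)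
    rw [h1.2] at this
    linarith

/-- comparison of amplitudes at equal phase -/
theorem phase_compare {g g' : ℝ → ℝ} (hg0 : g 0 = 0) (hg : ∀ r, HasDerivAt g (g' r) r)
    (hgpos : ∀ r, 0 < r → 0 < g r) (hg'pos : ∀ r, 0 < g' r) (hanti : AntitoneOn g' (Ici 0))
    {l1 l2 : ℝ} (hl2 : 0 < l2) (hl : l2 ≤ l1)
    {T1 T1' L1 L1' T2 T2' L2 L2' : ℝ → ℝ}
    (hT1 : ∀ r, HasDerivAt T1 (T1' r) r) (hT2 : ∀ r, HasDerivAt T2 (T2' r) r)
    (hT10 : T1 0 = 0) (hT20 : T2 0 = 0)
    (hp1 : ∀ r, 0 < r → 0 < T1' r) (hp2 : ∀ r, 0 < r → 0 < T2' r)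
    (he1 : ∀ r, 0 < r → g r * T1' r = l1 * g r - sin (T1 r) * cos (T1 r))
    (he2 : ∀ r, 0 < r → g r * T2' r = l2 * g r - sin (T2 r) * cos (T2 r))
    (hL1 : ∀ r, HasDerivAt L1 (L1' r) r) (hL2 : ∀ r, HasDerivAt L2 (L2' r) r)
    (hL10 : L1 0 = 0) (hL20 : L2 0 = 0)
    (hf1 : ∀ r, 0 < r → g r * L1' r = -sin (T1 r) ^ 2)
    (hf2 : ∀ r, 0 < r → g r * L2' r = -sin (T2 r) ^ 2)
    {r1 r2 : ℝ} (hr1 : 0 < r1) (hr2 : 0 < r2) (hr : T1 r1 = T2 r2) : L2 r2 ≤ L1 r1 := by
  have hl1 : 0 < l1 := hl2.trans_le hl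
  have hgc : Continuous g := continuous_iff_continuousAt.2 fun r => (hg r).continuousAt
  have hL1c : Continuous L1 := continuous_iff_continuousAt.2 fun r => (hL1 r).continuousAt
  have hL2c : Continuous L2 := continuous_iff_continuousAt.2 fun r => (hL2 r).continuousAt
  have hgm : StrictMono g := by
    refine strictMono_of_deriv_pos fun r => ?_
    rw [(hg r).deriv]; exact hg'pos r
  obtain ⟨R1, hR1, hi1, hm1, hd1, hc1⟩ := exists_inverse (b := r1 + 1) (by linarith) hT10 hT1 hp1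
  obtain ⟨R2, hR2, hi2, hm2, hd2, hc2⟩ := exists_inverse (b := r2 + 1) (by linarith) hT20 hT2 hp2
  have hTm1 : StrictMonoOn T1 (Ici 0) := by
    refine strictMonoOn_of_deriv_pos (convex_Ici 0)
      (continuous_iff_continuousAt.2 fun r => (hT1 r).continuousAt).continuousOn ?_
    intro r hr
    rw [interior_Ici] at hr
    rw [(hT1 r).deriv]; exact hp1 r hr
  have hTm2 : StrictMonoOn T2 (Ici 0) := by
    refine strictMonoOn_of_deriv_pos (convex_Ici 0)
      (continuous_iff_continuousAt.2 fun r => (hT2 r).continuousAt).continuousOn ?_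
    intro r hr
    rw [interior_Ici] at hr
    rw [(hT2 r).deriv]; exact hp2 r hr
  set ts := T1 r1 with hts
  have hts0 : 0 < ts := by
    rw [hts, ← hT10]; exact hTm1 zero_mem_Ici' hr1.le hr1
  have hb1 : ts < T1 (r1 + 1) := hTm1 hr1.le (by simp; linarith) (by linarith)
  have hb2 : ts < T2 (r2 + 1) := by
    rw [hr]; exact hTm2 hr2.le (by simp; linarith) (by linarith)
  have hR10 : R1 0 = 0 := by
    have := hi1 0 ⟨le_rfl, by linarith⟩
    rwa [hT10] at this
  have hR20 : R2 0 = 0 := by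
    have := hi2 0 ⟨le_rfl, by linarith⟩
    rwa [hT20] at this
  have hR1ts : R1 ts = r1 := hi1 r1 ⟨hr1.le, by linarith⟩
  have hR2ts : R2 ts = r2 := by rw [hr]; exact hi2 r2 ⟨hr2.le, by linarith⟩
  -- continuity
  have hR1c : ContinuousOn R1 (Icc 0 ts) := by
    intro x hx
    rcases eq_or_lt_of_le hx.1 with h | h
    · rw [← h]; exact hc1.mono Icc_subset_Ici_self
    · exact (hd1 x ⟨h, hx.2.trans_lt hb1⟩).2.continuousAt.continuousWithinAt
  have hR2c : ContinuousOn R2 (Icc 0 ts) := by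
    intro x hx
    rcases eq_or_lt_of_le hx.1 with h | h
    · rw [← h]; exact hc2.mono Icc_subset_Ici_self
    · exact (hd2 x ⟨h, hx.2.trans_lt hb2⟩).2.continuousAt.continuousWithinAt
  set y1 : ℝ → ℝ := fun x => l1 * g (R1 x) with hy1
  set y2 : ℝ → ℝ := fun x => l2 * g (R2 x) with hy2
  have hy1d : ∀ x ∈ Ioc 0 ts, HasDerivAt y1 (l1 * (g' (R1 x) * (T1' (R1 x))⁻¹)) x := by
    intro x hx
    have h := (hd1 x ⟨hx.1, hx.2.trans_lt hb1⟩).2
    exact ((hg (R1 x)).comp x h).const_mul l1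
  have hy2d : ∀ x ∈ Ioc 0 ts, HasDerivAt y2 (l2 * (g' (R2 x) * (T2' (R2 x))⁻¹)) x := by
    intro x hx
    have h := (hd2 x ⟨hx.1, hx.2.trans_lt hb2⟩).2
    exact ((hg (R2 x)).comp x h).const_mul l2
  have hy1c : ContinuousOn y1 (Icc 0 ts) := continuousOn_const.mul (hgc.comp_continuousOn hR1c)
  have hy2c : ContinuousOn y2 (Icc 0 ts) := continuousOn_const.mul (hgc.comp_continuousOn hR2c)
  -- basic facts at a phase x
  have hfacts : ∀ x ∈ Ioc 0 ts, 0 < R1 x ∧ 0 < R2 x ∧ 0 < g (R1 x) ∧ 0 < g (R2 x) ∧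
      g (R1 x) * T1' (R1 x) = y1 x - sin x * cos x ∧
      g (R2 x) * T2' (R2 x) = y2 x - sin x * cos x ∧
      0 < T1' (R1 x) ∧ 0 < T2' (R2 x) := by
    intro x hx
    have h1 := (hd1 x ⟨hx.1, hx.2.trans_lt hb1⟩).1.1
    have h2 := (hd2 x ⟨hx.1, hx.2.trans_lt hb2⟩).1.1
    have e1 := he1 _ h1
    have e2 := he2 _ h2
    rw [(hR1 x ⟨hx.1.le, (hx.2.trans_lt hb1).le⟩).2] at e1
    rw [(hR2 x ⟨hx.1.le, (hx.2.trans_lt hb2).le⟩).2] at e2
    exact ⟨h1, h2, hgpos _ h1, hgpos _ h2, e1, e2, hp1 _ h1, hp2 _ h2⟩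
  have hy2mono : ∀ x ∈ Ioc 0 ts, ∀ z ∈ Ioc 0 ts, x ≤ z → y2 x ≤ y2 z := by
    intro x hx z hz hxz
    have := hm2.monotoneOn ⟨hx.1.le, (hx.2.trans_lt hb2).le⟩ ⟨hz.1.le, (hz.2.trans_lt hb2).le⟩ hxz
    exact mul_le_mul_of_nonneg_left (hgm.monotone this) hl2.le
  -- first claim
  have hD : ∀ x ∈ Icc 0 ts, y2 x ≤ y1 x := by
    by_contra hcon
    push Not at hcon
    obtain ⟨t1, ht1, hneg⟩ := hcon
    have hD0 : y1 0 = 0 ∧ y2 0 = 0 := by simp [hy1, hy2, hR10, hR20, hg0]
    have ht1pos : 0 < t1 := by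
      rcases eq_or_lt_of_le ht1.1 with h | h
      · exfalso; rw [← h] at hneg; rw [hD0.1, hD0.2] at hneg; exact lt_irrefl _ hneg
      · exact h
    set D : ℝ → ℝ := fun x => y1 x - y2 x with hDdef
    have hDc : ContinuousOn D (Icc 0 ts) := hy1c.sub hy2c
    have hDc1 : ContinuousOn D (Icc 0 t1) := hDc.mono (Icc_subset_Icc_right ht1.2)
    set S : Set ℝ := Icc 0 t1 ∩ D ⁻¹' (Ici 0) with hS
    have hSc : IsClosed S := hDc1.preimage_isClosed_of_isClosed isClosed_Icc isClosed_Ici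
    have hSne : S.Nonempty := ⟨0, ⟨le_rfl, ht1pos.le⟩, by simp [hDdef, hD0.1, hD0.2]⟩
    have hSb : BddAbove S := ⟨t1, fun x hx => hx.1.2⟩
    set t0 := sSup S with ht0
    have ht0S : t0 ∈ S := hSc.csSup_mem hSne hSb
    have ht0t1 : t0 < t1 := by
      refine lt_of_le_of_ne ht0S.1.2 ?_
      intro h
      have := ht0S.2
      rw [h] at this
      simp only [hDdef, mem_preimage, mem_Ici] at this
      linarith
    have hDneg : ∀ x ∈ Ioc t0 t1, D x < 0 := by
      intro x hx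
      by_contra hc
      push Not at hc
      have : x ∈ S := ⟨⟨ht0S.1.1.trans hx.1.le, hx.2⟩, hc⟩
      exact absurd (le_csSup hSb this) (not_le.2 hx.1)
    set m := min (π / 2) t1 with hm
    have hmpos : 0 < m := lt_min (by positivity) ht1pos
    have hmts : m ∈ Ioc 0 ts := ⟨hmpos, (min_le_right _ _).trans ht1.2⟩
    have hy2m : 0 < y2 m := mul_pos hl2 (hfacts m hmts).2.2.2.1
    set K := g' 0 / y2 m with hK
    have hKnn : 0 ≤ K := by have := hg'pos 0; positivity
    have hDd : ∀ x ∈ Ioc 0 ts, HasDerivAt D (l1 * (g' (R1 x) * (T1' (R1 x))⁻¹)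
        - l2 * (g' (R2 x) * (T2' (R2 x))⁻¹)) x := fun x hx => (hy1d x hx).sub (hy2d x hx)
    have hineq : ∀ x ∈ Ioo t0 t1, K * D x ≤ l1 * (g' (R1 x) * (T1' (R1 x))⁻¹)
        - l2 * (g' (R2 x) * (T2' (R2 x))⁻¹) := by
      intro x hx
      have hx' : x ∈ Ioc 0 ts := ⟨ht0S.1.1.trans_lt hx.1, hx.2.le.trans ht1.2⟩
      obtain ⟨hR1p, hR2p, hg1p, hg2p, e1, e2, hT1p, hT2p⟩ := hfacts x hx'
      have hDx := hDneg x ⟨hx.1, hx.2.le⟩
      have hylt : y1 x < y2 x := by simp only [hDdef] at hDx; linarith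
      have hglt : g (R1 x) < g (R2 x) := by
        simp only [hy1, hy2] at hylt
        by_contra hc
        push Not at hc
        have : l2 * g (R2 x) ≤ l1 * g (R1 x) :=
          mul_le_mul hl hc hg2p.le hl1.le
        linarith
      have hRlt : R1 x < R2 x := hgm.lt_iff_lt.1 hglt
      have hg'le : g' (R2 x) ≤ g' (R1 x) := hanti hR1p.le hR2p.le hRlt.le
      have hE1 : 0 < y1 x - sin x * cos x := by rw [← e1]; positivity
      have hE2 : 0 < y2 x - sin x * cos x := by rw [← e2]; positivity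
      have hA1 : l1 * (T1' (R1 x))⁻¹ = y1 x / (y1 x - sin x * cos x) := by
        rw [← e1]; simp only [hy1]; field_simp
      have hA2 : l2 * (T2' (R2 x))⁻¹ = y2 x / (y2 x - sin x * cos x) := by
        rw [← e2]; simp only [hy2]; field_simp
      have hyp1 : 0 < y1 x := mul_pos hl1 hg1p
      have hyp2 : 0 < y2 x := mul_pos hl2 hg2p
      have hstep : g' (R2 x) * (y1 x / (y1 x - sin x * cos x) - y2 x / (y2 x - sin x * cos x))
          ≤ l1 * (g' (R1 x) * (T1' (R1 x))⁻¹) - l2 * (g' (R2 x) * (T2' (R2 x))⁻¹) := by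
        have : l1 * (g' (R1 x) * (T1' (R1 x))⁻¹) - l2 * (g' (R2 x) * (T2' (R2 x))⁻¹)
            = g' (R1 x) * (y1 x / (y1 x - sin x * cos x))
              - g' (R2 x) * (y2 x / (y2 x - sin x * cos x)) := by
          rw [← hA1, ← hA2]; ring
        rw [this, mul_sub]
        have hq : 0 ≤ y1 x / (y1 x - sin x * cos x) := by positivity
        have := mul_le_mul_of_nonneg_right hg'le hq
        linarith
      refine le_trans ?_ hstep
      have hdiff : y1 x / (y1 x - sin x * cos x) - y2 x / (y2 x - sin x * cos x)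
          = (sin x * cos x) * (-(D x)) / ((y1 x - sin x * cos x) * (y2 x - sin x * cos x)) := by
        rw [div_sub_div _ _ hE1.ne' hE2.ne']
        congr 1
        simp only [hDdef]; ring
      rw [hdiff]
      rcases le_or_gt 0 (sin x * cos x) with hsc | hsc
      · have h1 : K * D x ≤ 0 := mul_nonpos_of_nonneg_of_nonpos hKnn hDx.le
        have h2 : 0 ≤ g' (R2 x) * ((sin x * cos x) * (-(D x))
            / ((y1 x - sin x * cos x) * (y2 x - sin x * cos x))) := by
          have := hg'pos (R2 x)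
          have hDn : 0 ≤ -(D x) := by linarith
          positivity
        linarith
      · have hxpi : π / 2 < x := by
          by_contra hc
          push Not at hc
          have h1 : 0 ≤ sin x := sin_nonneg_of_nonneg_of_le_pi hx'.1.le (by linarith [pi_pos])
          have h2 : 0 ≤ cos x := cos_nonneg_of_mem_Icc ⟨by linarith [pi_pos, hx'.1], hc⟩
          have := mul_nonneg h1 h2
          linarith
        have hy2x : y2 m ≤ y2 x := hy2mono m hmts x hx' ((min_le_left _ _).trans hxpi.le)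
        set s := -(sin x * cos x) with hs
        have hspos : 0 < s := by linarith
        have hse : sin x * cos x = -s := by rw [hs]; ring
        rw [hse]
        have e1' : y1 x - -s = y1 x + s := by ring
        have e2' : y2 x - -s = y2 x + s := by ring
        rw [e1', e2']
        have hDn : 0 < -(D x) := by linarith
        have hq : g' (R2 x) * s / ((y1 x + s) * (y2 x + s)) ≤ K := by
          rw [hK, div_le_div_iff₀ (by positivity) hy2m]
          have h0 : g' (R2 x) ≤ g' 0 := hanti zero_mem_Ici' hR2p.le hR2p.le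
          have h1 : s * y2 m ≤ (y1 x + s) * (y2 x + s) :=
            mul_le_mul (by linarith) (by linarith) hy2m.le (by linarith)
          have h2 := hg'pos (R2 x)
          calc g' (R2 x) * s * y2 m = g' (R2 x) * (s * y2 m) := by ring
            _ ≤ g' 0 * ((y1 x + s) * (y2 x + s)) := by
                refine mul_le_mul h0 h1 (by positivity) (h2.le.trans h0)
        have : g' (R2 x) * (-s * -D x / ((y1 x + s) * (y2 x + s)))
            = -(g' (R2 x) * s / ((y1 x + s) * (y2 x + s)) * (-(D x))) := by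
          field_simp
        rw [this]
        have := mul_le_mul_of_nonneg_right hq hDn.le
        linarith
    have hmonoE : MonotoneOn (fun x => D x * exp (-(K * x))) (Icc t0 t1) := by
      refine monotoneOn_of_deriv_nonneg (convex_Icc _ _) ?_ ?_ ?_
      · refine ContinuousOn.mul (hDc1.mono (Icc_subset_Icc_left ht0S.1.1)) ?_
        fun_prop
      · rw [interior_Icc]
        intro x hx
        have hx' : x ∈ Ioc 0 ts := ⟨ht0S.1.1.trans_lt hx.1, hx.2.le.trans ht1.2⟩
        refine DifferentiableAt.differentiableWithinAt ?_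
        exact (hDd x hx').differentiableAt.mul (by fun_prop)
      · rw [interior_Icc]
        intro x hx
        have hx' : x ∈ Ioc 0 ts := ⟨ht0S.1.1.trans_lt hx.1, hx.2.le.trans ht1.2⟩
        have he : HasDerivAt (fun x : ℝ => exp (-(K * x))) (exp (-(K * x)) * (-(K * 1))) x :=
          (((hasDerivAt_id x).const_mul K).neg).exp
        have hm : HasDerivAt (fun x => D x * exp (-(K * x))) ((l1 * (g' (R1 x) * (T1' (R1 x))⁻¹)
            - l2 * (g' (R2 x) * (T2' (R2 x))⁻¹)) * exp (-(K * x))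
            + D x * (exp (-(K * x)) * (-(K * 1)))) x := (hDd x hx').mul he
        rw [hm.deriv]
        have h1 := hineq x hx
        have h2 := exp_pos (-(K * x))
        have h3 := mul_nonneg (sub_nonneg.2 h1) h2.le
        linarith
    have hfin := hmonoE ⟨le_rfl, ht0t1.le⟩ ⟨ht0t1.le, le_rfl⟩ ht0t1.le
    have h1 : 0 ≤ D t0 := ht0S.2
    have h2 : D t1 < 0 := hDneg t1 ⟨ht0t1, le_rfl⟩
    have h3 : D t1 * exp (-(K * t1)) < 0 := mul_neg_of_neg_of_pos h2 (exp_pos _)
    have h4 : 0 ≤ D t0 * exp (-(K * t0)) := mul_nonneg h1 (exp_pos _).le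
    simp only at hfin
    linarith
  -- second claim
  have hJ : MonotoneOn (fun x => L1 (R1 x) - L2 (R2 x)) (Icc 0 ts) := by
    have hJd : ∀ x ∈ Ioc 0 ts, HasDerivAt (fun x => L1 (R1 x) - L2 (R2 x))
        (L1' (R1 x) * (T1' (R1 x))⁻¹ - L2' (R2 x) * (T2' (R2 x))⁻¹) x := by
      intro x hx
      have h1 := (hd1 x ⟨hx.1, hx.2.trans_lt hb1⟩).2
      have h2 := (hd2 x ⟨hx.1, hx.2.trans_lt hb2⟩).2
      exact ((hL1 (R1 x)).comp x h1).sub ((hL2 (R2 x)).comp x h2)
    refine monotoneOn_of_deriv_nonneg (convex_Icc _ _) ?_ ?_ ?_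
    · exact (hL1c.comp_continuousOn hR1c).sub (hL2c.comp_continuousOn hR2c)
    · rw [interior_Icc]
      intro x hx
      exact (hJd x ⟨hx.1, hx.2.le⟩).differentiableAt.differentiableWithinAt
    · rw [interior_Icc]
      intro x hx
      have hx' : x ∈ Ioc 0 ts := ⟨hx.1, hx.2.le⟩
      rw [(hJd x hx').deriv]
      obtain ⟨hR1p, hR2p, hg1p, hg2p, e1, e2, hT1p, hT2p⟩ := hfacts x hx'
      have f1 := hf1 _ hR1p
      have f2 := hf2 _ hR2p
      rw [(hR1 x ⟨hx'.1.le, (hx'.2.trans_lt hb1).le⟩).2] at f1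
      rw [(hR2 x ⟨hx'.1.le, (hx'.2.trans_lt hb2).le⟩).2] at f2
      have hE1 : 0 < y1 x - sin x * cos x := by rw [← e1]; positivity
      have hE2 : 0 < y2 x - sin x * cos x := by rw [← e2]; positivity
      have hA1 : L1' (R1 x) * (T1' (R1 x))⁻¹ = -sin x ^ 2 / (y1 x - sin x * cos x) := by
        rw [← e1, ← f1]; field_simp
      have hA2 : L2' (R2 x) * (T2' (R2 x))⁻¹ = -sin x ^ 2 / (y2 x - sin x * cos x) := by
        rw [← e2, ← f2]; field_simp
      rw [hA1, hA2, neg_div, neg_div]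
      have hDx := hD x ⟨hx.1.le, hx.2.le⟩
      have : sin x ^ 2 / (y1 x - sin x * cos x) ≤ sin x ^ 2 / (y2 x - sin x * cos x) := by
        apply div_le_div_of_nonneg_left (sq_nonneg _) hE2
        linarith
      linarith
  have hfin := hJ ⟨le_rfl, hts0.le⟩ ⟨hts0.le, le_rfl⟩ hts0.le
  simp only [hR10, hR20, hL10, hL20, hR1ts, hR2ts] at hfin
  linarith

end Pool.Agent.T2H78.Hyp
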