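import Pool.Agent.T2H78.HypPhi
import Pool.Agent.T2H78.HypPru

/-!
Monotonicity of the normalised infimum of spherical functions.
-/

namespace Pool.Agent.T2H78.Hyp
open Real MeasureTheory Set Filter Topology intervalIntegral

theorem Lf_neg (r θ : ℝ) : Lf (-r) θ = Lf r (θ + π) := by
  unfold Lf Zf
  rw [Real.cosh_neg, Real.sinh_neg, Real.cos_add_pi]
  congr 1
  ring

theorem sph_even (l r : ℝ) : sph l (-r) = sph l r := by
  unfold sph
  congr 1
  simp_rw [Lf_neg]
  rw [intervalIntegral.integral_comp_add_right (fun θ => F0 l (Lf r θ))]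
  have hper : Function.Periodic (fun θ => F0 l (Lf r θ)) (2 * π) := by
    intro θ
    simp only [Lf, Zf, Real.cos_add_two_pi]
  have := hper.intervalIntegral_add_eq (0 + π) 0
  rw [show 2 * π + π = 0 + π + 2 * π by ring, this]
  simp

theorem U_even (l r : ℝ) : U l (-r) = U l r := by
  unfold U; rw [sph_even, sph_even]

theorem U1_odd (l r : ℝ) : U1 l (-r) = -U1 l r := by
  have h1 : HasDerivAt (fun r => U l (-r)) (U1 l (-r) * (-1)) r :=
    (hasDerivAt_U l (-r)).comp r (hasDerivAt_neg r)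
  have h2 : (fun r => U l (-r)) = U l := funext (U_even l)
  rw [h2] at h1
  have := h1.unique (hasDerivAt_U l r)
  linarith

/-- squared amplitude (times `l ^ 2`) -/
noncomputable def NN (l r : ℝ) : ℝ := l ^ 2 * U l r ^ 2 + U1 l r ^ 2

theorem NN_nonneg (l r : ℝ) : 0 ≤ NN l r := by unfold NN; positivity

theorem NN_cont : Continuous (fun p : ℝ × ℝ => NN p.1 p.2) := by
  unfold NN
  exact ((continuous_fst.pow 2).mul (U_cont.pow 2)).add (U1_cont.pow 2)

theorem NN_zero (l : ℝ) : NN l 0 = l ^ 2 := by simp [NN, U_zero, U1_zero]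

theorem hasDerivAt_NN (l r : ℝ) :
    HasDerivAt (NN l) (2 * l ^ 2 * U l r * U1 l r + 2 * U1 l r * U2 l r) r := by
  unfold NN
  refine ((((hasDerivAt_U l r).pow 2).const_mul (l ^ 2)).add ((hasDerivAt_U1 l r).pow 2)).congr_deriv ?_
  simp only [Nat.cast_ofNat, Nat.add_one_sub_one, pow_one]
  ring

/-- `w = φ_0 ^ 2 sinh` -/
noncomputable def ww (r : ℝ) : ℝ := sph 0 r ^ 2 * sinh r

theorem hasDerivAt_ww (r : ℝ) : HasDerivAt ww (sph 0 r * den r) r := by
  unfold ww
  refine (((hasDerivAt_sph 0 r).pow 2).mul (Real.hasDerivAt_sinh r)).congr_deriv ?_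
  simp only [Nat.cast_ofNat, Nat.add_one_sub_one, pow_one, Pi.pow_apply]
  unfold den; ring

theorem ww_eq (r : ℝ) : ww r = gg r * (sph 0 r * den r) := by
  unfold ww gg hh
  have := (den_pos r).ne'
  field_simp

theorem NN_pos_of_pos {l : ℝ} (hl : 0 < l) {r : ℝ} (hr : 0 < r) : 0 < NN l r := by
  have hQd : ∀ s, HasDerivAt (fun s => ww s ^ 2 * NN l s)
      (2 * ww s * (sph 0 s * den s) * (l ^ 2 * U l s ^ 2)) s := by
    intro s
    have h1 := ((hasDerivAt_ww s).pow 2).mul (hasDerivAt_NN l s)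
    refine h1.congr_deriv ?_
    simp only [Nat.cast_ofNat, Nat.add_one_sub_one, pow_one, Pi.pow_apply]
    have hU := U_ode l s
    have hw := ww_eq s
    unfold NN
    generalize sph 0 s * den s = v at *
    rw [hw]
    generalize gg s = g at *
    generalize U l s = a at *
    generalize U1 l s = b at *
    generalize U2 l s = c at *
    linear_combination (2 * g * v ^ 2 * b) * hU
  have hmono : MonotoneOn (fun s => ww s ^ 2 * NN l s) (Ici 0) := by
    refine monotoneOn_of_deriv_nonneg (convex_Ici 0)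
      (continuous_iff_continuousAt.2 fun s => (hQd s).continuousAt).continuousOn
      (fun s _ => (hQd s).differentiableAt.differentiableWithinAt) ?_
    intro s hs
    rw [interior_Ici] at hs
    rw [(hQd s).deriv]
    have h1 : 0 < ww s := mul_pos (pow_pos (sph0_pos s) 2) (Real.sinh_pos_iff.2 hs)
    have h2 := sph0_pos s
    have h3 := den_pos s
    positivity
  have hN0 : 0 < NN l 0 := by rw [NN_zero]; positivity
  have hNc : Continuous (NN l) := continuous_iff_continuousAt.2 fun s => (hasDerivAt_NN l s).continuousAt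
  have hev : ∀ᶠ s in 𝓝[>] (0 : ℝ), 0 < NN l s :=
    (hNc.continuousAt.eventually (lt_mem_nhds hN0)).filter_mono nhdsWithin_le_nhds
  have hev2 : ∀ᶠ s in 𝓝[>] (0 : ℝ), s ∈ Ioo 0 r := Ioo_mem_nhdsGT hr
  obtain ⟨s, hs1, hs2⟩ := (hev.and hev2).exists
  have h1 := hmono hs2.1.le hr.le hs2.2.le
  simp only at h1
  have h2 : 0 < ww s := mul_pos (pow_pos (sph0_pos s) 2) (Real.sinh_pos_iff.2 hs2.1)
  have h3 : 0 < ww s ^ 2 * NN l s := by positivity
  rcases (NN_nonneg l r).eq_or_lt with h | h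
  · rw [← h, mul_zero] at h1; linarith
  · exact h

theorem NN_pos {l : ℝ} (hl : 0 < l) (r : ℝ) : 0 < NN l r := by
  rcases lt_trichotomy r 0 with h | h | h
  · have := NN_pos_of_pos hl (r := -r) (by linarith)
    unfold NN at this ⊢
    rw [U_even, U1_odd] at this
    linarith
  · rw [h, NN_zero]; positivity
  · exact NN_pos_of_pos hl h

/-- derivative of the phase -/
noncomputable def Tp (l r : ℝ) : ℝ := l * (U1 l r ^ 2 - U l r * U2 l r) / NN l r
/-- phase -/
noncomputable def Th (l r : ℝ) : ℝ := ∫ s in (0 : ℝ)..r, Tp l s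
/-- derivative of the log amplitude -/
noncomputable def Lp' (l r : ℝ) : ℝ := (l ^ 2 * U l r * U1 l r + U1 l r * U2 l r) / NN l r
/-- log amplitude -/
noncomputable def La (l r : ℝ) : ℝ := Real.log (NN l r) / 2 - Real.log l

theorem Tp_cont : Continuous (fun p : ℝ × ℝ => Tp (exp p.1) p.2) := by
  unfold Tp
  have hm : Continuous (fun p : ℝ × ℝ => ((exp p.1, p.2) : ℝ × ℝ)) := by fun_prop
  have h0 := U_cont.comp hm
  have h1 := U1_cont.comp hm
  have h2 := U2_cont.comp hm
  have h3 := NN_cont.comp hm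
  simp only [Function.comp_def] at h0 h1 h2 h3
  refine Continuous.div ?_ h3 (fun p => (NN_pos (exp_pos _) _).ne')
  fun_prop

theorem Tp_cont' {l : ℝ} (hl : 0 < l) : Continuous (Tp l) := by
  have := Tp_cont.comp (f := fun r : ℝ => ((Real.log l, r) : ℝ × ℝ)) (by fun_prop)
  simp only [Function.comp_def, Real.exp_log hl] at this
  exact this

theorem hasDerivAt_Th {l : ℝ} (hl : 0 < l) (r : ℝ) : HasDerivAt (Th l) (Tp l r) r :=
  (Tp_cont' hl).integral_hasStrictDerivAt 0 r |>.hasDerivAt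

theorem Th_zero (l : ℝ) : Th l 0 = 0 := by simp [Th]

theorem hasDerivAt_La {l : ℝ} (hl : 0 < l) (r : ℝ) : HasDerivAt (La l) (Lp' l r) r := by
  unfold La Lp'
  refine ((((hasDerivAt_NN l r).log (NN_pos hl r).ne').div_const 2).sub_const _).congr_deriv ?_
  have := (NN_pos hl r).ne'
  field_simp

theorem La_zero {l : ℝ} (hl : 0 < l) : La l 0 = 0 := by
  unfold La
  rw [NN_zero, Real.log_pow]
  push_cast; ring

/-- polar coordinates -/
theorem polar {l : ℝ} (hl : 0 < l) (r : ℝ) :
    cos (Th l r) = l * U l r / √(NN l r) ∧ sin (Th l r) = -U1 l r / √(NN l r) := by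
  set X : ℝ → ℝ := fun r => l * U l r / √(NN l r) with hX
  set Y : ℝ → ℝ := fun r => -U1 l r / √(NN l r) with hY
  have hsq : ∀ r, √(NN l r) ^ 2 = NN l r := fun r => Real.sq_sqrt (NN_nonneg l r)
  have hspos : ∀ r, 0 < √(NN l r) := fun r => Real.sqrt_pos.2 (NN_pos hl r)
  have hunit : ∀ r, X r ^ 2 + Y r ^ 2 = 1 := by
    intro r
    simp only [hX, hY]
    rw [div_pow, div_pow, hsq, ← add_div, div_eq_one_iff_eq (NN_pos hl r).ne']
    unfold NN; ring
  have hsd : ∀ r, HasDerivAt (fun r => √(NN l r))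
      ((2 * l ^ 2 * U l r * U1 l r + 2 * U1 l r * U2 l r) / (2 * √(NN l r))) r :=
    fun r => (hasDerivAt_NN l r).sqrt (NN_pos hl r).ne'
  have hXd : ∀ r, HasDerivAt X (-(Tp l r) * Y r) r := by
    intro r
    refine (((hasDerivAt_U l r).const_mul l).div (hsd r) (hspos r).ne').congr_deriv ?_
    have hs := (hspos r).ne'
    have hq := hsq r
    have hN : NN l r = l ^ 2 * U l r ^ 2 + U1 l r ^ 2 := rfl
    simp only [Tp, hY]
    generalize √(NN l r) = s at *
    rw [← hq] at hN ⊢
    field_simp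
    linear_combination (U1 l r) * hN
  have hYd : ∀ r, HasDerivAt Y (Tp l r * X r) r := by
    intro r
    refine (((hasDerivAt_U1 l r).neg).div (hsd r) (hspos r).ne').congr_deriv ?_
    have hs := (hspos r).ne'
    have hq := hsq r
    have hN : NN l r = l ^ 2 * U l r ^ 2 + U1 l r ^ 2 := rfl
    simp only [Tp, hX, Pi.neg_apply]
    generalize √(NN l r) = s at *
    rw [← hq] at hN ⊢
    field_simp
    linear_combination (-(U2 l r)) * hN
  have hc : ∀ r, HasDerivAt (fun r => cos (Th l r) * X r + sin (Th l r) * Y r) 0 r := by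
    intro r
    have h1 := (hasDerivAt_Th hl r).cos
    have h2 := (hasDerivAt_Th hl r).sin
    refine ((h1.mul (hXd r)).add (h2.mul (hYd r))).congr_deriv ?_
    ring
  have hconst : ∀ r, cos (Th l r) * X r + sin (Th l r) * Y r = 1 := by
    intro r
    have := is_const_of_deriv_eq_zero (fun r => (hc r).differentiableAt) (fun r => (hc r).deriv) r 0
    rw [this, Th_zero]
    simp only [hX, hY, Real.cos_zero, Real.sin_zero, NN_zero, U_zero, U1_zero]
    rw [Real.sqrt_sq hl.le]
    field_simp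
    simp
  have h1 := hconst r
  have h2 := hunit r
  have h3 := Real.sin_sq_add_cos_sq (Th l r)
  have h4 : (cos (Th l r) - X r) ^ 2 + (sin (Th l r) - Y r) ^ 2 = 0 := by
    linear_combination h2 + h3 - 2 * h1
  have h5 : cos (Th l r) - X r = 0 := by
    have := sq_nonneg (sin (Th l r) - Y r)
    have := sq_nonneg (cos (Th l r) - X r)
    exact pow_eq_zero_iff (two_ne_zero) |>.1 (by linarith)
  have h6 : sin (Th l r) - Y r = 0 := by
    have := sq_nonneg (sin (Th l r) - Y r)
    have := sq_nonneg (cos (Th l r) - X r)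
    exact pow_eq_zero_iff (two_ne_zero) |>.1 (by linarith)
  exact ⟨by linarith, by linarith⟩

theorem phase_eq {l : ℝ} (hl : 0 < l) (r : ℝ) :
    gg r * Tp l r = l * gg r - sin (Th l r) * cos (Th l r) := by
  obtain ⟨h1, h2⟩ := polar hl r
  rw [h1, h2]
  have hs : √(NN l r) ^ 2 = NN l r := Real.sq_sqrt (NN_nonneg l r)
  have hN := (NN_pos hl r).ne'
  have hspos := (Real.sqrt_pos.2 (NN_pos hl r)).ne'
  have e : -U1 l r / √(NN l r) * (l * U l r / √(NN l r)) = -(l * U l r * U1 l r) / NN l r := by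
    generalize √(NN l r) = s at *
    rw [← hs]
    field_simp
  rw [e]
  have hU := U_ode l r
  unfold Tp
  have hNd : NN l r = l ^ 2 * U l r ^ 2 + U1 l r ^ 2 := rfl
  field_simp
  rw [hNd]
  linear_combination (-(U l r)) * hU

theorem amp_eq {l : ℝ} (hl : 0 < l) (r : ℝ) : gg r * Lp' l r = -sin (Th l r) ^ 2 := by
  obtain ⟨h1, h2⟩ := polar hl r
  rw [h2]
  have hs : √(NN l r) ^ 2 = NN l r := Real.sq_sqrt (NN_nonneg l r)
  have hN := (NN_pos hl r).ne'
  rw [div_pow, hs]
  have hU := U_ode l r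
  unfold Lp'
  field_simp
  linear_combination (U1 l r) * hU

theorem Tp_zero {l : ℝ} (hl : 0 < l) : Tp l 0 = l / 2 := by
  unfold Tp
  rw [NN_zero, U_zero, U1_zero, U2_zero]
  field_simp
  ring

theorem Tp_pos {l : ℝ} (hl : 0 < l) {r : ℝ} (hr : 0 ≤ r) : 0 < Tp l r := by
  by_contra hcon
  push Not at hcon
  have hc := Tp_cont' hl
  set S : Set ℝ := Icc 0 r ∩ Tp l ⁻¹' (Iic 0) with hS
  have hSc : IsClosed S := isClosed_Icc.inter (isClosed_Iic.preimage hc)
  have hSne : S.Nonempty := ⟨r, ⟨hr, le_rfl⟩, hcon⟩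
  have hSb : BddBelow S := ⟨0, fun x hx => hx.1.1⟩
  set r0 := sInf S with hr0
  have hr0S : r0 ∈ S := hSc.csInf_mem hSne hSb
  have hr0pos : 0 < r0 := by
    rcases hr0S.1.1.eq_or_lt with h | h
    · exfalso
      have := hr0S.2
      rw [← h] at this
      simp only [mem_preimage, mem_Iic, Tp_zero hl] at this
      linarith
    · exact h
  have hlt : ∀ x ∈ Ioo 0 r0, 0 < Tp l x := by
    intro x hx
    by_contra hc'
    push Not at hc'
    have : x ∈ S := ⟨⟨hx.1.le, hx.2.le.trans hr0S.1.2⟩, hc'⟩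
    exact absurd (csInf_le hSb this) (not_le.2 hx.2)
  have hT0 : Tp l r0 = 0 := by
    refine le_antisymm hr0S.2 ?_
    have hlim : Tendsto (Tp l) (𝓝[<] r0) (𝓝 (Tp l r0)) := hc.continuousAt.tendsto.mono_left nhdsWithin_le_nhds
    refine ge_of_tendsto hlim ?_
    filter_upwards [Ioo_mem_nhdsLT hr0pos] with x hx using (hlt x hx).le
  -- E = gg * Tp = l gg - sin cos
  have hE : HasDerivAt (fun x => gg x * Tp l x)
      (l * gg' r0 - (cos (Th l r0) * Tp l r0 * cos (Th l r0)
        + sin (Th l r0) * (-sin (Th l r0) * Tp l r0))) r0 := by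
    have : (fun x => gg x * Tp l x) = fun x => l * gg x - sin (Th l x) * cos (Th l x) :=
      funext (phase_eq hl)
    rw [this]
    exact ((hasDerivAt_gg r0).const_mul l).sub
      ((hasDerivAt_Th hl r0).sin.mul (hasDerivAt_Th hl r0).cos)
  rw [hT0] at hE
  have hE' : HasDerivAt (fun x => gg x * Tp l x) (l * gg' r0) r0 := by
    refine hE.congr_deriv ?_; ring
  have hsl := hE'.tendsto_slope.mono_left (nhdsWithin_mono (s := Iio r0) (t := {r0}ᶜ) r0 (fun x hx => ne_of_lt hx))
  have : l * gg' r0 ≤ 0 := by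
    refine le_of_tendsto hsl ?_
    filter_upwards [Ioo_mem_nhdsLT hr0pos] with x hx
    rw [slope_def_field, hT0]
    simp only [mul_zero, sub_zero]
    exact div_nonpos_of_nonneg_of_nonpos (mul_nonneg (gg_pos hx.1).le (hlt x hx).le)
      (by linarith [hx.2])
  have h2 := mul_pos hl (gg'_pos r0)
  linarith

theorem Th_mono {l : ℝ} (hl : 0 < l) : StrictMonoOn (Th l) (Ici 0) := by
  refine strictMonoOn_of_deriv_pos (convex_Ici 0)
    (continuous_iff_continuousAt.2 fun r => (hasDerivAt_Th hl r).continuousAt).continuousOn ?_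
  intro r hr
  rw [interior_Ici] at hr
  rw [(hasDerivAt_Th hl r).deriv]
  exact Tp_pos hl hr.le

theorem Th_lower {l d : ℝ} (hl : 0 < l) (hd : 0 < d) :
    d / 2 * (l - (gg (d / 2))⁻¹) ≤ Th l d := by
  have hm : MonotoneOn (fun r => Th l r - (l - (gg (d / 2))⁻¹) * r) (Icc (d / 2) d) := by
    have hdv : ∀ r, HasDerivAt (fun r => Th l r - (l - (gg (d / 2))⁻¹) * r)
        (Tp l r - (l - (gg (d / 2))⁻¹) * 1) r := fun r =>
      (hasDerivAt_Th hl r).sub ((hasDerivAt_id r).const_mul _)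
    refine monotoneOn_of_deriv_nonneg (convex_Icc _ _)
      (continuous_iff_continuousAt.2 fun r => (hdv r).continuousAt).continuousOn
      (fun r _ => (hdv r).differentiableAt.differentiableWithinAt) ?_
    intro r hr
    rw [interior_Icc] at hr
    rw [(hdv r).deriv]
    have hr0 : 0 < r := by linarith [hr.1]
    have hg := gg_pos hr0
    have hg2 := gg_pos (show 0 < d / 2 by linarith)
    have hgle : gg (d / 2) ≤ gg r :=
      gg_strictMono.monotoneOn (by simp; linarith) hr0.le hr.1.le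
    have he := phase_eq hl r
    have hsc : sin (Th l r) * cos (Th l r) ≤ 1 := by
      nlinarith [Real.sin_sq_add_cos_sq (Th l r), sq_nonneg (sin (Th l r) - cos (Th l r))]
    have h1 : Tp l r = l - sin (Th l r) * cos (Th l r) * (gg r)⁻¹ := by
      field_simp; linarith
    rw [h1]
    have h2 : (gg r)⁻¹ ≤ (gg (d / 2))⁻¹ := inv_anti₀ hg2 hgle
    have h3 : 0 < (gg r)⁻¹ := inv_pos.2 hg
    nlinarith
  have h1 := hm ⟨le_rfl, by linarith⟩ ⟨by linarith, le_rfl⟩ (show d / 2 ≤ d by linarith)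
  simp only at h1
  have h2 : 0 ≤ Th l (d / 2) := by
    rw [← Th_zero l]
    exact (Th_mono hl).monotoneOn zero_mem_Ici' (by simp; linarith) (by linarith)
  linarith

theorem Th_cont_l (d : ℝ) : Continuous (fun t : ℝ => Th (exp t) d) := by
  unfold Th
  exact continuous_parametric_intervalIntegral_of_continuous'
    (f := fun t s => Tp (exp t) s) Tp_cont 0 d

/-- every large phase is attained at distance `d` by a large frequency -/
theorem exists_freq {l0 d x : ℝ} (hl0 : 0 < l0) (hd : 0 < d) (hx : Th l0 d ≤ x) :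
    ∃ l, l0 ≤ l ∧ Th l d = x := by
  set M := max l0 (2 * |x| / d + (gg (d / 2))⁻¹) with hM
  have hMpos : 0 < M := lt_of_lt_of_le hl0 (le_max_left _ _)
  have hbig : x ≤ Th M d := by
    refine le_trans ?_ (Th_lower hMpos hd)
    have h1 : 2 * |x| / d + (gg (d / 2))⁻¹ ≤ M := le_max_right _ _
    have h2 : 2 * |x| / d ≤ M - (gg (d / 2))⁻¹ := by linarith
    calc x ≤ |x| := le_abs_self x
      _ = d / 2 * (2 * |x| / d) := by field_simp
      _ ≤ _ := mul_le_mul_of_nonneg_left h2 (by linarith)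
  have hlog : Real.log l0 ≤ Real.log M := Real.log_le_log hl0 (le_max_left _ _)
  have := intermediate_value_Icc hlog (Th_cont_l d).continuousOn
  have hmem : x ∈ Icc (Th (exp (Real.log l0)) d) (Th (exp (Real.log M)) d) := by
    rw [Real.exp_log hl0, Real.exp_log hMpos]; exact ⟨hx, hbig⟩
  obtain ⟨t, ht, hte⟩ := this hmem
  refine ⟨exp t, ?_, hte⟩
  rw [← Real.exp_log hl0]
  exact Real.exp_le_exp.2 ht.1

theorem U_eq {l : ℝ} (hl : 0 < l) (r : ℝ) : U l r = exp (La l r) * cos (Th l r) := by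
  have hN := NN_pos hl r
  have h1 : exp (La l r) = √(NN l r) / l := by
    unfold La
    rw [Real.exp_sub, Real.exp_log hl, ← Real.log_sqrt hN.le, Real.exp_log (Real.sqrt_pos.2 hN)]
  rw [h1, (polar hl r).1]
  have hs := (Real.sqrt_pos.2 hN).ne'
  field_simp

/-- Comparison theorem: a negative value of the normalised spherical function at a larger
distance is beaten at a smaller distance. -/
theorem sph_compare {d1 d2 l2 : ℝ} (hd1 : 0 < d1) (hd : d1 < d2) (hl2 : 0 < l2)
    (hneg : sph l2 d2 < 0) :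
    ∃ l1, 0 < l1 ∧ sph l1 d1 / sph 0 d1 ≤ sph l2 d2 / sph 0 d2 := by
  have hd2 : 0 < d2 := hd1.trans hd
  obtain ⟨l1, hl12, hT⟩ := exists_freq (x := Th l2 d2) hl2 hd1
    ((Th_mono hl2).monotoneOn hd1.le hd2.le hd.le)
  have hl1 : 0 < l1 := hl2.trans_le hl12
  refine ⟨l1, hl1, ?_⟩
  have hL := phase_compare gg_zero hasDerivAt_gg (fun r hr => gg_pos hr) gg'_pos gg'_antitone
    hl2 hl12 (hasDerivAt_Th hl1) (hasDerivAt_Th hl2) (Th_zero l1) (Th_zero l2)
    (fun r hr => Tp_pos hl1 hr.le) (fun r hr => Tp_pos hl2 hr.le)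
    (fun r _ => phase_eq hl1 r) (fun r _ => phase_eq hl2 r)
    (hasDerivAt_La hl1) (hasDerivAt_La hl2) (La_zero hl1) (La_zero hl2)
    (fun r _ => amp_eq hl1 r) (fun r _ => amp_eq hl2 r) hd1 hd2 hT
  have h1 : sph l1 d1 / sph 0 d1 = exp (La l1 d1) * cos (Th l1 d1) := U_eq hl1 d1
  have h2 : sph l2 d2 / sph 0 d2 = exp (La l2 d2) * cos (Th l2 d2) := U_eq hl2 d2
  rw [h1, h2, hT]
  have h3 : sph l2 d2 / sph 0 d2 < 0 := div_neg_of_neg_of_pos hneg (sph0_pos d2)
  rw [h2] at h3
  have h4 : cos (Th l2 d2) < 0 := by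
    by_contra hc
    push Not at hc
    have := mul_nonneg (exp_pos (La l2 d2)).le hc
    linarith
  exact mul_le_mul_of_nonpos_right (Real.exp_le_exp.2 hL) h4.le

theorem exists_sph_neg {d : ℝ} (hd : 0 < d) : ∃ l, 0 < l ∧ sph l d < 0 := by
  have hpi := Real.pi_pos
  set k : ℕ := ⌈Th 1 d / (2 * π)⌉₊ with hk
  have h1 : Th 1 d ≤ π + k * (2 * π) := by
    have h2 : Th 1 d / (2 * π) ≤ k := Nat.le_ceil _
    rw [div_le_iff₀ (by positivity)] at h2
    linarith
  obtain ⟨l, hl, hT⟩ := exists_freq one_pos hd h1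
  have hl0 : 0 < l := lt_of_lt_of_le one_pos hl
  refine ⟨l, hl0, ?_⟩
  have hU := U_eq hl0 d
  rw [hT, Real.cos_add_nat_mul_two_pi, Real.cos_pi] at hU
  have h3 : U l d < 0 := by rw [hU]; have := exp_pos (La l d); linarith
  unfold U at h3
  have h4 := sph0_pos d
  by_contra hc
  push Not at hc
  have := div_nonneg hc h4.le
  linarith

end Pool.Agent.T2H78.Hyp
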