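import Pool.Agent.T2H78.HypCmp

/-!
A bounded continuous solution of the product formula with a negative value is a spherical
function with real spectral parameter.
-/

namespace Pool.Agent.T2H78.Hyp
open Real MeasureTheory Set Filter Topology intervalIntegral

section
variable {P : ℝ → ℝ}

theorem bdd_ii {f : ℝ → ℝ} (hm : Measurable f) {C : ℝ} (hb : ∀ x, |f x| ≤ C) (a b : ℝ) :
    IntervalIntegrable f volume a b := by
  have h : IntervalIntegrable (fun _ : ℝ => C) volume a b := intervalIntegrable_const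
  refine h.mono_fun hm.aestronglyMeasurable (Eventually.of_forall fun x => ?_)
  show ‖f x‖ ≤ ‖C‖
  rw [Real.norm_eq_abs, Real.norm_eq_abs]
  exact (hb x).trans (le_abs_self C)

theorem bdd_primitive_cont {f : ℝ → ℝ} (hm : Measurable f) {C : ℝ} (hb : ∀ x, |f x| ≤ C) (a : ℝ) :
    Continuous (fun x => ∫ s in a..x, f s) :=
  intervalIntegral.continuous_primitive (fun a b => bdd_ii hm hb a b) a

/-- primitive of `P` -/
noncomputable def Vf (P : ℝ → ℝ) (x : ℝ) : ℝ := ∫ s in (1 : ℝ)..x, P s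
/-- `V / (x ^ 2 - 1)` -/
noncomputable def G1 (P : ℝ → ℝ) (x : ℝ) : ℝ := if 1 < x then Vf P x / (x ^ 2 - 1) else 0
noncomputable def G0 (P : ℝ → ℝ) (x : ℝ) : ℝ := ∫ s in (1 : ℝ)..x, G1 P s
noncomputable def G2 (P : ℝ → ℝ) (x : ℝ) : ℝ := (P x - 2 * x * G1 P x) / (x ^ 2 - 1)

variable (hm : Measurable P) (hb : ∀ x, |P x| ≤ 1) (hc : ContinuousOn P (Ioi 1))
include hm hb

theorem Vf_cont : Continuous (Vf P) := bdd_primitive_cont hm hb 1

theorem abs_Vf_le {x : ℝ} (hx : 1 ≤ x) : |Vf P x| ≤ x - 1 := by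
  unfold Vf
  have := intervalIntegral.norm_integral_le_of_norm_le_const (a := 1) (b := x) (f := P) (C := 1)
    (fun y _ => by rw [Real.norm_eq_abs]; exact hb y)
  rw [Real.norm_eq_abs, abs_of_nonneg (by linarith : (0 : ℝ) ≤ x - 1), one_mul] at this
  exact this

theorem G1_meas : Measurable (G1 P) := by
  unfold G1
  refine Measurable.ite measurableSet_Ioi ?_ measurable_const
  exact (Vf_cont hm hb).measurable.div (by fun_prop)

theorem abs_G1_le (x : ℝ) : |G1 P x| ≤ 1 / 2 := by
  unfold G1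
  split_ifs with h
  · have h1 := abs_Vf_le hm hb h.le
    have h2 : 0 < x ^ 2 - 1 := by nlinarith
    rw [abs_div, abs_of_pos h2, div_le_iff₀ h2]
    nlinarith
  · simp

theorem G0_cont : Continuous (G0 P) :=
  bdd_primitive_cont (G1_meas hm hb) (abs_G1_le hm hb) 1

theorem abs_G0_le {x : ℝ} (hx : 1 ≤ x) : |G0 P x| ≤ (x - 1) / 2 := by
  unfold G0
  have := intervalIntegral.norm_integral_le_of_norm_le_const (a := 1) (b := x) (f := G1 P)
    (C := 1 / 2) (fun y _ => by rw [Real.norm_eq_abs]; exact abs_G1_le hm hb y)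
  rw [Real.norm_eq_abs, abs_of_nonneg (by linarith : (0 : ℝ) ≤ x - 1)] at this
  linarith

include hc

theorem hasDerivAt_Vf {x : ℝ} (hx : 1 < x) : HasDerivAt (Vf P) (P x) x :=
  intervalIntegral.integral_hasDerivAt_right (bdd_ii hm hb _ _)
    (hm.stronglyMeasurable.stronglyMeasurableAtFilter) (hc.continuousAt (Ioi_mem_nhds hx))

theorem hasDerivAt_G1 {x : ℝ} (hx : 1 < x) : HasDerivAt (G1 P) (G2 P x) x := by
  have h2 : x ^ 2 - 1 ≠ 0 := by nlinarith
  have h1 : HasDerivAt (fun x => Vf P x / (x ^ 2 - 1)) (G2 P x) x := by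
    have h3 : HasDerivAt (fun x : ℝ => x ^ 2 - 1) (2 * x) x := by
      simpa using (hasDerivAt_pow 2 x).sub_const 1
    refine ((hasDerivAt_Vf hm hb hc hx).div h3 h2).congr_deriv ?_
    unfold G2 G1
    rw [if_pos hx]
    field_simp
  refine h1.congr_of_eventuallyEq ?_
  filter_upwards [Ioi_mem_nhds hx] with y hy
  unfold G1
  rw [if_pos (Set.mem_Ioi.1 hy)]

theorem G1_contOn : ContinuousOn (G1 P) (Ioi 1) := fun _ hx =>
  (hasDerivAt_G1 hm hb hc hx).continuousAt.continuousWithinAt

theorem G2_contOn : ContinuousOn (G2 P) (Ioi 1) := by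
  unfold G2
  refine ContinuousOn.div ?_ (by fun_prop) ?_
  · exact hc.sub ((continuousOn_const.mul continuousOn_id).mul (G1_contOn hm hb hc))
  · intro x hx
    have : (1 : ℝ) < x := hx
    nlinarith

theorem hasDerivAt_G0 {x : ℝ} (hx : 1 < x) : HasDerivAt (G0 P) (G1 P x) x :=
  intervalIntegral.integral_hasDerivAt_right (bdd_ii (G1_meas hm hb) (abs_G1_le hm hb) _ _)
    ((G1_meas hm hb).stronglyMeasurable.stronglyMeasurableAtFilter)
    ((G1_contOn hm hb hc).continuousAt (Ioi_mem_nhds hx))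

end

/-- law of cosines -/
noncomputable def XX (a b θ : ℝ) : ℝ := cosh a * cosh b + sinh a * sinh b * cos θ
noncomputable def XXb (a b θ : ℝ) : ℝ := cosh a * sinh b + sinh a * cosh b * cos θ

theorem XX_comm (a b θ : ℝ) : XX a b θ = XX b a θ := by unfold XX; ring

theorem XX_cont : Continuous (fun q : (ℝ × ℝ) × ℝ => XX q.1.1 q.1.2 q.2) := by
  unfold XX; fun_prop

theorem XX_cont' (a : ℝ) : Continuous (fun q : ℝ × ℝ => XX a q.1 q.2) := by
  unfold XX; fun_prop

theorem XXb_cont' (a : ℝ) : Continuous (fun q : ℝ × ℝ => XXb a q.1 q.2) := by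
  unfold XXb; fun_prop

theorem XX_ge (a b θ : ℝ) (ha : 0 ≤ a) (hb : 0 ≤ b) : cosh (a - b) ≤ XX a b θ := by
  unfold XX
  rw [Real.cosh_sub]
  have h1 := Real.sinh_nonneg_iff.2 ha
  have h2 := Real.sinh_nonneg_iff.2 hb
  have h3 := Real.neg_one_le_cos θ
  have h4 := mul_nonneg h1 h2
  nlinarith

theorem XX_one_lt {a b : ℝ} (θ : ℝ) (ha : 0 ≤ a) (hb : 0 ≤ b) (hab : a ≠ b) : 1 < XX a b θ :=
  lt_of_lt_of_le (Real.one_lt_cosh.2 (sub_ne_zero.2 hab)) (XX_ge a b θ ha hb)

theorem one_le_XX (a b θ : ℝ) : 1 ≤ XX a b θ := by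
  unfold XX
  have h1 := Real.cosh_sq a
  have h2 := Real.cosh_sq b
  have h3 := Real.cosh_pos a
  have h4 := Real.cosh_pos b
  have h5 : |sinh a * sinh b * cos θ| ≤ |sinh a * sinh b| := by
    rw [abs_mul]
    exact mul_le_of_le_one_right (abs_nonneg _) (Real.abs_cos_le_one θ)
  have h6 : |sinh a * sinh b| + 1 ≤ cosh a * cosh b := by
    apply le_of_sq_le_sq _ (mul_pos h3 h4).le
    rw [mul_pow, h1, h2, add_sq, sq_abs]
    rw [abs_mul]
    nlinarith [sq_nonneg (|sinh a| - |sinh b|), sq_abs (sinh a), sq_abs (sinh b)]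
  have h7 := neg_abs_le (sinh a * sinh b * cos θ)
  linarith

theorem hasDerivAt_XX (a b θ : ℝ) : HasDerivAt (fun b => XX a b θ) (XXb a b θ) b := by
  unfold XX XXb
  exact ((Real.hasDerivAt_cosh b).const_mul _).add
    (((Real.hasDerivAt_sinh b).const_mul (sinh a)).mul_const _)

theorem hasDerivAt_XXb (a b θ : ℝ) : HasDerivAt (fun b => XXb a b θ) (XX a b θ) b := by
  unfold XX XXb
  exact ((Real.hasDerivAt_sinh b).const_mul _).add
    (((Real.hasDerivAt_cosh b).const_mul (sinh a)).mul_const _)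

theorem hasDerivAt_XX_theta (a b θ : ℝ) :
    HasDerivAt (fun θ => XX a b θ) (-(sinh a * sinh b * sin θ)) θ := by
  unfold XX
  refine (((Real.hasDerivAt_cos θ).const_mul (sinh a * sinh b)).const_add _).congr_deriv ?_
  ring

theorem XXb_sq (a b θ : ℝ) : XXb a b θ ^ 2 + sinh a ^ 2 * sin θ ^ 2 = XX a b θ ^ 2 - 1 := by
  unfold XX XXb
  have h1 := Real.cosh_sq a
  have h2 := Real.cosh_sq b
  have h3 := Real.sin_sq_add_cos_sq θ
  have h4 : sin θ ^ 2 = 1 - cos θ ^ 2 := by linarith
  rw [h4]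
  generalize cos θ = c
  generalize cosh a = ca at *
  generalize cosh b = cb at *
  generalize sinh a = sa at *
  generalize sinh b = sb at *
  linear_combination (sb ^ 2 - cb ^ 2) * h1 + (sa ^ 2 * c ^ 2 - sa ^ 2 - 1) * h2

theorem XX_id (a b θ : ℝ) :
    cosh b * XXb a b θ - sinh a * cos θ = sinh b * XX a b θ := by
  unfold XX XXb
  have h2 := Real.cosh_sq b
  linear_combination (sinh a * cos θ) * h2

theorem XX_one_lt' {a b θ : ℝ} (ha : 0 < a) (hb : 0 ≤ b) (hθ : θ ∈ Ioo 0 π) : 1 < XX a b θ := by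
  rcases hb.eq_or_lt with h | h
  · rw [← h]
    unfold XX
    simp only [Real.cosh_zero, Real.sinh_zero, mul_one, mul_zero, zero_mul, add_zero]
    exact Real.one_lt_cosh.2 ha.ne'
  · have h1 : cosh (a - b) < XX a b θ := by
      unfold XX
      rw [Real.cosh_sub]
      have h1 := Real.sinh_pos_iff.2 ha
      have h2 := Real.sinh_pos_iff.2 h
      have h3 : -1 < cos θ := by
        rw [← Real.cos_pi]
        exact Real.cos_lt_cos_of_nonneg_of_le_pi hθ.1.le le_rfl hθ.2
      have h4 := mul_pos h1 h2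
      nlinarith
    exact lt_of_le_of_lt (Real.one_le_cosh _) h1

/-- mean of `G0` and the flux -/
noncomputable def Mu (P : ℝ → ℝ) (a b : ℝ) : ℝ := ∫ θ in (0 : ℝ)..π, G0 P (XX a b θ)
noncomputable def Fl (P : ℝ → ℝ) (a b : ℝ) : ℝ :=
  ∫ θ in (0 : ℝ)..π, G1 P (XX a b θ) * (sinh b * XXb a b θ)

theorem Mu_comm (P : ℝ → ℝ) (a b : ℝ) : Mu P a b = Mu P b a := by
  unfold Mu; simp_rw [XX_comm a b]

theorem ball_facts {a b : ℝ} (hb0 : 0 < b) (hab : a ≠ b) :
    ∃ ε, 0 < ε ∧ ∀ r ∈ Metric.closedBall b ε, 0 < r ∧ a ≠ r := by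
  refine ⟨min b |b - a| / 2, ?_, ?_⟩
  · have : 0 < |b - a| := abs_pos.2 (sub_ne_zero.2 (Ne.symm hab))
    have := lt_min hb0 this
    linarith
  · intro r hr
    rw [Metric.mem_closedBall, Real.dist_eq] at hr
    have h1 : min b |b - a| ≤ b := min_le_left _ _
    have h2 : min b |b - a| ≤ |b - a| := min_le_right _ _
    have h3 : 0 < |b - a| := abs_pos.2 (sub_ne_zero.2 (Ne.symm hab))
    constructor
    · have := (abs_le.1 hr).1
      linarith
    · rintro rfl
      rw [abs_sub_comm] at hr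
      linarith

section
variable {P : ℝ → ℝ} (hm : Measurable P) (hb : ∀ x, |P x| ≤ 1) (hc : ContinuousOn P (Ioi 1))
include hm hb hc

theorem hasDerivAt_Mu {a b : ℝ} (ha : 0 < a) (hb0 : 0 < b) (hab : a ≠ b) :
    HasDerivAt (Mu P a) (∫ θ in (0 : ℝ)..π, G1 P (XX a b θ) * XXb a b θ) b := by
  obtain ⟨ε, hε, hball⟩ := ball_facts hb0 hab
  unfold Mu
  refine hasDerivAt_param (f := fun b θ => G0 P (XX a b θ))
    (f' := fun b θ => G1 P (XX a b θ) * XXb a b θ) Real.pi_pos.le hε ?_ ?_ ?_
  · intro r hr θ _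
    obtain ⟨h1, h2⟩ := hball r hr
    exact (hasDerivAt_G0 hm hb hc (XX_one_lt θ ha.le h1.le h2)).comp r (hasDerivAt_XX a r θ)
  · refine ContinuousOn.mul ?_ (XXb_cont' a).continuousOn
    refine (G1_contOn hm hb hc).comp (XX_cont' a).continuousOn ?_
    rintro ⟨r, θ⟩ ⟨hr, _⟩
    obtain ⟨h1, h2⟩ := hball r hr
    exact XX_one_lt θ ha.le h1.le h2
  · intro r _
    refine ((G0_cont hm hb).comp ?_).continuousOn
    unfold XX; fun_prop

theorem hasDerivAt_Fl {a b : ℝ} (ha : 0 < a) (hb0 : 0 < b) (hab : a ≠ b) :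
    HasDerivAt (Fl P a) (sinh b * ∫ θ in (0 : ℝ)..π, P (XX a b θ)) b := by
  obtain ⟨ε, hε, hball⟩ := ball_facts hb0 hab
  have key : HasDerivAt (Fl P a) (∫ θ in (0 : ℝ)..π, (G2 P (XX a b θ) * XXb a b θ * (sinh b * XXb a b θ)
      + G1 P (XX a b θ) * (cosh b * XXb a b θ + sinh b * XX a b θ))) b := by
    unfold Fl
    refine hasDerivAt_param (f := fun b θ => G1 P (XX a b θ) * (sinh b * XXb a b θ))
      (f' := fun b θ => G2 P (XX a b θ) * XXb a b θ * (sinh b * XXb a b θ)
        + G1 P (XX a b θ) * (cosh b * XXb a b θ + sinh b * XX a b θ)) Real.pi_pos.le hε ?_ ?_ ?_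
    · intro r hr θ _
      obtain ⟨h1, h2⟩ := hball r hr
      have d1 := (hasDerivAt_G1 hm hb hc (XX_one_lt θ ha.le h1.le h2)).comp r (hasDerivAt_XX a r θ)
      exact d1.mul ((Real.hasDerivAt_sinh r).mul (hasDerivAt_XXb a r θ))
    · have hX : ContinuousOn (fun p : ℝ × ℝ => XX a p.1 p.2)
        (Metric.closedBall b ε ×ˢ Icc 0 π) := (XX_cont' a).continuousOn
      have hmaps : MapsTo (fun p : ℝ × ℝ => XX a p.1 p.2) (Metric.closedBall b ε ×ˢ Icc 0 π)
          (Ioi 1) := by
        rintro ⟨r, θ⟩ ⟨hr, _⟩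
        obtain ⟨h1, h2⟩ := hball r hr
        exact XX_one_lt θ ha.le h1.le h2
      have c1 := (G1_contOn hm hb hc).comp hX hmaps
      have c2 := (G2_contOn hm hb hc).comp hX hmaps
      have c3 : ContinuousOn (fun p : ℝ × ℝ => XXb a p.1 p.2)
        (Metric.closedBall b ε ×ˢ Icc 0 π) := (XXb_cont' a).continuousOn
      simp only [Function.comp_def] at c1 c2
      fun_prop
    · intro r hr
      obtain ⟨h1, h2⟩ := hball r hr
      have hX : ContinuousOn (fun θ : ℝ => XX a r θ) (Icc 0 π) := by unfold XX; fun_prop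
      have c1 := (G1_contOn hm hb hc).comp hX (fun θ _ => XX_one_lt θ ha.le h1.le h2)
      have c3 : ContinuousOn (fun θ : ℝ => XXb a r θ) (Icc 0 π) := by unfold XXb; fun_prop
      simp only [Function.comp_def] at c1
      fun_prop
  refine key.congr_deriv ?_
  have hX : Continuous (fun θ : ℝ => XX a b θ) := by unfold XX; fun_prop
  have hXb : Continuous (fun θ : ℝ => XXb a b θ) := by unfold XXb; fun_prop
  have hgt : ∀ θ, XX a b θ ∈ Ioi (1 : ℝ) := fun θ => XX_one_lt θ ha.le hb0.le hab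
  have c0 : Continuous (fun θ => P (XX a b θ)) := hc.comp_continuous hX hgt
  have c1 : Continuous (fun θ => G1 P (XX a b θ)) := (G1_contOn hm hb hc).comp_continuous hX hgt
  have c2 : Continuous (fun θ => G2 P (XX a b θ)) := (G2_contOn hm hb hc).comp_continuous hX hgt
  set K : ℝ → ℝ := fun θ => sinh a * sin θ * G1 P (XX a b θ) with hK
  set K' : ℝ → ℝ := fun θ => sinh a * cos θ * G1 P (XX a b θ)
    + sinh a * sin θ * (G2 P (XX a b θ) * (-(sinh a * sinh b * sin θ))) with hK'
  have hKd : ∀ θ, HasDerivAt K (K' θ) θ := by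
    intro θ
    have d1 := (hasDerivAt_G1 hm hb hc (hgt θ)).comp θ (hasDerivAt_XX_theta a b θ)
    exact ((Real.hasDerivAt_sin θ).const_mul (sinh a)).mul d1
  have hK'c : Continuous K' := by
    simp only [hK']; fun_prop
  have hint : ∫ θ in (0 : ℝ)..π, K' θ = 0 := by
    rw [integral_eq_sub_of_hasDerivAt (fun θ _ => hKd θ) (hK'c.intervalIntegrable _ _)]
    simp [hK]
  have hid : ∀ θ, G2 P (XX a b θ) * XXb a b θ * (sinh b * XXb a b θ)
      + G1 P (XX a b θ) * (cosh b * XXb a b θ + sinh b * XX a b θ)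
      = sinh b * P (XX a b θ) + K' θ := by
    intro θ
    have e1 := XXb_sq a b θ
    have e2 := XX_id a b θ
    have hne : XX a b θ ^ 2 - 1 ≠ 0 := by
      have : 1 < XX a b θ := hgt θ
      nlinarith
    have e3 : G2 P (XX a b θ) * (XX a b θ ^ 2 - 1) = P (XX a b θ) - 2 * XX a b θ * G1 P (XX a b θ) := by
      unfold G2; field_simp
    simp only [hK']
    generalize G2 P (XX a b θ) = g2 at *
    generalize G1 P (XX a b θ) = g1 at *
    generalize P (XX a b θ) = p at *
    generalize XX a b θ = x at *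
    generalize XXb a b θ = y at *
    linear_combination (g2 * sinh b) * e1 + g1 * e2 + sinh b * e3
  simp_rw [hid]
  have i1 : IntervalIntegrable (fun θ => sinh b * P (XX a b θ)) volume 0 π :=
    (continuous_const.mul c0).intervalIntegrable _ _
  rw [intervalIntegral.integral_add i1
    (hK'c.intervalIntegrable _ _), hint, add_zero, intervalIntegral.integral_const_mul]

theorem Fl_cont {a b : ℝ} (ha : 0 < a) (hb0 : 0 ≤ b) : ContinuousAt (Fl P a) b := by
  unfold Fl
  set bnd : ℝ → ℝ := fun b => |sinh b| * (cosh a * |sinh b| + |sinh a| * cosh b) with hbnd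
  have hbc : Continuous bnd := by simp only [hbnd]; fun_prop
  have hev : ∀ᶠ x in 𝓝 b, bnd x < bnd b + 1 :=
    hbc.continuousAt.eventually (gt_mem_nhds (by linarith))
  refine intervalIntegral.continuousAt_of_dominated_interval (bound := fun _ => bnd b + 1) ?_ ?_ ?_ ?_
  · refine Eventually.of_forall fun x => Measurable.aestronglyMeasurable ?_
    refine Measurable.mul ((G1_meas hm hb).comp ?_) ?_
    · unfold XX; fun_prop
    · unfold XXb; fun_prop
  · filter_upwards [hev] with x hx
    refine Eventually.of_forall fun θ _ => ?_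
    rw [Real.norm_eq_abs, abs_mul, abs_mul]
    have h1 := abs_G1_le hm hb (XX a x θ)
    have h2 : |XXb a x θ| ≤ cosh a * |sinh x| + |sinh a| * cosh x := by
      unfold XXb
      refine (abs_add_le _ _).trans ?_
      rw [abs_mul, abs_mul, abs_mul, abs_of_pos (Real.cosh_pos a), abs_of_pos (Real.cosh_pos x)]
      have := mul_le_of_le_one_right (mul_nonneg (abs_nonneg (sinh a)) (Real.cosh_pos x).le)
        (Real.abs_cos_le_one θ)
      linarith
    have h3 : |sinh x| * |XXb a x θ| ≤ bnd x := mul_le_mul_of_nonneg_left h2 (abs_nonneg _)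
    have h4 : 0 ≤ |sinh x| * |XXb a x θ| := by positivity
    nlinarith [abs_nonneg (G1 P (XX a x θ))]
  · exact intervalIntegrable_const
  · have hae : ∀ᵐ θ : ℝ ∂volume, θ ≠ π := by
      rw [ae_iff]; simp
    filter_upwards [hae] with θ hθ hθI
    rw [uIoc_of_le Real.pi_pos.le] at hθI
    have hθ' : θ ∈ Ioo 0 π := ⟨hθI.1, lt_of_le_of_ne hθI.2 hθ⟩
    have hgt : 1 < XX a b θ := XX_one_lt' ha hb0 hθ'
    have c1 : ContinuousAt (fun x => XX a x θ) b := (hasDerivAt_XX a b θ).continuousAt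
    have c2 : ContinuousAt (G1 P) (XX a b θ) := (hasDerivAt_G1 hm hb hc hgt).continuousAt
    have c3 : ContinuousAt (fun x => XXb a x θ) b := (hasDerivAt_XXb a b θ).continuousAt
    exact (ContinuousAt.comp (f := fun x => XX a x θ) (g := G1 P) c2 c1).mul
      ((Real.continuous_sinh.continuousAt).mul c3)

theorem Mu_cont (a : ℝ) : Continuous (Mu P a) := by
  unfold Mu
  refine continuous_parametric_intervalIntegral_of_continuous'
    (f := fun b θ => G0 P (XX a b θ)) ?_ 0 π
  exact (G0_cont hm hb).comp (XX_cont' a)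

variable (hf : ∀ a b, 0 < a → 0 < b → a ≠ b →
  ∫ θ in (0 : ℝ)..π, P (XX a b θ) = π * (P (cosh a) * P (cosh b)))

theorem hasDerivAt_Vcosh {x : ℝ} (hx : 0 < x) :
    HasDerivAt (fun x => Vf P (cosh x)) (P (cosh x) * sinh x) x :=
  (hasDerivAt_Vf hm hb hc (Real.one_lt_cosh.2 hx.ne')).comp x (Real.hasDerivAt_cosh x)

theorem hasDerivAt_Gcosh {x : ℝ} (hx : 0 < x) :
    HasDerivAt (fun x => G0 P (cosh x)) (Vf P (cosh x) / sinh x) x := by
  refine ((hasDerivAt_G0 hm hb hc (Real.one_lt_cosh.2 hx.ne')).comp x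
    (Real.hasDerivAt_cosh x)).congr_deriv ?_
  unfold G1
  rw [if_pos (Real.one_lt_cosh.2 hx.ne'), Real.cosh_sq]
  have := (Real.sinh_pos_iff.2 hx).ne'
  field_simp
  ring

include hf

theorem Fl_eq {a b : ℝ} (ha : 0 < a) (hb0 : 0 ≤ b) :
    Fl P a b = π * P (cosh a) * Vf P (cosh b) := by
  have h := MeasureTheory.integral_eq_of_hasDerivAt_off_countable_of_le
    (fun b => Fl P a b - π * P (cosh a) * Vf P (cosh b)) (fun _ => 0) hb0
    (s := {a}) (countable_singleton a) ?_ ?_ ?_
  · simp only [intervalIntegral.integral_zero] at h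
    have h0 : Fl P a 0 = 0 := by simp [Fl]
    have h1 : Vf P (cosh 0) = 0 := by simp [Vf]
    rw [h0, h1] at h
    linarith
  · intro x hx
    refine ((Fl_cont hm hb hc ha hx.1).sub ?_).continuousWithinAt
    exact continuousAt_const.mul ((Vf_cont hm hb).comp Real.continuous_cosh).continuousAt
  · intro x hx
    have hx0 : 0 < x := hx.1.1
    have hxa : a ≠ x := fun h => hx.2 (by simp [h])
    refine ((hasDerivAt_Fl hm hb hc ha hx0 hxa).sub
      ((hasDerivAt_Vcosh hm hb hc hx0).const_mul (π * P (cosh a)))).congr_deriv ?_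
    rw [hf a x ha hx0 hxa]; ring
  · exact intervalIntegrable_const

theorem Mu_eq {a b : ℝ} (ha : 0 < a) (hb0 : 0 ≤ b) :
    Mu P a b = π * G0 P (cosh a) + π * P (cosh a) * G0 P (cosh b) := by
  have h := MeasureTheory.integral_eq_of_hasDerivAt_off_countable_of_le
    (fun b => Mu P a b - π * P (cosh a) * G0 P (cosh b)) (fun _ => 0) hb0
    (s := {a}) (countable_singleton a) ?_ ?_ ?_
  · simp only [intervalIntegral.integral_zero] at h
    have h0 : Mu P a 0 = π * G0 P (cosh a) := by simp [Mu, XX]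
    have h1 : G0 P (cosh 0) = 0 := by simp [G0]
    rw [h0, h1] at h
    linarith
  · exact ((Mu_cont hm hb hc a).sub (continuous_const.mul
      ((G0_cont hm hb).comp Real.continuous_cosh))).continuousOn
  · intro x hx
    have hx0 : 0 < x := hx.1.1
    have hxa : a ≠ x := fun h => hx.2 (by simp [h])
    refine ((hasDerivAt_Mu hm hb hc ha hx0 hxa).sub
      ((hasDerivAt_Gcosh hm hb hc hx0).const_mul (π * P (cosh a)))).congr_deriv ?_
    have hs := Real.sinh_pos_iff.2 hx0
    have h1 := Fl_eq hm hb hc hf ha hx0.le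
    have h2 : Fl P a x = sinh x * ∫ θ in (0 : ℝ)..π, G1 P (XX a x θ) * XXb a x θ := by
      unfold Fl
      rw [← intervalIntegral.integral_const_mul]
      congr 1
      ext θ; ring
    rw [h2] at h1
    have h3 : ∫ θ in (0 : ℝ)..π, G1 P (XX a x θ) * XXb a x θ
        = π * P (cosh a) * Vf P (cosh x) / sinh x := by
      field_simp; linarith
    rw [h3]; ring
  · exact intervalIntegrable_const

theorem G_sym {a b : ℝ} (ha : 0 < a) (hb0 : 0 < b) :
    G0 P (cosh a) * (1 - P (cosh b)) = G0 P (cosh b) * (1 - P (cosh a)) := by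
  have h1 := Mu_eq hm hb hc hf ha hb0.le
  have h2 := Mu_eq hm hb hc hf hb0 ha.le
  rw [Mu_comm P b a, h1] at h2
  have hpi := Real.pi_pos.ne'
  have : π * (G0 P (cosh a) * (1 - P (cosh b)) - G0 P (cosh b) * (1 - P (cosh a))) = 0 := by
    linear_combination h2
  rcases mul_eq_zero.1 this with h | h
  · exact absurd h hpi
  · linarith

/-- The solution is `1 - c G0 (cosh r)`. -/
theorem exists_c {d : ℝ} (hd : 0 < d) (hne : P (cosh d) ≠ 0) :
    ∃ c : ℝ, ∀ b, 0 < b → P (cosh b) = 1 - c * G0 P (cosh b) := by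
  have hex : ∃ a0, 0 < a0 ∧ G0 P (cosh a0) ≠ 0 := by
    by_contra hcon
    push Not at hcon
    -- derivative of `G0 ∘ cosh` vanishes on (0, ∞)
    have hV : ∀ x, 0 < x → Vf P (cosh x) = 0 := by
      intro x hx
      have h1 := hasDerivAt_Gcosh hm hb hc hx
      have h2 : HasDerivAt (fun x => G0 P (cosh x)) 0 x := by
        refine (hasDerivAt_const x (0 : ℝ)).congr_of_eventuallyEq ?_
        filter_upwards [Ioi_mem_nhds hx] with y hy using hcon y hy
      have h3 := h1.unique h2
      have hs := (Real.sinh_pos_iff.2 hx).ne'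
      field_simp at h3
      simpa using h3
    have h1 := hasDerivAt_Vcosh hm hb hc hd
    have h2 : HasDerivAt (fun x => Vf P (cosh x)) 0 d := by
      refine (hasDerivAt_const d (0 : ℝ)).congr_of_eventuallyEq ?_
      filter_upwards [Ioi_mem_nhds hd] with y hy using hV y hy
    have h3 := h1.unique h2
    rcases mul_eq_zero.1 h3 with h | h
    · exact hne h
    · exact (Real.sinh_pos_iff.2 hd).ne' h
  obtain ⟨a0, ha0, hG⟩ := hex
  refine ⟨(1 - P (cosh a0)) / G0 P (cosh a0), fun b hb0 => ?_⟩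
  have := G_sym hm hb hc hf ha0 hb0
  field_simp
  linarith

theorem char_eq {d : ℝ} (hd : 0 < d) (hneg : P (cosh d) < 0) :
    ∃ l, 0 < l ∧ P (cosh d) = sph l d := by
  obtain ⟨c, hcc⟩ := exists_c hm hb hc hf hd hneg.ne
  set p : ℝ → ℝ := fun r => 1 - c * G0 P (cosh r) with hp
  have hpc : Continuous p := by
    have := (G0_cont hm hb).comp Real.continuous_cosh
    simp only [Function.comp_def] at this
    simp only [hp]; fun_prop
  have hp0 : p 0 = 1 := by simp [hp, G0]
  have hpP : ∀ r, 0 < r → P (cosh r) = p r := fun r hr => hcc r hr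
  have hpd : ∀ r, 0 < r → HasDerivAt p (-(c * (Vf P (cosh r) / sinh r))) r := fun r hr =>
    ((hasDerivAt_Gcosh hm hb hc hr).const_mul c).const_sub 1
  have hVc : Continuous (fun r => Vf P (cosh r)) := (Vf_cont hm hb).comp Real.continuous_cosh
  have hV0 : Vf P (cosh 0) = 0 := by simp [Vf]
  -- Step A
  have hc14 : 1 / 4 < c := by
    by_contra hcon
    push Not at hcon
    set S : Set ℝ := Icc 0 d ∩ p ⁻¹' (Iic 0) with hS
    have hSc : IsClosed S := isClosed_Icc.inter (isClosed_Iic.preimage hpc)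
    have hSne : S.Nonempty := ⟨d, ⟨hd.le, le_rfl⟩, by
      show p d ≤ 0
      rw [← hpP d hd]; exact hneg.le⟩
    have hSb : BddBelow S := ⟨0, fun x hx => hx.1.1⟩
    set r1 := sInf S with hr1
    have hr1S : r1 ∈ S := hSc.csInf_mem hSne hSb
    have hr1pos : 0 < r1 := by
      rcases hr1S.1.1.eq_or_lt with h | h
      · exfalso
        have := hr1S.2
        rw [← h] at this
        simp only [mem_preimage, mem_Iic, hp0] at this
        linarith
      · exact h
    have hlt : ∀ x ∈ Ioo 0 r1, 0 < p x := by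
      intro x hx
      by_contra hc'
      push Not at hc'
      have : x ∈ S := ⟨⟨hx.1.le, hx.2.le.trans hr1S.1.2⟩, hc'⟩
      exact absurd (csInf_le hSb this) (not_le.2 hx.2)
    set M : ℝ → ℝ := fun r => -(c * Vf P (cosh r)) * sph 0 r - p r * (sinh r * sph1 0 r) with hM
    have hs0c : Continuous (sph 0) := continuous_iff_continuousAt.2 fun r => (hasDerivAt_sph 0 r).continuousAt
    have hs1c : Continuous (sph1 0) := continuous_iff_continuousAt.2 fun r => (hasDerivAt_sph1 0 r).continuousAt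
    have hMc : Continuous M := by simp only [hM]; fun_prop
    have hM0 : M 0 = 0 := by simp only [hM, hV0]; simp
    have hMd : ∀ r, 0 < r → HasDerivAt M ((1 / 4 - c) * (p r * (sinh r * sph 0 r))) r := by
      intro r hr
      have d1 := (((hasDerivAt_Vcosh hm hb hc hr).const_mul c).neg).mul (hasDerivAt_sph 0 r)
      have d2 := (hpd r hr).mul ((Real.hasDerivAt_sinh r).mul (hasDerivAt_sph1 0 r))
      refine (d1.sub d2).congr_deriv ?_
      have ho := sph_ode 0 r
      have hs := (Real.sinh_pos_iff.2 hr).ne'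
      rw [hpP r hr]
      simp only [Pi.neg_apply, Pi.mul_apply]
      have e1 : -(c * (Vf P (cosh r) / sinh r)) * (sinh r * sph1 0 r)
          = -(c * Vf P (cosh r) * sph1 0 r) := by field_simp
      rw [e1]
      linear_combination (-(p r)) * ho
    have hMmono : MonotoneOn M (Icc 0 r1) := by
      refine monotoneOn_of_deriv_nonneg (convex_Icc _ _) hMc.continuousOn ?_ ?_
      · rw [interior_Icc]
        intro x hx
        exact (hMd x hx.1).differentiableAt.differentiableWithinAt
      · rw [interior_Icc]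
        intro x hx
        rw [(hMd x hx.1).deriv]
        have h1 := hlt x hx
        have h2 := Real.sinh_pos_iff.2 hx.1
        have h3 := sph0_pos x
        have h4 : 0 ≤ 1 / 4 - c := by linarith
        positivity
    have hqmono : MonotoneOn (fun r => p r / sph 0 r) (Icc 0 r1) := by
      have hqd : ∀ r, 0 < r → HasDerivAt (fun r => p r / sph 0 r)
          (M r / (sinh r * sph 0 r ^ 2)) r := by
        intro r hr
        refine ((hpd r hr).div (hasDerivAt_sph 0 r) (sph0_pos r).ne').congr_deriv ?_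
        have h0 := (sph0_pos r).ne'
        have hs := (Real.sinh_pos_iff.2 hr).ne'
        simp only [hM]
        field_simp
      refine monotoneOn_of_deriv_nonneg (convex_Icc _ _)
        (hpc.div hs0c (fun r => (sph0_pos r).ne')).continuousOn ?_ ?_
      · rw [interior_Icc]
        intro x hx
        exact (hqd x hx.1).differentiableAt.differentiableWithinAt
      · rw [interior_Icc]
        intro x hx
        rw [(hqd x hx.1).deriv]
        have h2 := Real.sinh_pos_iff.2 hx.1
        have h3 := sph0_pos x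
        have h4 : 0 ≤ M x := by
          rw [← hM0]
          exact hMmono ⟨le_rfl, hr1pos.le⟩ ⟨hx.1.le, hx.2.le⟩ hx.1.le
        positivity
    have h1 := hqmono ⟨le_rfl, hr1pos.le⟩ ⟨hr1pos.le, le_rfl⟩ hr1pos.le
    simp only [hp0, sph_zero, div_one] at h1
    have h2 : p r1 ≤ 0 := hr1S.2
    have h3 : p r1 / sph 0 r1 ≤ 0 := div_nonpos_of_nonpos_of_nonneg h2 (sph0_pos r1).le
    linarith
  -- Step B
  set l := √(c - 1 / 4) with hl
  have hlpos : 0 < l := Real.sqrt_pos.2 (by linarith)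
  have hlsq : 1 / 4 + l ^ 2 = c := by
    rw [hl, Real.sq_sqrt (by linarith)]; ring
  refine ⟨l, hlpos, ?_⟩
  rw [hpP d hd]
  set q1 : ℝ → ℝ := fun r => -(c * (Vf P (cosh r) / sinh r)) with hq1
  have hq1d : ∀ r, 0 < r → HasDerivAt q1
      (-(c * ((P (cosh r) * sinh r * sinh r - Vf P (cosh r) * cosh r) / sinh r ^ 2))) r := by
    intro r hr
    exact (((hasDerivAt_Vcosh hm hb hc hr).div (Real.hasDerivAt_sinh r)
      (Real.sinh_pos_iff.2 hr).ne').const_mul c).neg
  set e : ℝ → ℝ := fun r => (q1 r - sph1 l r) ^ 2 + c * (p r - sph l r) ^ 2 with he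
  have hed : ∀ r, 0 < r → HasDerivAt e (-(2 * (cosh r / sinh r) * (q1 r - sph1 l r) ^ 2)) r := by
    intro r hr
    have d1 := ((hq1d r hr).sub (hasDerivAt_sph1 l r)).pow 2
    have d2 := (((hpd r hr).sub (hasDerivAt_sph l r)).pow 2).const_mul c
    refine (d1.add d2).congr_deriv ?_
    have ho := sph_ode l r
    rw [hlsq] at ho
    have hs := (Real.sinh_pos_iff.2 hr).ne'
    rw [hpP r hr]
    have e1 : (p r * sinh r * sinh r - Vf P (cosh r) * cosh r) / sinh r ^ 2
        = p r - (Vf P (cosh r) / sinh r) * (cosh r / sinh r) := by field_simp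
    have e2 : sph2 l r = -(cosh r / sinh r * sph1 l r) - c * sph l r := by
      field_simp; linarith
    rw [e1, e2]
    simp only [hq1, Pi.sub_apply, Nat.cast_ofNat, Nat.add_one_sub_one, pow_one]
    ring
  have heanti : AntitoneOn e (Ioi 0) := by
    refine antitoneOn_of_deriv_nonpos (convex_Ioi 0)
      (fun r hr => (hed r hr).continuousAt.continuousWithinAt) ?_ ?_
    · rw [interior_Ioi]
      exact fun r hr => (hed r hr).differentiableAt.differentiableWithinAt
    · rw [interior_Ioi]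
      intro r hr
      have hr' : (0 : ℝ) < r := hr
      rw [(hed r hr').deriv]
      have h1 := Real.sinh_pos_iff.2 hr'
      have h2 := Real.cosh_pos r
      have : 0 ≤ 2 * (cosh r / sinh r) * (q1 r - sph1 l r) ^ 2 := by positivity
      linarith
  have hq1lim : Tendsto q1 (𝓝[>] 0) (𝓝 0) := by
    have hb1 : Tendsto (fun r => |c| * sinh r) (𝓝[>] 0) (𝓝 0) := by
      have : Continuous (fun r : ℝ => |c| * sinh r) := by fun_prop
      have h := this.tendsto 0
      simp only [Real.sinh_zero, mul_zero] at h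
      exact h.mono_left nhdsWithin_le_nhds
    refine squeeze_zero_norm' ?_ hb1
    filter_upwards [self_mem_nhdsWithin] with r hr
    have hr' : (0 : ℝ) < r := hr
    have hs := Real.sinh_pos_iff.2 hr'
    have hv := abs_Vf_le hm hb (Real.one_le_cosh r)
    rw [Real.norm_eq_abs]
    simp only [hq1]
    rw [abs_neg, abs_mul, abs_div, abs_of_pos hs]
    refine mul_le_mul_of_nonneg_left ?_ (abs_nonneg c)
    rw [div_le_iff₀ hs]
    refine hv.trans ?_
    nlinarith [Real.cosh_sq r, Real.one_le_cosh r]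
  have helim : Tendsto e (𝓝[>] 0) (𝓝 0) := by
    have h1 : Tendsto (sph1 l) (𝓝[>] 0) (𝓝 0) := by
      have := (hasDerivAt_sph1 l 0).continuousAt.tendsto
      rw [sph1_zero] at this
      exact this.mono_left nhdsWithin_le_nhds
    have h2 : Tendsto (sph l) (𝓝[>] 0) (𝓝 1) := by
      have := (hasDerivAt_sph l 0).continuousAt.tendsto
      rw [sph_zero] at this
      exact this.mono_left nhdsWithin_le_nhds
    have h3 : Tendsto p (𝓝[>] 0) (𝓝 1) := by
      have := hpc.continuousAt.tendsto (x := (0 : ℝ))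
      rw [hp0] at this
      exact this.mono_left nhdsWithin_le_nhds
    have := ((hq1lim.sub h1).pow 2).add (((h3.sub h2).pow 2).const_mul c)
    simpa using this
  have hfin : e d ≤ 0 := by
    refine ge_of_tendsto helim ?_
    filter_upwards [Ioo_mem_nhdsGT hd] with s hs
    exact heanti hs.1 hd hs.2.le
  have hsq1 := sq_nonneg (q1 d - sph1 l d)
  have hsq2 := sq_nonneg (p d - sph l d)
  have h0 : (p d - sph l d) ^ 2 = 0 := by
    simp only [he] at hfin
    have hc0 : 0 < c := by linarith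
    have : c * (p d - sph l d) ^ 2 ≤ 0 := by linarith
    have h5 : (p d - sph l d) ^ 2 ≤ 0 := by
      by_contra hcc'
      push Not at hcc'
      have := mul_pos hc0 hcc'
      linarith
    exact le_antisymm h5 hsq2
  have := pow_eq_zero_iff (two_ne_zero) |>.1 h0
  linarith

end

end Pool.Agent.T2H78.Hyp
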