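import Pool.Agent.T2H78.HypNorm

/-!
Gelfand theory of the commutative C*-algebra generated by the circle averaging operators:
every negative point of the spectrum of `A d` is a value `sph l d` of a spherical function.
-/

namespace Pool.Agent.T2H78.Hyp
open Real MeasureTheory Set Filter Topology intervalIntegral
open scoped ENNReal InnerProductSpace ComplexConjugate

theorem A_comm (a b : ℝ) : A a * A b = A b * A a := by
  ext1 F
  have h1 : (A a * A b) F = A a (A b F) := rfl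
  have h2 : (A b * A a) F = A b (A a F) := rfl
  rw [h1, h2, A_mul', A_mul']
  congr 2
  ext1 φ
  unfold rho
  rw [XX_comm]

/-- the closed star algebra generated by all circle averages -/
noncomputable def KK : StarSubalgebra ℂ (HH →L[ℂ] HH) :=
  (StarAlgebra.adjoin ℂ (range A)).topologicalClosure

theorem KK_closed : IsClosed (KK : Set (HH →L[ℂ] HH)) :=
  StarSubalgebra.isClosed_topologicalClosure _

theorem A_mem (r : ℝ) : A r ∈ KK :=
  StarSubalgebra.le_topologicalClosure _ (StarAlgebra.subset_adjoin ℂ _ (mem_range_self r))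

theorem KK_mul_comm (x y : KK) : x * y = y * x := by
  have hc1 : ∀ a ∈ range A, ∀ b ∈ range A, a * b = b * a := by
    rintro _ ⟨a, rfl⟩ _ ⟨b, rfl⟩
    exact A_comm a b
  have hc2 : ∀ a ∈ range A, ∀ b ∈ range A, a * star b = star b * a := by
    rintro _ ⟨a, rfl⟩ _ ⟨b, rfl⟩
    rw [(A_selfAdjoint b).star_eq]
    exact A_comm a b
  have hm := StarAlgebra.isMulCommutative_adjoin ℂ hc1 hc2
  have h1 : (KK : Set (HH →L[ℂ] HH)) ⊆ Set.centralizer (KK : Set (HH →L[ℂ] HH)) := by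
    have h2 : ∀ x ∈ KK, ∀ y ∈ KK, x * y = y * x := by
      have h3 : ∀ x ∈ StarAlgebra.adjoin ℂ (range A), ∀ y ∈ StarAlgebra.adjoin ℂ (range A),
          x * y = y * x := fun x hx y hy => setLike_mul_comm hx hy
      have h4 : ∀ x ∈ StarAlgebra.adjoin ℂ (range A), ∀ y ∈ KK, x * y = y * x := by
        intro x hx y hy
        have hcl : IsClosed {y : HH →L[ℂ] HH | x * y = y * x} :=
          isClosed_eq (by fun_prop) (by fun_prop)
        have := closure_minimal (fun y hy => h3 x hx y hy) hcl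
        exact this hy
      intro x hx y hy
      have hcl : IsClosed {x : HH →L[ℂ] HH | x * y = y * x} :=
        isClosed_eq (by fun_prop) (by fun_prop)
      have := closure_minimal (fun x hx => h4 x hx y hy) hcl
      exact this hx
    intro x hx y hy
    exact h2 y hy x hx
  exact Subtype.ext (h1 y.2 x x.2)

noncomputable instance : NormedCommRing KK :=
  { SubringClass.toNormedRing KK with
    mul_comm := KK_mul_comm }

instance : CompleteSpace KK := KK_closed.completeSpace_coe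

noncomputable instance : CommCStarAlgebra KK where

/-- characters of the algebra -/
theorem exists_char {d : ℝ} {z : ℂ} (hz : z ∈ spectrum ℂ (A d)) :
    ∃ χ : KK →ₐ[ℂ] ℂ, χ ⟨A d, A_mem d⟩ = z := by
  have h1 := StarSubalgebra.spectrum_eq (S := KK) (hS := KK_closed) (a := ⟨A d, A_mem d⟩)
  have h2 : z ∈ spectrum ℂ (⟨A d, A_mem d⟩ : KK) := by
    rw [h1]; exact hz
  rw [WeakDual.CharacterSpace.mem_spectrum_iff_exists] at h2
  obtain ⟨f, hf⟩ := h2
  exact ⟨WeakDual.CharacterSpace.toAlgHom f, hf⟩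

/-- the averages as elements of the algebra -/
noncomputable def AK (r : ℝ) : KK := ⟨A r, A_mem r⟩

theorem AK_contAt {r : ℝ} (hr : 0 < r) : ContinuousAt AK r :=
  Topology.IsInducing.subtypeVal.continuousAt_iff.2 (A_contAt hr)

theorem norm_AK_le (r : ℝ) : ‖AK r‖ ≤ 1 := norm_A_le_one r

theorem AK_mul_op {a b : ℝ} (ha : 0 < a) (hb : 0 < b) (hab : a ≠ b) :
    (Continuous fun φ => AK (rho a b φ)) ∧
    AK a * AK b = π⁻¹ • ∫ φ in (0 : ℝ)..π, AK (rho a b φ) := by
  have hc : Continuous (fun φ => AK (rho a b φ)) := by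
    refine continuous_iff_continuousAt.2 fun φ => ?_
    have hpos : 0 < rho a b φ := Real.arcosh_pos (XX_one_lt φ ha.le hb.le hab)
    exact ContinuousAt.comp (AK_contAt hpos) (rho_cont a b).continuousAt
  refine ⟨hc, ?_⟩
  have h1 := (A_mul_op ha hb hab).2
  let ι : KK →L[ℝ] (HH →L[ℂ] HH) :=
    { toFun := fun x => x.1
      map_add' := fun _ _ => rfl
      map_smul' := fun _ _ => rfl
      cont := continuous_subtype_val }
  have e := ι.intervalIntegral_comp_comm (μ := volume) (hc.intervalIntegrable 0 π)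
  apply Subtype.ext
  have e2 : ι (π⁻¹ • ∫ φ in (0 : ℝ)..π, AK (rho a b φ)) = π⁻¹ • ∫ φ in (0 : ℝ)..π, A (rho a b φ) := by
    rw [map_smul, ← e]
    rfl
  have e3 : (AK a * AK b).1 = A a * A b := rfl
  rw [e3, h1, ← e2]
  rfl

theorem AK_selfAdjoint (r : ℝ) : IsSelfAdjoint (AK r) := Subtype.ext (A_selfAdjoint r)

theorem char_im (χ : KK →ₐ[ℂ] ℂ) (r : ℝ) : (χ (AK r)).im = 0 :=
  (AK_selfAdjoint r).im_eq_zero_of_mem_spectrum (AlgHom.apply_mem_spectrum χ (AK r))

theorem char_norm (χ : KK →ₐ[ℂ] ℂ) (r : ℝ) : ‖χ (AK r)‖ ≤ 1 := by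
  have : Nontrivial KK := by
    refine ⟨⟨0, 1, fun h => ?_⟩⟩
    have := congrArg χ h
    rw [map_zero, map_one] at this
    exact zero_ne_one this
  exact (AlgHom.norm_apply_le_self χ (AK r)).trans (norm_AK_le r)

open Classical in
/-- the function attached to a character -/
noncomputable def PX (χ : KK →ₐ[ℂ] ℂ) : ℝ → ℝ :=
  (Ioi (1 : ℝ)).piecewise (fun x => (χ (AK (Real.arcosh x))).re) (fun _ => 0)

theorem PX_of_lt (χ : KK →ₐ[ℂ] ℂ) {x : ℝ} (hx : 1 < x) :
    PX χ x = (χ (AK (Real.arcosh x))).re := piecewise_eq_of_mem _ _ _ hx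

theorem char_cont (χ : KK →ₐ[ℂ] ℂ) : Continuous χ := χ.toContinuousLinearMap.continuous

theorem PX_contOn' (χ : KK →ₐ[ℂ] ℂ) :
    ContinuousOn (fun x => (χ (AK (Real.arcosh x))).re) (Ioi 1) := by
  intro x hx
  have h1 : ContinuousAt Real.arcosh x := (Real.hasDerivAt_arcosh hx).continuousAt
  have h2 : ContinuousAt AK (Real.arcosh x) := AK_contAt (Real.arcosh_pos hx)
  have h3 : ContinuousAt (fun x => AK (Real.arcosh x)) x := ContinuousAt.comp h2 h1
  exact (Complex.continuous_re.continuousAt.comp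
    ((char_cont χ).continuousAt.comp h3)).continuousWithinAt

theorem PX_contOn (χ : KK →ₐ[ℂ] ℂ) : ContinuousOn (PX χ) (Ioi 1) :=
  (PX_contOn' χ).congr fun _ hx => PX_of_lt χ hx

theorem PX_meas (χ : KK →ₐ[ℂ] ℂ) : Measurable (PX χ) :=
  ContinuousOn.measurable_piecewise (PX_contOn' χ) continuousOn_const measurableSet_Ioi

theorem PX_bdd (χ : KK →ₐ[ℂ] ℂ) (x : ℝ) : |PX χ x| ≤ 1 := by
  by_cases hx : 1 < x
  · rw [PX_of_lt χ hx]
    exact (Complex.abs_re_le_norm _).trans (char_norm χ _)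
  · unfold PX
    rw [piecewise_eq_of_notMem _ _ _ (by simpa using hx)]
    simp

theorem PX_cosh (χ : KK →ₐ[ℂ] ℂ) {a : ℝ} (ha : 0 < a) : PX χ (cosh a) = (χ (AK a)).re := by
  rw [PX_of_lt χ (Real.one_lt_cosh.2 ha.ne'), Real.arcosh_cosh ha.le]

theorem PX_fun (χ : KK →ₐ[ℂ] ℂ) (a b : ℝ) (ha : 0 < a) (hb : 0 < b) (hab : a ≠ b) :
    ∫ θ in (0 : ℝ)..π, PX χ (XX a b θ) = π * (PX χ (cosh a) * PX χ (cosh b)) := by
  obtain ⟨hc, he⟩ := AK_mul_op ha hb hab
  let ψ : KK →L[ℝ] ℝ := Complex.reCLM.comp (χ.toContinuousLinearMap.restrictScalars ℝ)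
  have hψ : ∀ x, ψ x = (χ x).re := fun x => rfl
  have h1 : (fun θ => PX χ (XX a b θ)) = fun θ => ψ (AK (rho a b θ)) := by
    funext θ
    rw [PX_of_lt χ (XX_one_lt θ ha.le hb.le hab)]
    rfl
  have e := ψ.intervalIntegral_comp_comm (μ := volume) (hc.intervalIntegrable 0 π)
  rw [h1, e]
  have h2 : ∫ φ in (0 : ℝ)..π, AK (rho a b φ) = π • (AK a * AK b) := by
    rw [he, smul_smul, mul_inv_cancel₀ Real.pi_pos.ne', one_smul]
  rw [h2, map_smul, hψ, map_mul, Complex.mul_re, char_im, char_im, PX_cosh χ ha, PX_cosh χ hb]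
  simp

/-- every negative point of the spectrum of `A d` is a spherical value -/
theorem spec_neg {d x : ℝ} (hd : 0 < d) (hx : x < 0) (hs : (x : ℂ) ∈ spectrum ℂ (A d)) :
    ∃ l, 0 < l ∧ x = sph l d := by
  obtain ⟨χ, hχ⟩ := exists_char hs
  have h1 : PX χ (cosh d) = x := by
    rw [PX_cosh χ hd]
    have : χ (AK d) = (x : ℂ) := hχ
    rw [this, Complex.ofReal_re]
  obtain ⟨l, hl, hl2⟩ := char_eq (PX_meas χ) (PX_bdd χ) (PX_contOn χ)
    (fun a b ha hb hab => PX_fun χ a b ha hb hab) hd (by rw [h1]; exact hx)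
  exact ⟨l, hl, by rw [← hl2, h1]⟩

theorem cstar_lower {B : Type*} [CStarAlgebra B] [PartialOrder B] [StarOrderedRing B] {a : B}
    (ha : IsSelfAdjoint a) {c : ℝ} (h : ∀ x : ℝ, (x : ℂ) ∈ spectrum ℂ a → c ≤ x) :
    algebraMap ℂ B (c : ℂ) ≤ a := by
  have h1 : algebraMap ℝ B c ≤ a := by
    rw [algebraMap_le_iff_le_spectrum ha]
    intro x hx
    exact h x ((spectrum.algebraMap_mem_iff (S := ℂ) (a := a) (r := x)).2 hx)
  exact h1

/-- the lower bound of the quadratic form -/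
theorem lower_bound {d c : ℝ} (hd : 0 < d) (hc : c ≤ 0) (h : ∀ l, 0 < l → c ≤ sph l d) (F : HH) :
    c * ‖F‖ ^ 2 ≤ (inner ℂ (A d F) F).re := by
  have h1 : algebraMap ℂ (HH →L[ℂ] HH) (c : ℂ) ≤ A d := by
    refine cstar_lower (A_selfAdjoint d) ?_
    intro x hs
    by_contra hlt
    push Not at hlt
    have hx0 : x < 0 := by linarith
    obtain ⟨l, hl, hl2⟩ := spec_neg hd hx0 hs
    have := h l hl
    linarith
  rw [ContinuousLinearMap.le_def] at h1
  have h2 := h1.re_inner_nonneg_left F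
  have h3 : (A d - algebraMap ℂ (HH →L[ℂ] HH) (c : ℂ)) F = A d F - (c : ℂ) • F := rfl
  rw [h3, inner_sub_left, inner_smul_left, map_sub, inner_self_eq_norm_sq_to_K] at h2
  simp only [Complex.conj_ofReal] at h2
  have h4 : RCLike.re ((c : ℂ) * (RCLike.ofReal (K := ℂ) ‖F‖) ^ 2) = c * ‖F‖ ^ 2 := by
    have h5 : (RCLike.ofReal (K := ℂ) ‖F‖) = ((‖F‖ : ℝ) : ℂ) := rfl
    rw [h5, ← Complex.ofReal_pow, ← Complex.ofReal_mul]
    exact Complex.ofReal_re _
  rw [h4] at h2
  have h5 : RCLike.re (inner ℂ (A d F) F) = (inner ℂ (A d F) F).re := rfl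
  rw [h5] at h2
  linarith

end Pool.Agent.T2H78.Hyp
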