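import Pool.Agent.T2H78.HypOp

/-!
Norm continuity of the averaging operators on `(0, ∞)`.
-/

namespace Pool.Agent.T2H78.Hyp
open Real MeasureTheory Set Filter Topology intervalIntegral
open scoped ENNReal InnerProductSpace ComplexConjugate

/-- arcsine density on `(c - w, c + w)` -/
noncomputable def kd (c w x : ℝ) : ℝ := if |x - c| < w then (π * √(w ^ 2 - (x - c) ^ 2))⁻¹ else 0

theorem kd_nonneg (c w x : ℝ) : 0 ≤ kd c w x := by
  unfold kd
  have := Real.pi_pos
  split_ifs
  · positivity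
  · exact le_rfl

theorem kd_meas (c w : ℝ) : Measurable (kd c w) := by
  unfold kd
  refine Measurable.ite ?_ (by fun_prop) measurable_const
  exact measurableSet_lt (by fun_prop) measurable_const

theorem image_cos {c w : ℝ} (hw : 0 < w) :
    (fun φ => c + w * cos φ) '' (Ioo 0 π) = Ioo (c - w) (c + w) := by
  ext x
  constructor
  · rintro ⟨φ, hφ, rfl⟩
    have h1 : cos φ < 1 := by
      rw [← Real.cos_zero]
      exact Real.cos_lt_cos_of_nonneg_of_le_pi le_rfl hφ.2.le hφ.1
    have h2 : -1 < cos φ := by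
      rw [← Real.cos_pi]
      exact Real.cos_lt_cos_of_nonneg_of_le_pi hφ.1.le le_rfl hφ.2
    constructor <;> simp only <;> nlinarith
  · intro hx
    have h1 : -1 < (x - c) / w := by
      rw [lt_div_iff₀ hw]; linarith [hx.1]
    have h2 : (x - c) / w < 1 := by
      rw [div_lt_iff₀ hw]; linarith [hx.2]
    refine ⟨Real.arccos ((x - c) / w), ⟨?_, ?_⟩, ?_⟩
    · exact Real.arccos_pos.2 h2
    · rw [lt_iff_le_and_ne]
      refine ⟨Real.arccos_le_pi _, fun h => ?_⟩
      rw [Real.arccos_eq_pi] at h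
      linarith
    · simp only
      rw [Real.cos_arccos h1.le h2.le]
      field_simp
      ring

theorem inj_cos {c w : ℝ} (hw : 0 < w) : InjOn (fun φ => c + w * cos φ) (Ioo 0 π) := by
  intro x hx y hy hxy
  simp only at hxy
  have : cos x = cos y := by
    have h : w * cos x = w * cos y := by linarith
    exact mul_left_cancel₀ hw.ne' h
  exact Real.injOn_cos ⟨hx.1.le, hx.2.le⟩ ⟨hy.1.le, hy.2.le⟩ this

theorem deriv_cos' (c w φ : ℝ) : HasDerivAt (fun φ => c + w * cos φ) (w * -sin φ) φ :=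
  ((Real.hasDerivAt_cos φ).const_mul w).const_add c

theorem kd_jac {c w φ : ℝ} (hw : 0 < w) (hφ : φ ∈ Ioo 0 π) :
    |w * -sin φ| * kd c w (c + w * cos φ) = π⁻¹ := by
  have hs : 0 < sin φ := Real.sin_pos_of_mem_Ioo hφ
  have h1 : cos φ < 1 := by
    rw [← Real.cos_zero]
    exact Real.cos_lt_cos_of_nonneg_of_le_pi le_rfl hφ.2.le hφ.1
  have h2 : -1 < cos φ := by
    rw [← Real.cos_pi]
    exact Real.cos_lt_cos_of_nonneg_of_le_pi hφ.1.le le_rfl hφ.2
  unfold kd
  have hlt : |c + w * cos φ - c| < w := by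
    rw [abs_lt]; constructor <;> nlinarith
  rw [if_pos hlt]
  have h3 : w ^ 2 - (c + w * cos φ - c) ^ 2 = (w * sin φ) ^ 2 := by
    have := Real.sin_sq_add_cos_sq φ
    linear_combination (-w ^ 2) * this
  rw [h3, Real.sqrt_sq (by positivity), mul_neg, abs_neg, abs_of_pos (by positivity)]
  have := Real.pi_pos.ne'
  field_simp

variable {E : Type*} [NormedAddCommGroup E] [NormedSpace ℝ E]

theorem kd_support (c w : ℝ) (g : ℝ → E) : ∀ x, x ∉ Ioo (c - w) (c + w) → kd c w x • g x = 0 := by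
  intro x hx
  unfold kd
  rw [if_neg, zero_smul]
  intro h
  rw [abs_lt] at h
  exact hx ⟨by linarith [h.1], by linarith [h.2]⟩

theorem kd_integral {c w : ℝ} (hw : 0 < w) (g : ℝ → E) :
    ∫ x, kd c w x • g x = π⁻¹ • ∫ φ in (0 : ℝ)..π, g (c + w * cos φ) := by
  rw [← setIntegral_eq_integral_of_forall_compl_eq_zero (kd_support c w g), ← image_cos hw,
    integral_image_eq_integral_abs_deriv_smul measurableSet_Ioo
      (fun φ _ => (deriv_cos' c w φ).hasDerivWithinAt) (inj_cos hw),
    intervalIntegral.integral_of_le Real.pi_pos.le, integral_Ioc_eq_integral_Ioo,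
    ← MeasureTheory.integral_smul]
  refine setIntegral_congr_fun measurableSet_Ioo (fun φ hφ => ?_)
  rw [smul_smul, kd_jac hw hφ]

theorem kd_integrable {c w : ℝ} (hw : 0 < w) : Integrable (kd c w) := by
  have h1 : IntegrableOn (kd c w) (Ioo (c - w) (c + w)) := by
    rw [← image_cos hw, integrableOn_image_iff_integrableOn_abs_deriv_smul measurableSet_Ioo
      (fun φ _ => (deriv_cos' c w φ).hasDerivWithinAt) (inj_cos hw)]
    have h2 : IntegrableOn (fun _ : ℝ => π⁻¹) (Ioo 0 π) := by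
      rw [integrableOn_const_iff]; right; simp
    refine h2.congr_fun (fun φ hφ => ?_) measurableSet_Ioo
    simp only [smul_eq_mul]
    rw [kd_jac hw hφ]
  rw [integrableOn_iff_integrable_of_support_subset] at h1
  · exact h1
  · intro x hx
    by_contra hcon
    have := kd_support c w (fun _ => (1 : ℝ)) x hcon
    simp only [smul_eq_mul, mul_one] at this
    exact hx this

theorem kd_integral_one {c w : ℝ} (hw : 0 < w) : ∫ x, kd c w x = 1 := by
  have h := kd_integral (c := c) hw (fun _ => (1 : ℝ))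
  simp only [smul_eq_mul, mul_one] at h
  rw [h]
  have := Real.pi_pos.ne'
  simp

theorem kd_tendsto {c0 w0 : ℝ} (x : ℝ) (hx : |x - c0| ≠ w0) :
    Tendsto (fun p : ℝ × ℝ => kd p.1 p.2 x) (𝓝 (c0, w0)) (𝓝 (kd c0 w0 x)) := by
  have hc : Continuous (fun p : ℝ × ℝ => |x - p.1| - p.2) := by fun_prop
  rcases lt_or_gt_of_ne hx with h | h
  · have hev : ∀ᶠ p : ℝ × ℝ in 𝓝 (c0, w0), |x - p.1| - p.2 < 0 :=
      hc.continuousAt.eventually (gt_mem_nhds (by simp only; linarith))
    have hne : π * √(w0 ^ 2 - (x - c0) ^ 2) ≠ 0 := by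
      have h1 : 0 < w0 ^ 2 - (x - c0) ^ 2 := by
        rw [← sq_abs (x - c0)]
        nlinarith [abs_nonneg (x - c0)]
      have := Real.pi_pos
      have := Real.sqrt_pos.2 h1
      positivity
    have hcont : ContinuousAt (fun p : ℝ × ℝ => (π * √(p.2 ^ 2 - (x - p.1) ^ 2))⁻¹) (c0, w0) := by
      refine ContinuousAt.inv₀ (by fun_prop) hne
    have hk : kd c0 w0 x = (π * √(w0 ^ 2 - (x - c0) ^ 2))⁻¹ := by unfold kd; rw [if_pos h]
    rw [hk]
    refine hcont.tendsto.congr' ?_
    filter_upwards [hev] with p hp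
    unfold kd
    rw [if_pos (by linarith)]
  · have hev : ∀ᶠ p : ℝ × ℝ in 𝓝 (c0, w0), 0 < |x - p.1| - p.2 :=
      hc.continuousAt.eventually (lt_mem_nhds (by simp only; linarith))
    have hk : kd c0 w0 x = 0 := by unfold kd; rw [if_neg (by linarith)]
    rw [hk]
    refine tendsto_const_nhds.congr' ?_
    filter_upwards [hev] with p hp
    unfold kd
    rw [if_neg (by linarith)]

/-- total variation distance of arcsine laws is continuous -/
theorem kd_L1 {c0 w0 : ℝ} (hw0 : 0 < w0) :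
    Tendsto (fun p : ℝ × ℝ => ∫ x, |kd p.1 p.2 x - kd c0 w0 x|) (𝓝 (c0, w0)) (𝓝 0) := by
  have hev : ∀ᶠ p : ℝ × ℝ in 𝓝 (c0, w0), 0 < p.2 :=
    (continuous_snd.continuousAt (x := (c0, w0))).eventually (lt_mem_nhds (by simpa using hw0))
  have h1 : Tendsto (fun p : ℝ × ℝ => ∫ x, 2 * max (kd c0 w0 x - kd p.1 p.2 x) 0)
      (𝓝 (c0, w0)) (𝓝 (∫ _ : ℝ, (0 : ℝ))) := by
    refine tendsto_integral_filter_of_dominated_convergence (fun x => 2 * kd c0 w0 x) ?_ ?_ ?_ ?_
    · refine Eventually.of_forall fun p => Measurable.aestronglyMeasurable ?_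
      have h1 := kd_meas c0 w0
      have h2 := kd_meas p.1 p.2
      fun_prop
    · refine Eventually.of_forall fun p => Eventually.of_forall fun x => ?_
      have h1 := kd_nonneg c0 w0 x
      have h2 := kd_nonneg p.1 p.2 x
      rw [Real.norm_eq_abs, abs_of_nonneg (by positivity)]
      have : max (kd c0 w0 x - kd p.1 p.2 x) 0 ≤ kd c0 w0 x := max_le (by linarith) h1
      linarith
    · exact (kd_integrable hw0).const_mul 2
    · have hae : ∀ᵐ x : ℝ, |x - c0| ≠ w0 := by
        have : {x : ℝ | ¬ |x - c0| ≠ w0} ⊆ {c0 + w0, c0 - w0} := by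
          intro x hx
          simp only [ne_eq, not_not, Set.mem_ofPred_eq] at hx
          rcases abs_eq hw0.le |>.1 hx with h | h
          · left; linarith
          · right; simp only [mem_singleton_iff]; linarith
        rw [ae_iff]
        exact measure_mono_null this ((Set.toFinite _).measure_zero _)
      filter_upwards [hae] with x hx
      have h2 := kd_tendsto x hx
      have h3 : Tendsto (fun p : ℝ × ℝ => 2 * max (kd c0 w0 x - kd p.1 p.2 x) 0) (𝓝 (c0, w0))
          (𝓝 (2 * max (kd c0 w0 x - kd c0 w0 x) 0)) :=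
        ((tendsto_const_nhds.sub h2).max tendsto_const_nhds).const_mul 2
      simpa using h3
  rw [integral_zero] at h1
  refine h1.congr' ?_
  filter_upwards [hev] with p hp
  have hi1 := kd_integrable (c := p.1) hp
  have hi0 := kd_integrable (c := c0) hw0
  have hid : ∀ x, 2 * max (kd c0 w0 x - kd p.1 p.2 x) 0
      = |kd p.1 p.2 x - kd c0 w0 x| + (kd c0 w0 x - kd p.1 p.2 x) := by
    intro x
    rcases le_total (kd c0 w0 x) (kd p.1 p.2 x) with h | h
    · rw [max_eq_right (by linarith), abs_of_nonneg (by linarith)]; ring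
    · rw [max_eq_left (by linarith), abs_of_nonpos (by linarith)]; ring
  simp_rw [hid]
  have hA : Integrable (fun x => |kd p.1 p.2 x - kd c0 w0 x|) := (hi1.sub hi0).abs
  have hB : Integrable (fun x => kd c0 w0 x - kd p.1 p.2 x) := hi0.sub hi1
  rw [MeasureTheory.integral_add hA hB, MeasureTheory.integral_sub hi0 hi1, kd_integral_one hp,
    kd_integral_one hw0]
  ring

theorem rho_cont (a b : ℝ) : Continuous (rho a b) := by
  unfold rho
  refine Real.continuousOn_arcosh.comp_continuous ?_ (fun φ => one_le_XX a b φ)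
  unfold XX; fun_prop

theorem A_mul' (a b : ℝ) (F : HH) :
    A a (A b F) = π⁻¹ • ∫ φ in (0 : ℝ)..π, A (rho a b φ) F := by
  rw [A_mul]
  have hc : Continuous (fun φ => A (rho a b φ) F) := (A_cont F).comp (rho_cont a b)
  have h1 : ∫ φ in (0 : ℝ)..2 * π, A (rho a b φ) F
      = (∫ φ in (0 : ℝ)..π, A (rho a b φ) F) + ∫ φ in π..2 * π, A (rho a b φ) F :=
    (intervalIntegral.integral_add_adjacent_intervals (hc.intervalIntegrable _ _)
      (hc.intervalIntegrable _ _)).symm
  have h2 : ∫ φ in π..2 * π, A (rho a b φ) F = ∫ φ in (0 : ℝ)..π, A (rho a b φ) F := by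
    have h3 := intervalIntegral.integral_comp_sub_left (a := 0) (b := π)
      (fun φ => A (rho a b φ) F) (2 * π)
    rw [show 2 * π - π = π by ring, sub_zero] at h3
    rw [← h3]
    congr 1
    ext1 φ
    have : rho a b (2 * π - φ) = rho a b φ := by
      unfold rho XX
      rw [Real.cos_two_pi_sub]
    rw [this]
  rw [h1, h2, ← two_smul ℝ, smul_smul]
  congr 1
  have := Real.pi_pos.ne'
  field_simp

theorem A_mul_kd {a b : ℝ} (ha : 0 < a) (hb : 0 < b) (F : HH) :
    A a (A b F) = ∫ x, kd (cosh a * cosh b) (sinh a * sinh b) x • A (Real.arcosh x) F := by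
  have hw : 0 < sinh a * sinh b := mul_pos (Real.sinh_pos_iff.2 ha) (Real.sinh_pos_iff.2 hb)
  rw [kd_integral hw, A_mul']
  rfl

theorem arcosh_meas : Measurable Real.arcosh := by
  unfold Real.arcosh
  fun_prop

theorem Aarc_meas (F : HH) : StronglyMeasurable (fun x => A (Real.arcosh x) F) :=
  (A_cont F).comp_stronglyMeasurable arcosh_meas.stronglyMeasurable

theorem kdA_integrable {c w : ℝ} (hw : 0 < w) (F : HH) :
    Integrable (fun x => kd c w x • A (Real.arcosh x) F) := by
  refine (kd_integrable hw).smul_bdd ‖F‖ (Aarc_meas F).aestronglyMeasurable ?_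
  refine Eventually.of_forall fun x => ?_
  have h1 := norm_A_apply_le (Real.arcosh x) F
  have h2 := sph0_le_one (Real.arcosh x)
  have h3 := norm_nonneg F
  nlinarith

theorem AA_diff {a b a0 b0 : ℝ} (ha : 0 < a) (hb : 0 < b) (ha0 : 0 < a0) (hb0 : 0 < b0) :
    ‖A a * A b - A a0 * A b0‖ ≤ ∫ x, |kd (cosh a * cosh b) (sinh a * sinh b) x
      - kd (cosh a0 * cosh b0) (sinh a0 * sinh b0) x| := by
  have hw : 0 < sinh a * sinh b := mul_pos (Real.sinh_pos_iff.2 ha) (Real.sinh_pos_iff.2 hb)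
  have hw0 : 0 < sinh a0 * sinh b0 := mul_pos (Real.sinh_pos_iff.2 ha0) (Real.sinh_pos_iff.2 hb0)
  refine ContinuousLinearMap.opNorm_le_bound _ (integral_nonneg fun x => abs_nonneg _) fun F => ?_
  have h1 : (A a * A b - A a0 * A b0) F = A a (A b F) - A a0 (A b0 F) := rfl
  rw [h1, A_mul_kd ha hb, A_mul_kd ha0 hb0, ← MeasureTheory.integral_sub (kdA_integrable hw F)
    (kdA_integrable hw0 F)]
  refine (MeasureTheory.norm_integral_le_integral_norm _).trans ?_
  rw [← MeasureTheory.integral_mul_const]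
  refine integral_mono_of_nonneg (Eventually.of_forall fun x => norm_nonneg _) ?_ ?_
  · exact ((kd_integrable hw).sub (kd_integrable hw0)).abs.mul_const _
  · refine Eventually.of_forall fun x => ?_
    simp only
    rw [← sub_smul, norm_smul, Real.norm_eq_abs]
    refine mul_le_mul_of_nonneg_left ?_ (abs_nonneg _)
    have h1 := norm_A_apply_le (Real.arcosh x) F
    have h2 := sph0_le_one (Real.arcosh x)
    have h3 := norm_nonneg F
    nlinarith

theorem AA_cont {a0 b0 : ℝ} (ha0 : 0 < a0) (hb0 : 0 < b0) :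
    Tendsto (fun p : ℝ × ℝ => A p.1 * A p.2) (𝓝 (a0, b0)) (𝓝 (A a0 * A b0)) := by
  rw [tendsto_iff_norm_sub_tendsto_zero]
  have hw0 : 0 < sinh a0 * sinh b0 := mul_pos (Real.sinh_pos_iff.2 ha0) (Real.sinh_pos_iff.2 hb0)
  have hm : Continuous (fun p : ℝ × ℝ => ((cosh p.1 * cosh p.2, sinh p.1 * sinh p.2) : ℝ × ℝ)) := by
    fun_prop
  have h1 := (kd_L1 (c0 := cosh a0 * cosh b0) hw0).comp (hm.tendsto (a0, b0))
  refine squeeze_zero' (Eventually.of_forall fun p => norm_nonneg _) ?_ h1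
  have hev1 : ∀ᶠ p : ℝ × ℝ in 𝓝 (a0, b0), 0 < p.1 :=
    (continuous_fst.continuousAt (x := (a0, b0))).eventually (lt_mem_nhds (by simpa using ha0))
  have hev2 : ∀ᶠ p : ℝ × ℝ in 𝓝 (a0, b0), 0 < p.2 :=
    (continuous_snd.continuousAt (x := (a0, b0))).eventually (lt_mem_nhds (by simpa using hb0))
  filter_upwards [hev1, hev2] with p h1 h2
  exact AA_diff h1 h2 ha0 hb0

theorem A_selfAdjoint (r : ℝ) : IsSelfAdjoint (A r) := by
  rw [ContinuousLinearMap.isSelfAdjoint_iff_isSymmetric]
  intro F G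
  exact A_symm r F G

theorem A_contAt {a0 : ℝ} (ha0 : 0 < a0) : ContinuousAt A a0 := by
  have c1 : Tendsto (fun a : ℝ => ((a, a) : ℝ × ℝ)) (𝓝 a0) (𝓝 (a0, a0)) :=
    Continuous.tendsto (by fun_prop) a0
  have c2 : Tendsto (fun a : ℝ => ((a, a0) : ℝ × ℝ)) (𝓝 a0) (𝓝 (a0, a0)) :=
    Continuous.tendsto (by fun_prop) a0
  have c3 : Tendsto (fun a : ℝ => ((a0, a) : ℝ × ℝ)) (𝓝 a0) (𝓝 (a0, a0)) :=
    Continuous.tendsto (by fun_prop) a0
  have h1 := (AA_cont ha0 ha0).comp c1
  have h2 := (AA_cont ha0 ha0).comp c2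
  have h3 := (AA_cont ha0 ha0).comp c3
  simp only [Function.comp_def] at h1 h2 h3
  have h4 : Tendsto (fun a : ℝ => (A a - A a0) * (A a - A a0)) (𝓝 a0) (𝓝 0) := by
    have h5 := ((h1.sub h2).sub h3).add (tendsto_const_nhds (x := A a0 * A a0) (f := 𝓝 a0))
    rw [show A a0 * A a0 - A a0 * A a0 - A a0 * A a0 + A a0 * A a0 = 0 by abel] at h5
    refine h5.congr fun a => ?_
    noncomm_ring
  have h5 : Tendsto (fun a : ℝ => ‖A a - A a0‖ ^ 2) (𝓝 a0) (𝓝 0) := by
    have h6 := h4.norm
    rw [norm_zero] at h6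
    refine h6.congr fun a => ?_
    have hsa : IsSelfAdjoint (A a - A a0) := (A_selfAdjoint a).sub (A_selfAdjoint a0)
    have := CStarRing.norm_self_mul_star (x := A a - A a0)
    rw [hsa.star_eq] at this
    rw [this]; ring
  unfold ContinuousAt
  rw [tendsto_iff_norm_sub_tendsto_zero]
  have h7 := h5.sqrt
  rw [Real.sqrt_zero] at h7
  refine h7.congr fun a => ?_
  rw [Real.sqrt_sq (norm_nonneg _)]

/-- the product formula in operator norm -/
theorem A_mul_op {a b : ℝ} (ha : 0 < a) (hb : 0 < b) (hab : a ≠ b) :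
    (Continuous fun φ => A (rho a b φ)) ∧
    A a * A b = π⁻¹ • ∫ φ in (0 : ℝ)..π, A (rho a b φ) := by
  have hc : Continuous (fun φ => A (rho a b φ)) := by
    refine continuous_iff_continuousAt.2 fun φ => ?_
    have hpos : 0 < rho a b φ := Real.arcosh_pos (XX_one_lt φ ha.le hb.le hab)
    exact ContinuousAt.comp (A_contAt hpos) (rho_cont a b).continuousAt
  refine ⟨hc, ?_⟩
  ext1 F
  have h1 : (A a * A b) F = A a (A b F) := rfl
  rw [h1, A_mul', _root_.smul_apply,
    ContinuousLinearMap.intervalIntegral_apply (hc.intervalIntegrable _ _)]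

end Pool.Agent.T2H78.Hyp
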