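import Pool.Agent.T2H78.HypAvg

/-!
The circle averaging operators on `L ^ 2`, in the flat picture: `F (s, x) = e ^ (-s/2) f (x + i e ^ s)`.
-/

namespace Pool.Agent.T2H78.Hyp
open Real MeasureTheory Set Filter Topology intervalIntegral
open scoped ENNReal InnerProductSpace ComplexConjugate

/-- the flat Hilbert space -/
noncomputable abbrev HH := Lp ℂ 2 (volume : Measure (ℝ × ℝ))

/-- right translation by an element of the affine group in coordinates `(s, x) = (log y, x)` -/
noncomputable def tau (p : ℝ × ℝ) : C(ℝ × ℝ, ℝ × ℝ) :=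
  ⟨fun z => (z.1 + p.2, z.2 + exp z.1 * p.1), by fun_prop⟩

theorem tau_apply (p z : ℝ × ℝ) : tau p z = (z.1 + p.2, z.2 + exp z.1 * p.1) := rfl

theorem tau_mp (p : ℝ × ℝ) : MeasurePreserving (tau p) volume volume := by
  have h1 : MeasurePreserving (fun s : ℝ => s + p.2) volume volume :=
    measurePreserving_add_right volume p.2
  exact h1.skew_product (μc := (volume : Measure ℝ)) (μd := (volume : Measure ℝ))
    (g := fun s x => x + exp s * p.1) (by unfold Function.uncurry; fun_prop)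
    (Eventually.of_forall fun s => (measurePreserving_add_right volume _).map_eq)

theorem tau_tau (p q z : ℝ × ℝ) : tau q (tau p z) = tau (mulP p q) z := by
  simp only [tau_apply, mulP]
  refine Prod.ext ?_ ?_
  · simp only; ring
  · simp only
    rw [Real.exp_add]; ring

theorem tau_cont : Continuous tau := by
  apply ContinuousMap.continuous_of_continuous_uncurry
  unfold Function.uncurry
  simp only [tau_apply]
  fun_prop

/-- unitary translations -/
noncomputable def V (p : ℝ × ℝ) : HH →ₗᵢ[ℂ] HH := Lp.compMeasurePreservingₗᵢ ℂ (tau p) (tau_mp p)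

theorem V_coe (p : ℝ × ℝ) (F : HH) : V p F =ᵐ[volume] F ∘ tau p :=
  Lp.coeFn_compMeasurePreserving F (tau_mp p)

theorem V_cont (F : HH) : Continuous (fun p => V p F) :=
  Continuous.compMeasurePreservingLp (f := fun _ : ℝ × ℝ => F) continuous_const tau_cont tau_mp
    (by simp)

theorem V_mul (p q : ℝ × ℝ) (F : HH) : V p (V q F) = V (mulP p q) F := by
  apply Lp.ext
  have h1 := V_coe p (V q F)
  have h2 := (tau_mp p).quasiMeasurePreserving.ae_eq_comp (V_coe q F)
  have h3 := V_coe (mulP p q) F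
  have h4 : (F ∘ tau q) ∘ tau p = F ∘ tau (mulP p q) := by
    funext z
    simp only [Function.comp, tau_tau]
  rw [h4] at h2
  exact h1.trans (h2.trans h3.symm)

theorem V_zero (F : HH) : V (0, 0) F = F := by
  apply Lp.ext
  have h1 := V_coe (0, 0) F
  have h4 : (F ∘ tau (0, 0) : ℝ × ℝ → ℂ) = F := by
    funext z
    simp [Function.comp, tau_apply]
  rwa [h4] at h1

theorem mulP_invP (p : ℝ × ℝ) : mulP p (invP p) = (0, 0) := by
  unfold mulP invP
  refine Prod.ext ?_ ?_
  · simp only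
    rw [mul_neg, ← mul_assoc, ← Real.exp_add]; simp
  · simp

theorem V_inv (p : ℝ × ℝ) (F : HH) : V p (V (invP p) F) = F := by
  rw [V_mul, mulP_invP, V_zero]

theorem V_adj (p : ℝ × ℝ) (F G : HH) : inner ℂ (V p F) G = inner ℂ F (V (invP p) G) := by
  conv_lhs => rw [← V_inv p G]
  exact (V p).inner_map_map F (V (invP p) G)

/-- the integrand -/
noncomputable def Ps (F : HH) (p : ℝ × ℝ) : HH := exp (p.2 / 2) • V p F

theorem Ps_cont (F : HH) : Continuous (Ps F) := by
  unfold Ps
  exact (by fun_prop : Continuous (fun p : ℝ × ℝ => exp (p.2 / 2))).smul (V_cont F)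

theorem PsPt_cont (F : HH) : Continuous (fun q : ℝ × ℝ => Ps F (Pt q.1 q.2)) :=
  (Ps_cont F).comp Pt_cont

theorem PsPt_cont' (F : HH) (r : ℝ) : Continuous (fun θ : ℝ => Ps F (Pt r θ)) := by
  have := (PsPt_cont F).comp (f := fun θ : ℝ => ((r, θ) : ℝ × ℝ)) (by fun_prop)
  exact this

theorem Ps_add (F G : HH) (p : ℝ × ℝ) : Ps (F + G) p = Ps F p + Ps G p := by
  unfold Ps; rw [map_add, smul_add]

theorem Ps_smul (c : ℂ) (F : HH) (p : ℝ × ℝ) : Ps (c • F) p = c • Ps F p := by
  unfold Ps; rw [map_smul, smul_comm]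

theorem norm_Ps (F : HH) (r θ : ℝ) : ‖Ps F (Pt r θ)‖ = F0 0 (Lf r θ) * ‖F‖ := by
  unfold Ps
  rw [norm_smul, LinearIsometry.norm_map, Real.norm_eq_abs, abs_of_pos (exp_pos _)]
  congr 1
  simp [Pt, F0]

theorem norm_int_Ps (F : HH) (r : ℝ) :
    ‖(2 * π)⁻¹ • ∫ θ in (0 : ℝ)..2 * π, Ps F (Pt r θ)‖ ≤ sph 0 r * ‖F‖ := by
  have hpi := Real.pi_pos
  rw [norm_smul, Real.norm_eq_abs, abs_of_pos (by positivity)]
  unfold sph
  rw [mul_assoc]
  refine mul_le_mul_of_nonneg_left ?_ (by positivity)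
  rw [← intervalIntegral.integral_mul_const]
  refine (intervalIntegral.norm_integral_le_integral_norm two_pi_pos').trans (le_of_eq ?_)
  simp_rw [norm_Ps]

/-- averaging operator -/
noncomputable def A (r : ℝ) : HH →L[ℂ] HH :=
  LinearMap.mkContinuous
    { toFun := fun F => (2 * π)⁻¹ • ∫ θ in (0 : ℝ)..2 * π, Ps F (Pt r θ)
      map_add' := fun F G => by
        simp_rw [Ps_add]
        rw [intervalIntegral.integral_add ((PsPt_cont' F r).intervalIntegrable _ _)
          ((PsPt_cont' G r).intervalIntegrable _ _), smul_add]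
      map_smul' := fun c F => by
        simp_rw [Ps_smul]
        rw [intervalIntegral.integral_smul, RingHom.id_apply, smul_comm] }
    (sph 0 r) (fun F => norm_int_Ps F r)

theorem A_apply (r : ℝ) (F : HH) :
    A r F = (2 * π)⁻¹ • ∫ θ in (0 : ℝ)..2 * π, Ps F (Pt r θ) := rfl

theorem norm_A_apply_le (r : ℝ) (F : HH) : ‖A r F‖ ≤ sph 0 r * ‖F‖ := norm_int_Ps F r

theorem norm_A_le (r : ℝ) : ‖A r‖ ≤ sph 0 r :=
  ContinuousLinearMap.opNorm_le_bound _ (sph0_pos r).le (norm_A_apply_le r)

theorem sph0_le_one_of_nonneg {r : ℝ} (hr : 0 ≤ r) : sph 0 r ≤ 1 := by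
  -- `sinh r φ_0'` is antitone on `[0, ∞)` and vanishes at `0`
  have h1 : AntitoneOn (fun r => sinh r * sph1 0 r) (Ici 0) := by
    have hd : ∀ r, HasDerivAt (fun r => sinh r * sph1 0 r)
        (-(1 / 4 * (sinh r * sph 0 r))) r := by
      intro r
      refine ((Real.hasDerivAt_sinh r).mul (hasDerivAt_sph1 0 r)).congr_deriv ?_
      have := sph_ode 0 r
      linear_combination this
    refine antitoneOn_of_deriv_nonpos (convex_Ici 0)
      (continuous_iff_continuousAt.2 fun r => (hd r).continuousAt).continuousOn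
      (fun r _ => (hd r).differentiableAt.differentiableWithinAt) ?_
    intro r hr
    rw [interior_Ici] at hr
    rw [(hd r).deriv]
    have := Real.sinh_pos_iff.2 hr
    have := sph0_pos r
    have : 0 < sinh r * sph 0 r := by positivity
    linarith
  have h2 : ∀ r, 0 < r → sph1 0 r ≤ 0 := by
    intro r hr
    have := h1 zero_mem_Ici' hr.le hr.le
    simp only [Real.sinh_zero, zero_mul] at this
    have hs := Real.sinh_pos_iff.2 hr
    by_contra hc
    push Not at hc
    have := mul_pos hs hc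
    linarith
  have h3 : AntitoneOn (sph 0) (Ici 0) := by
    refine antitoneOn_of_deriv_nonpos (convex_Ici 0)
      (continuous_iff_continuousAt.2 fun r => (hasDerivAt_sph 0 r).continuousAt).continuousOn
      (fun r _ => (hasDerivAt_sph 0 r).differentiableAt.differentiableWithinAt) ?_
    intro r hr
    rw [interior_Ici] at hr
    rw [(hasDerivAt_sph 0 r).deriv]
    exact h2 r hr
  have := h3 zero_mem_Ici' hr hr
  rwa [sph_zero] at this

theorem sph0_le_one (r : ℝ) : sph 0 r ≤ 1 := by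
  rcases le_total 0 r with h | h
  · exact sph0_le_one_of_nonneg h
  · rw [← sph_even]; exact sph0_le_one_of_nonneg (by linarith)

theorem norm_A_le_one (r : ℝ) : ‖A r‖ ≤ 1 := (norm_A_le r).trans (sph0_le_one r)

theorem A_cont (F : HH) : Continuous (fun r => A r F) := by
  simp_rw [A_apply]
  exact (continuous_parametric_intervalIntegral_of_continuous'
    (f := fun r θ => Ps F (Pt r θ)) (PsPt_cont F) 0 (2 * π)).const_smul (2 * π)⁻¹

/-- product formula -/
theorem A_mul (a b : ℝ) (F : HH) :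
    A a (A b F) = (2 * π)⁻¹ • ∫ φ in (0 : ℝ)..2 * π, A (rho a b φ) F := by
  have h1 : ∀ p, Ps (A b F) p = (2 * π)⁻¹ • ∫ φ in (0 : ℝ)..2 * π, Ps F (mulP p (Pt b φ)) := by
    intro p
    unfold Ps
    rw [A_apply]
    have e1 : V p ((2 * π)⁻¹ • ∫ θ in (0 : ℝ)..2 * π, Ps F (Pt b θ))
        = (2 * π)⁻¹ • ∫ θ in (0 : ℝ)..2 * π, V p (Ps F (Pt b θ)) := by
      have e2 := (V p).toContinuousLinearMap.restrictScalars ℝ |>.intervalIntegral_comp_comm
        (μ := volume) ((PsPt_cont' F b).intervalIntegrable 0 (2 * π))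
      have e3 : ∀ x : HH, ((V p).toContinuousLinearMap.restrictScalars ℝ) x = V p x := fun x => rfl
      simp_rw [e3] at e2
      rw [e2, ← e3, ← e3, map_smul]
    rw [e1, smul_comm, ← intervalIntegral.integral_smul]
    congr 2
    ext1 φ
    unfold Ps
    have e3 : ∀ x : HH, ((V p).toContinuousLinearMap.restrictScalars ℝ) x = V p x := fun x => rfl
    rw [← e3 (exp ((Pt b φ).2 / 2) • V (Pt b φ) F), map_smul, e3, V_mul, smul_smul, ← Real.exp_add]
    congr 2
    simp only [mulP]
    ring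
  rw [A_apply]
  simp_rw [h1]
  rw [intervalIntegral.integral_smul, prod_avg (Ps_cont F) a b]
  congr 1
  rw [← intervalIntegral.integral_smul]
  congr 1

/-- symmetry -/
theorem A_symm (r : ℝ) (F G : HH) : inner ℂ (A r F) G = inner ℂ F (A r G) := by
  have hin : ∀ (K : HH) (f : ℝ → HH), Continuous f →
      inner ℂ K ((2 * π)⁻¹ • ∫ θ in (0 : ℝ)..2 * π, f θ)
        = (2 * π)⁻¹ • ∫ θ in (0 : ℝ)..2 * π, inner ℂ K (f θ) := by
    intro K f hf
    have e := ((innerSL ℂ K).restrictScalars ℝ).intervalIntegral_comp_comm (μ := volume)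
      (hf.intervalIntegrable 0 (2 * π))
    have e3 : ∀ x : HH, ((innerSL ℂ K).restrictScalars ℝ) x = inner ℂ K x := fun x => rfl
    simp_rw [e3] at e
    rw [e, ← e3, ← e3, map_smul]
  -- second form of A r G
  have h2 : A r G = (2 * π)⁻¹ • ∫ θ in (0 : ℝ)..2 * π, exp ((Pt r θ).2 / 2) • V (invP (Pt r θ)) G := by
    rw [A_apply, ← inv_avg (Ps_cont G) r]
    congr 2
    ext1 θ
    unfold Ps
    rw [smul_smul]
    congr 1
    have : (Zf r θ)⁻¹ = exp ((Pt r θ).2) := by
      simp only [Pt, Lf]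
      rw [Real.exp_neg, Real.exp_log (Zf_pos r θ)]
    rw [this, ← Real.exp_add]
    congr 1
    simp only [invP]; ring
  have hc2 : Continuous (fun θ => exp ((Pt r θ).2 / 2) • V (invP (Pt r θ)) G) := by
    have hP : Continuous (fun θ => Pt r θ) := by
      have := Pt_cont.comp (f := fun θ : ℝ => ((r, θ) : ℝ × ℝ)) (by fun_prop)
      exact this
    have hinv : Continuous invP := by unfold invP; fun_prop
    exact (Real.continuous_exp.comp ((continuous_snd.comp hP).div_const 2)).smul
      ((V_cont G).comp (hinv.comp hP))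
  have h3 : inner ℂ F (A r G) = (2 * π)⁻¹ • ∫ θ in (0 : ℝ)..2 * π,
      (exp ((Pt r θ).2 / 2) • inner ℂ (V (Pt r θ) F) G : ℂ) := by
    rw [h2, hin F _ hc2]
    congr 2
    ext1 θ
    rw [V_adj, inner_smul_right_eq_smul]
  have h4 : inner ℂ G (A r F) = (2 * π)⁻¹ • ∫ θ in (0 : ℝ)..2 * π,
      (exp ((Pt r θ).2 / 2) • inner ℂ G (V (Pt r θ) F) : ℂ) := by
    rw [A_apply, hin G _ (PsPt_cont' F r)]
    congr 2
    ext1 θ
    unfold Ps
    rw [inner_smul_right_eq_smul]
  rw [h3, ← inner_conj_symm (A r F) G, h4]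
  have hcc : Continuous (fun θ => (exp ((Pt r θ).2 / 2) • inner ℂ G (V (Pt r θ) F) : ℂ)) := by
    have : Continuous (fun θ => inner ℂ G (Ps F (Pt r θ))) :=
      Continuous.inner continuous_const (PsPt_cont' F r)
    refine this.congr fun θ => ?_
    unfold Ps
    rw [inner_smul_right_eq_smul]
  have e := (Complex.conjCLE : ℂ →L[ℝ] ℂ).intervalIntegral_comp_comm (μ := volume)
    (hcc.intervalIntegrable 0 (2 * π))
  have e3 : ∀ x : ℂ, (Complex.conjCLE : ℂ →L[ℝ] ℂ) x = conj x := fun x => rfl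
  simp_rw [e3] at e
  rw [← e3, map_smul, e3, ← e]
  congr 2
  ext1 θ
  rw [← e3, map_smul, e3, inner_conj_symm]

end Pool.Agent.T2H78.Hyp
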