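import Pool.Agent.T2H78.HypBasic

/-!
Values at the origin, the ground state `φ_0`, the function `g = w / w'` and the quotient
`u = φ_l / φ_0`.
-/

namespace Pool.Agent.T2H78.Hyp
open Real MeasureTheory Set Filter Topology intervalIntegral

theorem Zf_zero (θ : ℝ) : Zf 0 θ = 1 := by simp [Zf]
theorem Lf_zero (θ : ℝ) : Lf 0 θ = 0 := by simp [Lf, Zf_zero]
theorem Lr_zero (θ : ℝ) : Lr 0 θ = -cos θ := by simp [Lr, Zf_zero, Zr]

theorem sph_zero (l : ℝ) : sph l 0 = 1 := by
  unfold sph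
  simp only [Lf_zero, F0]
  simp
  field_simp

theorem sph1_zero (l : ℝ) : sph1 l 0 = 0 := by
  unfold sph1
  simp only [Lf_zero, Lr_zero, F1]
  simp

theorem sph2_zero (l : ℝ) : sph2 l 0 = -(1 / 4 + l ^ 2) / 2 := by
  unfold sph2
  simp only [Lf_zero, Lr_zero, F1, F2]
  have h1 : ∀ θ : ℝ, rexp (-0 / 2) * ((1 / 4 - l ^ 2) * cos (l * 0) + l * sin (l * 0)) * (-cos θ) ^ 2
      + rexp (-0 / 2) * (-(1 / 2) * cos (l * 0) - l * sin (l * 0)) * (1 - (-cos θ) ^ 2)
      = (3 / 4 - l ^ 2) * cos θ ^ 2 + (-(1 / 2)) := by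
    intro θ
    simp only [neg_zero, zero_div, Real.exp_zero, mul_zero, Real.cos_zero, Real.sin_zero]
    ring
  simp_rw [h1]
  rw [intervalIntegral.integral_add, intervalIntegral.integral_const_mul, integral_cos_sq,
    intervalIntegral.integral_const]
  · have hs : sin (2 * π) = 0 := Real.sin_two_pi
    have := Real.pi_pos.ne'
    simp only [hs, Real.sin_zero, mul_zero, smul_eq_mul]
    field_simp
    ring
  · exact (Continuous.intervalIntegrable (by fun_prop) _ _)
  · exact intervalIntegrable_const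

theorem sph0_pos (r : ℝ) : 0 < sph 0 r := by
  unfold sph
  have hp := Real.pi_pos
  refine mul_pos (by positivity) ?_
  refine intervalIntegral.intervalIntegral_pos_of_pos ?_ ?_ (by positivity)
  · have := cont_F0L.comp (f := fun θ : ℝ => (((0, r), θ) : (ℝ × ℝ) × ℝ)) (by fun_prop)
    exact this.intervalIntegrable _ _
  · intro θ
    simp only [F0, zero_mul, Real.cos_zero, mul_one]
    positivity

theorem abs_sph1_le (r : ℝ) : |2 * sph1 0 r| ≤ sph 0 r := by
  unfold sph sph1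
  have hp := Real.pi_pos
  have hI0 : IntervalIntegrable (fun θ => F0 0 (Lf r θ)) volume 0 (2 * π) := by
    have := cont_F0L.comp (f := fun θ : ℝ => (((0, r), θ) : (ℝ × ℝ) × ℝ)) (by fun_prop)
    exact this.intervalIntegrable _ _
  have hI1 : IntervalIntegrable (fun θ => F1 0 (Lf r θ) * Lr r θ) volume 0 (2 * π) := by
    have := cont_I1.comp (f := fun θ : ℝ => (((0, r), θ) : (ℝ × ℝ) × ℝ)) (by fun_prop)
    exact this.intervalIntegrable _ _
  rw [show 2 * ((2 * π)⁻¹ * ∫ θ in (0 : ℝ)..2 * π, F1 0 (Lf r θ) * Lr r θ)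
    = (2 * π)⁻¹ * (2 * ∫ θ in (0 : ℝ)..2 * π, F1 0 (Lf r θ) * Lr r θ) by ring, abs_mul,
    abs_of_pos (show (0 : ℝ) < (2 * π)⁻¹ by positivity)]
  refine mul_le_mul_of_nonneg_left ?_ (by positivity)
  rw [← intervalIntegral.integral_const_mul]
  have h1 := intervalIntegral.norm_integral_le_integral_norm (μ := volume)
    (f := fun θ => 2 * (F1 0 (Lf r θ) * Lr r θ)) two_pi_pos'
  rw [Real.norm_eq_abs] at h1
  refine h1.trans ?_
  refine intervalIntegral.integral_mono_on two_pi_pos' ?_ hI0 ?_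
  · exact (hI1.const_mul 2).norm
  · intro θ _
    rw [Real.norm_eq_abs, abs_mul, abs_mul]
    have hF1 : F1 0 (Lf r θ) = -(1 / 2) * F0 0 (Lf r θ) := by simp [F0, F1]; ring
    have hF0 : 0 < F0 0 (Lf r θ) := by
      simp only [F0, zero_mul, Real.cos_zero, mul_one]; positivity
    rw [hF1, abs_mul, abs_of_pos hF0]
    have h3 := abs_Lr_le r θ
    rw [show |(2 : ℝ)| = 2 by norm_num, show |(-(1 / 2) : ℝ)| = 1 / 2 by norm_num]
    nlinarith

/-- denominator of `h` -/
noncomputable def den (r : ℝ) : ℝ := 2 * sph1 0 r * sinh r + sph 0 r * cosh r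

theorem den_pos (r : ℝ) : 0 < den r := by
  unfold den
  have h1 := abs_sph1_le r
  have h2 := sph0_pos r
  have h3 : |2 * sph1 0 r * sinh r| ≤ sph 0 r * |sinh r| := by
    rw [abs_mul]; exact mul_le_mul_of_nonneg_right h1 (abs_nonneg _)
  have h4 : |sinh r| < cosh r := by
    rw [abs_lt]
    constructor
    · nlinarith [Real.exp_pos r, Real.cosh_add_sinh r]
    · exact Real.sinh_lt_cosh r
  have h5 := neg_abs_le (2 * sph1 0 r * sinh r)
  nlinarith

theorem hasDerivAt_den (r : ℝ) :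
    HasDerivAt den (sph1 0 r * cosh r + sph 0 r * sinh r / 2) r := by
  unfold den
  have h1 := ((hasDerivAt_sph1 0 r).const_mul 2).mul (Real.hasDerivAt_sinh r)
  have h2 := (hasDerivAt_sph 0 r).mul (Real.hasDerivAt_cosh r)
  refine (h1.add h2).congr_deriv ?_
  have := sph_ode 0 r
  linear_combination 2 * this

/-- `h = g / sinh` -/
noncomputable def hh (r : ℝ) : ℝ := sph 0 r / den r

theorem hh_pos (r : ℝ) : 0 < hh r := div_pos (sph0_pos r) (den_pos r)

theorem hasDerivAt_hh (r : ℝ) :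
    HasDerivAt hh (-(sinh r * (sph 0 r ^ 2 - (2 * sph1 0 r) ^ 2) / 2) / den r ^ 2) r := by
  unfold hh
  refine ((hasDerivAt_sph 0 r).div (hasDerivAt_den r) (den_pos r).ne').congr_deriv ?_
  congr 1
  unfold den; ring

theorem hh_antitone : AntitoneOn hh (Ici 0) := by
  have hc : Continuous hh := continuous_iff_continuousAt.2 fun r => (hasDerivAt_hh r).continuousAt
  refine antitoneOn_of_deriv_nonpos (convex_Ici 0) hc.continuousOn
    (fun r _ => (hasDerivAt_hh r).differentiableAt.differentiableWithinAt) ?_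
  intro r hr
  rw [interior_Ici] at hr
  rw [(hasDerivAt_hh r).deriv]
  have h1 : 0 < sinh r := Real.sinh_pos_iff.2 hr
  have h2 : (2 * sph1 0 r) ^ 2 ≤ sph 0 r ^ 2 := by
    rw [← sq_abs (2 * sph1 0 r)]
    exact pow_le_pow_left₀ (abs_nonneg _) (abs_sph1_le r) 2
  have h3 := sq_pos_of_pos (den_pos r)
  rw [neg_div]
  rw [neg_nonpos]
  have : 0 ≤ sph 0 r ^ 2 - (2 * sph1 0 r) ^ 2 := by linarith
  positivity

/-- `g = w / w'` with `w = φ_0 ^ 2 sinh` -/
noncomputable def gg (r : ℝ) : ℝ := hh r * sinh r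

/-- derivative of `g` -/
noncomputable def gg' (r : ℝ) : ℝ := (1 + hh r ^ 2) / 2

theorem hasDerivAt_gg (r : ℝ) : HasDerivAt gg (gg' r) r := by
  unfold gg gg'
  refine ((hasDerivAt_hh r).mul (Real.hasDerivAt_sinh r)).congr_deriv ?_
  have hd := (den_pos r).ne'
  have hc := Real.cosh_sq r
  unfold hh
  field_simp
  unfold den
  generalize sph 0 r = a
  generalize sph1 0 r = b
  linear_combination a ^ 2 * hc

theorem gg_zero : gg 0 = 0 := by simp [gg]

theorem gg_pos {r : ℝ} (hr : 0 < r) : 0 < gg r := mul_pos (hh_pos r) (Real.sinh_pos_iff.2 hr)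

theorem gg_cont : Continuous gg :=
  continuous_iff_continuousAt.2 fun r => (hasDerivAt_gg r).continuousAt

theorem gg'_pos (r : ℝ) : 0 < gg' r := by unfold gg'; positivity

theorem gg'_antitone : AntitoneOn gg' (Ici 0) := by
  intro r hr s hs hrs
  unfold gg'
  have h1 := hh_antitone hr hs hrs
  have h2 := hh_pos s
  nlinarith

theorem gg_strictMono : StrictMonoOn gg (Ici 0) := by
  refine strictMonoOn_of_deriv_pos (convex_Ici 0) gg_cont.continuousOn ?_
  intro r _
  rw [(hasDerivAt_gg r).deriv]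
  exact gg'_pos r

/-- the quotient `u = φ_l / φ_0` and its derivatives -/
noncomputable def U (l r : ℝ) : ℝ := sph l r / sph 0 r
noncomputable def U1 (l r : ℝ) : ℝ := (sph1 l r * sph 0 r - sph l r * sph1 0 r) / sph 0 r ^ 2
noncomputable def U2 (l r : ℝ) : ℝ :=
  (sph2 l r * sph 0 r - sph l r * sph2 0 r) / sph 0 r ^ 2
    - 2 * (sph1 l r * sph 0 r - sph l r * sph1 0 r) * sph1 0 r / sph 0 r ^ 3

theorem hasDerivAt_U (l r : ℝ) : HasDerivAt (U l) (U1 l r) r :=
  (hasDerivAt_sph l r).div (hasDerivAt_sph 0 r) (sph0_pos r).ne'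

theorem hasDerivAt_U1 (l r : ℝ) : HasDerivAt (U1 l) (U2 l r) r := by
  unfold U1
  have h1 := ((hasDerivAt_sph1 l r).mul (hasDerivAt_sph 0 r)).sub
    ((hasDerivAt_sph l r).mul (hasDerivAt_sph1 0 r))
  have h2 := (hasDerivAt_sph 0 r).pow 2
  refine (h1.div h2 (pow_ne_zero 2 (sph0_pos r).ne')).congr_deriv ?_
  unfold U2
  have h0 := (sph0_pos r).ne'
  simp only [Pi.sub_apply, Pi.mul_apply, Pi.pow_apply]
  field_simp
  ring

theorem U_zero (l : ℝ) : U l 0 = 1 := by simp [U, sph_zero]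
theorem U1_zero (l : ℝ) : U1 l 0 = 0 := by simp [U1, sph1_zero]
theorem U2_zero (l : ℝ) : U2 l 0 = -l ^ 2 / 2 := by
  simp [U2, sph1_zero, sph_zero, sph2_zero]; ring

theorem U_ode (l r : ℝ) : gg r * U2 l r + U1 l r + l ^ 2 * gg r * U l r = 0 := by
  have h0 := (sph0_pos r).ne'
  have hd := (den_pos r).ne'
  have h1 := sph_ode l r
  have h2 := sph_ode 0 r
  unfold gg U2 U1 U hh
  field_simp
  unfold den
  generalize sph 0 r = a at *
  generalize sph1 0 r = b at *
  generalize sph2 0 r = c at *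
  generalize sph l r = a' at *
  generalize sph1 l r = b' at *
  generalize sph2 l r = c' at *
  linear_combination a ^ 2 * h1 - a * a' * h2

theorem U_cont : Continuous (fun p : ℝ × ℝ => U p.1 p.2) := by
  unfold U
  refine Continuous.div sph_cont ?_ (fun p => (sph0_pos _).ne')
  exact sph_cont.comp (by fun_prop : Continuous (fun p : ℝ × ℝ => ((0 : ℝ), p.2)))

theorem sph0_cont' : Continuous (fun p : ℝ × ℝ => sph 0 p.2) := by
  have := sph_cont.comp (f := fun p : ℝ × ℝ => ((0 : ℝ), p.2)) (by fun_prop)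
  exact this

theorem sph10_cont' : Continuous (fun p : ℝ × ℝ => sph1 0 p.2) := by
  have := sph1_cont.comp (f := fun p : ℝ × ℝ => ((0 : ℝ), p.2)) (by fun_prop)
  exact this

theorem sph20_cont' : Continuous (fun p : ℝ × ℝ => sph2 0 p.2) := by
  have := sph2_cont.comp (f := fun p : ℝ × ℝ => ((0 : ℝ), p.2)) (by fun_prop)
  exact this

theorem U1_cont : Continuous (fun p : ℝ × ℝ => U1 p.1 p.2) := by
  unfold U1
  refine Continuous.div ?_ (sph0_cont'.pow 2) (fun p => pow_ne_zero 2 (sph0_pos _).ne')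
  exact (sph1_cont.mul sph0_cont').sub (sph_cont.mul sph10_cont')

theorem U2_cont : Continuous (fun p : ℝ × ℝ => U2 p.1 p.2) := by
  unfold U2
  refine Continuous.sub ?_ ?_
  · refine Continuous.div ?_ (sph0_cont'.pow 2) (fun p => pow_ne_zero 2 (sph0_pos _).ne')
    exact (sph2_cont.mul sph0_cont').sub (sph_cont.mul sph20_cont')
  · refine Continuous.div ?_ (sph0_cont'.pow 3) (fun p => pow_ne_zero 3 (sph0_pos _).ne')
    exact (continuous_const.mul ((sph1_cont.mul sph0_cont').sub (sph_cont.mul sph10_cont'))).mul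
      sph10_cont'

end Pool.Agent.T2H78.Hyp
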