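import Pool.Agent.T2H78.HypCirc

/-!
Transfer from the hyperbolic plane to the flat picture.
-/

namespace Pool.Agent.T2H78.Hyp
open Real MeasureTheory Set Filter Topology
open scoped ENNReal NNReal UpperHalfPlane ComplexConjugate

/-- the chart -/
noncomputable def Ph (z : ℝ × ℝ) : ℍ := ⟨⟨z.2, exp z.1⟩, exp_pos z.1⟩

theorem Ph_re (z : ℝ × ℝ) : (Ph z).re = z.2 := rfl
theorem Ph_im (z : ℝ × ℝ) : (Ph z).im = exp z.1 := rfl

theorem Ph_cont : Continuous Ph := by
  rw [UpperHalfPlane.isEmbedding_coe.continuous_iff]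
  have : (UpperHalfPlane.coe ∘ Ph) = fun z => Complex.equivRealProdCLM.symm (z.2, exp z.1) := by
    funext θ
    apply Complex.ext <;> simp [Ph]
  rw [this]
  exact Complex.equivRealProdCLM.symm.continuous.comp (by fun_prop)

/-- the chart as a homeomorphism -/
noncomputable def PhH : ℝ × ℝ ≃ₜ ℍ where
  toFun := Ph
  invFun w := (Real.log w.im, w.re)
  left_inv z := by simp [Ph_re, Ph_im]
  right_inv w := by
    apply UpperHalfPlane.ext_re_im
    · rfl
    · rw [Ph_im]; exact Real.exp_log w.im_pos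
  continuous_toFun := Ph_cont
  continuous_invFun := by
    refine Continuous.prodMk ?_ UpperHalfPlane.continuous_re
    exact UpperHalfPlane.continuous_im.log fun w => w.im_pos.ne'

theorem PhH_apply (z : ℝ × ℝ) : PhH z = Ph z := rfl

theorem Ph_emb : MeasurableEmbedding Ph := PhH.measurableEmbedding

/-- the flat measure with its density -/
noncomputable def fm : Measure (ℝ × ℝ) :=
  (volume : Measure (ℝ × ℝ)).withDensity (fun z => ENNReal.ofReal (exp (-z.1)))

theorem hyp_measure : Measure.map Ph fm = (volume : Measure ℍ) := by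
  ext s hs
  have hsP : MeasurableSet (Ph ⁻¹' s) := Ph_cont.measurable hs
  rw [Measure.map_apply Ph_cont.measurable hs, UpperHalfPlane.volume_eq_lintegral]
  unfold fm
  rw [withDensity_apply _ hsP]
  -- the map `κ (a, b) = b + i a`
  have hκ : MeasurePreserving (fun p : ℝ × ℝ => Complex.measurableEquivRealProd.symm (p.2, p.1))
      volume volume :=
    (Complex.volume_preserving_equiv_real_prod.symm Complex.measurableEquivRealProd).comp
      (Measure.measurePreserving_swap (μ := (volume : Measure ℝ)) (ν := (volume : Measure ℝ)))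
  have hκe : MeasurableEmbedding (fun p : ℝ × ℝ => Complex.measurableEquivRealProd.symm (p.2, p.1)) :=
    Complex.measurableEquivRealProd.symm.measurableEmbedding.comp
      (MeasurableEquiv.prodComm (α := ℝ) (β := ℝ)).measurableEmbedding
  have hset : (UpperHalfPlane.coe '' s)
      = (fun p : ℝ × ℝ => Complex.measurableEquivRealProd.symm (p.2, p.1)) ''
        ((fun z : ℝ × ℝ => (exp z.1, z.2)) '' (Ph ⁻¹' s)) := by
    rw [image_image]
    ext w
    simp only [mem_image, mem_preimage]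
    constructor
    · rintro ⟨v, hv, rfl⟩
      refine ⟨PhH.symm v, ?_, ?_⟩
      · have : Ph (PhH.symm v) = v := PhH.apply_symm_apply v
        rwa [this]
      · have : Ph (PhH.symm v) = v := PhH.apply_symm_apply v
        conv_rhs => rw [← this]
        rfl
    · rintro ⟨z, hz, rfl⟩
      exact ⟨Ph z, hz, rfl⟩
  rw [hset, ← hκ.setLIntegral_comp_emb hκe]
  have hd : ∀ z ∈ Ph ⁻¹' s, HasFDerivWithinAt (fun z : ℝ × ℝ => (exp z.1, z.2))
      ((exp z.1 • ContinuousLinearMap.id ℝ ℝ).prodMap (ContinuousLinearMap.id ℝ ℝ))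
      (Ph ⁻¹' s) z := by
    intro z _
    have h1 : HasFDerivAt (fun z : ℝ × ℝ => exp z.1)
        ((exp z.1 • ContinuousLinearMap.id ℝ ℝ).comp (ContinuousLinearMap.fst ℝ ℝ ℝ)) z := by
      have := (Real.hasDerivAt_exp z.1).hasFDerivAt.comp z (hasFDerivAt_fst (𝕜 := ℝ) (p := z))
      refine this.congr_fderiv ?_
      ext <;> simp
    have h2 : HasFDerivAt (fun z : ℝ × ℝ => z.2)
        ((ContinuousLinearMap.id ℝ ℝ).comp (ContinuousLinearMap.snd ℝ ℝ ℝ)) z := hasFDerivAt_snd
    exact (h1.prodMk h2).hasFDerivWithinAt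
  have hinj : InjOn (fun z : ℝ × ℝ => (exp z.1, z.2)) (Ph ⁻¹' s) := by
    intro z _ w _ h
    simp only [Prod.mk.injEq, Real.exp_eq_exp] at h
    exact Prod.ext h.1 h.2
  rw [lintegral_image_eq_lintegral_abs_det_fderiv_mul volume hsP hd hinj]
  refine setLIntegral_congr_fun hsP fun z _ => ?_
  have hdet : ((exp z.1 • ContinuousLinearMap.id ℝ ℝ).prodMap (ContinuousLinearMap.id ℝ ℝ)).det
      = exp z.1 := by
    have h1 : (((exp z.1 • ContinuousLinearMap.id ℝ ℝ).prodMap (ContinuousLinearMap.id ℝ ℝ)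
        : ℝ × ℝ →L[ℝ] ℝ × ℝ) : ℝ × ℝ →ₗ[ℝ] ℝ × ℝ)
        = (exp z.1 • (LinearMap.id : ℝ →ₗ[ℝ] ℝ)).prodMap (LinearMap.id : ℝ →ₗ[ℝ] ℝ) := rfl
    rw [ContinuousLinearMap.det, h1, LinearMap.det_prodMap, LinearMap.det_id, mul_one,
      LinearMap.det_smul]
    simp
  rw [hdet]
  simp only [Complex.measurableEquivRealProd_symm_apply]
  have h2 : ((((1 / ‖exp z.1‖₊) ^ 2 : ℝ≥0)) : ℝ≥0∞) = ENNReal.ofReal ((1 / exp z.1) ^ 2) := by
    rw [ENNReal.ofReal]
    congr 1
    rw [Real.toNNReal_pow (by positivity)]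
    congr 1
    apply NNReal.eq
    rw [Real.coe_toNNReal _ (by positivity)]
    simp
  rw [h2, ← ENNReal.ofReal_mul (abs_nonneg _)]
  congr 1
  rw [abs_of_pos (exp_pos _), Real.exp_neg]
  field_simp

end Pool.Agent.T2H78.Hyp
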