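import Pool.Agent.T2H78.HypTrans

/-!
Transfer of the quadratic form from the hyperbolic plane to the flat picture.
-/

namespace Pool.Agent.T2H78.Hyp
open Real MeasureTheory Set Filter Topology
open scoped ENNReal NNReal UpperHalfPlane ComplexConjugate

/-- the density -/
noncomputable def dn (z : ℝ × ℝ) : ℝ≥0 := Real.toNNReal (exp (-z.1))

theorem dn_meas : Measurable dn := by unfold dn; fun_prop

theorem dn_coe (z : ℝ × ℝ) : ((dn z : ℝ≥0) : ℝ) = exp (-z.1) := Real.coe_toNNReal _ (exp_pos _).le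

theorem fm_eq : fm = (volume : Measure (ℝ × ℝ)).withDensity (fun z => (dn z : ℝ≥0∞)) := rfl

theorem hyp_integral {E : Type*} [NormedAddCommGroup E] [NormedSpace ℝ E] (g : ℍ → E) :
    ∫ w, g w = ∫ z : ℝ × ℝ, exp (-z.1) • g (Ph z) := by
  rw [← hyp_measure, Ph_emb.integral_map, fm_eq, integral_withDensity_eq_integral_smul dn_meas]
  refine integral_congr_ae (Eventually.of_forall fun z => ?_)
  simp only [NNReal.smul_def, dn_coe]

theorem hyp_integrable {E : Type*} [NormedAddCommGroup E] [NormedSpace ℝ E] (g : ℍ → E) :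
    Integrable g (volume : Measure ℍ) ↔ Integrable (fun z : ℝ × ℝ => exp (-z.1) • g (Ph z)) := by
  rw [← hyp_measure, Ph_emb.integrable_map_iff, fm_eq,
    integrable_withDensity_iff_integrable_smul dn_meas]
  refine integrable_congr (Eventually.of_forall fun z => ?_)
  simp only [NNReal.smul_def, dn_coe, Function.comp]

theorem hyp_aesm {E : Type*} [NormedAddCommGroup E] [NormedSpace ℝ E] (g : ℍ → E) :
    AEStronglyMeasurable g (volume : Measure ℍ) ↔
      AEStronglyMeasurable (fun z : ℝ × ℝ => exp (-z.1) • g (Ph z)) volume := by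
  rw [← hyp_measure, Ph_emb.aestronglyMeasurable_map_iff, fm_eq,
    aestronglyMeasurable_withDensity_iff dn_meas]
  have : (fun x => ((dn x : ℝ≥0) : ℝ) • (g ∘ Ph) x) = fun z : ℝ × ℝ => exp (-z.1) • g (Ph z) := by
    funext z
    simp only [dn_coe, Function.comp]
  rw [this]

/-- the flattened function -/
noncomputable def Fl' (f : ℍ → ℂ) (z : ℝ × ℝ) : ℂ := exp (-z.1 / 2) • f (Ph z)

theorem aesm_smul_iff {c : ℝ × ℝ → ℝ} (hc : Continuous c) (hc0 : ∀ z, c z ≠ 0) (g : ℝ × ℝ → ℂ) :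
    AEStronglyMeasurable g volume ↔ AEStronglyMeasurable (fun z => c z • g z) volume := by
  constructor
  · intro h
    exact (hc.aestronglyMeasurable).smul h
  · intro h
    have h2 := ((hc.inv₀ hc0).aestronglyMeasurable (μ := (volume : Measure (ℝ × ℝ)))).smul h
    refine h2.congr (Eventually.of_forall fun z => ?_)
    have h3 : (c z)⁻¹ • (c z • g z) = g z := by
      rw [smul_smul, inv_mul_cancel₀ (hc0 z), one_smul]
    exact h3

theorem memLp_Fl (f : ℍ → ℂ) :
    MemLp f 2 (volume : Measure ℍ) ↔ MemLp (Fl' f) 2 (volume : Measure (ℝ × ℝ)) := by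
  have h1 : AEStronglyMeasurable f (volume : Measure ℍ) ↔
      AEStronglyMeasurable (Fl' f) (volume : Measure (ℝ × ℝ)) := by
    rw [hyp_aesm]
    unfold Fl'
    rw [← aesm_smul_iff (c := fun z => exp (-z.1)) (by fun_prop) (fun z => (exp_pos _).ne'),
      ← aesm_smul_iff (c := fun z => exp (-z.1 / 2)) (by fun_prop) (fun z => (exp_pos _).ne')]
  have h2 : Integrable (fun x => ‖f x‖ ^ 2) (volume : Measure ℍ) ↔
      Integrable (fun x => ‖Fl' f x‖ ^ 2) (volume : Measure (ℝ × ℝ)) := by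
    rw [hyp_integrable]
    refine integrable_congr (Eventually.of_forall fun z => ?_)
    simp only [Fl', norm_smul, Real.norm_eq_abs, abs_of_pos (exp_pos _), mul_pow, smul_eq_mul]
    congr 1
    rw [← Real.exp_nat_mul]
    congr 1
    push_cast; ring
  constructor
  · intro h
    have h3 := h1.1 h.1
    rw [memLp_two_iff_integrable_sq_norm h3, ← h2, ← memLp_two_iff_integrable_sq_norm h.1]
    exact h
  · intro h
    have h3 := h1.2 h.1
    rw [memLp_two_iff_integrable_sq_norm h3, h2, ← memLp_two_iff_integrable_sq_norm h.1]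
    exact h

theorem norm_sq_Fl (f : ℍ → ℂ) : ∫ w, ‖f w‖ ^ 2 = ∫ z : ℝ × ℝ, ‖Fl' f z‖ ^ 2 := by
  rw [hyp_integral]
  refine integral_congr_ae (Eventually.of_forall fun z => ?_)
  simp only [Fl', norm_smul, Real.norm_eq_abs, abs_of_pos (exp_pos _), mul_pow, smul_eq_mul]
  congr 1
  rw [← Real.exp_nat_mul]
  congr 1
  push_cast; ring

theorem gam_Ph (z : ℝ × ℝ) (d θ : ℝ) : gam (Ph z) d θ = Ph (tau (Pt d θ) z) := by
  apply UpperHalfPlane.ext_re_im
  · rw [gam_re, Ph_re, Ph_re, Ph_im, tau_apply]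
    simp only [Pt]
    ring
  · rw [gam_im, Ph_im, Ph_im, tau_apply]
    simp only [Pt, Lf]
    rw [← sub_eq_add_neg, Real.exp_sub, Real.exp_log (Zf_pos d θ)]

/-- the kernel -/
noncomputable def Kf (F : ℝ × ℝ → ℂ) (d : ℝ) (θ : ℝ) (z : ℝ × ℝ) : ℂ :=
  exp ((Pt d θ).2 / 2) • (F (tau (Pt d θ) z) * conj (F z))

theorem Pt_cont' (d : ℝ) : Continuous (fun θ => Pt d θ) := by
  have := Pt_cont.comp (f := fun θ : ℝ => ((d, θ) : ℝ × ℝ)) (by fun_prop)
  exact this

theorem skew_mp (d : ℝ) (μ : Measure ℝ) [SFinite μ] :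
    MeasurePreserving (fun q : ℝ × (ℝ × ℝ) => (q.1, tau (Pt d q.1) q.2))
      (μ.prod volume) (μ.prod volume) := by
  refine (MeasurePreserving.id μ).skew_product (g := fun θ z => tau (Pt d θ) z) ?_
    (Eventually.of_forall fun θ => (tau_mp (Pt d θ)).map_eq)
  have hP := Pt_cont' d
  have : Continuous (fun q : ℝ × (ℝ × ℝ) => tau (Pt d q.1) q.2) := by
    simp only [tau_apply]
    have hP1 : Continuous (fun q : ℝ × (ℝ × ℝ) => Pt d q.1) := hP.comp continuous_fst
    have hs : Continuous (fun q : ℝ × (ℝ × ℝ) => q.2.1) := by fun_prop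
    have hx : Continuous (fun q : ℝ × (ℝ × ℝ) => q.2.2) := by fun_prop
    exact (hs.add (continuous_snd.comp hP1)).prodMk
      (hx.add ((Real.continuous_exp.comp hs).mul (continuous_fst.comp hP1)))
  exact this.measurable

theorem Kf_aesm {F : ℝ × ℝ → ℂ} (hF : AEStronglyMeasurable F volume) (d : ℝ) (μ : Measure ℝ)
    [SFinite μ] : AEStronglyMeasurable (Function.uncurry (Kf F d)) (μ.prod volume) := by
  have h1 : AEStronglyMeasurable (fun q : ℝ × (ℝ × ℝ) => F (tau (Pt d q.1) q.2)) (μ.prod volume) :=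
    (hF.comp_snd (μ := μ)).comp_quasiMeasurePreserving (skew_mp d μ).quasiMeasurePreserving
  have h2 : AEStronglyMeasurable (fun q : ℝ × (ℝ × ℝ) => F q.2) (μ.prod volume) := hF.comp_snd
  have h3 : AEStronglyMeasurable (fun q : ℝ × (ℝ × ℝ) => conj (F q.2)) (μ.prod volume) :=
    Complex.continuous_conj.comp_aestronglyMeasurable h2
  have h4 : Continuous (fun q : ℝ × (ℝ × ℝ) => exp ((Pt d q.1).2 / 2)) := by
    have hP1 : Continuous (fun q : ℝ × (ℝ × ℝ) => Pt d q.1) := (Pt_cont' d).comp continuous_fst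
    exact Real.continuous_exp.comp ((continuous_snd.comp hP1).div_const 2)
  exact h4.aestronglyMeasurable.smul (h1.mul h3)

theorem Kf_norm_le {F : ℝ × ℝ → ℂ} (hF : MemLp F 2 volume) (d θ : ℝ) :
    Integrable (Kf F d θ) ∧
    ∫ z, ‖Kf F d θ z‖ ≤ exp ((Pt d θ).2 / 2) * ∫ z, ‖F z‖ ^ 2 := by
  have hFt : MemLp (F ∘ tau (Pt d θ)) 2 volume := hF.comp_measurePreserving (tau_mp _)
  have hFc : MemLp (fun z => conj (F z)) 2 volume := hF.star
  have hi : Integrable (fun z => F (tau (Pt d θ) z) * conj (F z)) := hFt.integrable_mul hFc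
  have hK : Integrable (Kf F d θ) := hi.smul (exp ((Pt d θ).2 / 2))
  refine ⟨hK, ?_⟩
  have hs1 : Integrable (fun z => ‖F z‖ ^ 2) := (memLp_two_iff_integrable_sq_norm hF.1).1 hF
  have hs2 : Integrable (fun z => ‖F (tau (Pt d θ) z)‖ ^ 2) :=
    (memLp_two_iff_integrable_sq_norm hFt.1).1 hFt
  have he : ∫ z, ‖F (tau (Pt d θ) z)‖ ^ 2 = ∫ z, ‖F z‖ ^ 2 := by
    have := integral_map (μ := volume) (tau_mp (Pt d θ)).measurable.aemeasurable
      (f := fun z => ‖F z‖ ^ 2) (by rw [(tau_mp (Pt d θ)).map_eq]; exact hs1.1)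
    rw [(tau_mp (Pt d θ)).map_eq] at this
    exact this.symm
  calc ∫ z, ‖Kf F d θ z‖
      ≤ ∫ z, exp ((Pt d θ).2 / 2) * ((‖F (tau (Pt d θ) z)‖ ^ 2 + ‖F z‖ ^ 2) / 2) := by
        refine integral_mono hK.norm (((hs2.add hs1).div_const 2).const_mul _) fun z => ?_
        simp only [Kf, norm_smul, norm_mul, Real.norm_eq_abs, abs_of_pos (exp_pos _),
          RCLike.norm_conj]
        refine mul_le_mul_of_nonneg_left ?_ (exp_pos _).le
        nlinarith [sq_nonneg (‖F (tau (Pt d θ) z)‖ - ‖F z‖)]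
    _ = exp ((Pt d θ).2 / 2) * ∫ z, ‖F z‖ ^ 2 := by
        rw [MeasureTheory.integral_const_mul, MeasureTheory.integral_div,
          MeasureTheory.integral_add hs2 hs1, he]
        ring

theorem Kf_integrable {F : ℝ × ℝ → ℂ} (hF : MemLp F 2 volume) (d : ℝ) :
    Integrable (Function.uncurry (Kf F d)) ((volume.restrict (Ioc 0 (2 * π))).prod volume) := by
  have hm := Kf_aesm hF.1 d (volume.restrict (Ioc 0 (2 * π)))
  rw [integrable_prod_iff hm]
  refine ⟨Eventually.of_forall fun θ => (Kf_norm_le hF d θ).1, ?_⟩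
  have hc : Continuous (fun θ => exp ((Pt d θ).2 / 2) * ∫ z, ‖F z‖ ^ 2) := by
    exact (Real.continuous_exp.comp ((continuous_snd.comp (Pt_cont' d)).div_const 2)).mul
      continuous_const
  have hci : Integrable (fun θ => exp ((Pt d θ).2 / 2) * ∫ z, ‖F z‖ ^ 2)
      (volume.restrict (Ioc 0 (2 * π))) :=
    (hc.integrableOn_Icc (a := 0) (b := 2 * π)).mono_set Ioc_subset_Icc_self
  refine hci.mono' hm.norm.integral_prod_right' ?_
  refine Eventually.of_forall fun θ => ?_
  rw [Real.norm_eq_abs, abs_of_nonneg (integral_nonneg fun z => norm_nonneg _)]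
  exact (Kf_norm_le hF d θ).2

theorem int_Kf {F : ℝ × ℝ → ℂ} (hF : MemLp F 2 volume) (d θ : ℝ) :
    ∫ z, Kf F d θ z = exp ((Pt d θ).2 / 2) • inner ℂ (hF.toLp F) (V (Pt d θ) (hF.toLp F)) := by
  unfold Kf
  rw [MeasureTheory.integral_smul, L2.inner_def]
  congr 1
  have h1 := V_coe (Pt d θ) (hF.toLp F)
  have h2 : (hF.toLp F : ℝ × ℝ → ℂ) =ᵐ[volume] F := MemLp.coeFn_toLp _
  have h3 := (tau_mp (Pt d θ)).quasiMeasurePreserving.ae_eq_comp h2
  refine integral_congr_ae ?_
  filter_upwards [h1, h2, h3] with z e1 e2 e3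
  rw [e1, e2, e3]
  simp only [RCLike.inner_apply, Function.comp]

theorem inner_A_eq' {F : ℝ × ℝ → ℂ} (hF : MemLp F 2 volume) (d : ℝ) :
    inner ℂ (hF.toLp F) (A d (hF.toLp F))
      = (2 * π)⁻¹ • ∫ θ in (0 : ℝ)..2 * π, ∫ z, Kf F d θ z := by
  have e := ((innerSL ℂ (hF.toLp F)).restrictScalars ℝ).intervalIntegral_comp_comm (μ := volume)
    ((PsPt_cont' (hF.toLp F) d).intervalIntegrable 0 (2 * π))
  have e3 : ∀ x : HH, ((innerSL ℂ (hF.toLp F)).restrictScalars ℝ) x = inner ℂ (hF.toLp F) x :=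
    fun x => rfl
  simp_rw [e3] at e
  rw [A_apply, ← e3, map_smul, e3, ← e]
  congr 2
  ext1 θ
  rw [int_Kf hF]
  unfold Ps
  rw [inner_smul_right_eq_smul]

/-- transfer of the quadratic form -/
theorem transfer {d : ℝ} (hd : 0 < d) {f : ℍ → ℂ} (hf : MemLp (Fl' f) 2 volume) :
    ∫ w : ℍ, (⨍ u in Metric.sphere w d, f u ∂(μH[1])) * conj (f w)
      = inner ℂ (hf.toLp (Fl' f)) (A d (hf.toLp (Fl' f))) := by
  rw [inner_A_eq' hf, hyp_integral]
  have hsw := MeasureTheory.integral_integral_swap (Kf_integrable hf d)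
  rw [intervalIntegral.integral_of_le (by positivity), hsw, ← MeasureTheory.integral_smul]
  refine integral_congr_ae (Eventually.of_forall fun z => ?_)
  simp only
  rw [average_eq _ hd, intervalIntegral.integral_of_le (by positivity)]
  have h1 : ∀ p, f (Ph p) = exp (p.1 / 2) • Fl' f p := by
    intro p
    unfold Fl'
    rw [smul_smul, ← Real.exp_add]
    have : p.1 / 2 + -p.1 / 2 = 0 := by ring
    rw [this, Real.exp_zero, one_smul]
  have h2 : ∀ θ, Kf (Fl' f) d θ z
      = (exp (-z.1) • conj (f (Ph z))) * f (gam (Ph z) d θ) := by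
    intro θ
    rw [gam_Ph, h1, h1]
    unfold Kf
    rw [tau_apply]
    simp only [Complex.real_smul, map_mul, Complex.conj_ofReal]
    have e1 : ((exp ((Pt d θ).2 / 2) : ℝ) : ℂ)
        = (exp (-z.1) : ℝ) * (exp (z.1 / 2) : ℝ) * (exp ((z.1 + (Pt d θ).2) / 2) : ℝ) := by
      rw [← Complex.ofReal_mul, ← Complex.ofReal_mul, ← Real.exp_add, ← Real.exp_add]
      congr 2
      ring
    rw [e1]
    ring
  simp_rw [h2]
  rw [MeasureTheory.integral_const_mul]
  simp only [Complex.real_smul]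
  ring

end Pool.Agent.T2H78.Hyp
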